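import Mathlib

/-! Abel's theorem for Dirichlet series in a cone. -/

set_option autoImplicit false

namespace Pool.Agent.L5helper14.Edge

open Complex MeasureTheory Finset Filter Topology Set

/-- the open cone of opening `κ` -/
def cone (κ : ℝ) : Set ℂ := {w : ℂ | 0 < w.re ∧ |w.im| ≤ κ * w.re}

/-- **Abel's theorem** for Dirichlet series, approach in a cone -/
theorem abel {f : ℕ → ℂ} {s : ℂ} (hs : Tendsto (fun n : ℕ => ∑ k ∈ Finset.Icc 1 n, f k) atTop (𝓝 s))
    (hsum : ∀ w : ℂ, 0 < w.re → LSeriesSummable f w) {κ : ℝ} (hκ : 0 ≤ κ) :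
    Tendsto (LSeries f) (𝓝[cone κ] 0) (𝓝 s) := by
  set S : ℕ → ℂ := fun n => ∑ k ∈ Finset.Icc 1 n, f k with hS
  have hbdd : ∃ M : ℝ, 0 ≤ M ∧ ∀ n, ‖S n - s‖ ≤ M := by
    have h1 := Metric.isBounded_range_of_tendsto S hs
    obtain ⟨R, hR⟩ := h1.subset_closedBall s
    refine ⟨max R 0, le_max_right _ _, fun n => ?_⟩
    have h2 := hR ⟨n, rfl⟩
    rw [Metric.mem_closedBall, dist_eq_norm] at h2
    exact h2.trans (le_max_left _ _)
  obtain ⟨M, hM0, hM⟩ := hbdd
  have hO : S =O[atTop] fun n : ℕ => (n : ℝ) ^ (0 : ℝ) := by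
    simp only [Real.rpow_zero]
    refine Asymptotics.IsBigO.of_bound (M + ‖s‖) (Eventually.of_forall fun n => ?_)
    rw [norm_one, mul_one]
    calc ‖S n‖ = ‖(S n - s) + s‖ := by rw [sub_add_cancel]
      _ ≤ ‖S n - s‖ + ‖s‖ := norm_add_le _ _
      _ ≤ M + ‖s‖ := by linarith [hM n]
  -- the key estimate
  have key : ∀ ε : ℝ, 0 < ε → ∀ n0 : ℕ, (∀ n, n0 ≤ n → ‖S n - s‖ ≤ ε) →
      ∀ w ∈ cone κ, ‖LSeries f w - s‖ ≤ (1 + κ) * ε + ‖w‖ * (M * n0) := by
    intro ε hε n0 hn0 w hw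
    obtain ⟨hw1, hw2⟩ := hw
    have hw0 : w ≠ 0 := by
      rintro rfl
      simp at hw1
    have h1 := LSeries_eq_mul_integral f le_rfl (s := w) hw1 (hsum w hw1) hO
    have hre : (-(w + 1)).re < -1 := by simp; exact hw1
    have h2 : s = w * ∫ t in Set.Ioi (1 : ℝ), s * (t : ℂ) ^ (-(w + 1)) := by
      rw [MeasureTheory.integral_const_mul, integral_Ioi_cpow_of_lt hre one_pos]
      have : -(w + 1) + 1 = -w := by ring
      rw [this]
      simp
      field_simp
    have hmeas : Measurable fun t : ℝ => S ⌊t⌋₊ :=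
      (measurable_from_nat (f := S)).comp (Nat.measurable_floor (R := ℝ))
    have hcint : IntegrableOn (fun t : ℝ => (t : ℂ) ^ (-(w + 1))) (Set.Ioi 1) :=
      integrableOn_Ioi_cpow_of_lt hre one_pos
    have hrint : IntegrableOn (fun t : ℝ => t ^ (-(w.re + 1))) (Set.Ioi (1 : ℝ)) :=
      integrableOn_Ioi_rpow_of_lt (by linarith) one_pos
    have hi1 : IntegrableOn (fun t : ℝ => S ⌊t⌋₊ * (t : ℂ) ^ (-(w + 1))) (Set.Ioi 1) := by
      refine Integrable.bdd_mul (c := M + ‖s‖) hcint hmeas.aestronglyMeasurable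
        (Eventually.of_forall fun t => ?_)
      calc ‖S ⌊t⌋₊‖ = ‖(S ⌊t⌋₊ - s) + s‖ := by rw [sub_add_cancel]
        _ ≤ ‖S ⌊t⌋₊ - s‖ + ‖s‖ := norm_add_le _ _
        _ ≤ M + ‖s‖ := by linarith [hM ⌊t⌋₊]
    have hi2 : IntegrableOn (fun t : ℝ => s * (t : ℂ) ^ (-(w + 1))) (Set.Ioi 1) :=
      hcint.const_mul s
    have h3 : LSeries f w - s =
        w * ∫ t in Set.Ioi (1 : ℝ), (S ⌊t⌋₊ - s) * (t : ℂ) ^ (-(w + 1)) := by
      rw [h1]
      conv_lhs => rw [h2]
      rw [← mul_sub, ← integral_sub hi1 hi2]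
      congr 1
      refine integral_congr_ae (Eventually.of_forall fun t => ?_)
      simp only
      ring
    have h4 : ‖∫ t in Set.Ioi (1 : ℝ), (S ⌊t⌋₊ - s) * (t : ℂ) ^ (-(w + 1))‖ ≤
        ∫ t in Set.Ioi (1 : ℝ), (ε * t ^ (-(w.re + 1)) +
          (Set.Ioc (1 : ℝ) (1 + n0)).indicator (fun _ => M) t) := by
      refine norm_integral_le_of_norm_le ?_ ?_
      · refine (hrint.const_mul ε).add ?_
        refine IntegrableOn.integrable_indicator ?_ measurableSet_Ioc |>.integrableOn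
        exact integrableOn_const (by simp)
      · filter_upwards [ae_restrict_mem measurableSet_Ioi] with t ht
        have ht1 : (1 : ℝ) < t := ht
        have ht0 : (0 : ℝ) < t := by linarith
        rw [norm_mul, Complex.norm_cpow_eq_rpow_re_of_pos ht0]
        have e : (-(w + 1)).re = -(w.re + 1) := by simp
        rw [e]
        have hp : 0 ≤ t ^ (-(w.re + 1)) := by positivity
        by_cases htn : t ≤ 1 + n0
        · have hmem : t ∈ Set.Ioc (1 : ℝ) (1 + n0) := ⟨ht1, htn⟩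
          rw [Set.indicator_of_mem hmem]
          have hp1 : t ^ (-(w.re + 1)) ≤ 1 := Real.rpow_le_one_of_one_le_of_nonpos ht1.le (by linarith)
          have := hM ⌊t⌋₊
          have h5 : ‖S ⌊t⌋₊ - s‖ * t ^ (-(w.re + 1)) ≤ M * 1 :=
            mul_le_mul this hp1 hp hM0
          nlinarith [mul_nonneg hε.le hp]
        · rw [Set.indicator_of_notMem (fun h => htn h.2), add_zero]
          push Not at htn
          refine mul_le_mul_of_nonneg_right (hn0 _ ?_) hp
          exact Nat.le_floor (by linarith)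
    have h5 : ∫ t in Set.Ioi (1 : ℝ), (ε * t ^ (-(w.re + 1)) +
          (Set.Ioc (1 : ℝ) (1 + n0)).indicator (fun _ => M) t) = ε / w.re + M * n0 := by
      rw [integral_add (hrint.const_mul ε), MeasureTheory.integral_const_mul,
        integral_Ioi_rpow_of_lt (by linarith) one_pos, setIntegral_indicator measurableSet_Ioc,
        setIntegral_const]
      · have e1 : Set.Ioi (1 : ℝ) ∩ Set.Ioc (1 : ℝ) (1 + (n0 : ℝ)) =
            Set.Ioc (1 : ℝ) (1 + (n0 : ℝ)) := by
          ext t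
          simp only [Set.mem_inter_iff, Set.mem_Ioi, Set.mem_Ioc]
          tauto
        rw [e1]
        simp only [Real.volume_real_Ioc, smul_eq_mul, Real.one_rpow]
        have e2 : max (1 + (n0 : ℝ) - 1) 0 = n0 := by
          rw [add_sub_cancel_left, max_eq_left (Nat.cast_nonneg _)]
        rw [e2]
        have e3 : -(w.re + 1) + 1 = -w.re := by ring
        rw [e3]
        field_simp
      · refine IntegrableOn.integrable_indicator ?_ measurableSet_Ioc |>.integrableOn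
        exact integrableOn_const (by simp)
    rw [h5] at h4
    have hnw : ‖w‖ ≤ (1 + κ) * w.re := by
      have := Complex.norm_le_abs_re_add_abs_im w
      rw [abs_of_pos hw1] at this
      linarith
    rw [h3, norm_mul]
    calc ‖w‖ * ‖∫ t in Set.Ioi (1 : ℝ), (S ⌊t⌋₊ - s) * (t : ℂ) ^ (-(w + 1))‖
        ≤ ‖w‖ * (ε / w.re + M * n0) := mul_le_mul_of_nonneg_left h4 (norm_nonneg _)
      _ = ‖w‖ * (ε / w.re) + ‖w‖ * (M * n0) := by ring
      _ ≤ ((1 + κ) * w.re) * (ε / w.re) + ‖w‖ * (M * n0) := by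
          have : 0 ≤ ε / w.re := by positivity
          linarith [mul_le_mul_of_nonneg_right hnw this]
      _ = _ := by field_simp
  rw [Metric.tendsto_nhds]
  intro ε hε
  have hε' : 0 < ε / (2 * (1 + κ)) := by positivity
  obtain ⟨n0, hn0⟩ := eventually_atTop.1 ((Metric.tendsto_nhds.1 hs) _ hε')
  have hn0' : ∀ n, n0 ≤ n → ‖S n - s‖ ≤ ε / (2 * (1 + κ)) := by
    intro n hn
    have := hn0 n hn
    rw [dist_eq_norm] at this
    exact this.le
  have h6 : ∀ᶠ w : ℂ in 𝓝[cone κ] 0, ‖w‖ * (M * n0) < ε / 2 := by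
    have h7 : Tendsto (fun w : ℂ => ‖w‖ * (M * n0)) (𝓝 0) (𝓝 (‖(0 : ℂ)‖ * (M * n0))) :=
      (continuous_norm.tendsto 0).mul_const _
    rw [norm_zero, zero_mul] at h7
    exact (h7.mono_left nhdsWithin_le_nhds).eventually_lt_const (by linarith)
  filter_upwards [h6, self_mem_nhdsWithin] with w hw hwc
  rw [dist_eq_norm]
  have h8 := key _ hε' n0 hn0' w hwc
  have h9 : (1 + κ) * (ε / (2 * (1 + κ))) = ε / 2 := by field_simp
  rw [h9] at h8
  linarith

end Pool.Agent.L5helper14.Edge
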