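import Pool.Agent.L5helper14.Edge.Uniq

/-! The uniqueness theorem for analytic functions in a half-plane with boundary value zero on a set of
positive measure. -/

set_option autoImplicit false

namespace Pool.Agent.L5helper14.Edge

open Complex MeasureTheory Filter Topology Set
open scoped ENNReal Real
open Pool.Agent.Y757.LS (ker ker_pos ker_continuous ker_integrable ker_integrable_of_le integral_ker strip_poisson)

theorem posLog_div_le {x δ : ℝ} (hδ : 0 < δ) (hδ1 : δ < 1) :
    Real.posLog (x / δ) ≤ Real.posLog x + Real.log (1 / δ) := by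
  have h1 : x / δ = x * (1 / δ) := by ring
  have h2 : (1:ℝ) ≤ 1 / δ := by
    rw [le_div_iff₀ hδ]; linarith
  rw [h1]
  refine (Real.posLog_mul (x := x) (y := 1 / δ)).trans ?_
  rw [Real.posLog_eq_log (x := 1 / δ) (by rwa [abs_of_pos (by positivity)])]

theorem strip_bound {G : ℂ → ℂ} (hG : ∀ w : ℂ, 0 < w.re → AnalyticAt ℂ G w) {w0 : ℂ} (hw0 : 0 < w0.re)
    {ε δ C A A2 : ℝ} (hε : 0 < ε) (hδ : 0 < δ) (hδ1 : δ < 1)
    (hA : ∀ w : ℂ, ε ≤ w.re → Real.posLog ‖G w‖ ≤ A)
    (hA2 : ∀ w : ℂ, w0.re ≤ w.re → Real.posLog ‖G w‖ ≤ A2)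
    {U : ℝ → ℝ} (hU : Continuous U) (hU0 : ∀ t, 0 ≤ U t)
    (hUG : ∀ t : ℝ, Real.posLog ‖G (ε + t * I)‖ ≤ U t)
    (hUC : ∀ T : ℝ, ∫ t in T..(T + 1), U t ≤ C) (hne : G (w0 + ε) ≠ 0) :
    Real.log ‖G (w0 + ε)‖ + Real.log (1 / δ) ≤
      (C * kc w0.re + Real.log (1 / δ) * (1 - ∫ y in {y : ℝ | ‖G (ε + (w0.im + y : ℝ) * I)‖ ≤ δ}, ker w0.re y) +
        (A2 + Real.log (1 / δ))) / 2 := by
  have hL : 0 ≤ Real.log (1 / δ) := Real.log_nonneg (by rw [le_div_iff₀ hδ]; linarith)
  set L := Real.log (1 / δ) with hLdef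
  set h := w0.re with hh
  have hA0 : 0 ≤ A := le_trans Real.posLog_nonneg (hA ε (by simp))
  set F : ℂ → ℂ := fun w => G w / δ with hF
  have hnF : ∀ w, ‖F w‖ = ‖G w‖ / δ := by
    intro w
    simp only [hF, norm_div, Complex.norm_real, Real.norm_of_nonneg hδ.le]
  have hFb : ∀ w, Real.posLog ‖F w‖ ≤ Real.posLog ‖G w‖ + L := by
    intro w
    rw [hnF]
    exact posLog_div_le hδ hδ1
  set z₀ : ℂ := w0 + ε with hz₀
  have hz₀re : z₀.re = h + ε := by simp [hz₀, hh]
  have hz₀im : z₀.im = w0.im := by simp [hz₀]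
  have hin : ∀ z : ℂ, |z.re - z₀.re| ≤ h → ε ≤ z.re := by
    intro z hz
    rw [hz₀re] at hz
    have := (abs_le.1 hz).1
    linarith
  have key := strip_poisson (F := F) (z₀ := z₀) (h := h) (A := A + L) (B := 0) hw0 le_rfl
    (fun z hz => (hG z (lt_of_lt_of_le hε (hin z hz))).div_const)
    (fun z hz => by
      rw [zero_mul, add_zero]
      exact (hFb z).trans (by linarith [hA z (hin z hz)]))
  have hlhs : Real.log ‖G (w0 + ε)‖ + L ≤ Real.posLog ‖F z₀‖ := by
    rw [hnF]
    have e : Real.log ‖G (w0 + ε)‖ + L = Real.log (‖G z₀‖ / δ) := by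
      rw [hLdef, div_eq_mul_one_div ‖G z₀‖ δ, Real.log_mul (norm_ne_zero_iff.2 hne) (by positivity)]
    rw [e, Real.posLog]
    exact le_max_right _ _
  refine hlhs.trans (key.trans ?_)
  -- the two boundary points
  have eleft : ∀ y : ℝ, z₀ - h + y * I = ε + (w0.im + y : ℝ) * I := by
    intro y
    apply Complex.ext
    · simp [hz₀, hh]
    · simp [hz₀]
  set E : Set ℝ := {y : ℝ | ‖G (ε + (w0.im + y : ℝ) * I)‖ ≤ δ} with hE
  have hcG : Continuous fun y : ℝ => G (ε + (w0.im + y : ℝ) * I) := by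
    rw [continuous_iff_continuousAt]
    intro y
    have h1 : AnalyticAt ℂ G (ε + (w0.im + y : ℝ) * I) := hG _ (by simp [hε])
    exact ContinuousAt.comp (f := fun y : ℝ => (ε + (w0.im + y : ℝ) * I : ℂ)) h1.continuousAt (by fun_prop)
  have hEm : MeasurableSet E := (isClosed_le hcG.norm continuous_const).measurableSet
  have hl : ∀ y : ℝ, Real.posLog ‖F (z₀ - h + y * I)‖ ≤ U (w0.im + y) + Eᶜ.indicator (fun _ => L) y := by
    intro y
    rw [eleft y]
    by_cases hy : y ∈ E
    · rw [indicator_of_notMem (by simpa using hy), add_zero]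
      have h1 : Real.posLog ‖F (ε + (w0.im + y : ℝ) * I)‖ = 0 := by
        rw [Real.posLog_eq_zero_iff, abs_of_nonneg (norm_nonneg _), hnF, div_le_one hδ]
        exact hy
      rw [h1]
      exact hU0 _
    · rw [indicator_of_mem (by simpa using hy)]
      exact (hFb _).trans (by gcongr; exact hUG _)
  have hr : ∀ y : ℝ, Real.posLog ‖F (z₀ + h + y * I)‖ ≤ A2 + L := by
    intro y
    refine (hFb _).trans ?_
    gcongr
    apply hA2
    simp [hz₀, hh]
    linarith
  obtain ⟨hi1, hi2⟩ := window_ker hw0 (g := fun y => U (w0.im + y)) (C := C) (by fun_prop) (fun t => hU0 _)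
    (fun T => by
      have := hUC (w0.im + T)
      rw [intervalIntegral.integral_comp_add_left (fun t => U t)]
      rwa [← add_assoc])
  have hkc := ker_continuous hw0
  have hki := ker_integrable hw0
  have hkE : Integrable (fun y => Eᶜ.indicator (fun _ => L) y * ker h y) := by
    have h1 : (fun y => Eᶜ.indicator (fun _ => L) y * ker h y) = Eᶜ.indicator (fun y => L * ker h y) := by
      funext y
      by_cases hy : y ∈ Eᶜ
      · rw [indicator_of_mem hy, indicator_of_mem hy]
      · rw [indicator_of_notMem hy, indicator_of_notMem hy, zero_mul]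
    rw [h1]
    exact (hki.const_mul L).indicator hEm.compl
  have hkEv : ∫ y, Eᶜ.indicator (fun _ => L) y * ker h y = L * (1 - ∫ y in E, ker h y) := by
    have h1 : (fun y => Eᶜ.indicator (fun _ => L) y * ker h y) = Eᶜ.indicator (fun y => L * ker h y) := by
      funext y
      by_cases hy : y ∈ Eᶜ
      · rw [indicator_of_mem hy, indicator_of_mem hy]
      · rw [indicator_of_notMem hy, indicator_of_notMem hy, zero_mul]
    rw [h1, integral_indicator hEm.compl, integral_const_mul]
    congr 1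
    have h2 := integral_add_compl hEm hki
    rw [integral_ker hw0] at h2
    linarith
  have hbound : Integrable (fun y => (U (w0.im + y) * ker h y + Eᶜ.indicator (fun _ => L) y * ker h y +
      (A2 + L) * ker h y) / 2) := ((hi1.add hkE).add (hki.const_mul _)).div_const 2
  calc ∫ y : ℝ, (Real.posLog ‖F (z₀ - h + y * I)‖ + Real.posLog ‖F (z₀ + h + y * I)‖) / 2 * ker h y
      ≤ ∫ y : ℝ, (U (w0.im + y) * ker h y + Eᶜ.indicator (fun _ => L) y * ker h y +
      (A2 + L) * ker h y) / 2 := by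
        refine integral_mono_of_nonneg (Eventually.of_forall fun y => ?_) hbound
          (Eventually.of_forall fun y => ?_)
        · have := ker_pos hw0 y
          have h1 := Real.posLog_nonneg (x := ‖F (z₀ - h + y * I)‖)
          have h2 := Real.posLog_nonneg (x := ‖F (z₀ + h + y * I)‖)
          simp only [Pi.zero_apply]
          positivity
        · have := ker_pos hw0 y
          have h1 := hl y
          have h2 := hr y
          calc (Real.posLog ‖F (z₀ - h + y * I)‖ + Real.posLog ‖F (z₀ + h + y * I)‖) / 2 * ker h y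
              ≤ ((U (w0.im + y) + Eᶜ.indicator (fun _ => L) y) + (A2 + L)) / 2 * ker h y := by gcongr
            _ = _ := by ring
    _ = (∫ y : ℝ, (U (w0.im + y) * ker h y + Eᶜ.indicator (fun _ => L) y * ker h y +
      (A2 + L) * ker h y)) / 2 := integral_div _ _
    _ = (∫ y : ℝ, U (w0.im + y) * ker h y) / 2 + (L * (1 - ∫ y in E, ker h y)) / 2 + (A2 + L) / 2 := by
        have i12 : Integrable (fun y => U (w0.im + y) * ker h y + Eᶜ.indicator (fun _ => L) y * ker h y) :=
          hi1.add hkE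
        rw [integral_add i12 (hki.const_mul _), integral_add hi1 hkE, hkEv, integral_const_mul,
          integral_ker hw0]
        ring
    _ ≤ _ := by linarith

/-- **uniqueness theorem** -/
theorem uniq {G : ℂ → ℂ} (hG : ∀ w : ℂ, 0 < w.re → AnalyticAt ℂ G w)
    (hA : ∀ ε : ℝ, 0 < ε → ∃ A, ∀ w : ℂ, ε ≤ w.re → Real.posLog ‖G w‖ ≤ A)
    {C : ℝ} (hU : ∀ σ : ℝ, 0 < σ → ∃ U : ℝ → ℝ, Continuous U ∧ (∀ t, 0 ≤ U t) ∧
      (∀ t : ℝ, Real.posLog ‖G (σ + t * I)‖ ≤ U t) ∧ ∀ T : ℝ, ∫ t in T..(T + 1), U t ≤ C)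
    (hS : volume {t : ℝ | Tendsto (fun n : ℕ => G (((1 / ((n : ℝ) + 1) : ℝ) : ℂ) + t * I)) atTop (𝓝 0)} ≠ 0) :
    ∀ w : ℂ, 0 < w.re → G w = 0 := by
  intro w0 hw0
  by_contra hne
  obtain ⟨A2, hA2⟩ := hA w0.re hw0
  set h := w0.re with hh
  set e : ℕ → ℝ := fun n => 1 / ((n : ℝ) + 1) with he
  have hepos : ∀ n, 0 < e n := fun n => by simp only [he]; positivity
  set S : Set ℝ := {t : ℝ | Tendsto (fun n : ℕ => G ((e n : ℂ) + t * I)) atTop (𝓝 0)} with hSdef
  -- the measure
  set μ : Measure ℝ := volume.withDensity (fun y => ENNReal.ofReal (ker h y)) with hμ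
  have hkm : Measurable fun y => ENNReal.ofReal (ker h y) :=
    ((ker_continuous hw0).measurable).ennreal_ofReal
  set S' : Set ℝ := (fun y => w0.im + y) ⁻¹' S with hS'
  have hvol : volume S' ≠ 0 := by
    rw [hS', measure_preimage_add]
    exact hS
  have hac : (volume : Measure ℝ) ≪ μ := withDensity_absolutelyContinuous' hkm.aemeasurable
    (Eventually.of_forall fun y => by
      rw [Ne, ENNReal.ofReal_eq_zero, not_le]
      exact ker_pos hw0 y)
  have hβ : μ S' ≠ 0 := fun h0 => hvol (hac h0)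
  have hμuniv : μ univ = 1 := by
    rw [hμ, withDensity_apply _ MeasurableSet.univ, Measure.restrict_univ,
      ← ofReal_integral_eq_lintegral_ofReal (ker_integrable hw0)
        (Eventually.of_forall fun y => (ker_pos hw0 y).le), integral_ker hw0, ENNReal.ofReal_one]
  have hβfin : μ S' ≠ ⊤ := ne_top_of_le_ne_top (by rw [hμuniv]; exact ENNReal.one_ne_top)
    (measure_mono (subset_univ S'))
  set b : ℝ := (μ S' / 2).toReal with hb
  have hb2 : μ S' / 2 ≠ ⊤ := (ENNReal.div_lt_top hβfin (by norm_num)).ne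
  have hbpos : 0 < b := ENNReal.toReal_pos (by
    rw [Ne, ENNReal.div_eq_zero_iff]
    push Not
    exact ⟨hβ, by norm_num⟩) hb2
  -- the main inequality
  have main : ∀ δ : ℝ, 0 < δ → δ < 1 → Real.log ‖G w0‖ ≤
      (C * kc h + A2) / 2 - Real.log (1 / δ) * b / 2 := by
    intro δ hδ hδ1
    set E : ℕ → Set ℝ := fun n => {y : ℝ | ‖G (e n + (w0.im + y : ℝ) * I)‖ ≤ δ} with hE
    have hEm : ∀ n, MeasurableSet (E n) := by
      intro n
      have hcG : Continuous fun y : ℝ => G (e n + (w0.im + y : ℝ) * I) := by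
        rw [continuous_iff_continuousAt]
        intro y
        have h1 : AnalyticAt ℂ G (e n + (w0.im + y : ℝ) * I) := hG _ (by simp [hepos n])
        exact ContinuousAt.comp (f := fun y : ℝ => (e n + (w0.im + y : ℝ) * I : ℂ)) h1.continuousAt
          (by fun_prop)
      exact (isClosed_le hcG.norm continuous_const).measurableSet
    set V : ℕ → Set ℝ := fun N => ⋂ n ∈ Ici N, E n with hV
    have hVmono : Monotone V := by
      intro a c hac'
      exact biInter_subset_biInter_left (Ici_subset_Ici.2 hac')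
    have hsub : S' ⊆ ⋃ N, V N := by
      intro y hy
      have h1 : Tendsto (fun n : ℕ => G ((e n : ℂ) + (w0.im + y : ℝ) * I)) atTop (𝓝 0) := hy
      have h2 := (h1.norm).eventually_le_const (show ‖(0:ℂ)‖ < δ by simpa using hδ)
      obtain ⟨N, hN⟩ := eventually_atTop.1 h2
      exact mem_iUnion.2 ⟨N, mem_iInter₂.2 fun n hn => hN n hn⟩
    have h3 : μ S' / 2 < μ (⋃ N, V N) :=
      lt_of_lt_of_le (ENNReal.half_lt_self hβ hβfin) (measure_mono hsub)
    rw [hVmono.measure_iUnion, lt_iSup_iff] at h3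
    obtain ⟨N, hN⟩ := h3
    have hint : ∀ n, N ≤ n → b ≤ ∫ y in E n, ker h y := by
      intro n hn
      have h4 : μ S' / 2 ≤ μ (E n) := hN.le.trans (measure_mono (biInter_subset_of_mem (show n ∈ Ici N from hn)))
      have h5 : μ (E n) = ENNReal.ofReal (∫ y in E n, ker h y) := by
        rw [hμ, withDensity_apply _ (hEm n),
          ← ofReal_integral_eq_lintegral_ofReal (ker_integrable hw0).integrableOn
            (Eventually.of_forall fun y => (ker_pos hw0 y).le)]
      rw [h5] at h4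
      have h6 := ENNReal.toReal_mono ENNReal.ofReal_ne_top h4
      rwa [ENNReal.toReal_ofReal (integral_nonneg fun y => (ker_pos hw0 y).le)] at h6
    have hL : 0 ≤ Real.log (1 / δ) := Real.log_nonneg (by rw [le_div_iff₀ hδ]; linarith)
    have hcont : Tendsto (fun n => G (w0 + e n)) atTop (𝓝 (G w0)) := by
      have h7 : Tendsto (fun n => w0 + (e n : ℂ)) atTop (𝓝 (w0 + (0:ℝ))) := by
        have := tendsto_one_div_add_atTop_nhds_zero_nat (𝕜 := ℝ)
        exact tendsto_const_nhds.add ((Complex.continuous_ofReal.tendsto 0).comp this)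
      rw [Complex.ofReal_zero, add_zero] at h7
      exact (hG w0 hw0).continuousAt.tendsto.comp h7
    have hlog : Tendsto (fun n => Real.log ‖G (w0 + e n)‖) atTop (𝓝 (Real.log ‖G w0‖)) :=
      (Real.continuousAt_log (norm_ne_zero_iff.2 hne)).tendsto.comp hcont.norm
    refine le_of_tendsto hlog ?_
    filter_upwards [eventually_ge_atTop N, hcont.eventually_ne hne] with n hn hn2
    obtain ⟨A, hA'⟩ := hA (e n) (hepos n)
    obtain ⟨U, u1, u2, u3, u4⟩ := hU (e n) (hepos n)
    have h8 := strip_bound hG hw0 (hepos n) hδ hδ1 hA' hA2 u1 u2 u3 u4 hn2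
    have h9 := hint n hn
    have h10 : Real.log (1 / δ) * b ≤ Real.log (1 / δ) *
        ∫ y in {y : ℝ | ‖G (e n + (w0.im + y : ℝ) * I)‖ ≤ δ}, ker w0.re y :=
      mul_le_mul_of_nonneg_left h9 hL
    rw [← hh] at h8 h10
    nlinarith
  -- contradiction
  set M : ℝ := max 1 (2 * ((C * kc h + A2) / 2 - Real.log ‖G w0‖ + 1) / b) with hM
  have hM1 : 1 ≤ M := le_max_left _ _
  have hM2 : 2 * ((C * kc h + A2) / 2 - Real.log ‖G w0‖ + 1) / b ≤ M := le_max_right _ _
  have h11 := main (Real.exp (-M)) (Real.exp_pos _) (by rw [Real.exp_lt_one_iff]; linarith)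
  rw [one_div, ← Real.exp_neg, neg_neg, Real.log_exp] at h11
  rw [div_le_iff₀ hbpos] at hM2
  linarith

end Pool.Agent.L5helper14.Edge
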