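import Pool.Agent.L5helper14.Edge.Dir5
import Pool.Agent.L5helper14.Edge.Uniq2

/-! Algebraic relations between boundary values of Euler products. -/

set_option autoImplicit false

namespace Pool.Agent.L5helper14.Edge.D

open Complex MeasureTheory Filter Topology Finset
open scoped Real

/-- the bound for the boundary means -/
def Bd (Lf : ℂ → ℂ) : Prop :=
  ∃ C : ℝ, ∀ σ : ℝ, 3 / 2 < σ → ∃ f : ℝ → ℝ, Continuous f ∧ (∀ t, 0 ≤ f t) ∧
      (∀ t : ℝ, ‖Lf (σ + t * I)‖ ^ (1 / 4 : ℝ) ≤ f t) ∧ ∀ T : ℝ, ∫ t in T..(T + 1), f t ≤ C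

theorem Dat.analytic {Lf : ℂ → ℂ} {Lp : ℕ → ℂ → ℂ} (h : Dat Lf Lp) {s : ℂ} (hs : 3 / 2 < s.re) :
    AnalyticAt ℂ Lf s := by
  obtain ⟨f, _, hf, _⟩ := h
  have h1 : LSeries.abscissaOfAbsConv (fun n => f n) < s.re := by
    have h2 : LSeriesSummable (fun n => f n) (((3 / 2 + s.re) / 2 : ℝ) : ℂ) :=
      (hf _ (by rw [Complex.ofReal_re]; linarith)).LSeriesSummable
    refine lt_of_le_of_lt h2.abscissaOfAbsConv_le ?_
    rw [Complex.ofReal_re]
    exact_mod_cast (by linarith : (3 / 2 + s.re) / 2 < s.re)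
  have h3 := LSeries_analyticOnNhd (fun n => f n) s h1
  refine h3.congr ?_
  have h4 : ∀ᶠ z : ℂ in 𝓝 s, 3 / 2 < z.re :=
    (Complex.continuous_re.tendsto s).eventually_const_lt hs
  filter_upwards [h4] with z hz
  exact (hf z hz).LSeries_eq

theorem Dat.bounded {Lf : ℂ → ℂ} {Lp : ℕ → ℂ → ℂ} (h : Dat Lf Lp) {σ : ℝ} (hσ : 3 / 2 < σ) :
    ∃ A : ℝ, ∀ s : ℂ, σ ≤ s.re → ‖Lf s‖ ≤ A := by
  obtain ⟨f, _, hf, _⟩ := h
  have h1 : LSeriesSummable (fun n => f n) (σ : ℂ) := (hf _ (by simpa using hσ)).LSeriesSummable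
  refine ⟨∑' n, ‖LSeries.term (fun n => f n) (σ : ℂ) n‖, fun s hs => ?_⟩
  have h2 := hf s (by linarith)
  rw [← h2.LSeries_eq, LSeries]
  refine (norm_tsum_le_tsum_norm h2.LSeriesSummable.norm).trans ?_
  refine h2.LSeriesSummable.norm.tsum_le_tsum (fun n => ?_) h1.norm
  exact LSeries.norm_term_le_of_re_le_re _ (by simpa using hs) n

/-- a bound for the values of a polynomial -/
theorem eval_bound {k : ℕ} (Φ : MvPolynomial (Fin k) ℂ) : ∃ (K : ℝ) (D : ℕ), 0 ≤ K ∧ ∀ x : Fin k → ℂ,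
    Real.posLog ‖MvPolynomial.eval x Φ‖ ≤ K + D * ∑ i, Real.posLog ‖x i‖ := by
  classical
  set K' : ℝ := max 1 (∑ d ∈ Φ.support, ‖Φ.coeff d‖) with hK'
  set D : ℕ := ∑ d ∈ Φ.support, ∑ i, d i with hD
  have hK1 : 1 ≤ K' := le_max_left _ _
  refine ⟨Real.log K', D, Real.log_nonneg hK1, fun x => ?_⟩
  set m : Fin k → ℝ := fun i => max 1 ‖x i‖ with hm
  have hm1 : ∀ i, 1 ≤ m i := fun i => le_max_left _ _
  have hmP : 1 ≤ (∏ i, m i) ^ D := one_le_pow₀ (by
    have := Finset.prod_le_prod (s := Finset.univ) (f := fun _ : Fin k => (1:ℝ)) (g := m)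
      (fun _ _ => zero_le_one) (fun i _ => hm1 i)
    simpa using this)
  have h1 : ‖MvPolynomial.eval x Φ‖ ≤ K' * (∏ i, m i) ^ D := by
    rw [MvPolynomial.eval_eq']
    calc ‖∑ d ∈ Φ.support, Φ.coeff d * ∏ i, x i ^ d i‖ ≤ ∑ d ∈ Φ.support, ‖Φ.coeff d‖ * ((∏ i, m i) ^ D) := by
          refine (norm_sum_le _ _).trans (sum_le_sum fun d hd => ?_)
          rw [norm_mul]
          refine mul_le_mul_of_nonneg_left ?_ (norm_nonneg _)
          rw [norm_prod, ← Finset.prod_pow]
          refine Finset.prod_le_prod (fun i _ => norm_nonneg _) fun i _ => ?_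
          rw [norm_pow]
          have h2 : d i ≤ D := by
            have h3 : d i ≤ ∑ i, d i := Finset.single_le_sum (f := fun i => d i) (fun _ _ => Nat.zero_le _) (mem_univ i)
            have h4 : ∑ i, d i ≤ D := Finset.single_le_sum (f := fun d : Fin k →₀ ℕ => ∑ i, d i)
              (fun _ _ => Nat.zero_le _) hd
            omega
          calc ‖x i‖ ^ d i ≤ m i ^ d i := pow_le_pow_left₀ (norm_nonneg _) (le_max_right _ _) _
            _ ≤ m i ^ D := pow_le_pow_right₀ (hm1 i) h2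
      _ = (∑ d ∈ Φ.support, ‖Φ.coeff d‖) * ((∏ i, m i) ^ D) := by rw [sum_mul]
      _ ≤ _ := mul_le_mul_of_nonneg_right (le_max_right _ _) (by linarith)
  have h2 : Real.posLog ‖MvPolynomial.eval x Φ‖ ≤ Real.log (K' * (∏ i, m i) ^ D) := by
    refine (Real.posLog_le_posLog (norm_nonneg _) h1).trans (le_of_eq ?_)
    apply Real.posLog_eq_log
    rw [abs_of_pos (by positivity)]
    nlinarith
  refine h2.trans (le_of_eq ?_)
  rw [Real.log_mul (by positivity) (by positivity), Real.log_pow, Real.log_prod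
    (fun i _ => (lt_of_lt_of_le one_pos (hm1 i)).ne')]
  congr 2
  refine sum_congr rfl fun i _ => ?_
  rw [Real.posLog_eq_log_max_one (norm_nonneg _)]

theorem posLog_le_rpow {x : ℝ} (hx : 0 ≤ x) : Real.posLog x ≤ 4 * x ^ (1 / 4 : ℝ) := by
  rw [Real.posLog]
  refine max_le (by positivity) ?_
  have := Real.log_le_rpow_div hx (show (0:ℝ) < 1 / 4 by norm_num)
  linarith

/-- **a relation on a set of positive measure on the edge is a relation in the half-plane** -/
theorem alg_uniq {k : ℕ} {Lf : Fin k → ℂ → ℂ} {Lp : Fin k → ℕ → ℂ → ℂ} (hD : ∀ i, Dat (Lf i) (Lp i))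
    (hB : ∀ i, Bd (Lf i)) (Φ : MvPolynomial (Fin k) ℂ)
    (hS : volume {t : ℝ | Tendsto (fun n : ℕ =>
      MvPolynomial.eval (fun i => Lf i (3 / 2 + ((1 / ((n : ℝ) + 1) : ℝ) + t * I))) Φ) atTop (𝓝 0)} ≠ 0) :
    ∀ s : ℂ, 3 / 2 < s.re → MvPolynomial.eval (fun i => Lf i s) Φ = 0 := by
  classical
  set G : ℂ → ℂ := fun w => MvPolynomial.eval (fun i => Lf i (3 / 2 + w)) Φ with hG
  obtain ⟨K, D, hK, hKD⟩ := eval_bound Φ
  choose C hC using hB
  have key := uniq (G := G) (C := K + D * ∑ i, 4 * C i) ?_ ?_ ?_ ?_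
  · intro s hs
    have := key (s - 3 / 2) (by simpa using hs)
    simpa [hG] using this
  · intro w hw
    simp only [hG]
    have h1 : (fun w => MvPolynomial.eval (fun i => Lf i (3 / 2 + w)) Φ) =
        fun w => ∑ d ∈ Φ.support, Φ.coeff d * ∏ i, (Lf i (3 / 2 + w)) ^ d i := by
      funext w
      rw [MvPolynomial.eval_eq']
    rw [h1]
    have h2 : ∀ i, AnalyticAt ℂ (fun w => Lf i (3 / 2 + w)) w := by
      intro i
      have h3 : AnalyticAt ℂ (Lf i) (3 / 2 + w) := (hD i).analytic (by simpa using hw)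
      exact AnalyticAt.fun_comp (f := fun w : ℂ => 3 / 2 + w) h3 (by fun_prop)
    refine Finset.analyticAt_fun_sum _ fun d _ => analyticAt_const.mul ?_
    exact Finset.analyticAt_fun_prod _ fun i _ => (h2 i).pow _
  · intro ε hε
    choose A hA using fun i => (hD i).bounded (σ := 3 / 2 + ε) (by linarith)
    refine ⟨K + D * ∑ i, Real.posLog (A i), fun w hw => ?_⟩
    refine (hKD _).trans ?_
    have h5 : ∑ i, Real.posLog ‖Lf i (3 / 2 + w)‖ ≤ ∑ i, Real.posLog (A i) := by
      refine sum_le_sum fun i _ => Real.posLog_le_posLog (norm_nonneg _) (hA i _ ?_)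
      simp
      linarith
    have h6 := mul_le_mul_of_nonneg_left h5 (Nat.cast_nonneg (α := ℝ) D)
    linarith
  · intro σ hσ
    choose f hf1 hf2 hf3 hf4 using fun i => hC i (3 / 2 + σ) (by linarith)
    refine ⟨fun t => K + D * ∑ i, 4 * f i t, ?_, ?_, ?_, ?_⟩
    · have := hf1
      fun_prop
    · intro t
      have h5 : 0 ≤ ∑ i, 4 * f i t := sum_nonneg fun i _ => by have := hf2 i t; positivity
      positivity
    · intro t
      refine (hKD _).trans ?_
      have e : (3 / 2 : ℂ) + (σ + t * I) = ((3 / 2 + σ : ℝ) : ℂ) + t * I := by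
        push_cast
        ring
      have h5 : ∑ i, Real.posLog ‖Lf i (3 / 2 + (σ + t * I))‖ ≤ ∑ i, 4 * f i t := by
        refine sum_le_sum fun i _ => (posLog_le_rpow (norm_nonneg _)).trans ?_
        have h6 := hf3 i t
        rw [e]
        linarith
      have h6 := mul_le_mul_of_nonneg_left h5 (Nat.cast_nonneg (α := ℝ) D)
      linarith
    · intro T
      have hint : ∀ i, IntervalIntegrable (fun t => 4 * f i t) volume T (T + 1) := fun i =>
        ((hf1 i).const_mul 4).intervalIntegrable _ _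
      have hint2 : IntervalIntegrable (fun t => ∑ i, 4 * f i t) volume T (T + 1) :=
        (continuous_finsetSum _ fun i _ => (hf1 i).const_mul 4).intervalIntegrable _ _
      rw [intervalIntegral.integral_add (by simp) (hint2.const_mul _),
        intervalIntegral.integral_const_mul, intervalIntegral.integral_finsetSum fun i _ => hint i]
      simp only [intervalIntegral.integral_const, intervalIntegral.integral_const_mul]
      have h7 : ∀ i, ∫ t in T..(T + 1), f i t ≤ C i := fun i => hf4 i T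
      have h8 : ∑ i, 4 * ∫ t in T..(T + 1), f i t ≤ ∑ i, 4 * C i :=
        sum_le_sum fun i _ => by have := h7 i; linarith
      have h9 : (D : ℝ) * ∑ i, 4 * ∫ t in T..(T + 1), f i t ≤ D * ∑ i, 4 * C i :=
        mul_le_mul_of_nonneg_left h8 (Nat.cast_nonneg _)
      simp
      linarith
  · exact hS

end Pool.Agent.L5helper14.Edge.D
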