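import Pool.Agent.L5helper14.Edge.Log

/-! Convergence of the logarithm of the Euler product on the edge, with its boundary value. -/

set_option autoImplicit false

namespace Pool.Agent.L5helper14.Edge

open Complex MeasureTheory Finset ComplexConjugate Filter Topology
open scoped Interval ENNReal NNReal

namespace PSys

variable (P : PSys)

section
variable {c : P.X → ℂ} {β : ℝ} (hβ : 0 ≤ β) (hc : ∀ x, ‖c x‖ ≤ β)

include hβ hc in
theorem tendsto_sum_of {t : ℝ} {s : ℂ} (hs : Tendsto (fun u => P.F c 0 u t) atTop (𝓝 s)) :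
    Tendsto (fun n : ℕ => ∑ x ∈ P.LE n, P.tm c t x) atTop (𝓝 s) := by
  classical
  have hk : Tendsto (fun n : ℕ => ⌊Real.log n⌋₊) atTop atTop :=
    tendsto_nat_floor_atTop.comp (Real.tendsto_log_atTop.comp tendsto_natCast_atTop_atTop)
  have h1 : Tendsto (fun n : ℕ => P.F c 0 ⌊Real.log n⌋₊ t) atTop (𝓝 s) := hs.comp hk
  have h2 : Tendsto (fun n : ℕ => (∑ x ∈ P.LE n, P.tm c t x) - P.F c 0 ⌊Real.log n⌋₊ t)
      atTop (𝓝 0) := by
    have h3 : Tendsto (fun n : ℕ => β * (P.C / (⌊Real.log n⌋₊ : ℕ))) atTop (𝓝 0) := by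
      have h4 : Tendsto (fun k : ℕ => β * (P.C / (k : ℝ))) atTop (𝓝 (β * 0)) :=
        (tendsto_const_div_atTop_nhds_zero_nat P.C).const_mul β
      rw [mul_zero] at h4
      exact h4.comp hk
    refine squeeze_zero_norm' ?_ h3
    filter_upwards [hk.eventually (eventually_ge_atTop 1), eventually_ge_atTop 1] with n hn hn1
    have hsub : P.bl 0 ⌊Real.log n⌋₊ ⊆ P.LE n := by
      intro x hx
      rw [mem_bl] at hx
      rw [mem_LE]
      have h5 : P.lam x < Real.log n := by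
        have h6 : ((P.fl x : ℕ) : ℝ) + 1 ≤ (⌊Real.log n⌋₊ : ℕ) := by exact_mod_cast hx.2
        have h7 := Nat.floor_le (Real.log_nonneg (by exact_mod_cast hn1 : (1 : ℝ) ≤ n))
        linarith [P.lt_fl x]
      have h6 : (P.N x : ℝ) < n := by
        rwa [lam, Real.log_lt_log_iff (P.N_pos x) (by exact_mod_cast hn1)] at h5
      exact_mod_cast h6.le
    unfold F
    rw [← sum_sdiff hsub, add_sub_cancel_right]
    refine (norm_sum_le _ _).trans ((sum_le_sum fun x _ => P.tm_norm c hc t x).trans ?_)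
    rw [← mul_sum]
    refine mul_le_mul_of_nonneg_left (P.blk _ hn _ fun x hx => ?_) hβ
    rw [Finset.mem_sdiff, mem_bl, mem_LE] at hx
    have h8 : ⌊Real.log n⌋₊ ≤ P.fl x := by
      by_contra hcon
      exact hx.2 ⟨Nat.zero_le _, by omega⟩
    refine le_antisymm ?_ h8
    refine Nat.floor_le_floor ?_
    exact Real.log_le_log (P.N_pos x) (by exact_mod_cast hx.1)
  have h3 := h2.add h1
  simpa using h3

end

/-- the logarithm of the Euler product converges on the edge -/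
theorem log_edge (hsum : ∀ r : ℝ, r < -1 → Summable fun x => (P.N x : ℝ) ^ r)
    {A δ : P.X → ℂ} (hA : ∀ v, ‖A v‖ ≤ P.N v) (hδ : ∀ v, ‖δ v‖ ≤ 1) (B0 : Finset P.X)
    (hgood : ∀ v ∉ B0, 5 ≤ P.N v ∧ ‖A v‖ ≤ 2 * Real.sqrt (P.N v)) {β : ℝ} (hβ : 0 ≤ β)
    (hcb : ∀ v, ‖P.cf A v‖ ≤ β) {t : ℝ} (ht : t ∉ P.Exc (P.cf A)) :
    ∃ ℓ : ℂ, Tendsto (fun J : ℕ => P.LG A δ J t) atTop (𝓝 ℓ) ∧
      ∀ κ : ℝ, 0 ≤ κ → Tendsto (fun w : ℂ => ∏' v, (P.lf A δ v (3 / 2 + t * I + w))⁻¹)
        (𝓝[cone κ] 0) (𝓝 (cexp ℓ)) := by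
  classical
  set c : P.X → ℂ := P.cf A with hc
  obtain ⟨s, hs0'⟩ := P.tendsto_F ht
  have hs := P.tendsto_sum_of hβ hcb hs0'
  set s0 : ℂ := 3 / 2 + t * I with hs0
  have hs0re : s0.re = 3 / 2 := by rw [hs0]; simp
  have htm : ∀ v, P.tm c t v = A v * ((P.N v : ℕ) : ℂ) ^ (-s0) := fun v => tm_eq A v t
  have hspl : ∀ (v : P.X) (w : ℂ), A v * ((P.N v : ℕ) : ℂ) ^ (-(s0 + w)) =
      P.tm c t v * ((P.N v : ℕ) : ℂ) ^ (-w) := by
    intro v w
    rw [htm, mul_assoc, ← Complex.cpow_add _ _ (P.N_ne v)]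
    congr 2
    ring
  have hzsum : ∀ w : ℂ, 0 < w.re → Summable fun v => P.tm c t v * ((P.N v : ℕ) : ℂ) ^ (-w) := by
    intro w hw
    refine Summable.of_norm_bounded ((hsum (-(1 + w.re)) (by linarith)).mul_left β) fun v => ?_
    rw [norm_mul, P.norm_N_cpow]
    have hN := P.N_pos v
    have h1 := P.tm_norm c hcb t v
    calc ‖P.tm c t v‖ * (P.N v : ℝ) ^ (-w).re ≤ (β * (1 / P.N v)) * (P.N v : ℝ) ^ (-w).re :=
          mul_le_mul_of_nonneg_right h1 (by positivity)
      _ = β * (P.N v : ℝ) ^ (-(1 + w.re)) := by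
          rw [Complex.neg_re, neg_add, Real.rpow_add hN, Real.rpow_neg_one]
          ring
  have hre : ∀ w : ℂ, 0 ≤ w.re → 3 / 2 ≤ (s0 + w).re := by
    intro w hw
    rw [Complex.add_re, hs0re]
    linarith
  have hK := Kb_summable hsum B0
  have hremsum : ∀ w : ℂ, 0 ≤ w.re → Summable fun v => P.rem A δ v (s0 + w) := by
    intro w hw
    exact Summable.of_norm_bounded hK fun v => rem_le hA hδ B0 hgood v (hre w hw)
  refine ⟨s + ∑' v, P.rem A δ v s0, ?_, ?_⟩
  · -- the logarithms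
    have hbl : Tendsto (fun J : ℕ => P.bl 0 (2 ^ J)) atTop atTop := by
      refine tendsto_atTop_finset_of_monotone ?_ fun x => ?_
      · intro m n hmn x hx
        rw [mem_bl] at hx ⊢
        exact ⟨hx.1, lt_of_lt_of_le hx.2 (Nat.pow_le_pow_right (by norm_num) hmn)⟩
      · exact ⟨P.fl x, P.mem_bl.2 ⟨Nat.zero_le _, Nat.lt_two_pow_self⟩⟩
    have h1 : Tendsto (fun J : ℕ => ∑ v ∈ P.bl 0 (2 ^ J), P.rem A δ v s0) atTop
        (𝓝 (∑' v, P.rem A δ v s0)) := by
      have h2 := hremsum 0 (by simp)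
      simp only [add_zero] at h2
      exact h2.hasSum.comp hbl
    have hpow : Tendsto (fun J : ℕ => 2 ^ J) atTop (atTop : Filter ℕ) :=
      tendsto_pow_atTop_atTop_of_one_lt (by norm_num)
    have h3 := (hs0'.comp hpow).add h1
    refine h3.congr fun J => ?_
    simp only [Function.comp_apply]
    unfold F LG
    rw [← sum_add_distrib]
    exact sum_congr rfl fun x _ => (neg_log_eq A δ x t).symm
  · intro κ hκ
    have h1 := P.abel_prime hzsum hs hκ
    have h2 : Tendsto (fun w : ℂ => ∑' v, P.rem A δ v (s0 + w)) (𝓝[cone κ] 0)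
        (𝓝 (∑' v, P.rem A δ v s0)) := by
      refine tendsto_tsum_of_dominated_convergence (bound := Kb B0) hK (fun v => ?_) ?_
      · have h3 : ContinuousAt (fun w : ℂ => P.rem A δ v (s0 + w)) 0 := by
          have h4 : ContinuousAt (P.rem A δ v) (s0 + 0) := by
            rw [add_zero]
            exact continuousAt_rem hA hδ v (by rw [hs0re])
          exact ContinuousAt.comp (f := fun w : ℂ => s0 + w) h4 (by fun_prop)
        have h5 := h3.tendsto
        simp only [add_zero] at h5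
        exact h5.mono_left nhdsWithin_le_nhds
      · filter_upwards [self_mem_nhdsWithin] with w hw v
        exact rem_le hA hδ B0 hgood v (hre w hw.1.le)
    have h3 := (h1.add h2).cexp
    refine h3.congr' ?_
    filter_upwards [self_mem_nhdsWithin] with w hw
    have h4 := ((hzsum w hw.1).hasSum.add (hremsum w hw.1.le).hasSum).cexp
    rw [← h4.tprod_eq]
    refine tprod_congr fun v => ?_
    simp only [Function.comp_apply]
    rw [← hspl, exp_log_lf hA hδ v (hre w hw.1.le)]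

end PSys

end Pool.Agent.L5helper14.Edge
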