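import Pool.Agent.L5helper14.Edge.Law2
import Pool.Agent.L5helper14.Edge.Conv2

/-! The boundary function of an Euler product has a limiting law. -/

set_option autoImplicit false

namespace Pool.Agent.L5helper14.Edge

open Complex MeasureTheory Finset Filter Topology
open scoped ENNReal NNReal

theorem volume_zero_of_dimH {s : Set ℝ} (h : dimH s = 0) : volume s = 0 := by
  have h1 := measure_zero_of_dimH_lt (μ := (volume : Measure ℝ)) (d := 1) (s := s) (by
    rw [← hausdorffMeasure_real]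
    simp only [NNReal.coe_one]
    exact Measure.AbsolutelyContinuous.rfl) (by rw [h]; simp)
  exact h1

namespace PSys

variable {P : PSys} {A δ : P.X → ℂ}

theorem path_cone : Tendsto (fun n : ℕ => (((1 / ((n : ℝ) + 1) : ℝ)) : ℂ)) atTop (𝓝[cone 0] 0) := by
  refine tendsto_nhdsWithin_iff.2 ⟨?_, Eventually.of_forall fun n => ?_⟩
  · have h1 := (Complex.continuous_ofReal.tendsto 0).comp tendsto_one_div_add_atTop_nhds_zero_nat
    simpa [Function.comp_def] using h1
  · refine ⟨?_, ?_⟩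
    · rw [Complex.ofReal_re]
      positivity
    · rw [Complex.ofReal_im, abs_zero, zero_mul]

/-- **the setting for an Euler product** -/
theorem stg (hsum : ∀ r : ℝ, r < -1 → Summable fun x => (P.N x : ℝ) ^ r) (hpole : P.Pole)
    (hA : ∀ v, ‖A v‖ ≤ P.N v) (hδ : ∀ v, ‖δ v‖ ≤ 1) (B0 : Finset P.X)
    (hgood : ∀ v ∉ B0, 5 ≤ P.N v ∧ ‖A v‖ ≤ 2 * Real.sqrt (P.N v)) {β : ℝ} (hβ : 0 ≤ β)
    (hcb : ∀ v, ‖P.cf A v‖ ≤ β) :
    ∃ S : Stg, ∀ᵐ t : ℝ, ∀ κ : ℝ, 0 ≤ κ →
      Tendsto (fun w : ℂ => ∏' v, (P.lf A δ v (3 / 2 + t * I + w))⁻¹)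
        (𝓝[cone κ] 0) (𝓝 (cexp (S.Φ t))) := by
  have hae : ∀ᵐ t : ℝ, t ∉ P.Exc (P.cf A) := by
    rw [ae_iff]
    simp only [not_not]
    exact volume_zero_of_dimH (P.dimH_Exc hβ hcb)
  have hlog : ∀ t : ℝ, t ∉ P.Exc (P.cf A) → _ := fun t ht =>
    P.log_edge hsum hA hδ B0 hgood hβ hcb (t := t) ht
  obtain ⟨Φ, hΦm, hΦl⟩ := measurable_limit_of_tendsto_metrizable_ae (μ := (volume : Measure ℝ))
    (f := fun J => P.LG A δ J) (L := atTop)
    (fun J => (LG_cont hA hδ J).measurable.aemeasurable) (by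
      filter_upwards [hae] with t ht
      obtain ⟨ℓ, h1, _⟩ := hlog t ht
      exact ⟨ℓ, h1⟩)
  have hcone : ∀ᵐ t : ℝ, ∀ κ : ℝ, 0 ≤ κ →
      Tendsto (fun w : ℂ => ∏' v, (P.lf A δ v (3 / 2 + t * I + w))⁻¹)
        (𝓝[cone κ] 0) (𝓝 (cexp (Φ t))) := by
    filter_upwards [hae, hΦl] with t ht ht2
    obtain ⟨ℓ, h1, h2⟩ := hlog t ht
    have h3 : ℓ = Φ t := tendsto_nhds_unique h1 ht2
    rw [← h3]
    exact h2
  obtain ⟨hli, happ⟩ := limit_seq (fun J => LG_cont hA hδ J) hΦl (dJ_summable hsum β B0)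
    (dJ_nonneg β B0) (LG_step hA hδ B0 hgood hβ hcb)
  have hmom : ∀ p : ℝ, 0 ≤ p → p < 1 / 2 → ∃ C : ℝ, ∀ T,
    ∫⁻ t in Set.Ioc T (T + 1), ENNReal.ofReal (Real.exp (p * |(Φ t).re|)) ≤ ENNReal.ofReal C := by
    intro p hp0 hp
    obtain ⟨C1, hC1⟩ := moments hsum hpole hA hδ B0 hgood (p := p) (by rwa [abs_of_nonneg hp0])
    obtain ⟨C2, hC2⟩ := moments hsum hpole hA hδ B0 hgood (p := -p) (by rwa [abs_neg, abs_of_nonneg hp0])
    have hσ : ∀ n : ℕ, (3 / 2 : ℝ) < 3 / 2 + 1 / ((n : ℝ) + 1) := fun n => by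
      have : (0 : ℝ) < 1 / ((n : ℝ) + 1) := by positivity
      linarith
    choose f1 hf1c hf10 hf1L hf1C using fun n : ℕ => hC1 _ (hσ n)
    choose f2 hf2c hf20 hf2L hf2C using fun n : ℕ => hC2 _ (hσ n)
    refine ⟨C1 + C2, fun T => ?_⟩
    have hpt : ∀ᵐ t : ℝ, ENNReal.ofReal (Real.exp (p * |(Φ t).re|)) ≤
        liminf (fun n => ENNReal.ofReal (f1 n t + f2 n t)) atTop := by
      filter_upwards [hcone] with t ht
      have h1 := (ht 0 le_rfl).comp path_cone
      have h2 : Tendsto (fun n : ℕ => ‖∏' v, (P.lf A δ v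
          (((3 / 2 + 1 / ((n : ℝ) + 1) : ℝ) : ℂ) + t * I))⁻¹‖) atTop (𝓝 ‖cexp (Φ t)‖) := by
        refine (h1.norm).congr fun n => ?_
        simp only [Function.comp_apply]
        have e : (3 / 2 + t * I + (((1 / ((n : ℝ) + 1) : ℝ)) : ℂ) : ℂ) =
          ((3 / 2 + 1 / ((n : ℝ) + 1) : ℝ) : ℂ) + t * I := by
          push_cast
          ring
        rw [e]
      have hne : ‖cexp (Φ t)‖ ≠ 0 := norm_ne_zero_iff.2 (Complex.exp_ne_zero _)
      have h3 := (h2.rpow_const (p := p) (Or.inl hne)).add (h2.rpow_const (p := -p) (Or.inl hne))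
      have h4 := (ENNReal.continuous_ofReal.tendsto _).comp h3
      have h5 : ENNReal.ofReal (Real.exp (p * |(Φ t).re|)) ≤
          ENNReal.ofReal (‖cexp (Φ t)‖ ^ p + ‖cexp (Φ t)‖ ^ (-p)) := by
        refine ENNReal.ofReal_le_ofReal ?_
        rw [Complex.norm_exp, ← Real.exp_mul, ← Real.exp_mul]
        have e1 := Real.exp_pos ((Φ t).re * p)
        have e2 := Real.exp_pos ((Φ t).re * -p)
        rcases abs_cases (Φ t).re with ⟨h, _⟩ | ⟨h, _⟩
        · rw [h]
          have : p * (Φ t).re = (Φ t).re * p := mul_comm _ _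
          rw [this]
          linarith
        · rw [h]
          have : p * -(Φ t).re = (Φ t).re * -p := by ring
          rw [this]
          linarith
      refine h5.trans ?_
      rw [← h4.liminf_eq]
      refine liminf_le_liminf (Eventually.of_forall fun n => ?_)
      simp only [Function.comp_apply]
      exact ENNReal.ofReal_le_ofReal (add_le_add (hf1L n t) (hf2L n t))
    have h1 : ∫⁻ t in Set.Ioc T (T + 1), ENNReal.ofReal (Real.exp (p * |(Φ t).re|)) ≤
        ∫⁻ t in Set.Ioc T (T + 1), liminf (fun n => ENNReal.ofReal (f1 n t + f2 n t)) atTop :=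
      lintegral_mono_ae (ae_restrict_of_ae hpt)
    have h2 : ∫⁻ t in Set.Ioc T (T + 1), liminf (fun n => ENNReal.ofReal (f1 n t + f2 n t)) atTop ≤
        liminf (fun n => ∫⁻ t in Set.Ioc T (T + 1), ENNReal.ofReal (f1 n t + f2 n t)) atTop :=
      lintegral_liminf_le fun n => (((hf1c n).add (hf2c n)).measurable).ennreal_ofReal
    have h3 : ∀ n, ∫⁻ t in Set.Ioc T (T + 1), ENNReal.ofReal (f1 n t + f2 n t) ≤
        ENNReal.ofReal (C1 + C2) := by
      intro n
      have hi : Integrable (fun t => f1 n t + f2 n t) (volume.restrict (Set.Ioc T (T + 1))) :=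
        (((hf1c n).add (hf2c n)).intervalIntegrable T (T + 1)).1
      rw [← ofReal_integral_eq_lintegral_ofReal hi
        (Eventually.of_forall fun t => add_nonneg (hf10 n t) (hf20 n t))]
      refine ENNReal.ofReal_le_ofReal ?_
      rw [← intervalIntegral.integral_of_le (by linarith), intervalIntegral.integral_add
        ((hf1c n).intervalIntegrable _ _) ((hf2c n).intervalIntegrable _ _)]
      exact add_le_add (hf1C n T) (hf2C n T)
    have h4 : liminf (fun n => ∫⁻ t in Set.Ioc T (T + 1), ENNReal.ofReal (f1 n t + f2 n t)) atTop ≤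
        ENNReal.ofReal (C1 + C2) :=
      liminf_le_of_le (by isBoundedDefault) fun b hb => by
        obtain ⟨n, hn⟩ := hb.exists
        exact hn.trans (h3 n)
    exact h1.trans (h2.trans h4)
  exact ⟨⟨Φ, fun J => P.LG A δ J, hΦm, hli, fun J => by
    obtain ⟨h, hh⟩ := LG_torus (P := P) hA hδ J
    exact ⟨_, inferInstance, h, _, hh⟩, happ, hmom⟩, hcone⟩

end PSys

end Pool.Agent.L5helper14.Edge
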