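import Pool.Agent.L5helper14.Edge.EC4
import Pool.Agent.L5helper14.Edge.Law3

/-! Algebraic independence of boundary values. -/

set_option autoImplicit false

namespace Pool.Agent.L5helper14.Edge.D

open Complex MeasureTheory Filter Topology
open scoped Real

/-- multiplicative dependence of the local factors at almost all primes -/
def Dep {k : ℕ} (Lp : Fin k → ℕ → ℂ → ℂ) : Prop :=
  ∃ a b : Fin k → ℕ, a ≠ b ∧ ∃ N1 : ℕ, N1 ≠ 0 ∧ ∀ p : ℕ, p.Prime → ¬ p ∣ N1 →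
      ∀ s : ℂ, 3 / 2 < s.re → ∏ i, (Lp i p s) ^ (a i) = ∏ i, (Lp i p s) ^ (b i)

theorem countable_mv {k : ℕ} (F : Type) [CommSemiring F] [Countable F] : Countable (MvPolynomial (Fin k) F) := by
  rw [← Cardinal.mk_le_aleph0_iff]
  refine (MvPolynomial.cardinalMk_le_max (σ := Fin k) (R := F)).trans ?_
  refine max_le (max_le Cardinal.mk_le_aleph0 Cardinal.mk_le_aleph0) le_rfl

theorem indep {k : ℕ} {Lf : Fin k → ℂ → ℂ} {Lp : Fin k → ℕ → ℂ → ℂ} (hD : ∀ i, Dat (Lf i) (Lp i))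
    (hB : ∀ i, Bd (Lf i))
    (hlim : ∀ i, ∀ᵐ t : ℝ, ∃ ℓ : ℂ, ℓ ≠ 0 ∧ Tendsto (fun ε : ℝ => Lf i (3 / 2 + ε + t * I)) (𝓝[>] 0) (𝓝 ℓ))
    (hind : ¬ Dep Lp) (F : Subfield ℂ) [Countable F] :
    ∀ᵐ t : ℝ, ∃ ℓ : Fin k → ℂ, (∀ i, ℓ i ≠ 0 ∧
      Tendsto (fun ε : ℝ => Lf i (3 / 2 + ε + t * I)) (𝓝[>] 0) (𝓝 (ℓ i))) ∧ AlgebraicIndependent F ℓ := by
  classical
  have h1 : ∀ Ψ : MvPolynomial (Fin k) F, Ψ ≠ 0 → ∀ᵐ t : ℝ, ¬ Tendsto (fun n : ℕ =>
      MvPolynomial.eval (fun i => Lf i (3 / 2 + ((1 / ((n : ℝ) + 1) : ℝ) + t * I)))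
        (MvPolynomial.map (algebraMap F ℂ) Ψ)) atTop (𝓝 0) := by
    intro Ψ hΨ
    have hΦ : MvPolynomial.map (algebraMap F ℂ) Ψ ≠ 0 := by
      intro h
      apply hΨ
      exact MvPolynomial.map_injective _ (algebraMap F ℂ).injective (by rw [h, map_zero])
    rw [ae_iff]
    simp only [not_not]
    by_contra hS
    exact hind (dep_of_alg hD hΦ (alg_uniq hD hB _ hS))
  have := countable_mv (k := k) F
  have h2 : ∀ᵐ t : ℝ, ∀ Ψ : MvPolynomial (Fin k) F, Ψ ≠ 0 → ¬ Tendsto (fun n : ℕ =>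
      MvPolynomial.eval (fun i => Lf i (3 / 2 + ((1 / ((n : ℝ) + 1) : ℝ) + t * I)))
        (MvPolynomial.map (algebraMap F ℂ) Ψ)) atTop (𝓝 0) := by
    rw [ae_all_iff]
    intro Ψ
    by_cases hΨ : Ψ = 0
    · exact Eventually.of_forall fun t h => absurd hΨ h
    · exact (h1 Ψ hΨ).mono fun t ht _ => ht
  have h3 : ∀ᵐ t : ℝ, ∀ i, ∃ ℓ : ℂ, ℓ ≠ 0 ∧ Tendsto (fun ε : ℝ => Lf i (3 / 2 + ε + t * I)) (𝓝[>] 0) (𝓝 ℓ) := by
    rw [ae_all_iff]
    exact hlim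
  filter_upwards [h2, h3] with t ht2 ht3
  choose ℓ hℓ1 hℓ2 using ht3
  refine ⟨ℓ, fun i => ⟨hℓ1 i, hℓ2 i⟩, ?_⟩
  rw [algebraicIndependent_iff]
  intro Ψ hΨ
  by_contra hne
  apply ht2 Ψ hne
  have h4 : MvPolynomial.eval ℓ (MvPolynomial.map (algebraMap F ℂ) Ψ) = 0 := by
    rw [MvPolynomial.eval_map, ← hΨ, MvPolynomial.aeval_def]
  rw [← h4]
  have h5 : Tendsto (fun n : ℕ => 1 / ((n : ℝ) + 1)) atTop (𝓝[>] 0) := by
    refine tendsto_nhdsWithin_iff.2 ⟨tendsto_one_div_add_atTop_nhds_zero_nat, ?_⟩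
    exact Eventually.of_forall fun n => by
      have : (0:ℝ) < 1 / ((n : ℝ) + 1) := by positivity
      exact this
  have h6 : Tendsto (fun n : ℕ => fun i => Lf i (3 / 2 + ((1 / ((n : ℝ) + 1) : ℝ) + t * I))) atTop (𝓝 ℓ) := by
    rw [tendsto_pi_nhds]
    intro i
    refine ((hℓ2 i).comp h5).congr fun n => ?_
    simp only [Function.comp_apply]
    rw [add_assoc]
  exact ((MvPolynomial.continuous_eval _).tendsto ℓ).comp h6

end Pool.Agent.L5helper14.Edge.D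

namespace Pool.Agent.L5helper14.Edge

open NumberField IsDedekindDomain Pool.Agent.H921R2.TatePole Filter Topology Complex MeasureTheory
open Pool.Agent.H341R2 (chi)
open Pool.Agent.H341R2.EC (twist IsModel IsMinAt trc dlt csumv csumv_bound count_good
  exists_integral finite_mem five_le_v trc_le)

/-- polynomial identities from the half-plane -/
theorem poly_eq {p : ℕ} (hp : p.Prime) {A B : Polynomial ℂ}
    (h : ∀ s : ℂ, 3 / 2 < s.re → A.eval ((p : ℂ) ^ (-s)) = B.eval ((p : ℂ) ^ (-s))) : A = B := by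
  apply Polynomial.eq_of_infinite_eval_eq
  have h1 : Set.range (fun n : ℕ => ((p : ℂ) ^ (n + 2))⁻¹) ⊆ {x | A.eval x = B.eval x} := by
    rintro _ ⟨n, rfl⟩
    have h2 := h ((n + 2 : ℕ) : ℂ) (by
      rw [Complex.natCast_re]
      push_cast
      have : (0:ℝ) ≤ n := Nat.cast_nonneg n
      linarith)
    rwa [Complex.cpow_neg, Complex.cpow_natCast] at h2
  refine Set.Infinite.mono h1 (Set.infinite_range_of_injective fun n m hnm => ?_)
  have h2 : (p : ℂ) ^ (n + 2) = (p : ℂ) ^ (m + 2) := inv_injective hnm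
  have h3 : p ^ (n + 2) = p ^ (m + 2) := by exact_mod_cast h2
  have := Nat.pow_right_injective hp.two_le h3
  omega

section
variable {K : Type} [Field K] [NumberField K]

theorem not_dep_one {M : HeightOneSpectrum (𝓞 K) → WeierstrassCurve (𝓞 K)} {N2 : ℕ} (hN2 : N2 ≠ 0)
    (hgood : ∀ p : ℕ, p.Prime → ¬ p ∣ N2 →
      ∀ v : HeightOneSpectrum (𝓞 K), (p : 𝓞 K) ∈ v.asIdeal → dlt M v = 1) :
    ¬ D.Dep (fun _ : Fin 1 => Lp M) := by
  rintro ⟨a, b, hab, N1, hN1, h⟩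
  obtain ⟨p, hpN, hp⟩ := Nat.exists_infinite_primes (N1 * N2 + 1)
  have hN12 : N1 * N2 ≠ 0 := mul_ne_zero hN1 hN2
  have h1 : ¬ p ∣ N1 := fun hd => by
    have := Nat.le_of_dvd (Nat.pos_of_ne_zero hN1) hd
    have : N1 ≤ N1 * N2 := Nat.le_mul_of_pos_right _ (Nat.pos_of_ne_zero hN2)
    omega
  have h2 : ¬ p ∣ N2 := fun hd => by
    have := Nat.le_of_dvd (Nat.pos_of_ne_zero hN2) hd
    have : N2 ≤ N1 * N2 := Nat.le_mul_of_pos_left _ (Nat.pos_of_ne_zero hN1)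
    omega
  have h3 : PP M hp ^ a 0 = PP M hp ^ b 0 := by
    refine poly_eq hp fun s hs => ?_
    have h4 := h p hp h1 s hs
    simp only [Fin.prod_univ_one, ← PP_eval M hp] at h4
    rw [inv_pow, inv_pow, inv_inj] at h4
    rw [Polynomial.eval_pow, Polynomial.eval_pow, h4]
  have h5 := congrArg Polynomial.natDegree h3
  rw [Polynomial.natDegree_pow, Polynomial.natDegree_pow, PP_natDegree M hp (hgood p hp h2)] at h5
  have h6 := Nat.eq_of_mul_eq_mul_right (sum_deg_pos (K := K) hp) h5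
  exact hab (funext fun i => by rw [Fin.eq_zero i]; exact h6)

theorem eq_of_pow_eq {A B : Polynomial ℂ} (hA0 : A.eval 0 = 1) (hB0 : B.eval 0 = 1) {m : ℕ}
    (hm : m ≠ 0) (h : A ^ m = B ^ m) : A = B := by
  have h1 : A ∣ B := (UniqueFactorizationMonoid.pow_dvd_pow_iff_dvd hm).1 (dvd_of_eq h)
  have h2 : B ∣ A := (UniqueFactorizationMonoid.pow_dvd_pow_iff_dvd hm).1 (dvd_of_eq h.symm)
  obtain ⟨u, hu⟩ := associated_of_dvd_dvd h1 h2
  obtain ⟨c, hc, hc2⟩ := Polynomial.isUnit_iff.1 u.isUnit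
  rw [← hc2] at hu
  have h3 := congrArg (Polynomial.eval 0) hu
  rw [Polynomial.eval_mul, Polynomial.eval_C, hA0, hB0, one_mul] at h3
  rw [← hu, h3, Polynomial.C_1, mul_one]

theorem not_dep_two {M₁ M₂ : HeightOneSpectrum (𝓞 K) → WeierstrassCurve (𝓞 K)} {N2 : ℕ} (hN2 : N2 ≠ 0)
    (hgood₁ : ∀ p : ℕ, p.Prime → ¬ p ∣ N2 →
      ∀ v : HeightOneSpectrum (𝓞 K), (p : 𝓞 K) ∈ v.asIdeal → dlt M₁ v = 1)
    (hgood₂ : ∀ p : ℕ, p.Prime → ¬ p ∣ N2 →
      ∀ v : HeightOneSpectrum (𝓞 K), (p : 𝓞 K) ∈ v.asIdeal → dlt M₂ v = 1)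
    (hne : ¬ ∃ N : ℕ, N ≠ 0 ∧ ∀ p : ℕ, p.Prime → ¬ p ∣ N → ∀ s : ℂ, 3 / 2 < s.re → Lp M₁ p s = Lp M₂ p s) :
    ¬ D.Dep (fun i : Fin 2 => Lp (![M₁, M₂] i)) := by
  rintro ⟨a, b, hab, N1, hN1, h⟩
  have hN12 : N1 * N2 ≠ 0 := mul_ne_zero hN1 hN2
  apply hne
  refine ⟨N1 * N2, hN12, fun p hp hpN s hs => ?_⟩
  have h1 : ¬ p ∣ N1 := fun hd => hpN (Dvd.dvd.mul_right hd _)
  have h2 : ¬ p ∣ N2 := fun hd => hpN (Dvd.dvd.mul_left hd _)
  have h3 : PP M₁ hp ^ a 0 * PP M₂ hp ^ a 1 = PP M₁ hp ^ b 0 * PP M₂ hp ^ b 1 := by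
    refine poly_eq hp fun s hs => ?_
    have h4 := h p hp h1 s hs
    simp only [Fin.prod_univ_two, Matrix.cons_val_zero, Matrix.cons_val_one, ← PP_eval M₁ hp,
      ← PP_eval M₂ hp] at h4
    rw [inv_pow, inv_pow, inv_pow, inv_pow, ← mul_inv, ← mul_inv, inv_inj] at h4
    rw [Polynomial.eval_mul, Polynomial.eval_pow, Polynomial.eval_pow, Polynomial.eval_mul,
      Polynomial.eval_pow, Polynomial.eval_pow, h4]
  have n1 := PP_ne_zero M₁ hp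
  have n2 := PP_ne_zero M₂ hp
  have h5 := congrArg Polynomial.natDegree h3
  rw [Polynomial.natDegree_mul (pow_ne_zero _ n1) (pow_ne_zero _ n2),
    Polynomial.natDegree_mul (pow_ne_zero _ n1) (pow_ne_zero _ n2), Polynomial.natDegree_pow,
    Polynomial.natDegree_pow, Polynomial.natDegree_pow, Polynomial.natDegree_pow,
    PP_natDegree M₁ hp (hgood₁ p hp h2), PP_natDegree M₂ hp (hgood₂ p hp h2), ← add_mul, ← add_mul] at h5
  have h6 := Nat.eq_of_mul_eq_mul_right (sum_deg_pos (K := K) hp) h5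
  have h7 : PP M₁ hp = PP M₂ hp := by
    rcases lt_trichotomy (a 0) (b 0) with h8 | h8 | h8
    · obtain ⟨m, hm⟩ := Nat.exists_eq_add_of_lt h8
      have h9 : a 1 = b 1 + (m + 1) := by omega
      rw [h9, hm, pow_add (PP M₂ hp), add_assoc, pow_add (PP M₁ hp)] at h3
      have h10 : PP M₁ hp ^ a 0 * PP M₂ hp ^ b 1 * PP M₂ hp ^ (m + 1) =
          PP M₁ hp ^ a 0 * PP M₂ hp ^ b 1 * PP M₁ hp ^ (m + 1) := by
        linear_combination h3
      have h11 := mul_left_cancel₀ (mul_ne_zero (pow_ne_zero _ n1) (pow_ne_zero _ n2)) h10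
      exact eq_of_pow_eq (PP_eval_zero M₁ hp) (PP_eval_zero M₂ hp) (Nat.succ_ne_zero m) h11.symm
    · exfalso
      apply hab
      funext i
      fin_cases i
      · exact h8
      · simp only [Fin.mk_one]
        omega
    · obtain ⟨m, hm⟩ := Nat.exists_eq_add_of_lt h8
      have h9 : b 1 = a 1 + (m + 1) := by omega
      rw [h9, hm, pow_add (PP M₂ hp), add_assoc, pow_add (PP M₁ hp)] at h3
      have h10 : PP M₁ hp ^ b 0 * PP M₂ hp ^ a 1 * PP M₁ hp ^ (m + 1) =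
          PP M₁ hp ^ b 0 * PP M₂ hp ^ a 1 * PP M₂ hp ^ (m + 1) := by
        linear_combination h3
      have h11 := mul_left_cancel₀ (mul_ne_zero (pow_ne_zero _ n1) (pow_ne_zero _ n2)) h10
      exact eq_of_pow_eq (PP_eval_zero M₁ hp) (PP_eval_zero M₂ hp) (Nat.succ_ne_zero m) h11
  rw [← PP_eval M₁ hp, ← PP_eval M₂ hp, h7]

/-- boundary values exist almost everywhere -/
theorem lim_EC (E : WeierstrassCurve K) {l P Q : 𝓞 K} (hl : l ≠ 0)
    (hP : (P : K) = (l : K) ^ 4 * E.c₄) (hQ : (Q : K) = (l : K) ^ 6 * E.c₆)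
    (hD : P ^ 3 - Q ^ 2 ≠ 0) (M : HeightOneSpectrum (𝓞 K) → WeierstrassCurve (𝓞 K))
    (hM : ∀ v, IsMinAt E v (M v)) :
    ∀ᵐ t : ℝ, ∃ ℓ : ℂ, ℓ ≠ 0 ∧ Tendsto (fun ε : ℝ =>
      ∏' v, ((psys K).lf (fun v => (trc M v : ℂ)) (dlt M) v (3 / 2 + ε + t * I))⁻¹) (𝓝[>] 0) (𝓝 ℓ) := by
  have h0 : volume (excE P Q) = 0 := volume_zero_of_dimH (dimH_excE P Q)
  filter_upwards [compl_mem_ae_iff.2 h0] with t ht
  obtain ⟨ℓ, hℓ, _, h1⟩ := edge_EC E hl hP hQ hD M hM ht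
  refine ⟨ℓ, hℓ, ?_⟩
  have h2 : Tendsto (fun ε : ℝ => (ε : ℂ)) (𝓝[>] 0) (𝓝[cone 0] 0) := by
    refine tendsto_nhdsWithin_iff.2 ⟨?_, ?_⟩
    · have := (Complex.continuous_ofReal.tendsto 0).mono_left (nhdsWithin_le_nhds (s := Set.Ioi (0:ℝ)))
      simpa using this
    · filter_upwards [self_mem_nhdsWithin] with ε hε
      have hε' : 0 < ε := hε
      refine ⟨by simpa using hε', by simp⟩
  refine ((h1 0 le_rfl).comp h2).congr fun ε => ?_
  simp only [Function.comp_apply]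
  refine tprod_congr fun v => ?_
  congr 2
  ring

end

end Pool.Agent.L5helper14.Edge
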