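import Pool.Agent.L5helper14.Edge.Cover

/-! Convergence of the Dirichlet series over the primes outside a set of Hausdorff dimension zero. -/

set_option autoImplicit false

namespace Pool.Agent.L5helper14.Edge

open Complex MeasureTheory Finset ComplexConjugate Filter Topology
open scoped Interval ENNReal NNReal

/-- dyadic chaining -/
theorem chain {G : ℕ → ℂ} {η : ℝ} (hη : 0 ≤ η) {j : ℕ}
    (h : ∀ l ≤ j, ∀ m < 2 ^ (j - l), ‖G ((m + 1) * 2 ^ l) - G (m * 2 ^ l)‖ ≤ η) :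
    ∀ M ≤ 2 ^ j, ‖G M - G 0‖ ≤ (j + 1) * η := by
  have key : ∀ r ≤ j, ∀ m ≤ 2 ^ r, ‖G (m * 2 ^ (j - r)) - G 0‖ ≤ (r + 1) * η := by
    intro r
    induction r with
    | zero =>
      intro _ m hm
      have h0 := h j le_rfl 0 (by positivity)
      rw [pow_zero] at hm
      interval_cases m
      · simp [hη]
      · simpa using h0
    | succ r ih =>
      intro hr m hm
      have ih' := ih (by omega)
      have e1 : 2 ^ (j - r) = 2 * 2 ^ (j - (r + 1)) := by
        rw [← pow_succ']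
        congr 1
        omega
      rcases Nat.even_or_odd' m with ⟨k, hk | hk⟩
      · subst hk
        have h1 := ih' k (by rw [pow_succ] at hm; omega)
        rw [e1, ← mul_assoc, mul_comm k 2] at h1
        push_cast
        nlinarith
      · have hk2 : k < 2 ^ r := by rw [pow_succ] at hm; omega
        have h1 := ih' k hk2.le
        rw [e1, ← mul_assoc, mul_comm k 2] at h1
        have h2 := h (j - (r + 1)) (by omega) (2 * k) (by
          rw [show j - (j - (r + 1)) = r + 1 by omega, pow_succ]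
          omega)
        rw [hk]
        have h3 : G ((2 * k + 1) * 2 ^ (j - (r + 1))) - G 0 =
            (G ((2 * k + 1) * 2 ^ (j - (r + 1))) - G (2 * k * 2 ^ (j - (r + 1)))) +
            (G (2 * k * 2 ^ (j - (r + 1))) - G 0) := by ring
        rw [h3]
        refine (norm_add_le _ _).trans ?_
        push_cast
        linarith
  intro M hM
  have := key j le_rfl M hM
  simpa using this

namespace PSys

variable (P : PSys) (c : P.X → ℂ)

theorem F_sub {a b : ℕ} (hab : a ≤ b) (t : ℝ) : P.F c a b t = P.F c 0 b t - P.F c 0 a t := by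
  classical
  unfold F
  rw [eq_sub_iff_add_eq, add_comm, ← sum_union]
  · congr 1
    ext x
    simp only [mem_union, mem_bl]
    omega
  · rw [disjoint_left]
    intro x hx hx'
    rw [mem_bl] at hx hx'
    omega

theorem tm_norm {β : ℝ} (hc : ∀ x, ‖c x‖ ≤ β) (t : ℝ) (x : P.X) :
    ‖P.tm c t x‖ ≤ β * (1 / P.N x) := by
  unfold tm
  rw [norm_mul, norm_cexp_neg_I, mul_one, norm_div, Complex.norm_natCast, div_eq_mul_one_div]
  have := P.N_pos x
  exact mul_le_mul_of_nonneg_right (hc x) (by positivity)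

/-- all exceptional points -/
def Exc (c : P.X → ℂ) : Set ℝ := ⋃ n : ℤ, P.exc c n

variable {c} {β : ℝ} (hβ : 0 ≤ β) (hc : ∀ x, ‖c x‖ ≤ β)

include hβ hc in
theorem dimH_Exc : dimH (P.Exc c) = 0 := by
  unfold Exc
  rw [dimH_iUnion]
  simp [P.dimH_exc hβ hc]

theorem small {t : ℝ} (ht : t ∉ P.Exc c) : ∀ᶠ j : ℕ in atTop, ∀ l ≤ j, ∀ m < 2 ^ (j - l),
    ‖P.F c (2 ^ j + m * 2 ^ l) (2 ^ j + (m + 1) * 2 ^ l) t‖ ≤ eta j := by
  classical
  have h1 : t ∉ P.exc c (⌊t⌋ : ℤ) := by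
    intro h
    exact ht (Set.mem_iUnion.2 ⟨⌊t⌋, h⟩)
  have h2 : ∀ᶠ j : ℕ in atTop, ¬ ∃ i ∈ P.Bad c (⌊t⌋ : ℤ) j,
    t ∈ Set.Icc ((⌊t⌋ : ℤ) + i / (2 : ℝ) ^ (j + 1)) ((⌊t⌋ : ℤ) + (i + 1 : ℕ) / (2 : ℝ) ^ (j + 1)) :=
    not_frequently.1 h1
  filter_upwards [h2] with j hj l hl m hm
  have hn : (0 : ℝ) < 2 ^ (j + 1) := by positivity
  have hf0 : 0 ≤ t - (⌊t⌋ : ℤ) := by linarith [Int.floor_le t]
  have hf1 : t - (⌊t⌋ : ℤ) < 1 := by linarith [Int.lt_floor_add_one t]
  set i := ⌊(t - (⌊t⌋ : ℤ)) * 2 ^ (j + 1)⌋₊ with hi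
  have hi1 : (i : ℝ) ≤ (t - (⌊t⌋ : ℤ)) * 2 ^ (j + 1) := Nat.floor_le (by positivity)
  have hi2 : (t - (⌊t⌋ : ℤ)) * 2 ^ (j + 1) < i + 1 := Nat.lt_floor_add_one _
  have hi3 : i < 2 ^ (j + 1) := by
    rw [hi, Nat.floor_lt (by positivity)]
    push_cast
    nlinarith
  have hmem : t ∈ Set.Icc ((⌊t⌋ : ℤ) + i / (2 : ℝ) ^ (j + 1))
      ((⌊t⌋ : ℤ) + (i + 1 : ℕ) / (2 : ℝ) ^ (j + 1)) := by
    constructor
    · have : (i : ℝ) / 2 ^ (j + 1) ≤ t - (⌊t⌋ : ℤ) := by rwa [div_le_iff₀ hn]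
      linarith
    · have : t - (⌊t⌋ : ℤ) ≤ ((i + 1 : ℕ) : ℝ) / 2 ^ (j + 1) := by
        rw [le_div_iff₀ hn]
        push_cast
        exact hi2.le
      linarith
  have h3 : i ∉ P.Bad c (⌊t⌋ : ℤ) j := fun h => hj ⟨i, h, hmem⟩
  have h4 : P.en c (⌊t⌋ : ℤ) j i ≤ eta j ^ 2 := by
    by_contra hcon
    push Not at hcon
    exact h3 (mem_filter.2 ⟨mem_range.2 hi3, hcon⟩)
  have h5 := (P.en_bound (c := c) (⌊t⌋ : ℤ) hmem hl hm).trans h4
  exact (pow_le_pow_iff_left₀ (norm_nonneg _) (eta_pos j).le (by norm_num)).1 h5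

theorem dyadic {t : ℝ} (ht : t ∉ P.Exc c) : ∀ᶠ j : ℕ in atTop, ∀ M ≤ 2 ^ j,
    ‖P.F c 0 (2 ^ j + M) t - P.F c 0 (2 ^ j) t‖ ≤ 1 / ((j : ℝ) + 1) ^ 2 := by
  filter_upwards [P.small ht] with j hj M hM
  have h1 := chain (G := fun m => P.F c 0 (2 ^ j + m) t) (eta_pos j).le (j := j) (by
    intro l hl m hm
    have h2 := hj l hl m hm
    rwa [P.F_sub c (by
      have : m * 2 ^ l ≤ (m + 1) * 2 ^ l := Nat.mul_le_mul_right _ (Nat.le_succ m)
      omega)] at h2) M hM
  simp only [add_zero] at h1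
  refine h1.trans (le_of_eq ?_)
  unfold eta
  field_simp

/-- the sums over `⌊log N⌋ < u` converge -/
theorem tendsto_F {t : ℝ} (ht : t ∉ P.Exc c) :
    ∃ s : ℂ, Tendsto (fun u => P.F c 0 u t) atTop (𝓝 s) := by
  have h1 := P.dyadic ht
  obtain ⟨j0, hj0⟩ := eventually_atTop.1 h1
  have h2 : CauchySeq fun j : ℕ => P.F c 0 (2 ^ (j + j0)) t := by
    refine cauchySeq_of_dist_le_of_summable (fun j : ℕ => 1 / ((j : ℝ) + 1) ^ 2) (fun j => ?_) ?_
    · have h3 := hj0 (j + j0) (by omega) (2 ^ (j + j0)) le_rfl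
      rw [dist_comm, dist_eq_norm]
      have e : 2 ^ (j.succ + j0) = 2 ^ (j + j0) + 2 ^ (j + j0) := by
        rw [show j.succ + j0 = (j + j0) + 1 by omega, pow_succ]
        ring
      rw [e]
      refine h3.trans ?_
      apply one_div_le_one_div_of_le (by positivity)
      push_cast
      have : (0 : ℝ) ≤ j0 := Nat.cast_nonneg _
      exact pow_le_pow_left₀ (by positivity) (by linarith) 2
    · have h4 := (summable_nat_add_iff 1).2 (Real.summable_one_div_nat_pow.2 one_lt_two)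
      refine h4.congr fun j => ?_
      push_cast
      rfl
  obtain ⟨s, hs⟩ := cauchySeq_tendsto_of_complete h2
  have h3 : Tendsto (fun j : ℕ => P.F c 0 (2 ^ j) t) atTop (𝓝 s) :=
    (tendsto_add_atTop_iff_nat j0).1 hs
  have hlog : Tendsto (fun u : ℕ => Nat.log 2 u) atTop atTop := by
    rw [tendsto_atTop]
    intro b
    filter_upwards [eventually_ge_atTop (2 ^ b)] with u hu
    exact Nat.le_log_of_pow_le (by norm_num) hu
  refine ⟨s, ?_⟩
  have h4 : Tendsto (fun u : ℕ => P.F c 0 (2 ^ Nat.log 2 u) t) atTop (𝓝 s) := h3.comp hlog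
  have h5 : Tendsto (fun u : ℕ => P.F c 0 u t - P.F c 0 (2 ^ Nat.log 2 u) t) atTop (𝓝 0) := by
    have h6 : Tendsto (fun u : ℕ => 1 / (((Nat.log 2 u : ℕ) : ℝ) + 1) ^ 2) atTop (𝓝 0) := by
      have h7 : Tendsto (fun j : ℕ => 1 / ((j : ℝ) + 1) ^ 2) atTop (𝓝 0) := by
        have h4 := (summable_nat_add_iff 1).2 (Real.summable_one_div_nat_pow.2 one_lt_two)
        refine (h4.tendsto_atTop_zero).congr fun j => ?_
        push_cast
        rfl
      exact h7.comp hlog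
    refine squeeze_zero_norm' ?_ h6
    filter_upwards [hlog.eventually (eventually_ge_atTop j0), eventually_ge_atTop 1] with u hu hu1
    have h8 : 2 ^ Nat.log 2 u ≤ u := Nat.pow_log_le_self 2 (by omega)
    have h9 : u < 2 ^ (Nat.log 2 u + 1) := Nat.lt_pow_succ_log_self (by norm_num) u
    rw [pow_succ] at h9
    have h10 := hj0 (Nat.log 2 u) hu (u - 2 ^ Nat.log 2 u) (by omega)
    rwa [Nat.add_sub_cancel' h8] at h10
  have h6 := h5.add h4
  simpa using h6

/-- the primes of norm at most `n` -/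
noncomputable def LE (n : ℕ) : Finset P.X := (P.fin n).toFinset

theorem mem_LE {n : ℕ} {x : P.X} : x ∈ P.LE n ↔ P.N x ≤ n := by simp [LE]

include hβ hc in
/-- **the Dirichlet series over the primes converges** outside the exceptional set -/
theorem tendsto_sum {t : ℝ} (ht : t ∉ P.Exc c) :
    ∃ s : ℂ, Tendsto (fun n : ℕ => ∑ x ∈ P.LE n, P.tm c t x) atTop (𝓝 s) := by
  classical
  obtain ⟨s, hs⟩ := P.tendsto_F ht
  refine ⟨s, ?_⟩
  have hk : Tendsto (fun n : ℕ => ⌊Real.log n⌋₊) atTop atTop :=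
    tendsto_nat_floor_atTop.comp (Real.tendsto_log_atTop.comp tendsto_natCast_atTop_atTop)
  have h1 : Tendsto (fun n : ℕ => P.F c 0 ⌊Real.log n⌋₊ t) atTop (𝓝 s) := hs.comp hk
  have h2 : Tendsto (fun n : ℕ => (∑ x ∈ P.LE n, P.tm c t x) - P.F c 0 ⌊Real.log n⌋₊ t)
      atTop (𝓝 0) := by
    have h3 : Tendsto (fun n : ℕ => β * (P.C / (⌊Real.log n⌋₊ : ℕ))) atTop (𝓝 0) := by
      have h4 : Tendsto (fun k : ℕ => β * (P.C / (k : ℝ))) atTop (𝓝 (β * 0)) :=
        (tendsto_const_div_atTop_nhds_zero_nat P.C).const_mul β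
      rw [mul_zero] at h4
      exact h4.comp hk
    refine squeeze_zero_norm' ?_ h3
    filter_upwards [hk.eventually (eventually_ge_atTop 1), eventually_ge_atTop 1] with n hn hn1
    have hsub : P.bl 0 ⌊Real.log n⌋₊ ⊆ P.LE n := by
      intro x hx
      rw [mem_bl] at hx
      rw [mem_LE]
      have h5 : P.lam x < Real.log n := by
        have h6 : ((P.fl x : ℕ) : ℝ) + 1 ≤ (⌊Real.log n⌋₊ : ℕ) := by exact_mod_cast hx.2
        have h7 := Nat.floor_le (Real.log_nonneg (by exact_mod_cast hn1 : (1 : ℝ) ≤ n))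
        linarith [P.lt_fl x]
      have h6 : (P.N x : ℝ) < n := by
        rwa [lam, Real.log_lt_log_iff (P.N_pos x) (by exact_mod_cast hn1)] at h5
      exact_mod_cast h6.le
    unfold F
    rw [← sum_sdiff hsub, add_sub_cancel_right]
    refine (norm_sum_le _ _).trans ((sum_le_sum fun x _ => P.tm_norm c hc t x).trans ?_)
    rw [← mul_sum]
    refine mul_le_mul_of_nonneg_left (P.blk _ hn _ fun x hx => ?_) hβ
    rw [Finset.mem_sdiff, mem_bl, mem_LE] at hx
    have h8 : ⌊Real.log n⌋₊ ≤ P.fl x := by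
      by_contra hcon
      exact hx.2 ⟨Nat.zero_le _, by omega⟩
    refine le_antisymm ?_ h8
    refine Nat.floor_le_floor ?_
    exact Real.log_le_log (P.N_pos x) (by exact_mod_cast hx.1)
  have h3 := h2.add h1
  simpa using h3

end PSys

end Pool.Agent.L5helper14.Edge
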