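import Pool.Agent.L5helper14.Edge.Sys

/-! The points at which the exponential sums over dyadic blocks are not small form a set of
Hausdorff dimension zero. -/

set_option autoImplicit false

namespace Pool.Agent.L5helper14.Edge

open Complex MeasureTheory Finset ComplexConjugate Filter Topology
open scoped Interval ENNReal NNReal

namespace PSys

variable (P : PSys) (c : P.X → ℂ)

/-- the terms -/
noncomputable def tm (t : ℝ) (x : P.X) : ℂ := c x / P.N x * cexp (-(I * P.lam x * t))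

/-- the exponential sum over a block -/
noncomputable def F (a b : ℕ) (t : ℝ) : ℂ := ∑ x ∈ P.bl a b, P.tm c t x

/-- its derivative -/
noncomputable def F' (a b : ℕ) (t : ℝ) : ℂ :=
  ∑ x ∈ P.bl a b, (c x / P.N x * (-(I * P.lam x))) * cexp (-(I * P.lam x * t))

theorem hasDerivAt_F (a b : ℕ) (t : ℝ) : HasDerivAt (P.F c a b) (P.F' c a b t) t := by
  unfold F F' tm
  refine HasDerivAt.fun_sum fun x _ => ?_
  have h1 : HasDerivAt (fun t : ℝ => -(I * P.lam x * t)) (-(I * P.lam x)) t := by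
    simpa using ((Complex.ofRealCLM.hasDerivAt (x := t)).const_mul (I * (P.lam x : ℂ))).fun_neg
  have h2 := (h1.cexp).const_mul (c x / P.N x)
  refine h2.congr_deriv ?_
  ring

theorem continuous_F' (a b : ℕ) : Continuous (P.F' c a b) := by
  unfold F'
  fun_prop

theorem continuous_F (a b : ℕ) : Continuous (P.F c a b) := by
  unfold F tm
  fun_prop

variable {c} {β : ℝ} (hβ : 0 ≤ β) (hc : ∀ x, ‖c x‖ ≤ β)

include hβ hc in
theorem mean_F {a b : ℕ} (ha : 1 ≤ a) (T : ℝ) :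
    ∫ t in T..(T + 1), ‖P.F c a b t‖ ^ 2 ≤
      8 * β ^ 2 * P.C ^ 2 * (b - a : ℕ) * H (b - a) / a ^ 2 := by
  refine (mean_sq_le (P.bl a b) (fun x => c x / P.N x) P.lam T).trans ?_
  refine P.block_sq ha (fun x => c x / P.N x) hβ (fun x _ => ?_) T
  rw [norm_div, Complex.norm_natCast, div_eq_mul_one_div]
  have := P.N_pos x
  exact mul_le_mul_of_nonneg_right (hc x) (by positivity)

include hβ hc in
theorem mean_F' {a b : ℕ} (ha : 1 ≤ a) (T : ℝ) :
    ∫ t in T..(T + 1), ‖P.F' c a b t‖ ^ 2 ≤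
      8 * (β * b) ^ 2 * P.C ^ 2 * (b - a : ℕ) * H (b - a) / a ^ 2 := by
  refine (mean_sq_le (P.bl a b) (fun x => c x / P.N x * (-(I * P.lam x))) P.lam T).trans ?_
  refine P.block_sq ha (fun x => c x / P.N x * (-(I * P.lam x))) (by positivity)
    (fun x hx => ?_) T
  rw [norm_mul, norm_div, Complex.norm_natCast, norm_neg, norm_mul, Complex.norm_I, one_mul,
    Complex.norm_real, Real.norm_of_nonneg (P.lam_nonneg x)]
  have h1 := P.N_pos x
  have h2 : P.lam x ≤ b := by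
    have h3 := (P.mem_bl.1 hx).2
    have h4 : ((P.fl x : ℕ) : ℝ) + 1 ≤ b := by exact_mod_cast h3
    linarith [P.lt_fl x]
  calc ‖c x‖ / P.N x * P.lam x ≤ β / P.N x * b :=
        mul_le_mul (div_le_div_of_nonneg_right (hc x) h1.le) h2 (P.lam_nonneg x) (by positivity)
    _ = β * b * (1 / P.N x) := by ring

/-- the local energy of the block sums over the `i`-th subinterval -/
noncomputable def en (c : P.X → ℂ) (T : ℝ) (j i : ℕ) : ℝ :=
  ∑ l ∈ range (j + 1), ∑ m ∈ range (2 ^ (j - l)),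
    (2 * (2 : ℝ) ^ (j + 1) * (∫ t in (T + i / (2 : ℝ) ^ (j + 1))..(T + (i + 1 : ℕ) / (2 : ℝ) ^ (j + 1)),
        ‖P.F c (2 ^ j + m * 2 ^ l) (2 ^ j + (m + 1) * 2 ^ l) t‖ ^ 2) +
      2 / (2 : ℝ) ^ (j + 1) *
        ∫ t in (T + i / (2 : ℝ) ^ (j + 1))..(T + (i + 1 : ℕ) / (2 : ℝ) ^ (j + 1)),
        ‖P.F' c (2 ^ j + m * 2 ^ l) (2 ^ j + (m + 1) * 2 ^ l) t‖ ^ 2)

theorem sum_int {f : ℝ → ℝ} (hf : Continuous f) (T : ℝ) (j : ℕ) :
    ∑ i ∈ range (2 ^ (j + 1)), ∫ t in (T + i / (2 : ℝ) ^ (j + 1))..(T + (i + 1 : ℕ) / (2 : ℝ) ^ (j + 1)),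
      f t = ∫ t in T..(T + 1), f t := by
  have h := intervalIntegral.sum_integral_adjacent_intervals (f := f) (μ := volume)
    (a := fun i : ℕ => T + i / (2 : ℝ) ^ (j + 1)) (n := 2 ^ (j + 1))
    (fun k _ => hf.intervalIntegrable _ _)
  rw [h]
  simp

include hβ hc in
theorem sum_en (T : ℝ) (j : ℕ) :
    ∑ i ∈ range (2 ^ (j + 1)), P.en c T j i ≤ 64 * β ^ 2 * P.C ^ 2 * (j + 1) ^ 2 := by
  unfold en
  rw [sum_comm]
  have h1 : ∀ l ∈ range (j + 1), ∑ i ∈ range (2 ^ (j + 1)), ∑ m ∈ range (2 ^ (j - l)),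
    (2 * (2 : ℝ) ^ (j + 1) * (∫ t in (T + i / (2 : ℝ) ^ (j + 1))..(T + (i + 1 : ℕ) / (2 : ℝ) ^ (j + 1)),
        ‖P.F c (2 ^ j + m * 2 ^ l) (2 ^ j + (m + 1) * 2 ^ l) t‖ ^ 2) +
      2 / (2 : ℝ) ^ (j + 1) *
        ∫ t in (T + i / (2 : ℝ) ^ (j + 1))..(T + (i + 1 : ℕ) / (2 : ℝ) ^ (j + 1)),
        ‖P.F' c (2 ^ j + m * 2 ^ l) (2 ^ j + (m + 1) * 2 ^ l) t‖ ^ 2) ≤
      64 * β ^ 2 * P.C ^ 2 * (j + 1) := by
    intro l hl
    rw [mem_range] at hl
    rw [sum_comm]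
    have h2 : ∀ m ∈ range (2 ^ (j - l)), ∑ i ∈ range (2 ^ (j + 1)),
      (2 * (2 : ℝ) ^ (j + 1) * (∫ t in (T + i / (2 : ℝ) ^ (j + 1))..(T + (i + 1 : ℕ) / (2 : ℝ) ^ (j + 1)),
          ‖P.F c (2 ^ j + m * 2 ^ l) (2 ^ j + (m + 1) * 2 ^ l) t‖ ^ 2) +
        2 / (2 : ℝ) ^ (j + 1) *
          ∫ t in (T + i / (2 : ℝ) ^ (j + 1))..(T + (i + 1 : ℕ) / (2 : ℝ) ^ (j + 1)),
          ‖P.F' c (2 ^ j + m * 2 ^ l) (2 ^ j + (m + 1) * 2 ^ l) t‖ ^ 2) ≤
        64 * β ^ 2 * P.C ^ 2 * (j + 1) / 2 ^ (j - l) := by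
      intro m hm
      rw [mem_range] at hm
      have hF := P.continuous_F c (2 ^ j + m * 2 ^ l) (2 ^ j + (m + 1) * 2 ^ l)
      have hF' := P.continuous_F' c (2 ^ j + m * 2 ^ l) (2 ^ j + (m + 1) * 2 ^ l)
      rw [sum_add_distrib, ← mul_sum, ← mul_sum,
        sum_int (f := fun t => ‖P.F c (2 ^ j + m * 2 ^ l) (2 ^ j + (m + 1) * 2 ^ l) t‖ ^ 2)
          (by fun_prop),
        sum_int (f := fun t => ‖P.F' c (2 ^ j + m * 2 ^ l) (2 ^ j + (m + 1) * 2 ^ l) t‖ ^ 2)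
          (by fun_prop)]
      set a := 2 ^ j + m * 2 ^ l with ha
      set b := 2 ^ j + (m + 1) * 2 ^ l with hb
      have hba : b - a = 2 ^ l := by
        have : (m + 1) * 2 ^ l = m * 2 ^ l + 2 ^ l := by ring
        rw [ha, hb, this, Nat.add_sub_add_left, Nat.add_sub_cancel_left]
      have ha1 : 2 ^ j ≤ a := Nat.le_add_right _ _
      have ha0 : 1 ≤ a := Nat.one_le_two_pow.trans ha1
      have hb1 : b ≤ 2 ^ (j + 1) := by
        have h3 : (m + 1) * 2 ^ l ≤ 2 ^ (j - l) * 2 ^ l := Nat.mul_le_mul_right _ hm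
        rw [← pow_add, Nat.sub_add_cancel (by omega : l ≤ j)] at h3
        rw [hb, pow_succ]
        omega
      have h4 := P.mean_F hβ hc (b := b) ha0 T
      have h5 := P.mean_F' hβ hc (b := b) ha0 T
      rw [hba] at h4 h5
      have hH : H (2 ^ l) ≤ (j : ℝ) + 1 := by
        refine (H_pow_le l).trans ?_
        have : (l : ℝ) ≤ j := by exact_mod_cast (by omega : l ≤ j)
        linarith
      have hH0 := H_nonneg (2 ^ l)
      have haR : ((2 : ℝ) ^ j) ≤ a := by exact_mod_cast ha1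
      have hbR : (b : ℝ) ≤ (2 : ℝ) ^ (j + 1) := by exact_mod_cast hb1
      have h2j : (0 : ℝ) < 2 ^ j := by positivity
      have haR0 : (0 : ℝ) < a := lt_of_lt_of_le h2j haR
      have hb0 : (0 : ℝ) ≤ b := Nat.cast_nonneg _
      set M : ℝ := 8 * β ^ 2 * P.C ^ 2 * 2 ^ l * (j + 1) / (2 ^ j) ^ 2 with hM
      have h6 : 8 * β ^ 2 * P.C ^ 2 * ((2 ^ l : ℕ) : ℝ) * H (2 ^ l) / (a : ℝ) ^ 2 ≤ M := by
        rw [hM]
        push_cast
        refine div_le_div₀ (by positivity) ?_ (by positivity) (pow_le_pow_left₀ h2j.le haR 2)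
        exact mul_le_mul_of_nonneg_left hH (by positivity)
      have h7 : 8 * (β * b) ^ 2 * P.C ^ 2 * ((2 ^ l : ℕ) : ℝ) * H (2 ^ l) / (a : ℝ) ^ 2 ≤
          ((2 : ℝ) ^ (j + 1)) ^ 2 * M := by
        have e : 8 * (β * b) ^ 2 * P.C ^ 2 * ((2 ^ l : ℕ) : ℝ) * H (2 ^ l) / (a : ℝ) ^ 2 =
          (b : ℝ) ^ 2 * (8 * β ^ 2 * P.C ^ 2 * ((2 ^ l : ℕ) : ℝ) * H (2 ^ l) / (a : ℝ) ^ 2) := by ring
        rw [e]
        exact mul_le_mul (pow_le_pow_left₀ hb0 hbR 2) h6 (by positivity) (by positivity)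
      have h8 := h4.trans h6
      have h9 := h5.trans h7
      have h10 : 2 * (2 : ℝ) ^ (j + 1) * (∫ t in T..(T + 1), ‖P.F c a b t‖ ^ 2) +
          2 / (2 : ℝ) ^ (j + 1) * (∫ t in T..(T + 1), ‖P.F' c a b t‖ ^ 2) ≤
          2 * (2 : ℝ) ^ (j + 1) * M + 2 / (2 : ℝ) ^ (j + 1) * (((2 : ℝ) ^ (j + 1)) ^ 2 * M) :=
        add_le_add (mul_le_mul_of_nonneg_left h8 (by positivity))
          (mul_le_mul_of_nonneg_left h9 (by positivity))
      refine h10.trans (le_of_eq ?_)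
      rw [hM]
      have h11 : (2 : ℝ) ^ j = 2 ^ (j - l) * 2 ^ l := by
        rw [← pow_add, Nat.sub_add_cancel (by omega : l ≤ j)]
      have h12 : (0 : ℝ) < 2 ^ (j - l) := by positivity
      have h13 : (0 : ℝ) < 2 ^ l := by positivity
      rw [pow_succ, h11]
      field_simp
      ring
    refine (sum_le_sum h2).trans (le_of_eq ?_)
    rw [sum_const, card_range, nsmul_eq_mul]
    push_cast
    field_simp
  refine (sum_le_sum h1).trans (le_of_eq ?_)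
  rw [sum_const, card_range, nsmul_eq_mul]
  push_cast
  ring

theorem en_bound (T : ℝ) {j i : ℕ} {t : ℝ}
    (ht : t ∈ Set.Icc (T + i / (2 : ℝ) ^ (j + 1)) (T + (i + 1 : ℕ) / (2 : ℝ) ^ (j + 1)))
    {l m : ℕ} (hl : l ≤ j) (hm : m < 2 ^ (j - l)) :
    ‖P.F c (2 ^ j + m * 2 ^ l) (2 ^ j + (m + 1) * 2 ^ l) t‖ ^ 2 ≤ P.en c T j i := by
  have hn : (0 : ℝ) < 2 ^ (j + 1) := by positivity
  have e : T + (i + 1 : ℕ) / (2 : ℝ) ^ (j + 1) = (T + i / (2 : ℝ) ^ (j + 1)) + 1 / (2 : ℝ) ^ (j + 1) := by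
    push_cast; ring
  have h1 := sobolev (f := P.F c (2 ^ j + m * 2 ^ l) (2 ^ j + (m + 1) * 2 ^ l))
    (P.hasDerivAt_F c _ _) (P.continuous_F' c _ _) (u := T + i / (2 : ℝ) ^ (j + 1)) hn (t := t)
    (by rwa [e] at ht)
  refine h1.trans ?_
  unfold en
  rw [e]
  have hle : T + i / (2 : ℝ) ^ (j + 1) ≤ (T + i / (2 : ℝ) ^ (j + 1)) + 1 / (2 : ℝ) ^ (j + 1) := by
    have : 0 < 1 / (2 : ℝ) ^ (j + 1) := by positivity
    linarith
  have hnn : ∀ l m : ℕ, 0 ≤ 2 * (2 : ℝ) ^ (j + 1) *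
      (∫ t in (T + i / (2 : ℝ) ^ (j + 1))..((T + i / (2 : ℝ) ^ (j + 1)) + 1 / (2 : ℝ) ^ (j + 1)),
        ‖P.F c (2 ^ j + m * 2 ^ l) (2 ^ j + (m + 1) * 2 ^ l) t‖ ^ 2) +
      2 / (2 : ℝ) ^ (j + 1) *
        ∫ t in (T + i / (2 : ℝ) ^ (j + 1))..((T + i / (2 : ℝ) ^ (j + 1)) + 1 / (2 : ℝ) ^ (j + 1)),
        ‖P.F' c (2 ^ j + m * 2 ^ l) (2 ^ j + (m + 1) * 2 ^ l) t‖ ^ 2 := by
    intro l m
    have h2 := intervalIntegral.integral_nonneg (μ := volume) hle (f := fun t =>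
      ‖P.F c (2 ^ j + m * 2 ^ l) (2 ^ j + (m + 1) * 2 ^ l) t‖ ^ 2) (fun t _ => by positivity)
    have h3 := intervalIntegral.integral_nonneg (μ := volume) hle (f := fun t =>
      ‖P.F' c (2 ^ j + m * 2 ^ l) (2 ^ j + (m + 1) * 2 ^ l) t‖ ^ 2) (fun t _ => by positivity)
    exact add_nonneg (mul_nonneg (by positivity) h2) (mul_nonneg (by positivity) h3)
  have h4 := single_le_sum (f := fun m => 2 * (2 : ℝ) ^ (j + 1) *
      (∫ t in (T + i / (2 : ℝ) ^ (j + 1))..((T + i / (2 : ℝ) ^ (j + 1)) + 1 / (2 : ℝ) ^ (j + 1)),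
        ‖P.F c (2 ^ j + m * 2 ^ l) (2 ^ j + (m + 1) * 2 ^ l) t‖ ^ 2) +
      2 / (2 : ℝ) ^ (j + 1) *
        ∫ t in (T + i / (2 : ℝ) ^ (j + 1))..((T + i / (2 : ℝ) ^ (j + 1)) + 1 / (2 : ℝ) ^ (j + 1)),
        ‖P.F' c (2 ^ j + m * 2 ^ l) (2 ^ j + (m + 1) * 2 ^ l) t‖ ^ 2) (fun m _ => hnn l m)
        (mem_range.2 hm)
  refine h4.trans ?_
  exact single_le_sum (f := fun l => ∑ m ∈ range (2 ^ (j - l)), (2 * (2 : ℝ) ^ (j + 1) *
      (∫ t in (T + i / (2 : ℝ) ^ (j + 1))..((T + i / (2 : ℝ) ^ (j + 1)) + 1 / (2 : ℝ) ^ (j + 1)),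
        ‖P.F c (2 ^ j + m * 2 ^ l) (2 ^ j + (m + 1) * 2 ^ l) t‖ ^ 2) +
      2 / (2 : ℝ) ^ (j + 1) *
        ∫ t in (T + i / (2 : ℝ) ^ (j + 1))..((T + i / (2 : ℝ) ^ (j + 1)) + 1 / (2 : ℝ) ^ (j + 1)),
        ‖P.F' c (2 ^ j + m * 2 ^ l) (2 ^ j + (m + 1) * 2 ^ l) t‖ ^ 2))
        (fun l _ => sum_nonneg fun m _ => hnn l m)
        (mem_range.2 (Nat.lt_succ_of_le hl))

/-- the threshold -/
noncomputable def eta (j : ℕ) : ℝ := 1 / ((j : ℝ) + 1) ^ 3

theorem eta_pos (j : ℕ) : 0 < eta j := by unfold eta; positivity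

open Classical in
/-- the indices of the bad subintervals -/
noncomputable def Bad (c : P.X → ℂ) (T : ℝ) (j : ℕ) : Finset ℕ :=
  (range (2 ^ (j + 1))).filter fun i => eta j ^ 2 < P.en c T j i

theorem en_nonneg (c : P.X → ℂ) (T : ℝ) (j i : ℕ) : 0 ≤ P.en c T j i := by
  have h := P.en_bound (c := c) T (j := j) (i := i) (t := T + i / (2 : ℝ) ^ (j + 1)) (by
    refine ⟨le_rfl, ?_⟩
    push_cast
    have : 0 < 1 / (2 : ℝ) ^ (j + 1) := by positivity
    have e : (i + 1 : ℝ) / (2 : ℝ) ^ (j + 1) = i / (2 : ℝ) ^ (j + 1) + 1 / (2 : ℝ) ^ (j + 1) := by ring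
    rw [e]
    linarith) (l := 0) (m := 0) (Nat.zero_le _) (by positivity)
  exact (sq_nonneg _).trans h

include hβ hc in
theorem card_Bad (T : ℝ) (j : ℕ) :
    ((P.Bad c T j).card : ℝ) ≤ 64 * β ^ 2 * P.C ^ 2 * (j + 1) ^ 8 := by
  classical
  have h1 : ((P.Bad c T j).card : ℝ) * eta j ^ 2 ≤ 64 * β ^ 2 * P.C ^ 2 * (j + 1) ^ 2 := by
    refine le_trans ?_ (P.sum_en hβ hc T j)
    rw [← nsmul_eq_mul, ← sum_const]
    refine (sum_le_sum (f := fun _ => eta j ^ 2) (g := fun i => P.en c T j i)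
      fun i hi => ((mem_filter.1 hi).2).le).trans ?_
    exact sum_le_sum_of_subset_of_nonneg (filter_subset _ _) fun i _ _ => P.en_nonneg c T j i
  have h2 : ((P.Bad c T j).card : ℝ) = ((P.Bad c T j).card : ℝ) * eta j ^ 2 * (j + 1) ^ 6 := by
    unfold eta
    field_simp
  rw [h2]
  calc ((P.Bad c T j).card : ℝ) * eta j ^ 2 * (j + 1) ^ 6
      ≤ 64 * β ^ 2 * P.C ^ 2 * (j + 1) ^ 2 * (j + 1) ^ 6 :=
        mul_le_mul_of_nonneg_right h1 (by positivity)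
    _ = _ := by ring

/-- the exceptional points near `T` -/
def exc (c : P.X → ℂ) (T : ℝ) : Set ℝ :=
  {t | ∃ᶠ j : ℕ in atTop, ∃ i ∈ P.Bad c T j,
    t ∈ Set.Icc (T + i / (2 : ℝ) ^ (j + 1)) (T + (i + 1 : ℕ) / (2 : ℝ) ^ (j + 1))}

include hβ hc in
theorem dimH_exc (T : ℝ) : dimH (P.exc c T) = 0 := by
  classical
  have key : ∀ d : ℝ≥0, 0 < d → dimH (P.exc c T) ≤ d := by
    intro d hd
    have hd' : (0 : ℝ) < d := hd
    apply dimH_le_of_hausdorffMeasure_ne_top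
    set S : ℕ → (ℕ × ℕ) → Set ℝ := fun J p =>
      if J ≤ p.1 ∧ p.2 ∈ P.Bad c T p.1 then
        Set.Icc (T + p.2 / (2 : ℝ) ^ (p.1 + 1)) (T + (p.2 + 1 : ℕ) / (2 : ℝ) ^ (p.1 + 1)) else ∅
      with hS
    set r : ℕ → ℝ≥0∞ := fun J => ENNReal.ofReal ((1 / 2 : ℝ) ^ (J + 1)) with hr
    have hdiam : ∀ J p, Metric.ediam (S J p) ≤
        if J ≤ p.1 ∧ p.2 ∈ P.Bad c T p.1 then ENNReal.ofReal ((1 / 2 : ℝ) ^ (p.1 + 1)) else 0 := by
      intro J p
      rw [hS]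
      simp only
      split_ifs with h
      · rw [Real.ediam_Icc]
        apply ENNReal.ofReal_le_ofReal
        push_cast
        rw [one_div, inv_pow]
        have : (0 : ℝ) < 2 ^ (p.1 + 1) := by positivity
        apply le_of_eq
        field_simp
        ring
      · simp
    have h1 : μH[d] (P.exc c T) ≤ liminf (fun J => ∑' p, Metric.ediam (S J p) ^ (d : ℝ)) atTop := by
      refine Measure.hausdorffMeasure_le_liminf_tsum (ι := fun _ : ℕ => ℕ × ℕ) (d : ℝ) (P.exc c T) r ?_ S ?_ ?_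
      · rw [hr]
        rw [show (0 : ℝ≥0∞) = ENNReal.ofReal 0 by simp]
        apply ENNReal.tendsto_ofReal
        exact (tendsto_pow_atTop_nhds_zero_of_lt_one (by norm_num) (by norm_num)).comp
          (tendsto_add_atTop_nat 1)
      · refine Eventually.of_forall fun J p => (hdiam J p).trans ?_
        split_ifs with h
        · apply ENNReal.ofReal_le_ofReal
          exact pow_le_pow_of_le_one (by norm_num) (by norm_num) (by omega)
        · exact zero_le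
      · refine Eventually.of_forall fun J t ht => ?_
        obtain ⟨j, ⟨i, hi, hti⟩, hj⟩ := (Frequently.and_eventually ht
          (eventually_ge_atTop J)).exists
        rw [Set.mem_iUnion]
        refine ⟨(j, i), ?_⟩
        rw [hS]
        simp only
        rw [if_pos ⟨hj, hi⟩]
        exact hti
    refine ne_top_of_le_ne_top ?_ h1
    set g : ℕ → ℝ := fun j => 64 * β ^ 2 * P.C ^ 2 * ((j + 1 : ℕ) : ℝ) ^ 8 *
      ((1 / 2 : ℝ) ^ (d : ℝ)) ^ (j + 1) with hg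
    have hg0 : ∀ j, 0 ≤ g j := fun j => by rw [hg]; positivity
    have hgs : Summable g := by
      have hlt : ‖((1 / 2 : ℝ) ^ (d : ℝ))‖ < 1 := by
        rw [Real.norm_of_nonneg (by positivity)]
        exact Real.rpow_lt_one (by norm_num) (by norm_num) hd'
      have h2 := summable_pow_mul_geometric_of_norm_lt_one 8 hlt
      have h3 := (summable_nat_add_iff 1).2 h2
      have h4 := h3.mul_left (64 * β ^ 2 * P.C ^ 2)
      refine h4.congr fun j => ?_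
      rw [hg]
      ring
    have hbound : ∀ J, ∑' p, Metric.ediam (S J p) ^ (d : ℝ) ≤ ∑' j, ENNReal.ofReal (g j) := by
      intro J
      rw [ENNReal.tsum_prod']
      refine ENNReal.tsum_le_tsum fun j => ?_
      have h5 : ∀ i, Metric.ediam (S J (j, i)) ^ (d : ℝ) ≤
          if i ∈ P.Bad c T j then ENNReal.ofReal ((1 / 2 : ℝ) ^ (j + 1)) ^ (d : ℝ) else 0 := by
        intro i
        have h6 := hdiam J (j, i)
        simp only at h6
        split_ifs with h7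
        · refine ENNReal.rpow_le_rpow (h6.trans ?_) hd'.le
          split_ifs
          · exact le_rfl
          · exact zero_le
        · rw [if_neg (fun h => h7 h.2)] at h6
          have h8 : Metric.ediam (S J (j, i)) = 0 := le_antisymm h6 zero_le
          rw [h8, ENNReal.zero_rpow_of_pos hd']
      refine (ENNReal.tsum_le_tsum h5).trans ?_
      rw [tsum_eq_sum (s := P.Bad c T j) (fun i hi => if_neg hi), sum_ite_of_true (fun i hi => hi),
        sum_const, nsmul_eq_mul]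
      rw [ENNReal.ofReal_rpow_of_nonneg (by positivity) hd'.le]
      have h9 : ((P.Bad c T j).card : ℝ≥0∞) = ENNReal.ofReal ((P.Bad c T j).card : ℝ) := by
        rw [ENNReal.ofReal_natCast]
      rw [h9, ← ENNReal.ofReal_mul (Nat.cast_nonneg _)]
      apply ENNReal.ofReal_le_ofReal
      rw [hg]
      have h10 : ((1 / 2 : ℝ) ^ (j + 1)) ^ (d : ℝ) = ((1 / 2 : ℝ) ^ (d : ℝ)) ^ (j + 1) := by
        rw [← Real.rpow_natCast, ← Real.rpow_mul (by norm_num), mul_comm,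
          Real.rpow_mul (by norm_num), Real.rpow_natCast]
      rw [h10]
      refine mul_le_mul_of_nonneg_right ?_ (by positivity)
      have := P.card_Bad hβ hc T j
      push_cast
      exact this
    have h11 : liminf (fun J => ∑' p, Metric.ediam (S J p) ^ (d : ℝ)) atTop ≤
        ∑' j, ENNReal.ofReal (g j) := by
      refine (liminf_le_liminf (Eventually.of_forall hbound)).trans ?_
      simp
    refine ne_top_of_le_ne_top ?_ h11
    rw [← ENNReal.ofReal_tsum_of_nonneg hg0 hgs]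
    exact ENNReal.ofReal_ne_top
  refine le_antisymm ?_ zero_le
  refine ENNReal.le_of_forall_pos_le_add fun ε hε _ => ?_
  rw [zero_add]
  exact key ε hε

end PSys

end Pool.Agent.L5helper14.Edge
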