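import Mathlib

/-! Arithmetic functions supported on the powers of one integer, and their finite products. -/

set_option autoImplicit false

namespace Pool.Agent.L5helper14.Edge.D

open ArithmeticFunction Filter Topology

section
variable {R : Type} [CommSemiring R]

/-- the arithmetic function with value `a ^ k` at `q ^ k`, zero elsewhere -/
noncomputable def geo (q : ℕ) (a : R) : ArithmeticFunction R :=
  ⟨fun n => if q ^ Nat.log q n = n then a ^ Nat.log q n else 0, by simp⟩

theorem geo_apply (q : ℕ) (a : R) (n : ℕ) :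
    geo q a n = if q ^ Nat.log q n = n then a ^ Nat.log q n else 0 := rfl

theorem geo_pow {q : ℕ} (hq : 2 ≤ q) (a : R) (k : ℕ) : geo q a (q ^ k) = a ^ k := by
  rw [geo_apply, Nat.log_pow (by omega), if_pos rfl]

theorem geo_zero {q : ℕ} (a : R) {n : ℕ} (h : ∀ k, n ≠ q ^ k) : geo q a n = 0 := by
  rw [geo_apply, if_neg]
  intro h'
  exact h _ h'.symm

theorem geo_one' (q : ℕ) (a : R) : geo q a 1 = 1 := by
  rw [geo_apply]
  simp

/-- identity up to `n` -/
def IdUp (n : ℕ) (G : ArithmeticFunction R) : Prop := G 1 = 1 ∧ ∀ d, 1 < d → d ≤ n → G d = 0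

theorem idUp_geo {q n : ℕ} (hq : n < q) (a : R) : IdUp n (geo q a) := by
  refine ⟨geo_one' q a, fun d h1 h2 => geo_zero a fun k hk => ?_⟩
  rcases Nat.eq_zero_or_pos k with rfl | hk0
  · simp at hk; omega
  · have : q ≤ q ^ k := Nat.le_self_pow (by omega) q
    omega

theorem idUp_one (n : ℕ) : IdUp n (1 : ArithmeticFunction R) :=
  ⟨by simp, fun d h1 _ => by rw [one_apply_ne (by omega)]⟩

theorem mul_idUp {n : ℕ} {F G : ArithmeticFunction R} (hG : IdUp n G) {m : ℕ} (hm : m ≤ n) :
    (F * G) m = F m := by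
  rcases Nat.eq_zero_or_pos m with rfl | hm0
  · simp
  rw [mul_apply, Finset.sum_eq_single (m, 1)]
  · rw [hG.1, mul_one]
  · rintro ⟨x, y⟩ hx hne
    rw [Nat.mem_divisorsAntidiagonal] at hx
    obtain ⟨h1, h2⟩ := hx
    simp only at h1
    rcases Nat.lt_or_ge 1 y with hy | hy
    · have : y ≤ m := by
        rw [← h1]
        exact Nat.le_mul_of_pos_left y (by
          rcases Nat.eq_zero_or_pos x with rfl | h
          · simp at h1; omega
          · exact h)
      rw [hG.2 y hy (by omega), mul_zero]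
    · exfalso
      interval_cases y
      · simp at h1; omega
      · simp at h1
        exact hne (by rw [h1])
  · intro h
    exfalso
    apply h
    rw [Nat.mem_divisorsAntidiagonal]
    exact ⟨mul_one m, by omega⟩

theorem IdUp.mul {n : ℕ} {F G : ArithmeticFunction R} (hF : IdUp n F) (hG : IdUp n G) :
    IdUp n (F * G) := by
  refine ⟨?_, fun d h1 h2 => ?_⟩
  · rw [mul_apply]
    simp [hF.1, hG.1]
  · rw [mul_idUp hG h2, hF.2 d h1 h2]

theorem IdUp.prod {n : ℕ} {X : Type} (S : Finset X) {F : X → ArithmeticFunction R}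
    (h : ∀ x ∈ S, IdUp n (F x)) : IdUp n (∏ x ∈ S, F x) := by
  classical
  induction S using Finset.induction_on with
  | empty => simpa using idUp_one n
  | insert a S ha ih =>
    rw [Finset.prod_insert ha]
    exact (h a (Finset.mem_insert_self _ _)).mul (ih fun x hx => h x (Finset.mem_insert_of_mem hx))

/-- multiplicativity of `geo` at prime powers -/
theorem geo_mult {p f : ℕ} (hp : p.Prime) (hf : f ≠ 0) (a : R) : (geo (p ^ f) a).IsMultiplicative := by
  refine ⟨geo_one' _ _, ?_⟩
  intro m n hmn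
  have hq : 2 ≤ p ^ f := le_trans hp.two_le (Nat.le_self_pow hf p)
  by_cases h : ∃ k, m * n = (p ^ f) ^ k
  · obtain ⟨k, hk⟩ := h
    have h1 : m ∣ p ^ (f * k) := by rw [pow_mul, ← hk]; exact dvd_mul_right _ _
    have h2 : n ∣ p ^ (f * k) := by rw [pow_mul, ← hk]; exact dvd_mul_left _ _
    obtain ⟨i, _, hi⟩ := (Nat.dvd_prime_pow hp).1 h1
    obtain ⟨j, _, hj⟩ := (Nat.dvd_prime_pow hp).1 h2
    rcases Nat.eq_zero_or_pos i with rfl | hi0
    · rw [hi, pow_zero, one_mul, geo_one', one_mul]
    rcases Nat.eq_zero_or_pos j with rfl | hj0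
    · rw [hj, pow_zero, mul_one, geo_one', mul_one]
    exfalso
    rw [hi, hj] at hmn
    have h3 := Nat.Coprime.eq_one_of_dvd (hmn.coprime_dvd_left (dvd_pow_self p (by omega)))
      (dvd_pow_self p (by omega))
    exact hp.one_lt.ne' h3
  · push Not at h
    rw [geo_zero a h]
    by_cases hm : ∃ k, m = (p ^ f) ^ k
    · obtain ⟨k, hk⟩ := hm
      have hn : ∀ l, n ≠ (p ^ f) ^ l := by
        intro l hl
        exact h (k + l) (by rw [hk, hl, pow_add])
      rw [geo_zero a hn, mul_zero]
    · push Not at hm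
      rw [geo_zero a hm, zero_mul]

end

theorem isMultiplicative_prod {X : Type} (S : Finset X) {F : X → ArithmeticFunction ℂ}
    (h : ∀ x ∈ S, (F x).IsMultiplicative) : (∏ x ∈ S, F x).IsMultiplicative := by
  classical
  induction S using Finset.induction_on with
  | empty => simp [isMultiplicative_one]
  | insert a S ha ih =>
    rw [Finset.prod_insert ha]
    exact (h a (Finset.mem_insert_self _ _)).mul (ih fun x hx => h x (Finset.mem_insert_of_mem hx))

theorem LSeriesHasSum_prod {X : Type} (S : Finset X) {F : X → ArithmeticFunction ℂ} {s : ℂ} {w : X → ℂ}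
    (h : ∀ x ∈ S, LSeriesHasSum (fun n => (F x) n) s (w x)) : LSeriesHasSum (fun n => (∏ x ∈ S, F x) n) s (∏ x ∈ S, w x) := by
  classical
  induction S using Finset.induction_on with
  | empty =>
    simp only [Finset.prod_empty]
    unfold LSeriesHasSum
    have h1 : (1 : ℂ) = LSeries.term (fun n => (1 : ArithmeticFunction ℂ) n) s 1 := by
      rw [LSeries.term_of_ne_zero one_ne_zero]
      simp
    rw [h1]
    refine hasSum_single 1 fun n hn => ?_
    rcases Nat.eq_zero_or_pos n with rfl | hn0
    · simp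
    · rw [LSeries.term_of_ne_zero hn0.ne', one_apply_ne hn, zero_div]
  | insert a S ha ih =>
    rw [Finset.prod_insert ha, Finset.prod_insert ha]
    exact LSeriesHasSum_mul (h a (Finset.mem_insert_self _ _)) (ih fun x hx => h x (Finset.mem_insert_of_mem hx))

theorem natpow_cpow (q k : ℕ) (s : ℂ) : ((q ^ k : ℕ) : ℂ) ^ s = ((q : ℂ) ^ s) ^ k := by
  induction k with
  | zero => simp
  | succ k ih => rw [pow_succ, Nat.cast_mul, Complex.natCast_mul_natCast_cpow, ih, pow_succ]

theorem LSeriesHasSum_geo {q : ℕ} (hq : 2 ≤ q) {a s : ℂ} (h : ‖a * (q : ℂ) ^ (-s)‖ < 1) :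
    LSeriesHasSum (fun n => (geo q a) n) s (1 - a * (q : ℂ) ^ (-s))⁻¹ := by
  have hinj : Function.Injective fun k : ℕ => q ^ k := Nat.pow_right_injective hq
  unfold LSeriesHasSum
  rw [← hinj.hasSum_iff]
  · have h1 : (LSeries.term (fun n => geo q a n) s) ∘ (fun k : ℕ => q ^ k) = fun k => (a * (q : ℂ) ^ (-s)) ^ k := by
      funext k
      simp only [Function.comp_apply]
      rw [LSeries.term_of_ne_zero (by positivity), geo_pow hq, mul_pow, Complex.cpow_neg, inv_pow, div_eq_mul_inv]
      rw [natpow_cpow]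
    rw [h1]
    exact hasSum_geometric_of_norm_lt_one h
  · intro n hn
    rw [LSeries.term]
    split_ifs
    · rfl
    · rw [geo_zero a fun k hk => hn ⟨k, hk.symm⟩, zero_div]

end Pool.Agent.L5helper14.Edge.D
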