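import Pool.Agent.L5helper14.Edge.Dir

/-! Dirichlet coefficients of an Euler product with quadratic factors. -/

set_option autoImplicit false

namespace Pool.Agent.L5helper14.Edge.D

open ArithmeticFunction Filter Topology Finset

section
variable {R : Type} [CommSemiring R] {X : Type} {N : X → ℕ} (hfin : ∀ n, {x | N x ≤ n}.Finite)

/-- limit of the finite products -/
noncomputable def lim (g : X → ArithmeticFunction R) : ArithmeticFunction R :=
  ⟨fun n => (∏ x ∈ (hfin n).toFinset, g x) n, by simp⟩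

variable {hfin}

theorem prod_eq_lim {g : X → ArithmeticFunction R} (hg : ∀ x n, n < N x → IdUp n (g x)) {n : ℕ}
    {S : Finset X} (hS : (hfin n).toFinset ⊆ S) : (∏ x ∈ S, g x) n = lim hfin g n := by
  classical
  rw [← prod_sdiff hS, mul_comm, mul_idUp (n := n) _ le_rfl]
  · rfl
  · refine IdUp.prod _ fun x hx => hg x n ?_
    rw [Finset.mem_sdiff, Set.Finite.mem_toFinset] at hx
    exact not_le.1 hx.2

end

theorem lim_mult {X : Type} {N : X → ℕ} {hfin : ∀ n, {x | N x ≤ n}.Finite}
    {g : X → ArithmeticFunction ℂ} (hg : ∀ x n, n < N x → IdUp n (g x))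
    (hm : ∀ x, (g x).IsMultiplicative) : (lim hfin g).IsMultiplicative := by
  classical
  constructor
  · rw [← prod_eq_lim hg (S := (hfin 1).toFinset) subset_rfl]
    exact (isMultiplicative_prod _ fun x _ => hm x).1
  · intro m n hmn
    set S := (hfin m).toFinset ∪ ((hfin n).toFinset ∪ (hfin (m * n)).toFinset) with hS
    rw [← prod_eq_lim hg (S := S) (n := m * n) (fun x hx => by simp [hS] at hx ⊢; tauto),
      ← prod_eq_lim hg (S := S) (n := m) (fun x hx => by simp [hS] at hx ⊢; tauto),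
      ← prod_eq_lim hg (S := S) (n := n) (fun x hx => by simp [hS] at hx ⊢; tauto)]
    exact (isMultiplicative_prod _ fun x _ => hm x).2 hmn

/-- complexification -/
noncomputable def castA (F : ArithmeticFunction ℝ) : ArithmeticFunction ℂ := ⟨fun n => (F n : ℂ), by simp⟩

theorem castA_apply (F : ArithmeticFunction ℝ) (n : ℕ) : castA F n = (F n : ℂ) := rfl

theorem castA_mul (F G : ArithmeticFunction ℝ) : castA (F * G) = castA F * castA G := by
  ext n
  rw [castA_apply, mul_apply, mul_apply]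
  push_cast
  rfl

theorem castA_one : castA 1 = 1 := by
  ext n
  rw [castA_apply, one_apply, one_apply]
  split_ifs <;> simp

theorem castA_prod {X : Type} (S : Finset X) (F : X → ArithmeticFunction ℝ) :
    castA (∏ x ∈ S, F x) = ∏ x ∈ S, castA (F x) := by
  classical
  induction S using Finset.induction_on with
  | empty => simp [castA_one]
  | insert a S ha ih => rw [prod_insert ha, prod_insert ha, castA_mul, ih]

theorem castA_geo (q : ℕ) (a : ℝ) : castA (geo q a) = geo q (a : ℂ) := by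
  ext n
  rw [castA_apply, geo_apply, geo_apply]
  split_ifs <;> simp

/-- nonnegative -/
def NN (F : ArithmeticFunction ℝ) : Prop := ∀ n, 0 ≤ F n

theorem NN.mul {F G : ArithmeticFunction ℝ} (hF : NN F) (hG : NN G) : NN (F * G) := by
  intro n
  rw [mul_apply]
  exact sum_nonneg fun x _ => mul_nonneg (hF _) (hG _)

theorem NN_one : NN 1 := by
  intro n
  rw [one_apply]
  split_ifs <;> norm_num

theorem NN.prod {X : Type} (S : Finset X) {F : X → ArithmeticFunction ℝ} (h : ∀ x, NN (F x)) :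
    NN (∏ x ∈ S, F x) := by
  classical
  induction S using Finset.induction_on with
  | empty => simpa using NN_one
  | insert a S ha ih => rw [prod_insert ha]; exact (h a).mul ih

theorem NN_geo (q : ℕ) {a : ℝ} (ha : 0 ≤ a) : NN (geo q a) := by
  intro n
  rw [geo_apply]
  split_ifs
  · positivity
  · exact le_rfl

/-- domination -/
def Dom (F : ArithmeticFunction ℂ) (G : ArithmeticFunction ℝ) : Prop := ∀ n, ‖F n‖ ≤ G n

theorem Dom.mul {F F' : ArithmeticFunction ℂ} {G G' : ArithmeticFunction ℝ} (h : Dom F G)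
    (h' : Dom F' G') : Dom (F * F') (G * G') := by
  intro n
  rw [mul_apply, mul_apply]
  refine (norm_sum_le _ _).trans (sum_le_sum fun x _ => ?_)
  rw [norm_mul]
  exact mul_le_mul (h _) (h' _) (norm_nonneg _) ((norm_nonneg _).trans (h _))

theorem Dom_one : Dom 1 1 := by
  intro n
  rw [one_apply, one_apply]
  split_ifs <;> simp

theorem Dom.prod {X : Type} (S : Finset X) {F : X → ArithmeticFunction ℂ} {G : X → ArithmeticFunction ℝ}
    (h : ∀ x, Dom (F x) (G x)) : Dom (∏ x ∈ S, F x) (∏ x ∈ S, G x) := by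
  classical
  induction S using Finset.induction_on with
  | empty => simpa using Dom_one
  | insert a S ha ih => rw [prod_insert ha, prod_insert ha]; exact (h a).mul ih

theorem Dom_geo (q : ℕ) (a : ℂ) : Dom (geo q a) (geo q ‖a‖) := by
  intro n
  rw [geo_apply, geo_apply]
  split_ifs <;> simp

theorem le_mul_NN {F G : ArithmeticFunction ℝ} (hF : NN F) (hG : NN G) (hG1 : G 1 = 1) (n : ℕ) :
    F n ≤ (F * G) n := by
  rcases Nat.eq_zero_or_pos n with rfl | hn
  · simp
  rw [mul_apply]
  have h1 : F n = F ((n, 1) : ℕ × ℕ).1 * G ((n, 1) : ℕ × ℕ).2 := by simp [hG1]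
  rw [h1]
  exact single_le_sum (f := fun x : ℕ × ℕ => F x.1 * G x.2) (fun x _ => mul_nonneg (hF _) (hG _))
    (by rw [Nat.mem_divisorsAntidiagonal]; exact ⟨mul_one n, by omega⟩)

section
variable {X : Type} {N : X → ℕ} (hN : ∀ x, 2 ≤ N x) {hfin : ∀ n, {x | N x ≤ n}.Finite} {α β : X → ℂ}

/-- the arithmetic function of the factor at `x` -/
noncomputable def gx (N : X → ℕ) (α β : X → ℂ) (x : X) : ArithmeticFunction ℂ :=
  geo (N x) (α x) * geo (N x) (β x)

/-- its majorant -/
noncomputable def rx (N : X → ℕ) (α β : X → ℂ) (x : X) : ArithmeticFunction ℝ :=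
  geo (N x) ‖α x‖ * geo (N x) ‖β x‖

theorem gx_idUp (x : X) (n : ℕ) (h : n < N x) : IdUp n (gx N α β x) :=
  (idUp_geo h _).mul (idUp_geo h _)

theorem rx_idUp (x : X) (n : ℕ) (h : n < N x) : IdUp n (rx N α β x) :=
  (idUp_geo h _).mul (idUp_geo h _)

theorem rx_NN (x : X) : NN (rx N α β x) := (NN_geo _ (norm_nonneg _)).mul (NN_geo _ (norm_nonneg _))

theorem gx_dom (x : X) : Dom (gx N α β x) (rx N α β x) := (Dom_geo _ _).mul (Dom_geo _ _)

include hN in
theorem rprod_le (S : Finset X) (n : ℕ) : (∏ x ∈ S, rx N α β x) n ≤ lim hfin (rx N α β) n := by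
  classical
  rcases Nat.eq_zero_or_pos n with rfl | hn
  · simp
  have h1 := prod_eq_lim (hfin := hfin) (g := rx N α β) rx_idUp (n := n) (S := S ∪ (hfin n).toFinset)
    subset_union_right
  rw [← h1, ← prod_sdiff (subset_union_left (s₁ := S) (s₂ := (hfin n).toFinset)), mul_comm (∏ x ∈ _, _)]
  refine le_mul_NN (NN.prod _ rx_NN) (NN.prod _ rx_NN) ?_ n
  have h2 : IdUp 0 (∏ x ∈ (S ∪ (hfin n).toFinset) \ S, rx N α β x) := IdUp.prod _ fun x _ =>
    rx_idUp x 0 (by have := hN x; omega)
  exact h2.1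

include hN in
/-- the sum of the majorant over a finite product -/
theorem hasSum_rprod {σ : ℝ} (h1 : ∀ x, ‖α x‖ * (N x : ℝ) ^ (-σ) < 1)
    (h2 : ∀ x, ‖β x‖ * (N x : ℝ) ^ (-σ) < 1) (S : Finset X) :
    HasSum (fun n : ℕ => if n = 0 then (0:ℝ) else (∏ x ∈ S, rx N α β x) n / (n : ℝ) ^ σ)
      (∏ x ∈ S, ((1 - ‖α x‖ * (N x : ℝ) ^ (-σ))⁻¹ * (1 - ‖β x‖ * (N x : ℝ) ^ (-σ))⁻¹)) := by
  have h3 : LSeriesHasSum (fun n => (∏ x ∈ S, gx N (fun x => (‖α x‖ : ℂ)) (fun x => (‖β x‖ : ℂ)) x) n) (σ : ℂ)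
      (∏ x ∈ S, ((1 - (‖α x‖ : ℂ) * (N x : ℂ) ^ (-(σ : ℂ)))⁻¹ * (1 - (‖β x‖ : ℂ) * (N x : ℂ) ^ (-(σ : ℂ)))⁻¹)) := by
    refine LSeriesHasSum_prod S fun x _ => LSeriesHasSum_mul ?_ ?_
    · refine LSeriesHasSum_geo (hN x) ?_
      rw [norm_mul, Complex.norm_real, norm_norm, Complex.norm_natCast_cpow_of_pos (by have := hN x; omega)]
      simpa using h1 x
    · refine LSeriesHasSum_geo (hN x) ?_
      rw [norm_mul, Complex.norm_real, norm_norm, Complex.norm_natCast_cpow_of_pos (by have := hN x; omega)]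
      simpa using h2 x
  have e : (∏ x ∈ S, gx N (fun x => (‖α x‖ : ℂ)) (fun x => (‖β x‖ : ℂ)) x) = castA (∏ x ∈ S, rx N α β x) := by
    rw [castA_prod]
    refine prod_congr rfl fun x _ => ?_
    rw [rx, castA_mul, castA_geo, castA_geo]
    rfl
  rw [e] at h3
  rw [← Complex.hasSum_ofReal]
  unfold LSeriesHasSum at h3
  convert h3 using 1
  · funext n
    rw [LSeries.term]
    split_ifs with hn
    · simp
    · rw [castA_apply]
      push_cast
      rw [Complex.ofReal_cpow (by positivity)]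
      simp
  · push_cast
    refine prod_congr rfl fun x _ => ?_
    rw [Complex.ofReal_cpow (by positivity)]
    simp

include hN in
/-- **the Dirichlet series of the Euler product** -/
theorem lim_hasSum {s ℓ : ℂ} {C : ℝ} (h1 : ∀ x, ‖α x‖ * (N x : ℝ) ^ (-s.re) < 1)
    (h2 : ∀ x, ‖β x‖ * (N x : ℝ) ^ (-s.re) < 1)
    (hC : ∀ S : Finset X, ∏ x ∈ S, ((1 - ‖α x‖ * (N x : ℝ) ^ (-s.re))⁻¹ *
      (1 - ‖β x‖ * (N x : ℝ) ^ (-s.re))⁻¹) ≤ C)
    (hL : HasProd (fun x => (1 - α x * (N x : ℂ) ^ (-s))⁻¹ * (1 - β x * (N x : ℂ) ^ (-s))⁻¹) ℓ) :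
    LSeriesHasSum (fun n => (lim hfin (gx N α β)) n) s ℓ := by
  classical
  set σ := s.re with hσ
  set bd : ℕ → ℝ := fun n => if n = 0 then (0:ℝ) else lim hfin (rx N α β) n / (n : ℝ) ^ σ with hbd
  have hbd0 : ∀ n, 0 ≤ bd n := by
    intro n
    simp only [hbd]
    split_ifs
    · exact le_rfl
    · have h3 : 0 ≤ lim hfin (rx N α β) n :=
        le_trans ((NN.prod ∅ rx_NN : NN (∏ x ∈ (∅ : Finset X), rx N α β x)) n) (rprod_le hN ∅ n)
      positivity
  have hsum : Summable bd := by
    refine summable_of_sum_le hbd0 (c := C) fun T => ?_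
    set S := T.biUnion fun n => (hfin n).toFinset with hS
    have h3 : ∑ n ∈ T, bd n = ∑ n ∈ T, (if n = 0 then (0:ℝ) else (∏ x ∈ S, rx N α β x) n / (n : ℝ) ^ σ) := by
      refine sum_congr rfl fun n hn => ?_
      simp only [hbd]
      rw [prod_eq_lim (hfin := hfin) rx_idUp (n := n) (S := S)
        (subset_biUnion_of_mem (fun n => (hfin n).toFinset) hn)]
    rw [h3]
    have h4 := hasSum_rprod hN h1 h2 S
    refine (h4.summable.sum_le_tsum T fun n _ => ?_).trans (h4.tsum_eq.le.trans (hC S))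
    split_ifs
    · exact le_rfl
    · exact div_nonneg (NN.prod _ rx_NN n) (by positivity)
  have hterm : ∀ (S : Finset X) (n : ℕ), ‖LSeries.term (fun n => (∏ x ∈ S, gx N α β x) n) s n‖ ≤ bd n := by
    intro S n
    rw [LSeries.norm_term_eq]
    simp only [hbd]
    split_ifs with hn
    · exact le_rfl
    · gcongr
      exact ((Dom.prod S gx_dom) n).trans (rprod_le hN S n)
  have hlim : Tendsto (fun S : Finset X => ∑' n, LSeries.term (fun n => (∏ x ∈ S, gx N α β x) n) s n) atTop
      (𝓝 (∑' n, LSeries.term (fun n => lim hfin (gx N α β) n) s n)) := by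
    refine tendsto_tsum_of_dominated_convergence hsum (fun n => ?_)
      (Eventually.of_forall fun S n => hterm S n)
    refine tendsto_const_nhds.congr' ?_
    filter_upwards [eventually_ge_atTop ((hfin n).toFinset)] with S hS
    rw [LSeries.term, LSeries.term, prod_eq_lim (hfin := hfin) gx_idUp hS]
  have hval : ∀ S : Finset X, ∑' n, LSeries.term (fun n => (∏ x ∈ S, gx N α β x) n) s n =
      ∏ x ∈ S, ((1 - α x * (N x : ℂ) ^ (-s))⁻¹ * (1 - β x * (N x : ℂ) ^ (-s))⁻¹) := by
    intro S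
    refine (LSeriesHasSum_prod S fun x _ => LSeriesHasSum_mul ?_ ?_).tsum_eq
    · refine LSeriesHasSum_geo (hN x) ?_
      rw [norm_mul, Complex.norm_natCast_cpow_of_pos (by have := hN x; omega)]
      simpa using h1 x
    · refine LSeriesHasSum_geo (hN x) ?_
      rw [norm_mul, Complex.norm_natCast_cpow_of_pos (by have := hN x; omega)]
      simpa using h2 x
  have hL' : ∑' n, LSeries.term (fun n => lim hfin (gx N α β) n) s n = ℓ :=
    tendsto_nhds_unique hlim ((tendsto_congr hval).2 hL)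
  have hs2 : Summable (LSeries.term (fun n => lim hfin (gx N α β) n) s) := by
    refine Summable.of_norm_bounded hsum fun n => ?_
    have h5 := hterm (hfin n).toFinset n
    rwa [LSeries.norm_term_eq, prod_eq_lim (hfin := hfin) gx_idUp subset_rfl, ← LSeries.norm_term_eq] at h5
  have := hs2.hasSum
  rw [hL'] at this
  exact this

end

end Pool.Agent.L5helper14.Edge.D
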