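import Pool.Agent.L5helper14.Edge.Dir2

/-! Restriction of an arithmetic function to the powers of a prime, and the linear independence of
multiplicative functions. -/

set_option autoImplicit false

namespace Pool.Agent.L5helper14.Edge.D

open ArithmeticFunction Filter Topology Finset

/-- restriction to the powers of `p` -/
noncomputable def rp (p : ℕ) (F : ArithmeticFunction ℂ) : ArithmeticFunction ℂ :=
  ⟨fun n => if p ^ Nat.log p n = n then F n else 0, by simp⟩

theorem rp_pow {p : ℕ} (hp : p.Prime) (F : ArithmeticFunction ℂ) (k : ℕ) : rp p F (p ^ k) = F (p ^ k) := by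
  change (if _ then _ else _) = _
  rw [Nat.log_pow hp.one_lt, if_pos rfl]

theorem rp_zero {p : ℕ} (F : ArithmeticFunction ℂ) {n : ℕ} (h : ∀ k, n ≠ p ^ k) : rp p F n = 0 := by
  change (if _ then _ else _) = _
  rw [if_neg]
  intro h'
  exact h _ h'.symm

theorem rp_one {p : ℕ} (hp : p.Prime) : rp p 1 = 1 := by
  ext n
  by_cases h : ∃ k, n = p ^ k
  · obtain ⟨k, rfl⟩ := h
    rw [rp_pow hp]
  · push Not at h
    rw [rp_zero _ h, one_apply_ne]
    intro h1
    exact h 0 (by rw [h1, pow_zero])

theorem rp_mul {p : ℕ} (hp : p.Prime) (F G : ArithmeticFunction ℂ) : rp p (F * G) = rp p F * rp p G := by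
  ext n
  by_cases h : ∃ k, n = p ^ k
  · obtain ⟨k, rfl⟩ := h
    rw [rp_pow hp, mul_apply, mul_apply]
    refine sum_congr rfl fun x hx => ?_
    rw [Nat.mem_divisorsAntidiagonal] at hx
    have h1 : x.1 ∣ p ^ k := by rw [← hx.1]; exact dvd_mul_right _ _
    have h2 : x.2 ∣ p ^ k := by rw [← hx.1]; exact dvd_mul_left _ _
    obtain ⟨i, _, hi⟩ := (Nat.dvd_prime_pow hp).1 h1
    obtain ⟨j, _, hj⟩ := (Nat.dvd_prime_pow hp).1 h2
    rw [hi, hj, rp_pow hp, rp_pow hp]
  · push Not at h
    rw [rp_zero _ h, mul_apply]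
    symm
    refine sum_eq_zero fun x hx => ?_
    rw [Nat.mem_divisorsAntidiagonal] at hx
    by_cases h1 : ∃ i, x.1 = p ^ i
    · obtain ⟨i, hi⟩ := h1
      have h2 : ∀ j, x.2 ≠ p ^ j := by
        intro j hj
        exact h (i + j) (by rw [← hx.1, hi, hj, pow_add])
      rw [rp_zero G h2, mul_zero]
    · push Not at h1
      rw [rp_zero F h1, zero_mul]

theorem rp_prod {p : ℕ} (hp : p.Prime) {X : Type} (S : Finset X) (F : X → ArithmeticFunction ℂ) :
    rp p (∏ x ∈ S, F x) = ∏ x ∈ S, rp p (F x) := by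
  classical
  induction S using Finset.induction_on with
  | empty => simp [rp_one hp]
  | insert a S ha ih => rw [prod_insert ha, prod_insert ha, rp_mul hp, ih]

theorem rp_pow' {p : ℕ} (hp : p.Prime) (F : ArithmeticFunction ℂ) (k : ℕ) : rp p (F ^ k) = rp p F ^ k := by
  induction k with
  | zero => simp [rp_one hp]
  | succ k ih => rw [pow_succ, pow_succ, rp_mul hp, ih]

theorem rp_geo {p f : ℕ} (hp : p.Prime) (a : ℂ) : rp p (geo (p ^ f) a) = geo (p ^ f) a := by
  ext n
  by_cases h : ∃ k, n = p ^ k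
  · obtain ⟨k, rfl⟩ := h
    rw [rp_pow hp]
  · push Not at h
    rw [rp_zero _ h, geo_zero a]
    intro k hk
    exact h (f * k) (by rw [hk, pow_mul])

theorem rp_geo' {p l f : ℕ} (hp : p.Prime) (hl : l.Prime) (hpl : p ≠ l) (a : ℂ) :
    rp p (geo (l ^ f) a) = 1 := by
  ext n
  by_cases h : ∃ k, n = p ^ k
  · obtain ⟨k, rfl⟩ := h
    rw [rp_pow hp]
    rcases Nat.eq_zero_or_pos k with rfl | hk
    · simp [geo_one']
    · rw [geo_zero, one_apply_ne]
      · exact (Nat.one_lt_pow hk.ne' hp.one_lt).ne'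
      · intro j hj
        rw [← pow_mul] at hj
        have h1 : p ∣ l ^ (f * j) := by rw [← hj]; exact dvd_pow_self p hk.ne'
        exact hpl ((Nat.prime_dvd_prime_iff_eq hp hl).1 (hp.dvd_of_dvd_pow h1))
  · push Not at h
    rw [rp_zero _ h, one_apply_ne]
    intro h1
    exact h 0 (by rw [h1, pow_zero])

theorem rp_congr {p : ℕ} (hp : p.Prime) {F G : ArithmeticFunction ℂ} (h : ∀ k, F (p ^ k) = G (p ^ k)) :
    rp p F = rp p G := by
  ext n
  by_cases h' : ∃ k, n = p ^ k
  · obtain ⟨k, rfl⟩ := h'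
    rw [rp_pow hp, rp_pow hp, h]
  · push Not at h'
    rw [rp_zero _ h', rp_zero _ h']

/-- the restriction of the Dirichlet coefficients of an Euler product to the powers of `p` -/
theorem rp_lim {X : Type} {N : X → ℕ} {hfin : ∀ n, {x | N x ≤ n}.Finite} {α β : X → ℂ}
    {pr f : X → ℕ} (hpr : ∀ x, (pr x).Prime) (hNf : ∀ x, N x = pr x ^ f x) {p : ℕ} (hp : p.Prime)
    {S : Finset X} (hS : ∀ x, x ∈ S ↔ pr x = p) :
    rp p (lim hfin (gx N α β)) = ∏ x ∈ S, gx N α β x := by
  classical
  have h1 : ∀ x, rp p (gx N α β x) = if pr x = p then gx N α β x else 1 := by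
    intro x
    unfold gx
    rw [rp_mul hp, hNf x]
    split_ifs with h
    · rw [h, rp_geo hp, rp_geo hp]
    · rw [rp_geo' hp (hpr x) (fun h' => h h'.symm), rp_geo' hp (hpr x) (fun h' => h h'.symm), one_mul]
  ext n
  by_cases h : ∃ k, n = p ^ k
  · obtain ⟨k, rfl⟩ := h
    rw [rp_pow hp, ← prod_eq_lim (hfin := hfin) gx_idUp (S := (hfin (p ^ k)).toFinset ∪ S) subset_union_left,
      ← rp_pow hp, rp_prod hp]
    congr 1
    rw [prod_congr rfl fun x _ => h1 x, prod_ite, prod_const_one, mul_one]
    congr 1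
    ext x
    simp only [mem_filter, mem_union]
    constructor
    · rintro ⟨_, h3⟩
      exact (hS x).2 h3
    · intro h3
      exact ⟨Or.inr h3, (hS x).1 h3⟩
  · push Not at h
    rw [rp_zero _ h]
    have h2 : rp p (∏ x ∈ S, gx N α β x) = ∏ x ∈ S, gx N α β x := by
      rw [rp_prod hp]
      refine prod_congr rfl fun x hx => ?_
      rw [h1, if_pos ((hS x).1 hx)]
    rw [← h2, rp_zero _ h]

/-- **a linear relation between multiplicative functions forces two of them to agree at the powers
of almost all primes** -/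
theorem dedekind {ι : Type} (g : ι → ArithmeticFunction ℂ) (hg : ∀ i, (g i).IsMultiplicative) :
    ∀ (m : ℕ) (D : Finset ι), D.card = m → D.Nonempty → ∀ (c : ι → ℂ), (∀ i ∈ D, c i ≠ 0) →
      ∀ N0 : ℕ, N0 ≠ 0 → (∀ n : ℕ, n.Coprime N0 → ∑ i ∈ D, c i * g i n = 0) →
      ∃ a ∈ D, ∃ b ∈ D, a ≠ b ∧ ∃ N1 : ℕ, N1 ≠ 0 ∧ ∀ p : ℕ, p.Prime → ¬ p ∣ N1 →
        ∀ j : ℕ, g a (p ^ j) = g b (p ^ j) := by
  classical
  intro m
  induction m using Nat.strong_induction_on with
  | _ m ih =>
    intro D hD hne c hc N0 hN0 hrel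
    by_contra H
    push Not at H
    obtain ⟨a, ha⟩ := hne
    -- there is another element
    by_cases h1 : ∃ b ∈ D, a ≠ b
    · obtain ⟨b, hb, hab⟩ := h1
      obtain ⟨p, hp, hpN, j, hj⟩ := H a ha b hb hab N0 hN0
      set q := p ^ j with hq
      set D' := D.filter fun x => g x q ≠ g a q with hD'
      have haD' : a ∉ D' := by simp [hD']
      have hbD' : b ∈ D' := by
        rw [hD', mem_filter]
        exact ⟨hb, fun h => hj h.symm⟩
      have hsub : D' ⊂ D := by
        refine ⟨filter_subset _ _, fun h => haD' (h ha)⟩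
      have hcard : D'.card < m := by
        rw [← hD]
        exact card_lt_card hsub
      obtain ⟨a', ha', b', hb', hab', N1, hN1, h2⟩ := ih _ hcard D' rfl ⟨b, hbD'⟩
        (fun x => c x * (g x q - g a q))
        (fun x hx => by
          rw [hD', mem_filter] at hx
          exact mul_ne_zero (hc x hx.1) (sub_ne_zero.2 hx.2))
        (N0 * p) (mul_ne_zero hN0 hp.ne_zero)
        (fun n hn => by
          have hn1 : n.Coprime N0 := Nat.Coprime.coprime_mul_right_right hn
          have hn2 : n.Coprime p := Nat.Coprime.coprime_mul_left_right hn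
          have hqn : q.Coprime n := (Nat.Coprime.pow_left j hn2.symm)
          have hqN : (q * n).Coprime N0 :=
            Nat.Coprime.mul_left (Nat.Coprime.pow_left j ((Nat.Prime.coprime_iff_not_dvd hp).2 hpN)) hn1
          have h3 := hrel (q * n) hqN
          have h4 := hrel n hn1
          have h5 : ∑ i ∈ D, c i * (g i q - g a q) * g i n = 0 := by
            calc ∑ i ∈ D, c i * (g i q - g a q) * g i n =
                ∑ i ∈ D, c i * g i (q * n) - g a q * ∑ i ∈ D, c i * g i n := by
                  rw [mul_sum, ← sum_sub_distrib]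
                  refine sum_congr rfl fun i _ => ?_
                  rw [(hg i).map_mul_of_coprime hqn]
                  ring
              _ = 0 := by rw [h3, h4]; ring
          rw [← h5]
          refine sum_subset (filter_subset _ _) fun x hx hx' => ?_
          rw [hD', mem_filter] at hx'
          push Not at hx'
          rw [hx' hx]
          ring)
      have h3 := H a' (hsub.1 ha') b' (hsub.1 hb') hab' N1 hN1
      obtain ⟨p', hp', hp'N, j', hj'⟩ := h3
      exact hj' (h2 p' hp' hp'N j')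
    · push Not at h1
      have h2 := hrel 1 (Nat.coprime_one_left N0)
      have h3 : D = {a} := by
        ext x
        rw [mem_singleton]
        exact ⟨fun hx => (h1 x hx).symm, fun hx => by rw [hx]; exact ha⟩
      rw [h3, sum_singleton, (hg a).1, mul_one] at h2
      exact hc a ha h2

end Pool.Agent.L5helper14.Edge.D
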