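import Pool.Agent.L5helper14.Edge.Conv
import Pool.Agent.L5helper14.Edge.Abel

/-! Convergence of Euler products on the edge of absolute convergence. -/

set_option autoImplicit false

namespace Pool.Agent.L5helper14.Edge

open Complex MeasureTheory Finset Filter Topology

namespace PSys

variable (P : PSys)

theorem N_ne (x : P.X) : ((P.N x : ℕ) : ℂ) ≠ 0 := by
  have := P.two_le x
  exact_mod_cast (by omega : P.N x ≠ 0)

theorem norm_N_cpow (x : P.X) (s : ℂ) : ‖((P.N x : ℕ) : ℂ) ^ s‖ = (P.N x : ℝ) ^ s.re :=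
  Complex.norm_natCast_cpow_of_pos (by have := P.two_le x; omega) s

section fibre

variable (g : P.X → ℂ)

open Classical in
/-- the sum over the primes of norm `n` -/
noncomputable def fib (n : ℕ) : ℂ := ∑ x ∈ (P.LE n).filter (fun x => P.N x = n), g x

theorem sum_fib (n : ℕ) : ∑ k ∈ Icc 1 n, P.fib g k = ∑ x ∈ P.LE n, g x := by
  classical
  have hmaps : ∀ x ∈ P.LE n, P.N x ∈ Icc 1 n := by
    intro x hx
    rw [mem_LE] at hx
    rw [mem_Icc]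
    exact ⟨by have := P.two_le x; omega, hx⟩
  rw [← sum_fiberwise_of_maps_to hmaps]
  refine sum_congr rfl fun k hk => ?_
  rw [mem_Icc] at hk
  unfold fib
  congr 1
  ext x
  simp only [mem_filter, mem_LE]
  constructor
  · rintro ⟨h1, h2⟩
    exact ⟨by omega, h2⟩
  · rintro ⟨h1, h2⟩
    exact ⟨by omega, h2⟩

theorem hasSum_fib {w : ℂ} (h : Summable fun x => g x * ((P.N x : ℕ) : ℂ) ^ (-w)) :
    HasSum (LSeries.term (P.fib g) w) (∑' x, g x * ((P.N x : ℕ) : ℂ) ^ (-w)) := by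
  classical
  have h1 := h.hasSum.tsum_fiberwise P.N
  have h2 : (fun n : ℕ => ∑' b : P.N ⁻¹' {n}, g b * ((P.N b : ℕ) : ℂ) ^ (-w)) =
      LSeries.term (P.fib g) w := by
    funext n
    have h3 : P.N ⁻¹' {n} = (((P.LE n).filter (fun x => P.N x = n) : Finset P.X) : Set P.X) := by
      ext x
      simp only [Set.mem_preimage, Set.mem_singleton_iff, coe_filter, mem_LE, Set.mem_ofPred_eq]
      constructor
      · intro h
        exact ⟨h.le, h⟩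
      · exact fun h => h.2
    rw [h3, Finset.tsum_subtype' ((P.LE n).filter (fun x => P.N x = n))
      (fun b => g b * ((P.N b : ℕ) : ℂ) ^ (-w))]
    rcases eq_or_ne n 0 with rfl | hn
    · rw [LSeries.term_zero]
      refine sum_eq_zero fun x hx => ?_
      have := P.two_le x
      have := (mem_filter.1 hx).2
      omega
    · rw [LSeries.term_of_ne_zero hn]
      unfold fib
      rw [sum_div]
      refine sum_congr rfl fun x hx => ?_
      rw [(mem_filter.1 hx).2, Complex.cpow_neg, div_eq_mul_inv]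
  rw [h2] at h1
  exact h1

theorem abel_prime {g : P.X → ℂ}
    (hg : ∀ w : ℂ, 0 < w.re → Summable fun x => g x * ((P.N x : ℕ) : ℂ) ^ (-w)) {s : ℂ}
    (hs : Tendsto (fun n : ℕ => ∑ x ∈ P.LE n, g x) atTop (𝓝 s)) {κ : ℝ} (hκ : 0 ≤ κ) :
    Tendsto (fun w : ℂ => ∑' x, g x * ((P.N x : ℕ) : ℂ) ^ (-w)) (𝓝[cone κ] 0) (𝓝 s) := by
  have h1 := abel (f := P.fib g) (s := s) (by
    refine hs.congr fun n => ?_
    rw [P.sum_fib]) (fun w hw => (P.hasSum_fib g (hg w hw)).summable) hκ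
  refine h1.congr' ?_
  filter_upwards [self_mem_nhdsWithin] with w hw
  exact (P.hasSum_fib g (hg w hw.1)).tsum_eq

end fibre

/-- the local factor -/
noncomputable def lf (A δ : P.X → ℂ) (v : P.X) (s : ℂ) : ℂ :=
  1 - A v * ((P.N v : ℕ) : ℂ) ^ (-s) + δ v * ((P.N v : ℕ) : ℂ) ^ (1 - 2 * s)

/-- the remainder in the logarithm of the local factor -/
noncomputable def rem (A δ : P.X → ℂ) (v : P.X) (s : ℂ) : ℂ :=
  -Complex.log (P.lf A δ v s) - A v * ((P.N v : ℕ) : ℂ) ^ (-s)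

section local_bounds

variable {P} {A δ : P.X → ℂ} (hA : ∀ v, ‖A v‖ ≤ P.N v) (hδ : ∀ v, ‖δ v‖ ≤ 1)

theorem norm_dl (hδ : ∀ v, ‖δ v‖ ≤ 1) (v : P.X) {s : ℂ} (hs : 3 / 2 ≤ s.re) :
    ‖δ v * ((P.N v : ℕ) : ℂ) ^ (1 - 2 * s)‖ ≤ 1 / (P.N v : ℝ) ^ 2 := by
  rw [norm_mul, P.norm_N_cpow]
  have hN := P.N_pos v
  have h1N : (1 : ℝ) ≤ P.N v := by have := P.two_le v; exact_mod_cast (by omega : 1 ≤ P.N v)
  have h1 : (P.N v : ℝ) ^ (1 - 2 * s).re ≤ (P.N v : ℝ) ^ (-2 : ℝ) := by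
    apply Real.rpow_le_rpow_of_exponent_le h1N
    simp
    linarith
  have h2 : (P.N v : ℝ) ^ (-2 : ℝ) = 1 / (P.N v : ℝ) ^ 2 := by
    rw [Real.rpow_neg hN.le, one_div]
    norm_num
  rw [h2] at h1
  calc ‖δ v‖ * (P.N v : ℝ) ^ (1 - 2 * s).re ≤ 1 * (1 / (P.N v : ℝ) ^ 2) :=
        mul_le_mul (hδ v) h1 (by positivity) zero_le_one
    _ = _ := one_mul _

theorem norm_A_le {v : P.X} {B : ℝ} (hB : ‖A v‖ ≤ B) {s : ℂ} (hs : 3 / 2 ≤ s.re) :
    ‖A v * ((P.N v : ℕ) : ℂ) ^ (-s)‖ ≤ B * (P.N v : ℝ) ^ (-(3 / 2) : ℝ) := by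
  rw [norm_mul, P.norm_N_cpow]
  have h1N : (1 : ℝ) ≤ P.N v := by have := P.two_le v; exact_mod_cast (by omega : 1 ≤ P.N v)
  have h1 : (P.N v : ℝ) ^ (-s).re ≤ (P.N v : ℝ) ^ (-(3 / 2) : ℝ) := by
    apply Real.rpow_le_rpow_of_exponent_le h1N
    simp
    linarith
  exact mul_le_mul hB h1 (by positivity) ((norm_nonneg _).trans hB)

theorem norm_u_le (hA : ∀ v, ‖A v‖ ≤ P.N v) (hδ : ∀ v, ‖δ v‖ ≤ 1) (v : P.X) {s : ℂ}
    (hs : 3 / 2 ≤ s.re) : ‖P.lf A δ v s - 1‖ ≤ 24 / 25 := by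
  have h1 := norm_dl hδ v hs
  have h2 := norm_A_le (hA v) hs
  have hN := P.N_pos v
  have h2N : (2 : ℝ) ≤ P.N v := by exact_mod_cast P.two_le v
  have h3 : (P.N v : ℝ) * (P.N v : ℝ) ^ (-(3 / 2) : ℝ) ≤ 0.708 := by
    have e : (P.N v : ℝ) * (P.N v : ℝ) ^ (-(3 / 2) : ℝ) = (Real.sqrt (P.N v))⁻¹ := by
      rw [Real.sqrt_eq_rpow, ← Real.rpow_neg hN.le]
      nth_rewrite 1 [← Real.rpow_one (P.N v : ℝ)]
      rw [← Real.rpow_add hN]
      norm_num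
    rw [e]
    have h4 : (1.413 : ℝ) ≤ Real.sqrt (P.N v) := by
      apply Real.le_sqrt_of_sq_le
      norm_num
      linarith
    calc (Real.sqrt (P.N v))⁻¹ ≤ (1.413 : ℝ)⁻¹ := inv_anti₀ (by norm_num) h4
      _ ≤ 0.708 := by norm_num
  have h5 : 1 / (P.N v : ℝ) ^ 2 ≤ 1 / 4 := by
    apply one_div_le_one_div_of_le (by norm_num)
    nlinarith
  have h6 : P.lf A δ v s - 1 = -(A v * ((P.N v : ℕ) : ℂ) ^ (-s)) +
      δ v * ((P.N v : ℕ) : ℂ) ^ (1 - 2 * s) := by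
    unfold lf
    ring
  rw [h6]
  refine (norm_add_le _ _).trans ?_
  rw [norm_neg]
  linarith

theorem lf_ne (hA : ∀ v, ‖A v‖ ≤ P.N v) (hδ : ∀ v, ‖δ v‖ ≤ 1) (v : P.X) {s : ℂ}
    (hs : 3 / 2 ≤ s.re) : P.lf A δ v s ≠ 0 := by
  intro h
  have := norm_u_le hA hδ v hs
  rw [h, zero_sub, norm_neg, norm_one] at this
  norm_num at this

theorem lf_slit (hA : ∀ v, ‖A v‖ ≤ P.N v) (hδ : ∀ v, ‖δ v‖ ≤ 1) (v : P.X) {s : ℂ}
    (hs : 3 / 2 ≤ s.re) : P.lf A δ v s ∈ Complex.slitPlane := by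
  have h := norm_u_le hA hδ v hs
  left
  have h1 : |(P.lf A δ v s - 1).re| ≤ 24 / 25 := (Complex.abs_re_le_norm _).trans h
  rw [Complex.sub_re, Complex.one_re, abs_le] at h1
  linarith [h1.1]

theorem exp_log_lf (hA : ∀ v, ‖A v‖ ≤ P.N v) (hδ : ∀ v, ‖δ v‖ ≤ 1) (v : P.X) {s : ℂ}
    (hs : 3 / 2 ≤ s.re) :
    cexp (A v * ((P.N v : ℕ) : ℂ) ^ (-s) + P.rem A δ v s) = (P.lf A δ v s)⁻¹ := by
  unfold rem
  rw [add_sub_cancel, Complex.exp_neg, Complex.exp_log (lf_ne hA hδ v hs)]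

theorem rem_le_of (hδ : ∀ v, ‖δ v‖ ≤ 1) (v : P.X) {s : ℂ}
    (hs : 3 / 2 ≤ s.re) {r : ℝ} (hr : r < 1) (hu : ‖P.lf A δ v s - 1‖ ≤ r) :
    ‖P.rem A δ v s‖ ≤ r ^ 2 * (1 - r)⁻¹ / 2 + 1 / (P.N v : ℝ) ^ 2 := by
  set u := P.lf A δ v s - 1 with hu'
  have h1 : P.rem A δ v s = -(Complex.log (1 + u) - u) -
      δ v * ((P.N v : ℕ) : ℂ) ^ (1 - 2 * s) := by
    have h2 : (1 : ℂ) + u = P.lf A δ v s := by rw [hu']; ring
    rw [h2]
    unfold rem
    rw [hu']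
    unfold lf
    ring
  rw [h1]
  refine (norm_sub_le _ _).trans (add_le_add ?_ (norm_dl hδ v hs))
  rw [norm_neg]
  refine (Complex.norm_log_one_add_sub_self_le (lt_of_le_of_lt hu hr)).trans ?_
  have h3 : 0 < 1 - r := by linarith
  have h4 : (1 - ‖u‖)⁻¹ ≤ (1 - r)⁻¹ := inv_anti₀ h3 (by linarith)
  have h5 : ‖u‖ ^ 2 ≤ r ^ 2 := pow_le_pow_left₀ (norm_nonneg _) hu 2
  have h6 : 0 ≤ (1 - ‖u‖)⁻¹ := inv_nonneg.2 (by linarith)
  have := mul_le_mul h5 h4 h6 (by positivity)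
  linarith

/-- the bound for the remainder -/
noncomputable def Kb (B0 : Finset P.X) (v : P.X) : ℝ := by
  classical
  exact (if v ∈ B0 then 30 else 0) + 12 * (P.N v : ℝ) ^ (-2 : ℝ)

theorem rem_le (hA : ∀ v, ‖A v‖ ≤ P.N v) (hδ : ∀ v, ‖δ v‖ ≤ 1) (B0 : Finset P.X)
    (hgood : ∀ v ∉ B0, 5 ≤ P.N v ∧ ‖A v‖ ≤ 2 * Real.sqrt (P.N v)) (v : P.X) {s : ℂ}
    (hs : 3 / 2 ≤ s.re) : ‖P.rem A δ v s‖ ≤ Kb B0 v := by
  classical
  have hN := P.N_pos v
  have h2N : (2 : ℝ) ≤ P.N v := by exact_mod_cast P.two_le v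
  have e2 : (P.N v : ℝ) ^ (-2 : ℝ) = 1 / (P.N v : ℝ) ^ 2 := by
    rw [Real.rpow_neg hN.le, one_div]
    norm_num
  unfold Kb
  rw [e2]
  by_cases hv : v ∈ B0
  · rw [if_pos hv]
    have h1 := rem_le_of hδ v hs (by norm_num) (norm_u_le hA hδ v hs)
    refine h1.trans ?_
    have h5 : 1 / (P.N v : ℝ) ^ 2 ≤ 1 / 4 := by
      apply one_div_le_one_div_of_le (by norm_num)
      nlinarith
    have h6 : 0 ≤ 1 / (P.N v : ℝ) ^ 2 := by positivity
    have h7 : (24 / 25 : ℝ) ^ 2 * (1 - 24 / 25)⁻¹ / 2 = 288 / 25 := by norm_num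
    rw [h7]
    linarith
  · rw [if_neg hv, zero_add]
    obtain ⟨h5, hA2⟩ := hgood v hv
    have h5' : (5 : ℝ) ≤ P.N v := by exact_mod_cast h5
    have hu : ‖P.lf A δ v s - 1‖ ≤ 2.2 / P.N v := by
      have h1 := norm_dl hδ v hs
      have h2 := norm_A_le hA2 hs
      have h3 : 2 * Real.sqrt (P.N v) * (P.N v : ℝ) ^ (-(3 / 2) : ℝ) = 2 / P.N v := by
        rw [Real.sqrt_eq_rpow, mul_assoc, ← Real.rpow_add hN]
        norm_num
        rw [Real.rpow_neg_one, div_eq_mul_inv]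
      rw [h3] at h2
      have h4 : 1 / (P.N v : ℝ) ^ 2 ≤ 0.2 / P.N v := by
        rw [div_le_div_iff₀ (by positivity) hN]
        nlinarith
      have h6 : P.lf A δ v s - 1 = -(A v * ((P.N v : ℕ) : ℂ) ^ (-s)) +
          δ v * ((P.N v : ℕ) : ℂ) ^ (1 - 2 * s) := by
        unfold lf
        ring
      rw [h6]
      refine (norm_add_le _ _).trans ?_
      rw [norm_neg]
      have h7 : 2 / (P.N v : ℝ) + 0.2 / P.N v = 2.2 / P.N v := by ring
      linarith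
    have hr : 2.2 / (P.N v : ℝ) ≤ 0.44 := by
      rw [div_le_iff₀ hN]
      linarith
    have h1 := rem_le_of hδ v hs (by linarith) hu
    refine h1.trans ?_
    have h7 : (1 - 2.2 / (P.N v : ℝ))⁻¹ ≤ 2 := by
      rw [inv_le_comm₀ (by linarith) (by norm_num)]
      linarith
    have h8 : (2.2 / (P.N v : ℝ)) ^ 2 * (1 - 2.2 / (P.N v : ℝ))⁻¹ ≤
        (2.2 / (P.N v : ℝ)) ^ 2 * 2 := mul_le_mul_of_nonneg_left h7 (by positivity)
    have h9 : (2.2 / (P.N v : ℝ)) ^ 2 = 4.84 * (1 / (P.N v : ℝ) ^ 2) := by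
      field_simp
      norm_num
    rw [h9] at h8 ⊢
    have h10 : 0 ≤ 1 / (P.N v : ℝ) ^ 2 := by positivity
    linarith

theorem Kb_summable (hsum : ∀ r : ℝ, r < -1 → Summable fun x => (P.N x : ℝ) ^ r)
    (B0 : Finset P.X) : Summable (Kb B0) := by
  classical
  unfold Kb
  refine Summable.add ?_ ((hsum (-2) (by norm_num)).mul_left 12)
  exact summable_of_ne_finset_zero (s := B0) fun v hv => if_neg hv

theorem continuousAt_rem (hA : ∀ v, ‖A v‖ ≤ P.N v) (hδ : ∀ v, ‖δ v‖ ≤ 1) (v : P.X) {s : ℂ}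
    (hs : 3 / 2 ≤ s.re) : ContinuousAt (P.rem A δ v) s := by
  have h0 := P.N_ne v
  have h1 : ContinuousAt (fun s : ℂ => ((P.N v : ℕ) : ℂ) ^ (-s)) s :=
    (continuousAt_id.neg).const_cpow (Or.inl h0)
  have h2 : ContinuousAt (fun s : ℂ => ((P.N v : ℕ) : ℂ) ^ (1 - 2 * s)) s :=
    ContinuousAt.const_cpow (by fun_prop) (Or.inl h0)
  have h3 : ContinuousAt (P.lf A δ v) s := by
    unfold lf
    exact (continuousAt_const.sub (h1.const_mul _)).add (h2.const_mul _)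
  unfold rem
  exact (h3.clog (lf_slit hA hδ v hs)).neg.sub (h1.const_mul _)

end local_bounds

theorem tendsto_LE : Tendsto P.LE atTop atTop := by
  refine tendsto_atTop_finset_of_monotone ?_ fun x => ⟨P.N x, P.mem_LE.2 le_rfl⟩
  intro m n hmn x hx
  rw [mem_LE] at hx ⊢
  exact hx.trans hmn

/-- **Euler products converge on the edge** outside the exceptional set of the coefficients -/
theorem euler_edge (hsum : ∀ r : ℝ, r < -1 → Summable fun x => (P.N x : ℝ) ^ r)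
    {A δ : P.X → ℂ} (hA : ∀ v, ‖A v‖ ≤ P.N v) (hδ : ∀ v, ‖δ v‖ ≤ 1) (B0 : Finset P.X)
    (hgood : ∀ v ∉ B0, 5 ≤ P.N v ∧ ‖A v‖ ≤ 2 * Real.sqrt (P.N v)) {β : ℝ} (hβ : 0 ≤ β)
    (hcb : ∀ v, ‖A v * ((Real.sqrt (P.N v) : ℝ) : ℂ)⁻¹‖ ≤ β) {t : ℝ}
    (ht : t ∉ P.Exc fun v => A v * ((Real.sqrt (P.N v) : ℝ) : ℂ)⁻¹) :
    ∃ ℓ : ℂ, ℓ ≠ 0 ∧
      Tendsto (fun n : ℕ => ∏ v ∈ P.LE n, (P.lf A δ v (3 / 2 + t * I))⁻¹) atTop (𝓝 ℓ) ∧
      ∀ κ : ℝ, 0 ≤ κ → Tendsto (fun w : ℂ => ∏' v, (P.lf A δ v (3 / 2 + t * I + w))⁻¹)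
        (𝓝[cone κ] 0) (𝓝 ℓ) := by
  classical
  set c : P.X → ℂ := fun v => A v * ((Real.sqrt (P.N v) : ℝ) : ℂ)⁻¹ with hc
  obtain ⟨s, hs⟩ := P.tendsto_sum hβ hcb ht
  set s0 : ℂ := 3 / 2 + t * I with hs0
  have hs0re : s0.re = 3 / 2 := by rw [hs0]; simp
  have htm : ∀ v, P.tm c t v = A v * ((P.N v : ℕ) : ℂ) ^ (-s0) := by
    intro v
    have h0 := P.N_ne v
    have hN := P.N_pos v
    unfold tm
    rw [hc]
    simp only
    have h1 : ((Real.sqrt (P.N v) : ℝ) : ℂ)⁻¹ = ((P.N v : ℕ) : ℂ) ^ (-(1 / 2) : ℂ) := by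
      rw [Real.sqrt_eq_rpow, Complex.ofReal_cpow hN.le, Complex.cpow_neg]
      push_cast
      rfl
    have h2 : cexp (-(I * (P.lam v : ℝ) * t)) = ((P.N v : ℕ) : ℂ) ^ (-(t * I)) := by
      rw [Complex.cpow_def_of_ne_zero h0]
      congr 1
      unfold lam
      rw [Complex.natCast_log]
      ring
    rw [h1, h2, div_eq_mul_inv]
    have h3 : (((P.N v : ℕ) : ℂ))⁻¹ = ((P.N v : ℕ) : ℂ) ^ (-1 : ℂ) := by
      rw [Complex.cpow_neg_one]
    rw [h3, mul_assoc, mul_assoc, ← Complex.cpow_add _ _ h0, ← Complex.cpow_add _ _ h0]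
    congr 2
    rw [hs0]
    ring
  have hspl : ∀ (v : P.X) (w : ℂ), A v * ((P.N v : ℕ) : ℂ) ^ (-(s0 + w)) =
      P.tm c t v * ((P.N v : ℕ) : ℂ) ^ (-w) := by
    intro v w
    rw [htm, mul_assoc, ← Complex.cpow_add _ _ (P.N_ne v)]
    congr 2
    ring
  have hzsum : ∀ w : ℂ, 0 < w.re → Summable fun v => P.tm c t v * ((P.N v : ℕ) : ℂ) ^ (-w) := by
    intro w hw
    refine Summable.of_norm_bounded ((hsum (-(1 + w.re)) (by linarith)).mul_left β) fun v => ?_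
    rw [norm_mul, P.norm_N_cpow]
    have hN := P.N_pos v
    have h1 := P.tm_norm c hcb t v
    calc ‖P.tm c t v‖ * (P.N v : ℝ) ^ (-w).re ≤ (β * (1 / P.N v)) * (P.N v : ℝ) ^ (-w).re :=
          mul_le_mul_of_nonneg_right h1 (by positivity)
      _ = β * (P.N v : ℝ) ^ (-(1 + w.re)) := by
          rw [Complex.neg_re, neg_add, Real.rpow_add hN, Real.rpow_neg_one]
          ring
  have hre : ∀ w : ℂ, 0 ≤ w.re → 3 / 2 ≤ (s0 + w).re := by
    intro w hw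
    rw [Complex.add_re, hs0re]
    linarith
  have hK := Kb_summable hsum B0
  have hremsum : ∀ w : ℂ, 0 ≤ w.re → Summable fun v => P.rem A δ v (s0 + w) := by
    intro w hw
    exact Summable.of_norm_bounded hK fun v => rem_le hA hδ B0 hgood v (hre w hw)
  refine ⟨cexp (s + ∑' v, P.rem A δ v s0), Complex.exp_ne_zero _, ?_, ?_⟩
  · -- partial products
    have h1 : Tendsto (fun n : ℕ => ∑ v ∈ P.LE n, P.rem A δ v s0) atTop
        (𝓝 (∑' v, P.rem A δ v s0)) := by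
      have h2 := hremsum 0 (by simp)
      simp only [add_zero] at h2
      exact h2.hasSum.comp P.tendsto_LE
    have h3 := (hs.add h1).cexp
    refine h3.congr fun n => ?_
    rw [← sum_add_distrib, Complex.exp_sum]
    refine prod_congr rfl fun v _ => ?_
    rw [htm, exp_log_lf hA hδ v (by rw [hs0re])]
  · intro κ hκ
    have h1 := P.abel_prime hzsum hs hκ
    have h2 : Tendsto (fun w : ℂ => ∑' v, P.rem A δ v (s0 + w)) (𝓝[cone κ] 0)
        (𝓝 (∑' v, P.rem A δ v s0)) := by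
      refine tendsto_tsum_of_dominated_convergence (bound := Kb B0) hK (fun v => ?_) ?_
      · have h3 : ContinuousAt (fun w : ℂ => P.rem A δ v (s0 + w)) 0 := by
          have h4 : ContinuousAt (P.rem A δ v) (s0 + 0) := by
            rw [add_zero]
            exact continuousAt_rem hA hδ v (by rw [hs0re])
          exact ContinuousAt.comp (f := fun w : ℂ => s0 + w) h4 (by fun_prop)
        have h5 := h3.tendsto
        simp only [add_zero] at h5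
        exact h5.mono_left nhdsWithin_le_nhds
      · filter_upwards [self_mem_nhdsWithin] with w hw v
        exact rem_le hA hδ B0 hgood v (hre w hw.1.le)
    have h3 := (h1.add h2).cexp
    refine h3.congr' ?_
    filter_upwards [self_mem_nhdsWithin] with w hw
    have h4 := ((hzsum w hw.1).hasSum.add (hremsum w hw.1.le).hasSum).cexp
    rw [← h4.tprod_eq]
    refine tprod_congr fun v => ?_
    simp only [Function.comp_apply]
    rw [← hspl, exp_log_lf hA hδ v (hre w hw.1.le)]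

end PSys

end Pool.Agent.L5helper14.Edge
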