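import Pool.Agent.L5helper14.Edge.Maj
import Pool.Agent.L5helper14.Edge.Euler

/-! Moments of Euler products near the edge of absolute convergence. -/

set_option autoImplicit false

namespace Pool.Agent.L5helper14.Edge

open Complex MeasureTheory Finset Filter Topology ComplexConjugate
open scoped ENNReal NNReal

/-- from short intervals to intervals of length one -/
theorem window {f : ℝ → ℝ} (hf : Continuous f) (h0 : ∀ t, 0 ≤ f t) {h C : ℝ} (hh : 0 < h)
    (hC : ∀ T, ∫ t in T..(T + h), f t ≤ C) (T : ℝ) :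
    ∫ t in T..(T + 1), f t ≤ ⌈1 / h⌉₊ * C := by
  have h1 : ∀ (n : ℕ) (T : ℝ), ∫ t in T..(T + n * h), f t ≤ n * C := by
    intro n
    induction n with
    | zero =>
      intro T
      simp
    | succ n ih =>
      intro T
      rw [← intervalIntegral.integral_add_adjacent_intervals (hf.intervalIntegrable T (T + n * h))
        (hf.intervalIntegrable (T + n * h) _)]
      have h2 := hC (T + n * h)
      have h3 : T + n * h + h = T + ((n + 1 : ℕ) : ℝ) * h := by
        push_cast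
        ring
      rw [h3] at h2
      have := ih T
      push_cast at h2 ⊢
      linarith
  refine le_trans ?_ (h1 ⌈1 / h⌉₊ T)
  have h4 : 1 ≤ (⌈1 / h⌉₊ : ℝ) * h := by
    have := Nat.le_ceil (1 / h)
    rw [div_le_iff₀ hh] at this
    exact this
  exact intervalIntegral.integral_mono_interval le_rfl (by linarith) (by linarith)
    (Eventually.of_forall h0) (hf.intervalIntegrable _ _)

namespace PSys

variable (P : PSys)

/-- the hypothesis on the prime sums near the pole -/
def Pole : Prop := ∃ d Cz : ℝ, 0 < d ∧ 0 < Cz ∧ ∀ ε : ℝ, 0 < ε → ε ≤ d → ∀ u : ℝ, 0 < u → u ≤ d →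
  Real.exp (∑' x, (P.N x : ℝ) ^ (-(1 + ε)) * Real.cos (P.lam x * u)) ≤ Cz * u⁻¹

section
variable {P}

theorem term_eq (A : P.X → ℂ) (v : P.X) (σ t : ℝ) :
    A v * ((P.N v : ℕ) : ℂ) ^ (-((σ : ℂ) + t * I)) =
      A v * (((P.N v : ℝ) ^ (-σ) : ℝ) : ℂ) * cexp (((-P.lam v : ℝ) : ℂ) * t * I) := by
  have h0 := P.N_ne v
  have hN := P.N_pos v
  have h1 : ((P.N v : ℕ) : ℂ) ^ (-((σ : ℂ) + t * I)) =
      ((P.N v : ℕ) : ℂ) ^ ((-σ : ℝ) : ℂ) * ((P.N v : ℕ) : ℂ) ^ (-(t * I)) := by
    rw [← Complex.cpow_add _ _ h0]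
    congr 1
    push_cast
    ring
  have h2 : ((P.N v : ℕ) : ℂ) ^ ((-σ : ℝ) : ℂ) = (((P.N v : ℝ) ^ (-σ) : ℝ) : ℂ) := by
    rw [Complex.ofReal_cpow hN.le]
    push_cast
    rfl
  have h3 : ((P.N v : ℕ) : ℂ) ^ (-(t * I)) = cexp (((-P.lam v : ℝ) : ℂ) * t * I) := by
    rw [Complex.cpow_def_of_ne_zero h0]
    congr 1
    unfold lam
    rw [← Complex.natCast_log]
    push_cast
    ring
  rw [h1, h2, h3, ← mul_assoc]

/-- the Euler product is an exponential -/
theorem hasSum_logs (hsum : ∀ r : ℝ, r < -1 → Summable fun x => (P.N x : ℝ) ^ r)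
    {A δ : P.X → ℂ} (hA : ∀ v, ‖A v‖ ≤ P.N v) (hδ : ∀ v, ‖δ v‖ ≤ 1) (B0 : Finset P.X)
    (hgood : ∀ v ∉ B0, 5 ≤ P.N v ∧ ‖A v‖ ≤ 2 * Real.sqrt (P.N v)) {s : ℂ} (hs : 3 / 2 < s.re) :
    Summable (fun v => A v * ((P.N v : ℕ) : ℂ) ^ (-s)) ∧ Summable (fun v => P.rem A δ v s) ∧
    HasProd (fun v => (P.lf A δ v s)⁻¹)
      (cexp (∑' v, A v * ((P.N v : ℕ) : ℂ) ^ (-s) + ∑' v, P.rem A δ v s)) := by
  classical
  have hs1 : Summable fun v => A v * ((P.N v : ℕ) : ℂ) ^ (-s) := by
    refine Summable.of_norm_bounded_eventually ((hsum (1 / 2 - s.re) (by linarith)).mul_left 2) ?_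
    rw [Filter.eventually_cofinite]
    refine (B0.finite_toSet).subset fun v hv => ?_
    by_contra hvB
    apply hv
    have hN := P.N_pos v
    rw [norm_mul, P.norm_N_cpow, Complex.neg_re]
    calc ‖A v‖ * (P.N v : ℝ) ^ (-s.re) ≤ (2 * Real.sqrt (P.N v)) * (P.N v : ℝ) ^ (-s.re) :=
          mul_le_mul_of_nonneg_right (hgood v hvB).2 (by positivity)
      _ = 2 * (P.N v : ℝ) ^ (1 / 2 - s.re) := by
          rw [Real.sqrt_eq_rpow, mul_assoc, ← Real.rpow_add hN]
          congr 2
  have hrem : Summable fun v => P.rem A δ v s :=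
    Summable.of_norm_bounded (Kb_summable hsum B0) fun v => rem_le hA hδ B0 hgood v hs.le
  refine ⟨hs1, hrem, ?_⟩
  have h4 := (hs1.hasSum.add hrem.hasSum).cexp
  refine h4.congr_fun ?_ |> fun h => h
  intro v
  simp only [Function.comp_apply]
  rw [← exp_log_lf hA hδ v hs.le]

/-- **moments of Euler products up to the edge** -/
theorem moments (hsum : ∀ r : ℝ, r < -1 → Summable fun x => (P.N x : ℝ) ^ r) (hpole : P.Pole)
    {A δ : P.X → ℂ} (hA : ∀ v, ‖A v‖ ≤ P.N v) (hδ : ∀ v, ‖δ v‖ ≤ 1) (B0 : Finset P.X)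
    (hgood : ∀ v ∉ B0, 5 ≤ P.N v ∧ ‖A v‖ ≤ 2 * Real.sqrt (P.N v)) {p : ℝ} (hp : |p| < 1 / 2) :
    ∃ C : ℝ, ∀ σ : ℝ, 3 / 2 < σ → ∃ f : ℝ → ℝ, Continuous f ∧ (∀ t, 0 ≤ f t) ∧
      (∀ t : ℝ, ‖∏' v, (P.lf A δ v (σ + t * I))⁻¹‖ ^ p ≤ f t) ∧
      ∀ T : ℝ, ∫ t in T..(T + 1), f t ≤ C := by
  classical
  obtain ⟨d, Cz, hd, hCz, hpz⟩ := hpole
  have hK := Kb_summable hsum B0
  set K0 : ℝ := ∑' v, Kb B0 v with hK0
  set KB : ℝ := ∑ v ∈ B0, (P.N v : ℝ) with hKB
  have hKB0 : 0 ≤ KB := sum_nonneg fun v _ => Nat.cast_nonneg _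
  -- the coefficients without the bad primes
  set A' : P.X → ℂ := fun v => if v ∈ B0 then 0 else A v with hA'
  have hA'b : ∀ v, ‖A' v‖ ≤ 2 * Real.sqrt (P.N v) := by
    intro v
    rw [hA']
    simp only
    split_ifs with h
    · simp
    · exact (hgood v h).2
  have hsumd : Summable fun x => (P.N x : ℝ) ^ (-(1 + d)) := hsum _ (by linarith)
  set Kd : ℝ := ∑' x, (P.N x : ℝ) ^ (-(1 + d)) with hKd
  -- basic bound of the terms
  have hterm : ∀ (σ : ℝ), ∀ v : P.X, ‖A' v * (((P.N v : ℝ) ^ (-σ) : ℝ) : ℂ)‖ ≤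
      2 * (P.N v : ℝ) ^ (1 / 2 - σ) := by
    intro σ v
    have hN := P.N_pos v
    rw [norm_mul, Complex.norm_real, Real.norm_of_nonneg (by positivity)]
    calc ‖A' v‖ * (P.N v : ℝ) ^ (-σ) ≤ (2 * Real.sqrt (P.N v)) * (P.N v : ℝ) ^ (-σ) :=
          mul_le_mul_of_nonneg_right (hA'b v) (by positivity)
      _ = 2 * (P.N v : ℝ) ^ (1 / 2 - σ) := by
          rw [Real.sqrt_eq_rpow, mul_assoc, ← Real.rpow_add hN]
          congr 2
  -- the L-function
  have hL : ∀ σ : ℝ, 3 / 2 < σ → ∀ t : ℝ,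
      ‖∏' v, (P.lf A δ v (σ + t * I))⁻¹‖ ^ p ≤ Real.exp (|p| * (K0 + KB)) *
        Real.exp (p * (∑' v, A' v * ((P.N v : ℕ) : ℂ) ^ (-((σ : ℂ) + t * I))).re) := by
    intro σ hσ t
    set s : ℂ := σ + t * I with hs
    have hre : s.re = σ := by rw [hs]; simp
    have hre' : 3 / 2 ≤ s.re := by rw [hre]; exact hσ.le
    have hs1 : Summable fun v => A' v * ((P.N v : ℕ) : ℂ) ^ (-s) := by
      refine Summable.of_norm_bounded ((hsum (1 / 2 - σ) (by linarith)).mul_left 2) fun v => ?_
      rw [norm_mul, P.norm_N_cpow, Complex.neg_re, hre]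
      have := hterm σ v
      rwa [norm_mul, Complex.norm_real, Real.norm_of_nonneg
        (Real.rpow_nonneg (P.N_pos v).le _)] at this
    have hrem : Summable fun v => P.rem A δ v s :=
      Summable.of_norm_bounded hK fun v => rem_le hA hδ B0 hgood v hre'
    have hB : HasSum (fun v => if v ∈ B0 then A v * ((P.N v : ℕ) : ℂ) ^ (-s) else 0)
        (∑ v ∈ B0, A v * ((P.N v : ℕ) : ℂ) ^ (-s)) := by
      have h1 : HasSum (fun v => if v ∈ B0 then A v * ((P.N v : ℕ) : ℂ) ^ (-s) else 0)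
          (∑ v ∈ B0, if v ∈ B0 then A v * ((P.N v : ℕ) : ℂ) ^ (-s) else 0) :=
        hasSum_sum_of_ne_finset_zero (fun v hv => if_neg hv)
      have h2 : ∑ v ∈ B0, (if v ∈ B0 then A v * ((P.N v : ℕ) : ℂ) ^ (-s) else 0) =
          ∑ v ∈ B0, A v * ((P.N v : ℕ) : ℂ) ^ (-s) :=
        sum_congr rfl fun v hv => if_pos hv
      rwa [h2] at h1
    have h4 := ((hs1.hasSum.add hB).add hrem.hasSum).cexp
    have h5 : ∏' v, (P.lf A δ v s)⁻¹ = cexp (∑' v, A' v * ((P.N v : ℕ) : ℂ) ^ (-s) +
        ∑ v ∈ B0, A v * ((P.N v : ℕ) : ℂ) ^ (-s) + ∑' v, P.rem A δ v s) := by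
      rw [← h4.tprod_eq]
      refine tprod_congr fun v => ?_
      simp only [Function.comp_apply]
      rw [← exp_log_lf hA hδ v hre']
      congr 2
      rw [hA']
      simp only
      split_ifs <;> ring
    rw [h5, Complex.norm_exp, ← Real.exp_mul, ← Real.exp_add, Real.exp_le_exp]
    rw [Complex.add_re, Complex.add_re]
    have h6 : |(∑' v, P.rem A δ v s).re| ≤ K0 := by
      refine (Complex.abs_re_le_norm _).trans ?_
      exact tsum_of_norm_bounded hK.hasSum fun v => rem_le hA hδ B0 hgood v hre'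
    have h7 : |(∑ v ∈ B0, A v * ((P.N v : ℕ) : ℂ) ^ (-s)).re| ≤ KB := by
      refine (Complex.abs_re_le_norm _).trans ((norm_sum_le _ _).trans (sum_le_sum fun v _ => ?_))
      rw [norm_mul, P.norm_N_cpow]
      have h1N : (1 : ℝ) ≤ P.N v := by have := P.two_le v; exact_mod_cast (by omega : 1 ≤ P.N v)
      have h8 : (P.N v : ℝ) ^ (-s).re ≤ 1 :=
        Real.rpow_le_one_of_one_le_of_nonpos h1N (by rw [Complex.neg_re, hre]; linarith)
      calc ‖A v‖ * (P.N v : ℝ) ^ (-s).re ≤ ‖A v‖ * 1 :=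
            mul_le_mul_of_nonneg_left h8 (norm_nonneg _)
        _ ≤ P.N v := by rw [mul_one]; exact hA v
    have h9 : (∑ v ∈ B0, A v * ((P.N v : ℕ) : ℂ) ^ (-s)).re * p ≤ |p| * KB := by
      refine (le_abs_self _).trans ?_
      rw [abs_mul, mul_comm]
      exact mul_le_mul_of_nonneg_left h7 (abs_nonneg _)
    have h10 : (∑' v, P.rem A δ v s).re * p ≤ |p| * K0 := by
      refine (le_abs_self _).trans ?_
      rw [abs_mul, mul_comm]
      exact mul_le_mul_of_nonneg_left h6 (abs_nonneg _)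
    nlinarith
  set n : ℕ := ⌈1 / (2 * d / 3)⌉₊ with hn
  set C1 : ℝ := Real.exp (|p| * (K0 + KB)) * Real.exp (2 * |p|) with hC1
  set C2 : ℝ := 3 * (2 * ((Real.exp (2 * |p|) * Cz ^ (2 * |p|)) *
    (d ^ (1 - 2 * |p|) / (1 - 2 * |p|)))) with hC2
  have hp0 := abs_nonneg p
  refine ⟨max (C1 * (n * C2)) (Real.exp (|p| * (K0 + KB)) * Real.exp (|p| * (2 * Kd))), ?_⟩
  intro σ hσ
  rcases le_or_gt (σ - 3 / 2) d with hσd | hσd
  · -- near the edge
    set ε : ℝ := σ - 3 / 2 with hε
    have hε0 : 0 < ε := by rw [hε]; linarith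
    have hsumε : Summable fun x => (P.N x : ℝ) ^ (-(1 + ε)) := hsum _ (by linarith)
    obtain ⟨S, hS⟩ : ∃ S : Finset P.X, ∑' x : {x // x ∉ S}, (P.N x : ℝ) ^ (-(1 + ε)) ≤ 1 := by
      have h1 := tendsto_tsum_compl_atTop_zero (fun x : P.X => (P.N x : ℝ) ^ (-(1 + ε)))
      have h2 := h1.eventually (gt_mem_nhds (zero_lt_one))
      obtain ⟨S, hS⟩ := h2.exists
      exact ⟨S, hS.le⟩
    have hexp : 1 / 2 - σ = -(1 + ε) := by rw [hε]; ring
    set a : P.X → ℂ := fun v => A' v * (((P.N v : ℝ) ^ (-σ) : ℝ) : ℂ) with ha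
    set b : P.X → ℝ := fun v => 2 * (P.N v : ℝ) ^ (-(1 + ε)) with hb
    have hab : ∀ v ∈ S, ‖a v‖ ≤ b v := by
      intro v _
      have := hterm σ v
      rw [hexp] at this
      exact this
    set F : ℝ → ℝ := fun t =>
      Real.exp (p * (∑ v ∈ S, a v * cexp (((-P.lam v : ℝ) : ℂ) * t * I)).re) with hF
    have hFc : Continuous F := by rw [hF]; fun_prop
    have hF0 : ∀ t, 0 ≤ F t := fun t => (Real.exp_pos _).le
    refine ⟨fun t => C1 * F t, hFc.const_mul _ |> fun h => h, fun t => mul_nonneg (by positivity) (hF0 t),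
      ?_, ?_⟩
    · intro t
      refine (hL σ hσ t).trans ?_
      simp only
      rw [hC1, mul_assoc]
      refine mul_le_mul_of_nonneg_left ?_ (Real.exp_pos _).le
      rw [hF]
      simp only
      rw [← Real.exp_add, Real.exp_le_exp]
      -- difference of the full sum and the finite sum
      have hte : ∀ v, A' v * ((P.N v : ℕ) : ℂ) ^ (-((σ : ℂ) + t * I)) =
          a v * cexp (((-P.lam v : ℝ) : ℂ) * t * I) := fun v => by
        rw [ha]
        exact term_eq A' v σ t
      simp_rw [hte]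
      have hnorm : ∀ v, ‖a v * cexp (((-P.lam v : ℝ) : ℂ) * t * I)‖ ≤ 2 * (P.N v : ℝ) ^ (-(1 + ε)) := by
        intro v
        have h2 : ‖cexp (((-P.lam v : ℝ) : ℂ) * t * I)‖ = 1 := by
          have := Complex.norm_exp_ofReal_mul_I ((-P.lam v) * t)
          rwa [Complex.ofReal_mul] at this
        rw [norm_mul, h2, mul_one]
        have := hterm σ v
        rw [hexp] at this
        exact this
      have hsm : Summable fun v => a v * cexp (((-P.lam v : ℝ) : ℂ) * t * I) :=
        Summable.of_norm_bounded (hsumε.mul_left 2) hnorm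
      have hsplit := hsm.sum_add_tsum_subtype_compl S
      rw [← hsplit, Complex.add_re]
      have htail : |(∑' x : {x // x ∉ S}, a x * cexp (((-P.lam x : ℝ) : ℂ) * t * I)).re| ≤ 2 := by
        refine (Complex.abs_re_le_norm _).trans ?_
        have h3 : HasSum (fun x : {x // x ∉ S} => 2 * (P.N x : ℝ) ^ (-(1 + ε)))
            (2 * ∑' x : {x // x ∉ S}, (P.N x : ℝ) ^ (-(1 + ε))) :=
          (hsumε.subtype _).hasSum.mul_left 2
        refine (tsum_of_norm_bounded h3 fun x => hnorm x).trans ?_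
        linarith
      have h9 : p * (∑' x : {x // x ∉ S}, a x * cexp (((-P.lam x : ℝ) : ℂ) * t * I)).re ≤ 2 * |p| := by
        refine (le_abs_self _).trans ?_
        rw [abs_mul, mul_comm]
        exact mul_le_mul_of_nonneg_right htail (abs_nonneg _)
      linarith
    · intro T
      rw [intervalIntegral.integral_const_mul]
      refine le_trans ?_ (le_max_left _ _)
      refine mul_le_mul_of_nonneg_left ?_ (by positivity)
      refine window hFc hF0 (h := 2 * d / 3) (by positivity) ?_ T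
      intro T
      have h1 := maj S a b (fun v => -P.lam v) hab p hd (T + d / 3)
      have e1 : T + d / 3 - d / 3 = T := by ring
      have e2 : T + d / 3 + d / 3 = T + 2 * d / 3 := by ring
      rw [e1, e2] at h1
      refine h1.trans ?_
      rw [hC2]
      refine mul_le_mul_of_nonneg_left ?_ (by norm_num)
      refine integral_sing (by fun_prop) ?_ hd (by linarith) ?_
      · intro u
        simp
      · intro u hu hud
        have hz := hpz ε hε0 hσd u hu hud
        have hc : ∀ v : P.X, Real.cos (-P.lam v * u) = Real.cos (P.lam v * u) := by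
          intro v
          rw [neg_mul, Real.cos_neg]
        have hsc : Summable fun x => (P.N x : ℝ) ^ (-(1 + ε)) * Real.cos (P.lam x * u) := by
          refine Summable.of_norm_bounded hsumε fun v => ?_
          rw [norm_mul, Real.norm_of_nonneg (Real.rpow_nonneg (P.N_pos v).le _)]
          exact mul_le_of_le_one_right (Real.rpow_nonneg (P.N_pos v).le _) (Real.abs_cos_le_one _)
        have hsplit := hsc.sum_add_tsum_subtype_compl S
        have htail : |∑' x : {x // x ∉ S}, (P.N x : ℝ) ^ (-(1 + ε)) * Real.cos (P.lam x * u)| ≤ 1 := by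
          refine le_trans ?_ hS
          have h3 : HasSum (fun x : {x // x ∉ S} => (P.N x : ℝ) ^ (-(1 + ε)))
            (∑' x : {x // x ∉ S}, (P.N x : ℝ) ^ (-(1 + ε))) := (hsumε.subtype _).hasSum
          rw [← Real.norm_eq_abs]
          refine tsum_of_norm_bounded h3 fun v => ?_
          rw [norm_mul, Real.norm_of_nonneg (Real.rpow_nonneg (P.N_pos v.1).le _)]
          exact mul_le_of_le_one_right (Real.rpow_nonneg (P.N_pos v.1).le _)
            (Real.abs_cos_le_one _)
        have h5 : |p| * ∑ v ∈ S, b v * Real.cos (-P.lam v * u) ≤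
            2 * |p| + (2 * |p|) * ∑' x, (P.N x : ℝ) ^ (-(1 + ε)) * Real.cos (P.lam x * u) := by
          have h6 : ∑ v ∈ S, b v * Real.cos (-P.lam v * u) =
              2 * ∑ v ∈ S, (P.N v : ℝ) ^ (-(1 + ε)) * Real.cos (P.lam v * u) := by
            rw [mul_sum]
            refine sum_congr rfl fun v _ => ?_
            rw [hc, hb]
            ring
          rw [h6, ← hsplit]
          have h7 := neg_abs_le (∑' x : {x // x ∉ S}, (P.N x : ℝ) ^ (-(1 + ε)) * Real.cos (P.lam x * u))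
          nlinarith
        calc Real.exp (|p| * ∑ v ∈ S, b v * Real.cos (-P.lam v * u))
            ≤ Real.exp (2 * |p| + (2 * |p|) * ∑' x, (P.N x : ℝ) ^ (-(1 + ε)) * Real.cos (P.lam x * u)) :=
              Real.exp_le_exp.2 h5
          _ = Real.exp (2 * |p|) * (Real.exp (∑' x, (P.N x : ℝ) ^ (-(1 + ε)) *
                Real.cos (P.lam x * u))) ^ (2 * |p|) := by
              rw [Real.exp_add, ← Real.exp_mul]
              congr 2
              ring
          _ ≤ Real.exp (2 * |p|) * (Cz * u⁻¹) ^ (2 * |p|) := by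
              refine mul_le_mul_of_nonneg_left ?_ (Real.exp_pos _).le
              exact Real.rpow_le_rpow (Real.exp_pos _).le hz (by positivity)
          _ = _ := by
              rw [Real.mul_rpow hCz.le (by positivity), Real.inv_rpow hu.le, ← Real.rpow_neg hu.le]
              ring
  · -- far from the edge
    refine ⟨fun _ => Real.exp (|p| * (K0 + KB)) * Real.exp (|p| * (2 * Kd)), continuous_const,
      fun _ => by positivity, ?_, ?_⟩
    · intro t
      refine (hL σ hσ t).trans ?_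
      refine mul_le_mul_of_nonneg_left (Real.exp_le_exp.2 ?_) (Real.exp_pos _).le
      have h1 : |(∑' v, A' v * ((P.N v : ℕ) : ℂ) ^ (-((σ : ℂ) + t * I))).re| ≤ 2 * Kd := by
        refine (Complex.abs_re_le_norm _).trans ?_
        refine tsum_of_norm_bounded (hsumd.hasSum.mul_left 2) fun v => ?_
        have h1N : (1 : ℝ) ≤ P.N v := by have := P.two_le v; exact_mod_cast (by omega : 1 ≤ P.N v)
        rw [norm_mul, P.norm_N_cpow]
        have h2 := hterm σ v
        rw [norm_mul, Complex.norm_real, Real.norm_of_nonneg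
          (Real.rpow_nonneg (P.N_pos v).le _)] at h2
        have e : (-((σ : ℂ) + t * I)).re = -σ := by simp
        rw [e]
        refine h2.trans ?_
        refine mul_le_mul_of_nonneg_left ?_ (by norm_num)
        exact Real.rpow_le_rpow_of_exponent_le h1N (by linarith)
      refine (le_abs_self _).trans ?_
      rw [abs_mul]
      exact mul_le_mul_of_nonneg_left h1 (abs_nonneg _)
    · intro T
      rw [intervalIntegral.integral_const]
      simp

end

end PSys

end Pool.Agent.L5helper14.Edge
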