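import Pool.Agent.L5helper14.Edge.Dir3
import Pool.Agent.L5helper14.Edge.Mom

/-! Dirichlet coefficients of the Euler products of `Euler.lean`. -/

set_option autoImplicit false

namespace Pool.Agent.L5helper14.Edge.D

open Complex Filter Topology Finset

theorem exists_roots (a b : ℂ) : ∃ α β : ℂ, α + β = a ∧ α * β = b := by
  obtain ⟨d, hd⟩ := IsAlgClosed.exists_pow_nat_eq (a ^ 2 - 4 * b) (n := 2) (by norm_num)
  refine ⟨(a + d) / 2, (a - d) / 2, by ring, ?_⟩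
  have : (a + d) / 2 * ((a - d) / 2) = (a ^ 2 - d ^ 2) / 4 := by ring
  rw [this, hd]
  ring

theorem root_bound1 {N : ℝ} (hN : 2 ≤ N) {x : ℝ} (hx : x ^ 2 ≤ N * x + N) :
    x * N ^ (-(3 / 2 : ℝ)) ≤ 97 / 100 := by
  have hN0 : 0 < N := by linarith
  set r := Real.sqrt N with hr
  have hr2 : r ^ 2 = N := Real.sq_sqrt hN0.le
  have hr0 : 0 < r := Real.sqrt_pos.2 hN0
  have e : N ^ (-(3 / 2 : ℝ)) = (r ^ 3)⁻¹ := by
    rw [Real.rpow_neg hN0.le, ← hr2, ← Real.rpow_natCast, ← Real.rpow_mul hr0.le, ← Real.rpow_natCast]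
    norm_num
  rw [e, ← div_eq_mul_inv, div_le_iff₀ (by positivity)]
  by_contra hlt
  push Not at hlt
  -- r >= sqrt 2 > 1.4142
  have h1 : (1.4142 : ℝ) < r := by
    rw [hr]
    apply Real.lt_sqrt_of_sq_lt
    norm_num
    linarith
  rw [← hr2] at hx
  have h2 : x ^ 2 - r ^ 2 * x - r ^ 2 ≤ 0 := by linarith
  have h3 : (97 / 100 * r ^ 3) ^ 2 - r ^ 2 * (97 / 100 * r ^ 3) - r ^ 2 < x ^ 2 - r ^ 2 * x - r ^ 2 := by
    have h4 : r ^ 2 < x + 97 / 100 * r ^ 3 := by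
      nlinarith [pow_pos hr0 3, pow_pos hr0 2, mul_pos hr0 hr0]
    nlinarith
  have h5 : 0 < (97 / 100 * r ^ 3) ^ 2 - r ^ 2 * (97 / 100 * r ^ 3) - r ^ 2 := by
    have e2 : (97 / 100 * r ^ 3) ^ 2 - r ^ 2 * (97 / 100 * r ^ 3) - r ^ 2 =
        r ^ 2 * ((9409 / 10000) * r ^ 4 - 97 / 100 * r ^ 3 - 1) := by ring
    rw [e2]
    apply mul_pos (by positivity)
    have h6 : (2:ℝ) ≤ r ^ 2 := by rw [hr2]; exact hN
    nlinarith [mul_pos hr0 hr0, pow_pos hr0 3, mul_nonneg (sub_nonneg.2 h1.le) (pow_pos hr0 3).le, sq_nonneg (r ^ 2 - 2)]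
  linarith

theorem root_bound2 {N : ℝ} (hN : 2 ≤ N) {x : ℝ} (hx : x ^ 2 ≤ 2 * Real.sqrt N * x + N) :
    x ≤ 3 * Real.sqrt N := by
  have hN0 : 0 < N := by linarith
  have hr0 : 0 < Real.sqrt N := Real.sqrt_pos.2 hN0
  by_contra hlt
  push Not at hlt
  have hr2 : Real.sqrt N ^ 2 = N := Real.sq_sqrt hN0.le
  nlinarith

/-- an inverse `1 / (1 - x)` with `x ≤ 97/100` -/
theorem inv_le_exp {x : ℝ} (h0 : 0 ≤ x) (h1 : x ≤ 97 / 100) : (1 - x)⁻¹ ≤ Real.exp (100 / 3 * x) := by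
  have h2 : (1 - x)⁻¹ ≤ 100 / 3 * x + 1 := by
    rw [inv_le_iff_one_le_mul₀ (by linarith)]
    nlinarith
  exact h2.trans (Real.add_one_le_exp _)

section
variable {P : PSys} (hsum : ∀ r : ℝ, r < -1 → Summable fun x => (P.N x : ℝ) ^ r)
    {A dl : P.X → ℂ} (hA : ∀ v, ‖A v‖ ≤ P.N v) (hd' : ∀ v, ‖dl v‖ ≤ 1) (B0 : Finset P.X)
    (hgood : ∀ v ∉ B0, 5 ≤ P.N v ∧ ‖A v‖ ≤ 2 * Real.sqrt (P.N v))

/-- the sum of the two roots' contributions is bounded -/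
theorem prod_bound (hsum : ∀ r : ℝ, r < -1 → Summable fun x => (P.N x : ℝ) ^ r) (B0 : Finset P.X)
    {α β : P.X → ℂ} {σ : ℝ} (hσ : 3 / 2 < σ)
    (ha : ∀ v, ‖α v‖ * (P.N v : ℝ) ^ (-σ) ≤ 97 / 100) (hb : ∀ v, ‖β v‖ * (P.N v : ℝ) ^ (-σ) ≤ 97 / 100)
    (ha' : ∀ v ∉ B0, ‖α v‖ ≤ 3 * Real.sqrt (P.N v)) (hb' : ∀ v ∉ B0, ‖β v‖ ≤ 3 * Real.sqrt (P.N v)) :
    ∃ C : ℝ, ∀ S : Finset P.X, ∏ x ∈ S, ((1 - ‖α x‖ * (P.N x : ℝ) ^ (-σ))⁻¹ *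
      (1 - ‖β x‖ * (P.N x : ℝ) ^ (-σ))⁻¹) ≤ C := by
  have key : ∀ γ : P.X → ℂ, (∀ v ∉ B0, ‖γ v‖ ≤ 3 * Real.sqrt (P.N v)) →
      Summable fun v => ‖γ v‖ * (P.N v : ℝ) ^ (-σ) := by
    intro γ hγ
    refine Summable.of_norm_bounded_eventually ((hsum (1 / 2 - σ) (by linarith)).mul_left 3) ?_
    rw [Filter.eventually_cofinite]
    refine (B0.finite_toSet).subset fun v hv => ?_
    by_contra hvB
    apply hv
    have hN := P.N_pos v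
    rw [norm_mul, norm_norm, Real.norm_of_nonneg (by positivity : 0 ≤ (P.N v : ℝ) ^ (-σ))]
    have e : (P.N v : ℝ) ^ (1 / 2 - σ) = Real.sqrt (P.N v) * (P.N v : ℝ) ^ (-σ) := by
      rw [Real.sqrt_eq_rpow, ← Real.rpow_add hN]
      ring_nf
    rw [e, ← mul_assoc]
    exact mul_le_mul_of_nonneg_right (hγ v hvB) (by positivity)
  have h1 := key α ha'
  have h2 := key β hb'
  refine ⟨Real.exp (100 / 3 * ∑' v, ‖α v‖ * (P.N v : ℝ) ^ (-σ) + 100 / 3 * ∑' v, ‖β v‖ * (P.N v : ℝ) ^ (-σ)),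
    fun S => ?_⟩
  have hpos : ∀ (γ : P.X → ℂ) v, 0 ≤ ‖γ v‖ * (P.N v : ℝ) ^ (-σ) := fun γ v => by positivity
  calc ∏ x ∈ S, ((1 - ‖α x‖ * (P.N x : ℝ) ^ (-σ))⁻¹ * (1 - ‖β x‖ * (P.N x : ℝ) ^ (-σ))⁻¹)
      ≤ ∏ x ∈ S, (Real.exp (100 / 3 * (‖α x‖ * (P.N x : ℝ) ^ (-σ))) *
          Real.exp (100 / 3 * (‖β x‖ * (P.N x : ℝ) ^ (-σ)))) := by
        refine Finset.prod_le_prod (fun x _ => ?_) fun x _ => ?_
        · have h3 := ha x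
          have h4 := hb x
          exact mul_nonneg (inv_nonneg.2 (by linarith)) (inv_nonneg.2 (by linarith))
        · have h4 := hb x
          exact mul_le_mul (inv_le_exp (hpos α x) (ha x)) (inv_le_exp (hpos β x) (hb x))
            (inv_nonneg.2 (by linarith)) (Real.exp_pos _).le
    _ = Real.exp (∑ x ∈ S, (100 / 3 * (‖α x‖ * (P.N x : ℝ) ^ (-σ)) + 100 / 3 * (‖β x‖ * (P.N x : ℝ) ^ (-σ)))) := by
        rw [Real.exp_sum]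
        refine prod_congr rfl fun x _ => ?_
        rw [Real.exp_add]
    _ ≤ _ := by
        apply Real.exp_le_exp.2
        rw [sum_add_distrib, ← mul_sum, ← mul_sum]
        have h5 := h1.sum_le_tsum S (fun x _ => hpos α x)
        have h6 := h2.sum_le_tsum S (fun x _ => hpos β x)
        linarith

theorem lf_split {α β : P.X → ℂ} {v : P.X} (h1 : α v + β v = A v) (h2 : α v * β v = dl v * P.N v) (s : ℂ) :
    P.lf A dl v s = (1 - α v * (P.N v : ℂ) ^ (-s)) * (1 - β v * (P.N v : ℂ) ^ (-s)) := by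
  have hN : (P.N v : ℂ) ≠ 0 := by have := P.two_le v; exact_mod_cast (by omega : P.N v ≠ 0)
  have h3 : (P.N v : ℂ) ^ (1 - 2 * s) = P.N v * (P.N v : ℂ) ^ (-s) * (P.N v : ℂ) ^ (-s) := by
    rw [show (1 : ℂ) - 2 * s = 1 + -s + -s by ring, Complex.cpow_add _ _ hN, Complex.cpow_add _ _ hN,
      Complex.cpow_one]
  unfold PSys.lf
  rw [h3, ← h1]
  linear_combination (-(P.N v : ℂ) ^ (-s) * (P.N v : ℂ) ^ (-s)) * h2

include hsum hA hd' hgood in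
/-- **the Dirichlet series of the Euler product** -/
theorem dir_data : ∃ α β : P.X → ℂ,
    (∀ v, α v + β v = A v ∧ α v * β v = dl v * P.N v) ∧
    (∀ v, ‖α v‖ * (P.N v : ℝ) ^ (-(3 / 2 : ℝ)) ≤ 97 / 100 ∧ ‖β v‖ * (P.N v : ℝ) ^ (-(3 / 2 : ℝ)) ≤ 97 / 100) ∧
    ∀ s : ℂ, 3 / 2 < s.re → LSeriesHasSum (fun n => (lim P.fin (gx P.N α β)) n) s (∏' v, (P.lf A dl v s)⁻¹) := by
  choose α β hab1 hab2 using fun v => exists_roots (A v) (dl v * P.N v)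
  have hsq : ∀ v, ∀ γ : ℂ, γ ^ 2 = A v * γ - dl v * P.N v → ‖γ‖ ^ 2 ≤ ‖A v‖ * ‖γ‖ + P.N v := by
    intro v γ h
    rw [← norm_pow, h]
    refine (norm_sub_le _ _).trans ?_
    rw [norm_mul, norm_mul, Complex.norm_natCast]
    gcongr
    exact mul_le_of_le_one_left (P.N_pos v).le (hd' v)
  have hα : ∀ v, (α v) ^ 2 = A v * α v - dl v * P.N v := by
    intro v
    rw [← hab1 v, ← hab2 v]
    ring
  have hβ : ∀ v, (β v) ^ 2 = A v * β v - dl v * P.N v := by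
    intro v
    rw [← hab1 v, ← hab2 v]
    ring
  have h2N : ∀ v, (2 : ℝ) ≤ P.N v := fun v => by exact_mod_cast P.two_le v
  have hb1 : ∀ v, ∀ γ : ℂ, ‖γ‖ ^ 2 ≤ ‖A v‖ * ‖γ‖ + P.N v → ‖γ‖ * (P.N v : ℝ) ^ (-(3 / 2 : ℝ)) ≤ 97 / 100 := by
    intro v γ h
    refine root_bound1 (h2N v) (h.trans ?_)
    gcongr
    exact hA v
  have hb2 : ∀ v ∉ B0, ∀ γ : ℂ, ‖γ‖ ^ 2 ≤ ‖A v‖ * ‖γ‖ + P.N v → ‖γ‖ ≤ 3 * Real.sqrt (P.N v) := by
    intro v hv γ h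
    refine root_bound2 (h2N v) (h.trans ?_)
    gcongr
    exact (hgood v hv).2
  have hb3 : ∀ v, ∀ γ : ℂ, ‖γ‖ * (P.N v : ℝ) ^ (-(3 / 2 : ℝ)) ≤ 97 / 100 → ∀ σ : ℝ, 3 / 2 < σ →
      ‖γ‖ * (P.N v : ℝ) ^ (-σ) ≤ 97 / 100 := by
    intro v γ h σ hσ
    refine le_trans ?_ h
    gcongr
    · linarith [h2N v]
  refine ⟨α, β, fun v => ⟨hab1 v, hab2 v⟩, fun v => ⟨hb1 v _ (hsq v _ (hα v)), hb1 v _ (hsq v _ (hβ v))⟩, ?_⟩
  intro s hs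
  have ha : ∀ v, ‖α v‖ * (P.N v : ℝ) ^ (-s.re) ≤ 97 / 100 := fun v =>
    hb3 v _ (hb1 v _ (hsq v _ (hα v))) _ hs
  have hb : ∀ v, ‖β v‖ * (P.N v : ℝ) ^ (-s.re) ≤ 97 / 100 := fun v =>
    hb3 v _ (hb1 v _ (hsq v _ (hβ v))) _ hs
  obtain ⟨C, hC⟩ := prod_bound hsum B0 hs ha hb (fun v hv => hb2 v hv _ (hsq v _ (hα v)))
    (fun v hv => hb2 v hv _ (hsq v _ (hβ v)))
  have h5 := (PSys.hasSum_logs hsum hA hd' B0 hgood hs).2.2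
  refine lim_hasSum P.two_le (fun v => lt_of_le_of_lt (ha v) (by norm_num))
    (fun v => lt_of_le_of_lt (hb v) (by norm_num)) hC ?_
  have h6 : (fun v => (1 - α v * (P.N v : ℂ) ^ (-s))⁻¹ * (1 - β v * (P.N v : ℂ) ^ (-s))⁻¹) =
      fun v => (P.lf A dl v s)⁻¹ := by
    funext v
    rw [lf_split (hab1 v) (hab2 v), mul_inv]
  rw [h6, h5.tprod_eq]
  exact h5

/-- the local version -/
theorem local_hasSum {α β : P.X → ℂ} (h1 : ∀ v, α v + β v = A v ∧ α v * β v = dl v * P.N v)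
    (h2 : ∀ v, ‖α v‖ * (P.N v : ℝ) ^ (-(3 / 2 : ℝ)) ≤ 97 / 100 ∧ ‖β v‖ * (P.N v : ℝ) ^ (-(3 / 2 : ℝ)) ≤ 97 / 100)
    (S : Finset P.X) {s : ℂ} (hs : 3 / 2 < s.re) :
    LSeriesHasSum (fun n => (∏ v ∈ S, gx P.N α β v) n) s (∏ v ∈ S, (P.lf A dl v s)⁻¹) := by
  have h3 : ∀ v, ∀ γ : ℂ, ‖γ‖ * (P.N v : ℝ) ^ (-(3 / 2 : ℝ)) ≤ 97 / 100 → ‖γ * (P.N v : ℂ) ^ (-s)‖ < 1 := by
    intro v γ h
    rw [norm_mul, P.norm_N_cpow]
    refine lt_of_le_of_lt (le_trans ?_ h) (by norm_num)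
    have : (1:ℝ) ≤ P.N v := by have := P.two_le v; exact_mod_cast (by omega : 1 ≤ P.N v)
    gcongr
    simp
    linarith
  refine LSeriesHasSum_prod S fun v _ => ?_
  rw [lf_split (h1 v).1 (h1 v).2, mul_inv]
  exact ArithmeticFunction.LSeriesHasSum_mul (LSeriesHasSum_geo (P.two_le v) (h3 v _ (h2 v).1))
    (LSeriesHasSum_geo (P.two_le v) (h3 v _ (h2 v).2))

end

end Pool.Agent.L5helper14.Edge.D
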