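import Pool.Agent.L5helper14.Edge.Dir4

/-! Algebraic dependence of Euler products. -/

set_option autoImplicit false

namespace Pool.Agent.L5helper14.Edge.D

open ArithmeticFunction Filter Topology Finset

/-- an Euler product over the rational primes with Dirichlet coefficients -/
def Dat (Lf : ℂ → ℂ) (Lp : ℕ → ℂ → ℂ) : Prop :=
  ∃ f : ArithmeticFunction ℂ, f.IsMultiplicative ∧
    (∀ s : ℂ, 3 / 2 < s.re → LSeriesHasSum (fun n => f n) s (Lf s)) ∧
    ∀ p : ℕ, p.Prime → ∀ s : ℂ, 3 / 2 < s.re → LSeriesHasSum (fun n => (rp p f) n) s (Lp p s)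

theorem LSeriesHasSum_pow {F : ArithmeticFunction ℂ} {s w : ℂ} (h : LSeriesHasSum (fun n => F n) s w) (k : ℕ) :
    LSeriesHasSum (fun n => (F ^ k) n) s (w ^ k) := by
  have := LSeriesHasSum_prod (Finset.range k) (F := fun _ => F) (s := s) (w := fun _ => w) (fun _ _ => h)
  simpa using this

theorem isMultiplicative_pow {F : ArithmeticFunction ℂ} (h : F.IsMultiplicative) (k : ℕ) :
    (F ^ k).IsMultiplicative := by
  have := isMultiplicative_prod (Finset.range k) (F := fun _ => F) (fun _ _ => h)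
  simpa using this

theorem dep_of_alg {k : ℕ} {Lf : Fin k → ℂ → ℂ} {Lp : Fin k → ℕ → ℂ → ℂ} (h : ∀ i, Dat (Lf i) (Lp i))
    {Φ : MvPolynomial (Fin k) ℂ} (hΦ : Φ ≠ 0)
    (hz : ∀ s : ℂ, 3 / 2 < s.re → MvPolynomial.eval (fun i => Lf i s) Φ = 0) :
    ∃ a b : Fin k → ℕ, a ≠ b ∧ ∃ N1 : ℕ, N1 ≠ 0 ∧ ∀ p : ℕ, p.Prime → ¬ p ∣ N1 →
      ∀ s : ℂ, 3 / 2 < s.re → ∏ i, (Lp i p s) ^ (a i) = ∏ i, (Lp i p s) ^ (b i) := by
  classical
  choose f hf1 hf2 hf3 using h
  set mf : (Fin k →₀ ℕ) → ArithmeticFunction ℂ := fun d => ∏ i, f i ^ d i with hmf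
  have hmult : ∀ d, (mf d).IsMultiplicative := fun d =>
    isMultiplicative_prod _ fun i _ => isMultiplicative_pow (hf1 i) _
  have hmL : ∀ d, ∀ s : ℂ, 3 / 2 < s.re → LSeriesHasSum (fun n => (mf d) n) s (∏ i, Lf i s ^ d i) := fun d s hs =>
    LSeriesHasSum_prod _ fun i _ => LSeriesHasSum_pow (hf2 i s hs) _
  set A : ℕ → ℂ := fun n => ∑ d ∈ Φ.support, Φ.coeff d * mf d n with hA
  have hAL : ∀ s : ℂ, 3 / 2 < s.re → LSeriesHasSum A s 0 := by
    intro s hs
    have h1 : HasSum (fun n => ∑ d ∈ Φ.support, Φ.coeff d * LSeries.term (fun n => mf d n) s n)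
        (∑ d ∈ Φ.support, Φ.coeff d * ∏ i, Lf i s ^ d i) :=
      hasSum_sum fun d _ => (hmL d s hs).mul_left _
    rw [← MvPolynomial.eval_eq', hz s hs] at h1
    unfold LSeriesHasSum
    convert h1 using 1
    funext n
    rw [LSeries.term]
    split_ifs with hn
    · rw [sum_eq_zero]
      intro d _
      rw [LSeries.term, if_pos hn, mul_zero]
    · rw [hA]
      simp only
      rw [sum_div]
      refine sum_congr rfl fun d _ => ?_
      rw [LSeries.term, if_neg hn, mul_div_assoc]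
  have hab : LSeries.abscissaOfAbsConv A ≠ ⊤ := by
    have h1 : LSeriesSummable A 2 := (hAL 2 (by norm_num)).LSeriesSummable
    exact (lt_of_le_of_lt h1.abscissaOfAbsConv_le (by simp)).ne
  have hA0 : ∀ n, n ≠ 0 → A n = 0 := by
    have h1 : (fun x : ℝ => LSeries A x) =ᶠ[atTop] 0 := by
      filter_upwards [eventually_gt_atTop (3 / 2 : ℝ)] with x hx
      exact (hAL x (by simpa using hx)).LSeries_eq
    rcases LSeries_eventually_eq_zero_iff'.1 h1 with h2 | h2
    · exact h2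
    · exact absurd h2 hab
  have hne : Φ.support.Nonempty := MvPolynomial.support_nonempty.2 hΦ
  obtain ⟨a, _, b, _, hab', N1, hN1, h3⟩ := dedekind mf hmult _ Φ.support rfl hne
    (fun d => Φ.coeff d) (fun d hd => MvPolynomial.mem_support_iff.1 hd) 1 one_ne_zero (fun n hn => by
      rcases Nat.eq_zero_or_pos n with rfl | hn0
      · simp
      · exact hA0 n hn0.ne')
  refine ⟨a, b, fun h => hab' (DFunLike.coe_injective h), N1, hN1, fun p hp hpN s hs => ?_⟩
  have h4 : rp p (mf a) = rp p (mf b) := rp_congr hp (h3 p hp hpN)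
  have h5 : ∀ d, LSeriesHasSum (fun n => (rp p (mf d)) n) s (∏ i, Lp i p s ^ d i) := by
    intro d
    rw [hmf]
    simp only
    rw [rp_prod hp]
    refine LSeriesHasSum_prod _ fun i _ => ?_
    rw [rp_pow' hp]
    exact LSeriesHasSum_pow (hf3 i p hp s hs) _
  have h6 := h5 a
  rw [h4] at h6
  exact h6.unique (h5 b)

end Pool.Agent.L5helper14.Edge.D
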