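import Mathlib

/-! The majorant principle for exponentials of trigonometric sums. -/

set_option autoImplicit false

namespace Pool.Agent.L5helper14.Edge

open Complex MeasureTheory Finset Filter Topology ComplexConjugate

/-- the double mean over an interval -/
noncomputable def DD (δ T : ℝ) (f : ℝ → ℂ) : ℂ :=
  ∫ r in (0 : ℝ)..δ, ∫ s in (0 : ℝ)..δ, f (T + s - r)

/-- finite trigonometric sums, the first dominated by the second -/
def Dom (f g : ℝ → ℂ) : Prop :=
  ∃ (ι : Type) (S : Finset ι) (a : ι → ℂ) (b : ι → ℝ) (θ : ι → ℝ),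
    (∀ i ∈ S, ‖a i‖ ≤ b i) ∧ (∀ t, f t = ∑ i ∈ S, a i * cexp (θ i * t * I)) ∧
    (∀ t, g t = ∑ i ∈ S, (b i : ℂ) * cexp (θ i * t * I))

/-- the transform of the interval -/
noncomputable def JJ (δ θ : ℝ) : ℂ := ∫ s in (0 : ℝ)..δ, cexp (θ * s * I)

theorem JJ_conj (δ θ : ℝ) : ∫ s in (0 : ℝ)..δ, cexp (-(θ * s * I)) = conj (JJ δ θ) := by
  unfold JJ
  rw [intervalIntegral.intervalIntegral_eq_integral_uIoc, intervalIntegral.intervalIntegral_eq_integral_uIoc]
  rw [Complex.real_smul, Complex.real_smul, map_mul, Complex.conj_ofReal, ← integral_conj]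
  congr 1
  refine integral_congr_ae (Eventually.of_forall fun s => ?_)
  simp only
  rw [← Complex.exp_conj]
  congr 1
  simp

theorem DD_sum {ι : Type} (S : Finset ι) (a : ι → ℂ) (θ : ι → ℝ) (δ T : ℝ) :
    DD δ T (fun t => ∑ i ∈ S, a i * cexp (θ i * t * I)) =
      ∑ i ∈ S, a i * cexp (θ i * T * I) * (‖JJ δ (θ i)‖ ^ 2 : ℝ) := by
  unfold DD
  have h1 : ∀ r : ℝ, ∫ s in (0 : ℝ)..δ, ∑ i ∈ S, a i * cexp (θ i * ((T + s - r : ℝ) : ℂ) * I) =
      ∑ i ∈ S, a i * cexp (θ i * T * I) * JJ δ (θ i) * cexp (-(θ i * r * I)) := by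
    intro r
    rw [intervalIntegral.integral_finsetSum]
    · refine sum_congr rfl fun i _ => ?_
      have h2 : ∀ s : ℝ, a i * cexp (θ i * ((T + s - r : ℝ) : ℂ) * I) =
          (a i * cexp (θ i * T * I) * cexp (-(θ i * r * I))) * cexp (θ i * s * I) := by
        intro s
        have h3 : cexp (θ i * ((T + s - r : ℝ) : ℂ) * I) =
            cexp (θ i * T * I) * cexp (-(θ i * r * I)) * cexp (θ i * s * I) := by
          rw [← Complex.exp_add, ← Complex.exp_add]
          congr 1
          push_cast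
          ring
        rw [h3]
        ring
      simp_rw [h2]
      rw [intervalIntegral.integral_const_mul]
      unfold JJ
      ring
    · intro i _
      exact (Continuous.intervalIntegrable (by fun_prop) _ _)
  simp_rw [h1]
  rw [intervalIntegral.integral_finsetSum]
  · refine sum_congr rfl fun i _ => ?_
    rw [intervalIntegral.integral_const_mul, JJ_conj, mul_assoc, Complex.mul_conj']
    push_cast
    ring
  · intro i _
    exact (Continuous.intervalIntegrable (by fun_prop) _ _)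

theorem Dom.le {f g : ℝ → ℂ} (h : Dom f g) (δ T : ℝ) : ‖DD δ T f‖ ≤ (DD δ 0 g).re := by
  obtain ⟨ι, S, a, b, θ, hab, hf, hg⟩ := h
  have e1 : f = fun t : ℝ => ∑ i ∈ S, a i * cexp (θ i * t * I) := funext hf
  have e2 : g = fun t : ℝ => ∑ i ∈ S, (b i : ℂ) * cexp (θ i * t * I) := funext hg
  rw [e1, e2, DD_sum, DD_sum]
  have h1 : (∑ i ∈ S, (b i : ℂ) * cexp (θ i * ((0 : ℝ) : ℂ) * I) * (‖JJ δ (θ i)‖ ^ 2 : ℝ)) =
      ((∑ i ∈ S, b i * ‖JJ δ (θ i)‖ ^ 2 : ℝ) : ℂ) := by
    push_cast
    refine sum_congr rfl fun i _ => ?_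
    simp
  rw [h1, Complex.ofReal_re]
  refine (norm_sum_le _ _).trans (sum_le_sum fun i hi => ?_)
  rw [norm_mul, norm_mul, Complex.norm_real, Real.norm_of_nonneg (by positivity)]
  have h2 : ‖cexp (θ i * T * I)‖ = 1 := by
    have := Complex.norm_exp_ofReal_mul_I (θ i * T)
    rwa [Complex.ofReal_mul] at this
  rw [h2, mul_one]
  exact mul_le_mul_of_nonneg_right (hab i hi) (by positivity)

theorem Dom.const (c : ℝ) (hc : 0 ≤ c) : Dom (fun _ => (c : ℂ)) (fun _ => (c : ℂ)) := by
  refine ⟨Unit, {()}, fun _ => c, fun _ => c, fun _ => 0, ?_, ?_, ?_⟩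
  · intro i _
    rw [Complex.norm_real, Real.norm_of_nonneg hc]
  · intro t
    simp
  · intro t
    simp

theorem Dom.add {f g f' g' : ℝ → ℂ} (h : Dom f g) (h' : Dom f' g') :
    Dom (fun t => f t + f' t) (fun t => g t + g' t) := by
  obtain ⟨ι, S, a, b, θ, hab, hf, hg⟩ := h
  obtain ⟨ι', S', a', b', θ', hab', hf', hg'⟩ := h'
  refine ⟨ι ⊕ ι', S.disjSum S', Sum.elim a a', Sum.elim b b', Sum.elim θ θ', ?_, ?_, ?_⟩
  · intro i hi
    rcases i with i | i
    · exact hab i (by simpa using hi)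
    · exact hab' i (by simpa using hi)
  · intro t
    simp only
    rw [sum_disjSum, hf, hf']
    simp
  · intro t
    simp only
    rw [sum_disjSum, hg, hg']
    simp

theorem Dom.mul {f g f' g' : ℝ → ℂ} (h : Dom f g) (h' : Dom f' g') :
    Dom (fun t => f t * f' t) (fun t => g t * g' t) := by
  obtain ⟨ι, S, a, b, θ, hab, hf, hg⟩ := h
  obtain ⟨ι', S', a', b', θ', hab', hf', hg'⟩ := h'
  refine ⟨ι × ι', S ×ˢ S', fun x => a x.1 * a' x.2, fun x => b x.1 * b' x.2,
    fun x => θ x.1 + θ' x.2, ?_, ?_, ?_⟩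
  · intro i hi
    rw [mem_product] at hi
    rw [norm_mul]
    exact mul_le_mul (hab _ hi.1) (hab' _ hi.2) (norm_nonneg _)
      ((norm_nonneg _).trans (hab _ hi.1))
  · intro t
    simp only
    rw [hf, hf', sum_mul_sum, sum_product]
    refine sum_congr rfl fun x _ => sum_congr rfl fun y _ => ?_
    have : cexp (((θ x + θ' y : ℝ) : ℂ) * t * I) = cexp (θ x * t * I) * cexp (θ' y * t * I) := by
      rw [← Complex.exp_add]
      congr 1
      push_cast
      ring
    rw [this]
    ring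
  · intro t
    simp only
    rw [hg, hg', sum_mul_sum, sum_product]
    refine sum_congr rfl fun x _ => sum_congr rfl fun y _ => ?_
    have : cexp (((θ x + θ' y : ℝ) : ℂ) * t * I) = cexp (θ x * t * I) * cexp (θ' y * t * I) := by
      rw [← Complex.exp_add]
      congr 1
      push_cast
      ring
    rw [this]
    push_cast
    ring

theorem Dom.pow {f g : ℝ → ℂ} (h : Dom f g) (k : ℕ) :
    Dom (fun t => f t ^ k) (fun t => g t ^ k) := by
  induction k with
  | zero =>
    have := Dom.const 1 zero_le_one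
    simpa using this
  | succ k ih =>
    have := ih.mul h
    simpa [pow_succ] using this

theorem Dom.expPoly {f g : ℝ → ℂ} (h : Dom f g) (n : ℕ) :
    Dom (fun t => ∑ m ∈ range n, f t ^ m / (m.factorial : ℂ))
      (fun t => ∑ m ∈ range n, g t ^ m / (m.factorial : ℂ)) := by
  induction n with
  | zero =>
    have := Dom.const 0 le_rfl
    simpa using this
  | succ n ih =>
    have h1 := (h.pow n).mul (Dom.const (1 / (n.factorial : ℝ)) (by positivity))
    have h2 := ih.add h1
    have e : ∀ F : ℝ → ℂ, (fun t => ∑ m ∈ range (n + 1), F t ^ m / (m.factorial : ℂ)) =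
        fun t => (∑ m ∈ range n, F t ^ m / (m.factorial : ℂ)) +
          F t ^ n * (((1 / (n.factorial : ℝ) : ℝ)) : ℂ) := by
      intro F
      funext t
      rw [sum_range_succ]
      push_cast
      ring
    rw [e f, e g]
    exact h2

theorem Dom.cont {f g : ℝ → ℂ} (h : Dom f g) :
    (Continuous f ∧ Continuous g) ∧ ∃ B : ℝ, (∀ t, ‖f t‖ ≤ B) ∧ ∀ t, ‖g t‖ ≤ B := by
  obtain ⟨ι, S, a, b, θ, hab, hf, hg⟩ := h
  have e1 : f = fun t : ℝ => ∑ i ∈ S, a i * cexp (θ i * t * I) := funext hf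
  have e2 : g = fun t : ℝ => ∑ i ∈ S, (b i : ℂ) * cexp (θ i * t * I) := funext hg
  have h2 : ∀ (i : ι) (t : ℝ), ‖cexp (θ i * t * I)‖ = 1 := by
    intro i t
    have := Complex.norm_exp_ofReal_mul_I (θ i * t)
    rwa [Complex.ofReal_mul] at this
  refine ⟨⟨?_, ?_⟩, ∑ i ∈ S, b i, ?_, ?_⟩
  · rw [e1]; fun_prop
  · rw [e2]; fun_prop
  · intro t
    rw [hf]
    refine (norm_sum_le _ _).trans (sum_le_sum fun i hi => ?_)
    rw [norm_mul, h2, mul_one]
    exact hab i hi
  · intro t
    rw [hg]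
    refine (norm_sum_le _ _).trans (sum_le_sum fun i hi => ?_)
    rw [norm_mul, h2, mul_one, Complex.norm_real, Real.norm_of_nonneg]
    exact (norm_nonneg _).trans (hab i hi)

theorem tendsto_expPoly (z : ℂ) :
    Tendsto (fun n : ℕ => ∑ m ∈ range n, z ^ m / (m.factorial : ℂ)) atTop (𝓝 (cexp z)) := by
  have h := NormedSpace.expSeries_div_hasSum_exp z
  rw [← Complex.exp_eq_exp_ℂ] at h
  exact h.tendsto_sum_nat

theorem norm_expPoly_le (z : ℂ) (n : ℕ) :
    ‖∑ m ∈ range n, z ^ m / (m.factorial : ℂ)‖ ≤ Real.exp ‖z‖ := by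
  refine (norm_sum_le _ _).trans ?_
  have h1 : ∀ m ∈ range n, ‖z ^ m / (m.factorial : ℂ)‖ = ‖z‖ ^ m / (m.factorial : ℝ) := by
    intro m _
    rw [norm_div, norm_pow, Complex.norm_natCast]
  rw [sum_congr rfl h1]
  exact Real.sum_le_exp_of_nonneg (norm_nonneg _) n

theorem DD_tendsto {f : ℝ → ℂ} (hf : Continuous f) {B : ℝ} (hB : ∀ t, ‖f t‖ ≤ B) (δ T : ℝ) :
    Tendsto (fun n : ℕ => DD δ T (fun t => ∑ m ∈ range n, f t ^ m / (m.factorial : ℂ))) atTop
      (𝓝 (DD δ T (fun t => cexp (f t)))) := by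
  unfold DD
  have hin : ∀ r : ℝ, Tendsto (fun n : ℕ => ∫ s in (0 : ℝ)..δ,
      ∑ m ∈ range n, f (T + s - r) ^ m / (m.factorial : ℂ)) atTop
      (𝓝 (∫ s in (0 : ℝ)..δ, cexp (f (T + s - r)))) := by
    intro r
    refine intervalIntegral.tendsto_integral_filter_of_dominated_convergence
      (fun _ => Real.exp B) ?_ ?_ ?_ ?_
    · refine Eventually.of_forall fun n => ?_
      exact (Continuous.aestronglyMeasurable (by fun_prop))
    · refine Eventually.of_forall fun n => Eventually.of_forall fun s _ => ?_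
      exact (norm_expPoly_le _ _).trans (Real.exp_le_exp.2 (hB _))
    · exact (continuous_const.intervalIntegrable _ _)
    · exact Eventually.of_forall fun s _ => tendsto_expPoly _
  refine intervalIntegral.tendsto_integral_filter_of_dominated_convergence
    (fun _ => Real.exp B * |δ|) ?_ ?_ ?_ ?_
  · refine Eventually.of_forall fun n => ?_
    refine Continuous.aestronglyMeasurable ?_
    exact intervalIntegral.continuous_parametric_intervalIntegral_of_continuous' (by fun_prop) _ _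
  · refine Eventually.of_forall fun n => Eventually.of_forall fun r _ => ?_
    have h := intervalIntegral.norm_integral_le_of_norm_le_const (a := 0) (b := δ)
      (C := Real.exp B)
      (f := fun s : ℝ => ∑ m ∈ range n, f (T + s - r) ^ m / (m.factorial : ℂ))
      (fun s _ => (norm_expPoly_le _ _).trans (Real.exp_le_exp.2 (hB _)))
    rwa [sub_zero] at h
  · exact (continuous_const.intervalIntegrable _ _)
  · exact Eventually.of_forall fun r _ => hin r

/-- **the majorant principle** for exponentials -/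
theorem Dom.exp_le {f g : ℝ → ℂ} (h : Dom f g) (δ T : ℝ) :
    ‖DD δ T (fun t => cexp (f t))‖ ≤ (DD δ 0 (fun t => cexp (g t))).re := by
  obtain ⟨⟨hf, hg⟩, B, hB1, hB2⟩ := h.cont
  have h1 := (DD_tendsto hf hB1 δ T).norm
  have h2 := (Complex.continuous_re.tendsto _).comp (DD_tendsto hg hB2 δ 0)
  exact le_of_tendsto_of_tendsto' h1 h2 fun n => (h.expPoly n).le δ T

end Pool.Agent.L5helper14.Edge
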