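import Pool.Agent.L5helper14.Edge.NF
import Pool.Agent.H341R2.NF.TwistOrders

/-! The edge of the L-series of the elliptic curves over all number fields. -/

set_option autoImplicit false

namespace Pool.Agent.L5helper14.Edge

open NumberField IsDedekindDomain Pool.Agent.H921R2.TatePole Filter Topology Complex MeasureTheory
open Pool.Agent.H341R2 (chi)
open Pool.Agent.H341R2.EC (twist IsModel IsMinAt trc dlt csumv csumv_bound count_good
  exists_integral finite_mem five_le_v trc_le)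

namespace PSys

variable (P : PSys)

/-- the exceptional set depends only on the tail of the coefficients -/
theorem Exc_congr {c c' : P.X → ℂ} {B0 : Set P.X} (hB : B0.Finite) (h : ∀ v ∉ B0, c v = c' v) :
    P.Exc c = P.Exc c' := by
  classical
  obtain ⟨m, hm⟩ := (hB.image P.fl).bddAbove
  have hbl : ∀ a b : ℕ, m < a → ∀ x ∈ P.bl a b, c x = c' x := by
    intro a b ha x hx
    apply h
    intro hx'
    have h1 := hm ⟨x, hx', rfl⟩
    have h2 := (P.mem_bl.1 hx).1
    omega
  have hF : ∀ a b : ℕ, m < a → P.F c a b = P.F c' a b := by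
    intro a b ha
    funext t
    unfold F tm
    exact Finset.sum_congr rfl fun x hx => by rw [hbl a b ha x hx]
  have hF' : ∀ a b : ℕ, m < a → P.F' c a b = P.F' c' a b := by
    intro a b ha
    funext t
    unfold F'
    exact Finset.sum_congr rfl fun x hx => by rw [hbl a b ha x hx]
  have hen : ∀ᶠ j : ℕ in atTop, ∀ T i, P.en c T j i = P.en c' T j i := by
    filter_upwards [eventually_ge_atTop m] with j hj T i
    have h2 : m < 2 ^ j := lt_of_le_of_lt hj (Nat.lt_two_pow_self)
    unfold en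
    refine Finset.sum_congr rfl fun l _ => Finset.sum_congr rfl fun k _ => ?_
    rw [hF _ _ (by omega), hF' _ _ (by omega)]
  have hexc : ∀ T, P.exc c T = P.exc c' T := by
    intro T
    ext t
    unfold exc
    simp only [Set.mem_ofPred_eq]
    refine frequently_congr ?_
    filter_upwards [hen] with j hj
    have hB : P.Bad c T j = P.Bad c' T j := by
      unfold Bad
      exact Finset.filter_congr fun i _ => by rw [hj T i]
    rw [hB]
  unfold Exc
  simp_rw [hexc]

end PSys

section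
variable {K : Type} [Field K] [NumberField K]

/-- the variable change to the short form -/
noncomputable def cShort (E : WeierstrassCurve K) : WeierstrassCurve.VariableChange K where
  u := Units.mk0 (1 / 6 : K) (by norm_num)
  r := -E.b₂ / 12
  s := -E.a₁ / 2
  t := -(E.a₃ + (-E.b₂ / 12) * E.a₁) / 2

theorem twist_one (E : WeierstrassCurve K) : twist E 1 = cShort E • E := by
  have h2 : (2 : K) ≠ 0 := by norm_num
  have h12 : (12 : K) ≠ 0 := by norm_num
  have hu : (((Units.mk0 (1 / 6 : K) (by norm_num))⁻¹ : Kˣ) : K) = 6 := by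
    rw [Units.val_inv_eq_inv_val, Units.val_mk0]
    norm_num
  have e0 : (cShort E).u = Units.mk0 (1 / 6 : K) (by norm_num) := rfl
  ext
  · rw [WeierstrassCurve.variableChange_a₁, e0, hu]
    simp only [twist, cShort]
    ring
  · rw [WeierstrassCurve.variableChange_a₂, e0, hu]
    simp only [twist, cShort, WeierstrassCurve.b₂]
    ring
  · rw [WeierstrassCurve.variableChange_a₃, e0, hu]
    simp only [twist, cShort, WeierstrassCurve.b₂]
    ring
  · rw [WeierstrassCurve.variableChange_a₄, e0, hu]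
    simp only [twist, cShort, WeierstrassCurve.b₂, WeierstrassCurve.b₄, WeierstrassCurve.c₄]
    ring
  · rw [WeierstrassCurve.variableChange_a₆, e0, hu]
    simp only [twist, cShort, WeierstrassCurve.b₂, WeierstrassCurve.b₄, WeierstrassCurve.b₆,
      WeierstrassCurve.c₆]
    ring

omit [NumberField K] in
theorem isModel_smul (E : WeierstrassCurve K) (C₀ : WeierstrassCurve.VariableChange K)
    (V : WeierstrassCurve (𝓞 K)) : IsModel (C₀ • E) V ↔ IsModel E V := by
  constructor
  · rintro ⟨C, hC⟩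
    exact ⟨C * C₀, by rw [← hC, mul_smul]⟩
  · rintro ⟨C, hC⟩
    exact ⟨C * C₀⁻¹, by rw [mul_smul, inv_smul_smul, hC]⟩

theorem isMinAt_one (E : WeierstrassCurve K) (v : HeightOneSpectrum (𝓞 K))
    (V : WeierstrassCurve (𝓞 K)) (h : IsMinAt E v V) : IsMinAt (twist E 1) v V := by
  rw [twist_one]
  refine ⟨(isModel_smul E _ V).2 h.1, fun W hW => ?_⟩
  exact h.2 W ((isModel_smul E _ W).1 hW)

/-- the normalised coefficients of `Y² = X³ - 27PX - 54Q` at its good primes prime to 6 -/
noncomputable def cE (P Q : 𝓞 K) (v : (psys K).X) : ℂ := by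
  classical
  exact if (6 : 𝓞 K) ∉ HeightOneSpectrum.asIdeal v ∧ P ^ 3 - Q ^ 2 ∉ HeightOneSpectrum.asIdeal v
    then -(csumv P Q v : ℂ) * ((Real.sqrt (nm v) : ℝ) : ℂ)⁻¹ else 0

theorem norm_div_sqrt {n : ℕ} (hn : 0 < n) {z : ℂ} (hz : ‖z‖ ≤ 2 * Real.sqrt n) :
    ‖z * ((Real.sqrt n : ℝ) : ℂ)⁻¹‖ ≤ 2 := by
  have h0 : 0 < Real.sqrt n := Real.sqrt_pos.2 (by exact_mod_cast hn)
  rw [norm_mul, norm_inv, Complex.norm_real, Real.norm_of_nonneg h0.le, ← div_eq_mul_inv,
    div_le_iff₀ h0]
  exact hz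

theorem norm_cE (P Q : 𝓞 K) (v : (psys K).X) : ‖cE P Q v‖ ≤ 2 := by
  classical
  unfold cE
  split_ifs with h
  · refine norm_div_sqrt (by have := two_le_nm v; omega) ?_
    rw [norm_neg, Complex.norm_intCast]
    exact csumv_bound h.1 h.2
  · simp

/-- the exceptional set of the curve `Y² = X³ - 27PX - 54Q` -/
noncomputable def excE (P Q : 𝓞 K) : Set ℝ := (psys K).Exc (cE P Q)

theorem dimH_excE (P Q : 𝓞 K) : dimH (excE P Q) = 0 :=
  (psys K).dimH_Exc (by norm_num : (0 : ℝ) ≤ 2) (norm_cE P Q)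

/-- **the edge of the L-series of an elliptic curve** -/
theorem edge_EC (E : WeierstrassCurve K) {l P Q : 𝓞 K} (hl : l ≠ 0)
    (hP : (P : K) = (l : K) ^ 4 * E.c₄) (hQ : (Q : K) = (l : K) ^ 6 * E.c₆)
    (hD : P ^ 3 - Q ^ 2 ≠ 0) (M : HeightOneSpectrum (𝓞 K) → WeierstrassCurve (𝓞 K))
    (hM : ∀ v, IsMinAt E v (M v)) {t : ℝ} (ht : t ∉ excE P Q) :
    ∃ ℓ : ℂ, ℓ ≠ 0 ∧
      Tendsto (fun n : ℕ => ∏ v ∈ (psys K).LE n,
        ((psys K).lf (fun v => (trc M v : ℂ)) (dlt M) v (3 / 2 + t * I))⁻¹) atTop (𝓝 ℓ) ∧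
      ∀ κ : ℝ, 0 ≤ κ → Tendsto (fun w : ℂ => ∏' v,
        ((psys K).lf (fun v => (trc M v : ℂ)) (dlt M) v (3 / 2 + t * I + w))⁻¹)
        (𝓝[cone κ] 0) (𝓝 ℓ) := by
  classical
  have h6 : (6 : 𝓞 K) ≠ 0 := by norm_num
  have hfin : ({v : HeightOneSpectrum (𝓞 K) | (6 : 𝓞 K) ∈ v.asIdeal} ∪
    {v : HeightOneSpectrum (𝓞 K) | P ^ 3 - Q ^ 2 ∈ v.asIdeal}).Finite :=
    (finite_mem h6).union (finite_mem hD)
  set B0 : Finset (psys K).X := hfin.toFinset with hB0
  have hmem : ∀ v : (psys K).X, v ∉ B0 → (6 : 𝓞 K) ∉ HeightOneSpectrum.asIdeal v ∧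
      P ^ 3 - Q ^ 2 ∉ HeightOneSpectrum.asIdeal v := by
    intro v hv
    have hv1 := (Set.Finite.mem_toFinset hfin).not.1 hv
    exact ⟨fun h => hv1 (Or.inl h), fun h => hv1 (Or.inr h)⟩
  have htr : ∀ v : (psys K).X, v ∉ B0 → trc M v = -csumv P Q v := by
    intro v hv
    obtain ⟨h1, h2⟩ := hmem v hv
    have h3 : (1 : 𝓞 K) ∉ HeightOneSpectrum.asIdeal v := fun h =>
      (HeightOneSpectrum.isPrime v).ne_top ((Ideal.eq_top_iff_one _).2 h)
    have h4 : IsMinAt (twist E ((1 : 𝓞 K) : K)) v (M v) := by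
      have h5 : ((1 : 𝓞 K) : K) = 1 := map_one (algebraMap (𝓞 K) K)
      rw [h5]
      exact isMinAt_one E v (M v) (hM v)
    have h5 := (count_good hl hP hQ h4 h1 h3 h2).2
    have h6 : chi (1 : 𝓞 K) v = 1 := by
      unfold chi
      rw [map_one, map_one]
    rw [h6, one_mul] at h5
    unfold trc
    rw [h5]
    ring
  set A : (psys K).X → ℂ := fun v => (trc M v : ℂ) with hAdef
  have hA : ∀ v, ‖A v‖ ≤ (psys K).N v := by
    intro v
    rw [hAdef]
    simp only
    rw [Complex.norm_intCast]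
    have h2 : |trc M v| ≤ nm v := trc_le M v
    have h3 : (|(trc M v : ℤ)| : ℝ) ≤ ((nm v : ℕ) : ℝ) := by exact_mod_cast h2
    exact h3
  have hδ : ∀ v : (psys K).X, ‖dlt M v‖ ≤ 1 := by
    intro v
    unfold dlt
    split_ifs <;> simp
  have hgood : ∀ v ∉ B0, 5 ≤ (psys K).N v ∧ ‖A v‖ ≤ 2 * Real.sqrt ((psys K).N v) := by
    intro v hv
    obtain ⟨h1, h2⟩ := hmem v hv
    refine ⟨five_le_v h1, ?_⟩
    rw [hAdef]
    simp only
    rw [htr v hv, Complex.norm_intCast]
    push_cast
    rw [abs_neg]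
    exact csumv_bound h1 h2
  have hpos : ∀ v : (psys K).X, 0 < (psys K).N v := fun v => by
    have := (psys K).two_le v; omega
  have hcb : ∀ v, ‖A v * ((Real.sqrt ((psys K).N v) : ℝ) : ℂ)⁻¹‖ ≤
      2 + ∑ u ∈ B0, ‖A u * ((Real.sqrt ((psys K).N u) : ℝ) : ℂ)⁻¹‖ := by
    intro v
    have h0 : 0 ≤ ∑ u ∈ B0, ‖A u * ((Real.sqrt ((psys K).N u) : ℝ) : ℂ)⁻¹‖ :=
      Finset.sum_nonneg fun _ _ => norm_nonneg _
    by_cases hv : v ∈ B0
    · have := Finset.single_le_sum (f := fun u =>
        ‖A u * ((Real.sqrt ((psys K).N u) : ℝ) : ℂ)⁻¹‖) (fun _ _ => norm_nonneg _) hv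
      linarith
    · have := norm_div_sqrt (hpos v) (hgood v hv).2
      linarith
  have hexc : (psys K).Exc (fun v => A v * ((Real.sqrt ((psys K).N v) : ℝ) : ℂ)⁻¹) = excE P Q := by
    unfold excE
    refine (psys K).Exc_congr (B0 := (B0 : Set (psys K).X)) B0.finite_toSet fun v hv => ?_
    have hv' : v ∉ B0 := hv
    unfold cE
    rw [if_pos (hmem v hv'), hAdef]
    simp only
    rw [htr v hv']
    push_cast
    rfl
  exact (psys K).euler_edge (psys_summable K) hA hδ B0 hgood (by positivity) hcb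
    (by rw [hexc]; exact ht)

end

/-- there are countably many number fields in `ℂ` -/
theorem countable_fields : Countable {F : IntermediateField ℚ ℂ // FiniteDimensional ℚ F} := by
  classical
  have h0 : Countable {x : ℂ // IsAlgebraic ℚ x} := (Algebraic.countable ℚ ℂ).to_subtype
  have h1 : (Set.range fun s : Finset {x : ℂ // IsAlgebraic ℚ x} =>
      IntermediateField.adjoin ℚ ((fun x : {x : ℂ // IsAlgebraic ℚ x} => (x : ℂ)) '' (s : Set _))).Countable :=
    Set.countable_range _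
  refine Set.Countable.to_subtype (s := {F : IntermediateField ℚ ℂ | FiniteDimensional ℚ F})
    (h1.mono ?_)
  intro F hF
  have hF' : FiniteDimensional ℚ F := hF
  obtain ⟨r, b⟩ : ∃ r : ℕ, Nonempty (Module.Basis (Fin r) ℚ F) := ⟨_, ⟨Module.finBasis ℚ F⟩⟩
  obtain ⟨b⟩ := b
  have hF2 : IntermediateField.adjoin ℚ (Set.range fun i => ((b i : F) : ℂ)) = F := by
    apply le_antisymm
    · rw [IntermediateField.adjoin_le_iff]
      rintro _ ⟨i, rfl⟩
      exact (b i).2
    · intro x hx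
      have h1 := b.sum_repr ⟨x, hx⟩
      have h2 : x = ∑ i, (b.repr ⟨x, hx⟩ i) • ((b i : F) : ℂ) := by
        have h3 := congrArg (algebraMap F ℂ) h1
        rw [map_sum] at h3
        refine h3.symm.trans (Finset.sum_congr rfl fun i _ => ?_)
        rw [Algebra.smul_def, map_mul, ← IsScalarTower.algebraMap_apply ℚ F ℂ, Algebra.smul_def]
        rfl
      rw [h2]
      exact sum_mem fun i _ => IntermediateField.smul_mem _
        (IntermediateField.subset_adjoin ℚ _ (Set.mem_range_self i))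
  have halg : ∀ y : F, IsAlgebraic ℚ (y : ℂ) := fun y =>
    (Algebra.IsAlgebraic.isAlgebraic (R := ℚ) y).algebraMap
  refine ⟨Finset.univ.image fun i => ⟨(b i : ℂ), halg (b i)⟩, ?_⟩
  simp only
  refine Eq.trans ?_ hF2
  congr 1
  ext y
  simp

theorem countable_field (F : IntermediateField ℚ ℂ) [FiniteDimensional ℚ F] : Countable F := by
  have h0 : Countable {x : ℂ // IsAlgebraic ℚ x} := (Algebraic.countable ℚ ℂ).to_subtype
  have halg : ∀ y : F, IsAlgebraic ℚ (y : ℂ) := fun y =>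
    (Algebra.IsAlgebraic.isAlgebraic (R := ℚ) y).algebraMap
  exact Function.Injective.countable (f := fun y : F => (⟨(y : ℂ), halg y⟩ : {x : ℂ // IsAlgebraic ℚ x}))
    fun a b h => Subtype.ext (congrArg (fun z : {x : ℂ // IsAlgebraic ℚ x} => (z : ℂ)) h)

/-- the number fields in `ℂ` -/
abbrev NF : Type := {F : IntermediateField ℚ ℂ // FiniteDimensional ℚ F}

instance (F : NF) : NumberField F.1 where
  to_charZero := inferInstance
  to_finiteDimensional := F.2

instance : Countable NF := countable_fields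

instance (F : NF) : Countable (𝓞 F.1) := by
  have := F.2
  have := countable_field F.1
  exact Function.Injective.countable (f := fun y : 𝓞 F.1 => (y : F.1)) RingOfIntegers.coe_injective

/-- the exceptional set for all elliptic curves over all number fields -/
noncomputable def ZZ : Set ℝ := ⋃ i : (F : NF) × (𝓞 F.1 × 𝓞 F.1), excE i.2.1 i.2.2

theorem dimH_ZZ : dimH ZZ = 0 := by
  unfold ZZ
  rw [dimH_iUnion]
  simp [dimH_excE]

end Pool.Agent.L5helper14.Edge
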