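import Pool.Agent.L5helper14.Edge.NF
import Pool.Agent.L5helper14.Edge.Mom
import Pool.Agent.H484R2.Zeta
import Pool.Agent.R426.QC.Ep

/-! The prime sums of a number field near the pole of the zeta function. -/

set_option autoImplicit false

namespace Pool.Agent.L5helper14.Edge

open NumberField IsDedekindDomain Pool.Agent.H921R2.TatePole Filter Topology Complex

section
variable {K : Type} [Field K] [NumberField K]

/-- the term of an ideal (after N880.QK.Dk) -/
noncomputable def fC (s : ℂ) (I : Ideal (𝓞 K)) : ℂ :=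
  open Classical in if I = ⊥ then 0 else ((Ideal.absNorm I : ℕ) : ℂ) ^ (-s)

theorem hasSum_fC {s : ℂ} (hs : 1 < s.re) : HasSum (fC (K := K) s) (dedekindZeta K s) := by
  classical
  have h := Pool.Agent.H484R2.hasSum_ideals K hs
  rw [← Pool.Agent.H484R2.zeta_eq K hs] at h
  have hinj : Function.Injective (fun I : Pool.Agent.H484R2.NZI K => I.1) :=
    Subtype.val_injective
  rw [← hinj.hasSum_iff]
  · convert h using 1
    funext I
    simp only [Function.comp_apply, fC, if_neg I.2]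
  · intro I hI
    unfold fC
    by_contra hne
    apply hI
    by_cases h0 : I = ⊥
    · rw [if_pos h0] at hne
      exact absurd rfl hne
    · exact ⟨⟨I, h0⟩, rfl⟩

theorem cmiC {s : ℂ} (hs : 1 < s.re) : Pool.Agent.R426.QC.CMI (fC (K := K) s) where
  zero := by
    unfold fC
    rw [if_pos rfl]
  one := by
    unfold fC
    rw [if_neg (by exact top_ne_bot), Ideal.absNorm_top]
    simp
  mul I J := by
    unfold fC
    by_cases hI : I = ⊥
    · rw [if_pos hI, if_pos (by rw [hI, Ideal.bot_mul]), zero_mul]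
    · by_cases hJ : J = ⊥
      · rw [if_pos hJ, if_pos (by rw [hJ, Ideal.mul_bot]), mul_zero]
      · rw [if_neg hI, if_neg hJ, if_neg (by
          intro h
          rcases Ideal.mul_eq_bot.mp h with h | h
          · exact hI h
          · exact hJ h), map_mul]
        push_cast
        rw [← Complex.natCast_mul_natCast_cpow]
  summ := (hasSum_fC hs).summable

theorem hasProd_zeta {s : ℂ} (hs : 1 < s.re) :
    HasProd (fun v : HeightOneSpectrum (𝓞 K) => (1 - ((nm v : ℕ) : ℂ) ^ (-s))⁻¹)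
      (dedekindZeta K s) := by
  have h2 := Pool.Agent.R426.QC.hasProdI (cmiC (K := K) hs)
  rw [(hasSum_fC (K := K) hs).tsum_eq] at h2
  refine h2.congr_fun ?_ |> fun h => h
  intro v
  unfold fC nm
  rw [if_neg v.ne_bot]

theorem exp_prime_sum_le {s : ℂ} (hs : 1 < s.re) :
    Real.exp (∑' v : HeightOneSpectrum (𝓞 K), (((nm v : ℕ) : ℂ) ^ (-s)).re) ≤
      Real.exp (CK K) * ‖dedekindZeta K s‖ := by
  have hsum := nm_summable (K := K) hs
  have hnorm : ∀ v : HeightOneSpectrum (𝓞 K), ‖((nm v : ℕ) : ℂ) ^ (-s)‖ = (nm v : ℝ) ^ (-s.re) := by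
    intro v
    rw [Complex.norm_natCast_cpow_of_pos (by have := two_le_nm v; omega), Complex.neg_re]
  have hhalf : ∀ v : HeightOneSpectrum (𝓞 K), ‖((nm v : ℕ) : ℂ) ^ (-s)‖ ≤ 1 / 2 := by
    intro v
    rw [hnorm]
    exact nm_rpow_le_half v hs.le
  have hs1 : Summable fun v : HeightOneSpectrum (𝓞 K) => (((nm v : ℕ) : ℂ) ^ (-s)).re := by
    refine Summable.of_norm_bounded hsum fun v => ?_
    rw [← hnorm]
    exact Complex.abs_re_le_norm _
  have hs2 : Summable fun v : HeightOneSpectrum (𝓞 K) => (nm v : ℝ) ^ (-(2 : ℝ)) :=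
    nm_summable (by norm_num)
  have h1 : ∀ F : Finset (HeightOneSpectrum (𝓞 K)),
      Real.exp (∑ v ∈ F, ((((nm v : ℕ) : ℂ) ^ (-s)).re - (nm v : ℝ) ^ (-(2 : ℝ)))) ≤
      ∏ v ∈ F, ‖(1 - ((nm v : ℕ) : ℂ) ^ (-s))⁻¹‖ := by
    intro F
    rw [Real.exp_sum]
    refine Finset.prod_le_prod (fun v _ => (Real.exp_pos _).le) fun v _ => ?_
    have h2 := log_norm_one_sub (hhalf v)
    have hpos : 0 < ‖1 - ((nm v : ℕ) : ℂ) ^ (-s)‖ := by
      have h3 := norm_sub_norm_le (1 : ℂ) (((nm v : ℕ) : ℂ) ^ (-s))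
      have := hhalf v
      rw [norm_one] at h3
      linarith
    rw [norm_inv, ← Real.exp_log hpos, ← Real.exp_neg, Real.exp_le_exp]
    have h4 : ‖((nm v : ℕ) : ℂ) ^ (-s)‖ ^ 2 ≤ (nm v : ℝ) ^ (-(2 : ℝ)) := by
      rw [hnorm, rpow_sq']
      have h2' : (2 : ℝ) ≤ (nm v : ℝ) := by exact_mod_cast two_le_nm v
      exact Real.rpow_le_rpow_of_exponent_le (by linarith) (by linarith)
    have h5 := (abs_le.1 h2)
    linarith [h5.1, h5.2]
  have h2 := (hasProd_zeta (K := K) hs).norm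
  have h3 : Tendsto (fun F : Finset (HeightOneSpectrum (𝓞 K)) =>
      Real.exp (∑ v ∈ F, ((((nm v : ℕ) : ℂ) ^ (-s)).re - (nm v : ℝ) ^ (-(2 : ℝ))))) atTop
      (𝓝 (Real.exp ((∑' v : HeightOneSpectrum (𝓞 K), (((nm v : ℕ) : ℂ) ^ (-s)).re) - CK K))) :=
    (Real.continuous_exp.tendsto _).comp (hs1.hasSum.sub hs2.hasSum)
  have h4 := le_of_tendsto_of_tendsto' h3 h2 h1
  rw [Real.exp_sub, div_le_iff₀ (Real.exp_pos _)] at h4
  linarith

theorem psys_pole : (psys K).Pole := by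
  obtain ⟨g, hg, hgz⟩ := Pool.Agent.H484R2.continuation K 0
  have e0 : (1 : ℂ) + ((0 : ℝ) : ℂ) * I = 1 := by simp
  rw [e0] at hg hgz
  have hb : ∀ᶠ z in 𝓝 (1 : ℂ), ‖g z‖ ≤ ‖g 1‖ + 1 := by
    have := hg.continuousAt.norm.tendsto.eventually (gt_mem_nhds (lt_add_one ‖g 1‖))
    filter_upwards [this] with z hz
    exact hz.le
  obtain ⟨ρ, hρ, hρb⟩ := Metric.eventually_nhds_iff.1 (hb.and hgz)
  refine ⟨ρ / 3, Real.exp (CK K) * (‖g 1‖ + 1), by positivity, by positivity, ?_⟩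
  intro ε hε hε2 u hu hu2
  set s : ℂ := (1 + ε : ℝ) + u * I with hs
  have hre : s.re = 1 + ε := by rw [hs]; simp
  have him : s.im = u := by rw [hs]; simp
  have hs1 : 1 < s.re := by rw [hre]; linarith
  have hd : dist s 1 < ρ := by
    rw [dist_eq_norm]
    refine lt_of_le_of_lt (Complex.norm_le_abs_re_add_abs_im _) ?_
    rw [Complex.sub_re, Complex.sub_im, hre, him, Complex.one_re, Complex.one_im]
    have e1 : 1 + ε - 1 = ε := by ring
    rw [e1, sub_zero, abs_of_pos hε, abs_of_pos hu]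
    linarith
  obtain ⟨h1, h2⟩ := hρb hd
  have h3 := h2 hs1
  have h4 := exp_prime_sum_le (K := K) hs1
  have h5 : u * ‖dedekindZeta K s‖ ≤ ‖g 1‖ + 1 := by
    rw [h3, norm_mul] at h1
    refine le_trans ?_ h1
    refine mul_le_mul_of_nonneg_right ?_ (norm_nonneg _)
    have h6 := Complex.abs_im_le_norm (s - 1)
    rw [Complex.sub_im, him, Complex.one_im, sub_zero, abs_of_pos hu] at h6
    exact h6
  have h6 : ‖dedekindZeta K s‖ ≤ (‖g 1‖ + 1) * u⁻¹ := by
    rw [← div_eq_mul_inv, le_div_iff₀ hu]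
    linarith
  have h7 : ∀ v : HeightOneSpectrum (𝓞 K), (((nm v : ℕ) : ℂ) ^ (-s)).re =
      ((psys K).N v : ℝ) ^ (-(1 + ε)) * Real.cos ((psys K).lam v * u) := by
    intro v
    have h8 := PSys.term_eq (P := psys K) (fun _ => 1) v (1 + ε) u
    rw [one_mul, one_mul] at h8
    have h9 : (((nm v : ℕ) : ℂ) ^ (-s)) = (((psys K).N v : ℕ) : ℂ) ^ (-(((1 + ε : ℝ) : ℂ) + u * I)) := rfl
    rw [h9, h8, Complex.re_ofReal_mul]
    congr 1
    have h10 : ((-(psys K).lam v : ℝ) : ℂ) * u * I = ((-(psys K).lam v * u : ℝ) : ℂ) * I := by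
      push_cast
      ring
    rw [h10, Complex.exp_ofReal_mul_I_re, neg_mul, Real.cos_neg]
  have h8 : ∑' v : (psys K).X, ((psys K).N v : ℝ) ^ (-(1 + ε)) * Real.cos ((psys K).lam v * u) =
      ∑' v : HeightOneSpectrum (𝓞 K), (((nm v : ℕ) : ℂ) ^ (-s)).re :=
    (tsum_congr h7).symm
  rw [h8]
  refine h4.trans ?_
  calc Real.exp (CK K) * ‖dedekindZeta K s‖ ≤ Real.exp (CK K) * ((‖g 1‖ + 1) * u⁻¹) :=
        mul_le_mul_of_nonneg_left h6 (Real.exp_pos _).le
    _ = _ := by ring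

end

end Pool.Agent.L5helper14.Edge
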