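import Pool.Agent.L5helper14.Edge.EC
import Pool.Agent.L5helper14.Edge.PoleK

/-! The data of an elliptic curve over a number field for the edge theorems. -/

set_option autoImplicit false

namespace Pool.Agent.L5helper14.Edge

open NumberField IsDedekindDomain Pool.Agent.H921R2.TatePole Filter Topology Complex MeasureTheory
open Pool.Agent.H341R2 (chi)
open Pool.Agent.H341R2.EC (twist IsModel IsMinAt trc dlt csumv csumv_bound count_good
  exists_integral finite_mem five_le_v trc_le)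

section
variable {K : Type} [Field K] [NumberField K]

/-- the facts on the local factors of an elliptic curve -/
theorem ec_data (E : WeierstrassCurve K) {l P Q : 𝓞 K} (hl : l ≠ 0)
    (hP : (P : K) = (l : K) ^ 4 * E.c₄) (hQ : (Q : K) = (l : K) ^ 6 * E.c₆)
    (hD : P ^ 3 - Q ^ 2 ≠ 0) (M : HeightOneSpectrum (𝓞 K) → WeierstrassCurve (𝓞 K))
    (hM : ∀ v, IsMinAt E v (M v)) : ∃ B0 : Finset (psys K).X,
      (∀ v : (psys K).X, ‖((trc M v : ℤ) : ℂ)‖ ≤ (psys K).N v) ∧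
      (∀ v : (psys K).X, ‖dlt M v‖ ≤ 1) ∧
      (∀ v ∉ B0, 5 ≤ (psys K).N v ∧ ‖((trc M v : ℤ) : ℂ)‖ ≤ 2 * Real.sqrt ((psys K).N v)) ∧
      ∀ v ∉ B0, ((trc M v : ℤ) : ℂ) * ((Real.sqrt ((psys K).N v) : ℝ) : ℂ)⁻¹ = cE P Q v := by
  classical
  have h6 : (6 : 𝓞 K) ≠ 0 := by norm_num
  have hfin : ({v : HeightOneSpectrum (𝓞 K) | (6 : 𝓞 K) ∈ v.asIdeal} ∪
    {v : HeightOneSpectrum (𝓞 K) | P ^ 3 - Q ^ 2 ∈ v.asIdeal}).Finite :=
    (finite_mem h6).union (finite_mem hD)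
  set B0 : Finset (psys K).X := hfin.toFinset with hB0
  have hmem : ∀ v : (psys K).X, v ∉ B0 → (6 : 𝓞 K) ∉ HeightOneSpectrum.asIdeal v ∧
      P ^ 3 - Q ^ 2 ∉ HeightOneSpectrum.asIdeal v := by
    intro v hv
    have hv1 := (Set.Finite.mem_toFinset hfin).not.1 hv
    exact ⟨fun h => hv1 (Or.inl h), fun h => hv1 (Or.inr h)⟩
  have htr : ∀ v : (psys K).X, v ∉ B0 → trc M v = -csumv P Q v := by
    intro v hv
    obtain ⟨h1, h2⟩ := hmem v hv
    have h3 : (1 : 𝓞 K) ∉ HeightOneSpectrum.asIdeal v := fun h =>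
      (HeightOneSpectrum.isPrime v).ne_top ((Ideal.eq_top_iff_one _).2 h)
    have h4 : IsMinAt (twist E ((1 : 𝓞 K) : K)) v (M v) := by
      have h5 : ((1 : 𝓞 K) : K) = 1 := map_one (algebraMap (𝓞 K) K)
      rw [h5]
      exact isMinAt_one E v (M v) (hM v)
    have h5 := (count_good hl hP hQ h4 h1 h3 h2).2
    have h6 : chi (1 : 𝓞 K) v = 1 := by
      unfold chi
      rw [map_one, map_one]
    rw [h6, one_mul] at h5
    unfold trc
    rw [h5]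
    ring
  refine ⟨B0, ?_, ?_, ?_, ?_⟩
  · intro v
    rw [Complex.norm_intCast]
    have h2 : |trc M v| ≤ nm v := trc_le M v
    have h3 : (|(trc M v : ℤ)| : ℝ) ≤ ((nm v : ℕ) : ℝ) := by exact_mod_cast h2
    exact h3
  · intro v
    unfold dlt
    split_ifs <;> simp
  · intro v hv
    obtain ⟨h1, h2⟩ := hmem v hv
    refine ⟨five_le_v h1, ?_⟩
    rw [htr v hv, Complex.norm_intCast]
    push_cast
    rw [abs_neg]
    exact csumv_bound h1 h2
  · intro v hv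
    unfold cE
    rw [if_pos (hmem v hv), htr v hv]
    push_cast
    rfl

/-- **moments of the L-series of an elliptic curve up to the edge** -/
theorem moments_EC (E : WeierstrassCurve K) {l P Q : 𝓞 K} (hl : l ≠ 0)
    (hP : (P : K) = (l : K) ^ 4 * E.c₄) (hQ : (Q : K) = (l : K) ^ 6 * E.c₆)
    (hD : P ^ 3 - Q ^ 2 ≠ 0) (M : HeightOneSpectrum (𝓞 K) → WeierstrassCurve (𝓞 K))
    (hM : ∀ v, IsMinAt E v (M v)) {p : ℝ} (hp : |p| < 1 / 2) :
    ∃ C : ℝ, ∀ σ : ℝ, 3 / 2 < σ → ∃ f : ℝ → ℝ, Continuous f ∧ (∀ t, 0 ≤ f t) ∧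
      (∀ t : ℝ, ‖∏' v, ((psys K).lf (fun v => (trc M v : ℂ)) (dlt M) v (σ + t * I))⁻¹‖ ^ p ≤ f t) ∧
      ∀ T : ℝ, ∫ t in T..(T + 1), f t ≤ C := by
  obtain ⟨B0, hA, hδ, hgood, _⟩ := ec_data E hl hP hQ hD M hM
  exact PSys.moments (psys_summable K) psys_pole hA hδ B0 hgood hp

/-- the L-series does not vanish -/
theorem ne_zero_EC (E : WeierstrassCurve K) {l P Q : 𝓞 K} (hl : l ≠ 0)
    (hP : (P : K) = (l : K) ^ 4 * E.c₄) (hQ : (Q : K) = (l : K) ^ 6 * E.c₆)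
    (hD : P ^ 3 - Q ^ 2 ≠ 0) (M : HeightOneSpectrum (𝓞 K) → WeierstrassCurve (𝓞 K))
    (hM : ∀ v, IsMinAt E v (M v)) {s : ℂ} (hs : 3 / 2 < s.re) :
    ∏' v, ((psys K).lf (fun v => (trc M v : ℂ)) (dlt M) v s)⁻¹ ≠ 0 := by
  obtain ⟨B0, hA, hδ, hgood, _⟩ := ec_data E hl hP hQ hD M hM
  rw [(PSys.hasSum_logs (psys_summable K) hA hδ B0 hgood hs).2.2.tprod_eq]
  exact Complex.exp_ne_zero _

end

end Pool.Agent.L5helper14.Edge
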