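import Pool.Agent.L5helper14.Edge.Law3
import Pool.Agent.L5helper14.Edge.EC2

/-! The limiting law of the L-series of an elliptic curve on the edge. -/

set_option autoImplicit false

namespace Pool.Agent.L5helper14.Edge

open NumberField IsDedekindDomain Pool.Agent.H921R2.TatePole Filter Topology Complex MeasureTheory
open Pool.Agent.H341R2.EC (IsMinAt trc dlt)

section
variable {K : Type} [Field K] [NumberField K]

theorem stg_EC (E : WeierstrassCurve K) {l P Q : 𝓞 K} (hl : l ≠ 0)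
    (hP : (P : K) = (l : K) ^ 4 * E.c₄) (hQ : (Q : K) = (l : K) ^ 6 * E.c₆)
    (hD : P ^ 3 - Q ^ 2 ≠ 0) (M : HeightOneSpectrum (𝓞 K) → WeierstrassCurve (𝓞 K))
    (hM : ∀ v, IsMinAt E v (M v)) :
    ∃ S : Stg, ∀ᵐ t : ℝ, ∀ κ : ℝ, 0 ≤ κ →
      Tendsto (fun w : ℂ => ∏' v, ((psys K).lf (fun v => (trc M v : ℂ)) (dlt M) v
        (3 / 2 + t * I + w))⁻¹) (𝓝[cone κ] 0) (𝓝 (cexp (S.Φ t))) := by
  classical
  obtain ⟨B0, hA, hδ, hgood, _⟩ := ec_data E hl hP hQ hD M hM
  set A : (psys K).X → ℂ := fun v => ((trc M v : ℤ) : ℂ) with hAdef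
  have hcb : ∀ v, ‖(psys K).cf A v‖ ≤ 2 + ∑ u ∈ B0, ‖(psys K).cf A u‖ := by
    intro v
    have h0 : 0 ≤ ∑ u ∈ B0, ‖(psys K).cf A u‖ := Finset.sum_nonneg fun _ _ => norm_nonneg _
    by_cases hv : v ∈ B0
    · have := Finset.single_le_sum (f := fun u => ‖(psys K).cf A u‖) (fun _ _ => norm_nonneg _) hv
      linarith
    · have hpos : 0 < (psys K).N v := by have := (psys K).two_le v; omega
      have h1 : ‖(psys K).cf A v‖ ≤ 2 := norm_div_sqrt hpos (hgood v hv).2
      linarith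
  exact PSys.stg (psys_summable K) psys_pole hA hδ B0 hgood (by positivity) hcb

end

end Pool.Agent.L5helper14.Edge
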