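import Pool.Agent.L5helper14.Edge.EC2
import Pool.Agent.L5helper14.Edge.Alg

/-! Elliptic curves: Dirichlet coefficients, local factors at rational primes. -/

set_option autoImplicit false

namespace Pool.Agent.L5helper14.Edge

open NumberField IsDedekindDomain Pool.Agent.H921R2.TatePole Filter Topology Complex MeasureTheory
open Pool.Agent.H341R2 (chi)
open Pool.Agent.H341R2.EC (twist IsModel IsMinAt trc dlt csumv csumv_bound count_good
  exists_integral finite_mem five_le_v trc_le)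

section
variable {K : Type} [Field K] [NumberField K]

theorem mem_iff_below {v : HeightOneSpectrum (𝓞 K)} {p : ℕ} (hp : p.Prime) :
    (p : 𝓞 K) ∈ v.asIdeal ↔ (below v : ℕ) = p := by
  constructor
  · intro h
    by_contra hne
    have h1 := (nm_eq v).2.2
    have h2 : (below v : ℕ).Coprime p := (Nat.coprime_primes (below v).2 hp).2 hne
    have h3 := Nat.isCoprime_iff_coprime.2 h2
    obtain ⟨a, b, hab⟩ := h3
    have h4 : (1 : 𝓞 K) ∈ v.asIdeal := by
      have h5 : (1 : 𝓞 K) = (a : 𝓞 K) * ((below v : ℕ) : 𝓞 K) + (b : 𝓞 K) * (p : 𝓞 K) := by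
        have := congrArg (fun z : ℤ => (z : 𝓞 K)) hab
        push_cast at this
        exact this.symm
      rw [h5]
      exact v.asIdeal.add_mem (v.asIdeal.mul_mem_left _ h1) (v.asIdeal.mul_mem_left _ h)
    exact v.isPrime.ne_top ((Ideal.eq_top_iff_one _).2 h4)
  · intro h
    rw [← h]
    exact (nm_eq v).2.2

theorem finite_above {p : ℕ} (hp : p.Prime) : {v : HeightOneSpectrum (𝓞 K) | (p : 𝓞 K) ∈ v.asIdeal}.Finite :=
  finite_mem (by exact_mod_cast hp.ne_zero)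

theorem exists_above {p : ℕ} (hp : p.Prime) : ∃ v : HeightOneSpectrum (𝓞 K), (p : 𝓞 K) ∈ v.asIdeal := by
  have h1 : Ideal.span {(p : 𝓞 K)} ≠ ⊤ := by
    intro h
    have h2 := congrArg Ideal.absNorm h
    rw [Ideal.absNorm_span_natCast, Ideal.absNorm_top, RingOfIntegers.rank] at h2
    have h3 : 0 < Module.finrank ℚ K := Module.finrank_pos
    have h4 := Nat.one_lt_pow h3.ne' hp.one_lt
    omega
  obtain ⟨m, hm, hm2⟩ := Ideal.exists_le_maximal _ h1
  have h5 : (p : 𝓞 K) ∈ m := hm2 (Ideal.mem_span_singleton_self _)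
  have h6 : m ≠ ⊥ := by
    rintro rfl
    rw [Ideal.mem_bot] at h5
    exact hp.ne_zero (by exact_mod_cast h5)
  exact ⟨⟨m, hm.isPrime, h6⟩, h5⟩

/-- the local factor at `p` -/
noncomputable def Lp (M : HeightOneSpectrum (𝓞 K) → WeierstrassCurve (𝓞 K)) (p : ℕ) (s : ℂ) : ℂ :=
  ∏ᶠ (v : HeightOneSpectrum (𝓞 K)) (_ : (p : 𝓞 K) ∈ v.asIdeal),
    ((psys K).lf (fun v => (trc M v : ℂ)) (dlt M) v s)⁻¹

theorem Lp_eq (M : HeightOneSpectrum (𝓞 K) → WeierstrassCurve (𝓞 K)) {p : ℕ} (hp : p.Prime) (s : ℂ) :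
    Lp M p s = ∏ v ∈ (finite_above (K := K) hp).toFinset,
      ((psys K).lf (fun v => (trc M v : ℂ)) (dlt M) v s)⁻¹ :=
  finprod_mem_eq_finite_toFinset_prod _ (finite_above (K := K) hp)

/-- the polynomial of the local factor at `v` -/
noncomputable def locP (M : HeightOneSpectrum (𝓞 K) → WeierstrassCurve (𝓞 K))
    (v : HeightOneSpectrum (𝓞 K)) : Polynomial ℂ :=
  1 - Polynomial.C (trc M v : ℂ) * Polynomial.X ^ deg v +
    Polynomial.C (dlt M v * (nm v : ℂ)) * Polynomial.X ^ (2 * deg v)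

theorem locP_eval (M : HeightOneSpectrum (𝓞 K) → WeierstrassCurve (𝓞 K))
    {v : HeightOneSpectrum (𝓞 K)} {p : ℕ} (hv : (below v : ℕ) = p) (s : ℂ) :
    (locP M v).eval ((p : ℂ) ^ (-s)) = (psys K).lf (fun v => (trc M v : ℂ)) (dlt M) v s := by
  have h1 : nm v = p ^ deg v := by rw [← hv]; exact (nm_eq v).1
  have hN : (((psys K).N v : ℕ) : ℂ) ≠ 0 := by
    have := (psys K).two_le v
    exact_mod_cast (by omega : (psys K).N v ≠ 0)
  have h2 : (((psys K).N v : ℕ) : ℂ) ^ (-s) = ((p : ℂ) ^ (-s)) ^ deg v := by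
    change ((nm v : ℕ) : ℂ) ^ (-s) = _
    rw [h1, D.natpow_cpow]
  have h3 : (((psys K).N v : ℕ) : ℂ) ^ (1 - 2 * s) = ((psys K).N v : ℕ) * (((p : ℂ) ^ (-s)) ^ deg v) ^ 2 := by
    rw [show (1 : ℂ) - 2 * s = 1 + -s + -s by ring, Complex.cpow_add _ _ hN, Complex.cpow_add _ _ hN,
      Complex.cpow_one, h2]
    ring
  unfold PSys.lf locP
  rw [h2, h3]
  simp only [Polynomial.eval_add, Polynomial.eval_sub, Polynomial.eval_one, Polynomial.eval_mul,
    Polynomial.eval_C, Polynomial.eval_pow, Polynomial.eval_X]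
  rw [mul_comm 2 (deg v), pow_mul]
  change _ = 1 - (trc M v : ℂ) * _ + dlt M v * ((nm v : ℂ) * _)
  ring

theorem locP_eval_zero (M : HeightOneSpectrum (𝓞 K) → WeierstrassCurve (𝓞 K))
    (v : HeightOneSpectrum (𝓞 K)) : (locP M v).eval 0 = 1 := by
  have := (nm_eq v).2.1
  unfold locP
  simp [this.ne']

theorem locP_ne_zero (M : HeightOneSpectrum (𝓞 K) → WeierstrassCurve (𝓞 K))
    (v : HeightOneSpectrum (𝓞 K)) : locP M v ≠ 0 := by
  intro h
  have := locP_eval_zero M v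
  rw [h] at this
  simp at this

theorem locP_natDegree (M : HeightOneSpectrum (𝓞 K) → WeierstrassCurve (𝓞 K))
    {v : HeightOneSpectrum (𝓞 K)} (hv : dlt M v = 1) : (locP M v).natDegree = 2 * deg v := by
  have h1 := (nm_eq v).2.1
  have h2 : nm v ≠ 0 := nm_ne_zero v
  unfold locP
  rw [hv, one_mul]
  have h3 : (1 - Polynomial.C (trc M v : ℂ) * Polynomial.X ^ deg v).natDegree < 2 * deg v := by
    refine lt_of_le_of_lt (Polynomial.natDegree_sub_le _ _) ?_
    rw [Polynomial.natDegree_one]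
    have := Polynomial.natDegree_C_mul_X_pow_le (trc M v : ℂ) (deg v)
    omega
  rw [Polynomial.natDegree_add_eq_right_of_natDegree_lt]
  · exact Polynomial.natDegree_C_mul_X_pow _ _ (by exact_mod_cast h2)
  · rw [Polynomial.natDegree_C_mul_X_pow _ _ (by exact_mod_cast h2)]
    exact h3

/-- the polynomial of the local factor at `p` -/
noncomputable def PP (M : HeightOneSpectrum (𝓞 K) → WeierstrassCurve (𝓞 K)) {p : ℕ} (hp : p.Prime) :
    Polynomial ℂ := ∏ v ∈ (finite_above (K := K) hp).toFinset, locP M v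

theorem PP_eval (M : HeightOneSpectrum (𝓞 K) → WeierstrassCurve (𝓞 K)) {p : ℕ} (hp : p.Prime) (s : ℂ) :
    ((PP M hp).eval ((p : ℂ) ^ (-s)))⁻¹ = Lp M p s := by
  rw [Lp_eq M hp, PP, Polynomial.eval_prod, ← Finset.prod_inv_distrib]
  refine Finset.prod_congr rfl fun v hv => ?_
  rw [locP_eval]
  rw [Set.Finite.mem_toFinset] at hv
  exact (mem_iff_below hp).1 hv

theorem PP_eval_zero (M : HeightOneSpectrum (𝓞 K) → WeierstrassCurve (𝓞 K)) {p : ℕ} (hp : p.Prime) :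
    (PP M hp).eval 0 = 1 := by
  rw [PP, Polynomial.eval_prod]
  exact Finset.prod_eq_one fun v _ => locP_eval_zero M v

theorem PP_ne_zero (M : HeightOneSpectrum (𝓞 K) → WeierstrassCurve (𝓞 K)) {p : ℕ} (hp : p.Prime) :
    PP M hp ≠ 0 := Finset.prod_ne_zero_iff.2 fun v _ => locP_ne_zero M v

theorem PP_natDegree (M : HeightOneSpectrum (𝓞 K) → WeierstrassCurve (𝓞 K)) {p : ℕ} (hp : p.Prime)
    (h : ∀ v : HeightOneSpectrum (𝓞 K), (p : 𝓞 K) ∈ v.asIdeal → dlt M v = 1) :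
    (PP M hp).natDegree = ∑ v ∈ (finite_above (K := K) hp).toFinset, 2 * deg v := by
  rw [PP, Polynomial.natDegree_prod _ _ fun v _ => locP_ne_zero M v]
  refine Finset.sum_congr rfl fun v hv => ?_
  rw [Set.Finite.mem_toFinset] at hv
  exact locP_natDegree M (h v hv)

theorem sum_deg_pos {p : ℕ} (hp : p.Prime) :
    0 < ∑ v ∈ (finite_above (K := K) hp).toFinset, 2 * deg v := by
  obtain ⟨v, hv⟩ := exists_above (K := K) hp
  refine Finset.sum_pos' (fun _ _ => Nat.zero_le _) ⟨v, ?_, ?_⟩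
  · rwa [Set.Finite.mem_toFinset]
  · have := (nm_eq v).2.1
    omega

/-- good reduction away from a finite number of rational primes -/
theorem good_away (E : WeierstrassCurve K) {l P Q : 𝓞 K} (hl : l ≠ 0)
    (hP : (P : K) = (l : K) ^ 4 * E.c₄) (hQ : (Q : K) = (l : K) ^ 6 * E.c₆)
    (hD : P ^ 3 - Q ^ 2 ≠ 0) (M : HeightOneSpectrum (𝓞 K) → WeierstrassCurve (𝓞 K))
    (hM : ∀ v, IsMinAt E v (M v)) : ∃ N2 : ℕ, N2 ≠ 0 ∧ ∀ p : ℕ, p.Prime → ¬ p ∣ N2 →
      ∀ v : HeightOneSpectrum (𝓞 K), (p : 𝓞 K) ∈ v.asIdeal → dlt M v = 1 := by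
  classical
  have h6 : (6 : 𝓞 K) ≠ 0 := by norm_num
  have hfin : ({v : HeightOneSpectrum (𝓞 K) | (6 : 𝓞 K) ∈ v.asIdeal} ∪
    {v : HeightOneSpectrum (𝓞 K) | P ^ 3 - Q ^ 2 ∈ v.asIdeal}).Finite :=
    (finite_mem h6).union (finite_mem hD)
  refine ⟨∏ v ∈ hfin.toFinset, (below v : ℕ), Finset.prod_ne_zero_iff.2 fun v _ => (below v).2.ne_zero, ?_⟩
  intro p hp hpN v hv
  have hv' : v ∉ hfin.toFinset := by
    intro h
    apply hpN
    rw [← (mem_iff_below hp).1 hv]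
    exact Finset.dvd_prod_of_mem (fun v => (below v : ℕ)) h
  have h0 := (Set.Finite.mem_toFinset hfin).not.1 hv'
  have h1 : (6 : 𝓞 K) ∉ v.asIdeal := fun h => h0 (Or.inl h)
  have h2 : P ^ 3 - Q ^ 2 ∉ v.asIdeal := fun h => h0 (Or.inr h)
  have h3 : (1 : 𝓞 K) ∉ v.asIdeal := fun h => v.isPrime.ne_top ((Ideal.eq_top_iff_one _).2 h)
  have h4 : IsMinAt (twist E ((1 : 𝓞 K) : K)) v (M v) := by
    have h5 : ((1 : 𝓞 K) : K) = 1 := map_one (algebraMap (𝓞 K) K)
    rw [h5]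
    exact isMinAt_one E v (M v) (hM v)
  have h5 := (count_good hl hP hQ h4 h1 h3 h2).1
  unfold dlt
  rw [if_neg h5]

/-- **Dirichlet coefficients of the L-series of an elliptic curve** -/
theorem dat_EC (E : WeierstrassCurve K) {l P Q : 𝓞 K} (hl : l ≠ 0)
    (hP : (P : K) = (l : K) ^ 4 * E.c₄) (hQ : (Q : K) = (l : K) ^ 6 * E.c₆)
    (hD : P ^ 3 - Q ^ 2 ≠ 0) (M : HeightOneSpectrum (𝓞 K) → WeierstrassCurve (𝓞 K))
    (hM : ∀ v, IsMinAt E v (M v)) :
    D.Dat (fun s => ∏' v, ((psys K).lf (fun v => (trc M v : ℂ)) (dlt M) v s)⁻¹) (Lp M) := by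
  obtain ⟨B0, hA, hδ, hgood, _⟩ := ec_data E hl hP hQ hD M hM
  obtain ⟨α, β, h1, h2, h3⟩ := D.dir_data (psys_summable K) hA hδ B0 hgood
  have hNf : ∀ x : (psys K).X, (psys K).N x = (below x : ℕ) ^ deg x := fun x => (nm_eq x).1
  refine ⟨D.lim (psys K).fin (D.gx (psys K).N α β), ?_, h3, ?_⟩
  · refine D.lim_mult D.gx_idUp fun x => ?_
    unfold D.gx
    rw [hNf x]
    exact (D.geo_mult (below x).2 (nm_eq x).2.1.ne' _).mul (D.geo_mult (below x).2 (nm_eq x).2.1.ne' _)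
  · intro p hp s hs
    have h4 := D.rp_lim (hfin := (psys K).fin) (α := α) (β := β) (pr := fun x => (below x : ℕ)) (f := deg)
      (fun x => (below x).2) hNf hp (S := (finite_above (K := K) hp).toFinset) (fun x =>
        (Set.Finite.mem_toFinset (finite_above (K := K) hp)).trans (mem_iff_below hp))
    rw [h4, Lp_eq M hp]
    exact D.local_hasSum h1 h2 _ hs

theorem bd_EC (E : WeierstrassCurve K) {l P Q : 𝓞 K} (hl : l ≠ 0)
    (hP : (P : K) = (l : K) ^ 4 * E.c₄) (hQ : (Q : K) = (l : K) ^ 6 * E.c₆)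
    (hD : P ^ 3 - Q ^ 2 ≠ 0) (M : HeightOneSpectrum (𝓞 K) → WeierstrassCurve (𝓞 K))
    (hM : ∀ v, IsMinAt E v (M v)) :
    D.Bd (fun s => ∏' v, ((psys K).lf (fun v => (trc M v : ℂ)) (dlt M) v s)⁻¹) :=
  moments_EC E hl hP hQ hD M hM (p := 1 / 4) (by norm_num [abs_of_pos])

end

end Pool.Agent.L5helper14.Edge
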