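import Pool.Agent.L5helper14.Edge.Stp

/-! Limiting distributions of functions that are almost periodic in the mean. -/

set_option autoImplicit false

namespace Pool.Agent.L5helper14.Edge

open Complex MeasureTheory Finset Filter Topology
open scoped ENNReal NNReal

/-- continuous functions on a torus along a linear flow -/
def IsTrig (f : ℝ → ℂ) : Prop :=
  ∃ (ι : Type) (_ : Fintype ι) (h : C(UnitAddTorus ι, ℂ)) (ω : ι → ℝ),
    ∀ t, f t = h (fun i => ((ω i * t : ℝ) : UnitAddCircle))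

theorem IsTrig.comp {f : ℝ → ℂ} (hf : IsTrig f) {g : ℂ → ℂ} (hg : Continuous g) :
    IsTrig (fun t => g (f t)) := by
  obtain ⟨ι, inst, h, ω, hh⟩ := hf
  exact ⟨ι, inst, ⟨fun y => g (h y), hg.comp h.continuous⟩, ω, fun t => by
    simp only [ContinuousMap.coe_mk]
    rw [hh]⟩

theorem IsTrig.cont {f : ℝ → ℂ} (hf : IsTrig f) : Continuous f := by
  obtain ⟨ι, inst, h, ω, hh⟩ := hf
  have e : f = fun t => h (fun i => ((ω i * t : ℝ) : UnitAddCircle)) := funext hh
  rw [e]
  refine h.continuous.comp (continuous_pi fun i => ?_)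
  exact (AddCircle.continuous_mk' 1).comp (by fun_prop)

theorem IsTrig.um {f : ℝ → ℂ} (hf : IsTrig f) : ∃ m, UM f m := by
  obtain ⟨ι, inst, h, ω, hh⟩ := hf
  have e : f = fun t => h (fun i => ((ω i * t : ℝ) : UnitAddCircle)) := funext hh
  rw [e]
  exact UM.torus h ω

theorem IsTrig.bdd {f : ℝ → ℂ} (hf : IsTrig f) : ∃ B : ℝ, ∀ t, ‖f t‖ ≤ B := by
  obtain ⟨ι, inst, h, ω, hh⟩ := hf
  exact ⟨‖h‖, fun t => by rw [hh]; exact h.norm_coe_le_norm _⟩

/-- the cutoff function -/
noncomputable def cut (R : ℝ) (z : ℂ) : ℝ := max 0 (min 1 (R + 1 - ‖z‖))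

theorem cut_cont (R : ℝ) : Continuous (cut R) := by
  unfold cut
  fun_prop

theorem cut_nonneg (R : ℝ) (z : ℂ) : 0 ≤ cut R z := le_max_left _ _

theorem cut_le_one (R : ℝ) (z : ℂ) : cut R z ≤ 1 :=
  max_le zero_le_one (min_le_left _ _)

theorem cut_eq_one {R : ℝ} {z : ℂ} (h : ‖z‖ ≤ R) : cut R z = 1 := by
  unfold cut
  rw [min_eq_left (by linarith), max_eq_right zero_le_one]

theorem cut_eq_zero {R : ℝ} {z : ℂ} (h : R + 1 < ‖z‖) : cut R z = 0 := by
  unfold cut
  exact max_eq_left ((min_le_right _ _).trans (by linarith))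

/-- the setting -/
structure Stg where
  Φ : ℝ → ℂ
  g : ℕ → ℝ → ℂ
  meas : Measurable Φ
  li : LI Φ
  trig : ∀ n, IsTrig (g n)
  appr : ∀ ε : ℝ, 0 < ε → ∃ n, ∀ T, ∫ t in T..(T + 1), ‖Φ t - g n t‖ ≤ ε
  mom : ∀ p : ℝ, 0 ≤ p → p < 1 / 2 → ∃ C : ℝ, ∀ T,
    ∫⁻ t in Set.Ioc T (T + 1), ENNReal.ofReal (Real.exp (p * |(Φ t).re|)) ≤ ENNReal.ofReal C

namespace Stg

variable (S : Stg)

/-- growth condition -/
def Gr (g : ℂ → ℂ) (q C : ℝ) : Prop := ∀ z, ‖g z‖ ≤ C * Real.exp (q * |z.re|)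

theorem first : ∃ C : ℝ, 0 ≤ C ∧ ∀ T, ∫ t in T..(T + 1), ‖S.Φ t‖ ≤ C := by
  obtain ⟨n, hn⟩ := S.appr 1 one_pos
  obtain ⟨B, hB⟩ := (S.trig n).bdd
  have hB0 : 0 ≤ B := (norm_nonneg _).trans (hB 0)
  refine ⟨1 + B, by positivity, fun T => ?_⟩
  have i1 : IntervalIntegrable (fun t => ‖S.Φ t - S.g n t‖) volume T (T + 1) :=
    ((S.li T (T + 1)).sub ((S.trig n).cont.intervalIntegrable _ _)).norm
  have h1 : ∫ t in T..(T + 1), ‖S.Φ t‖ ≤ ∫ t in T..(T + 1), (‖S.Φ t - S.g n t‖ + B) := by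
    refine intervalIntegral.integral_mono_on (by linarith) (S.li T (T + 1)).norm
      (i1.add (continuous_const.intervalIntegrable _ _)) fun t _ => ?_
    calc ‖S.Φ t‖ = ‖(S.Φ t - S.g n t) + S.g n t‖ := by rw [sub_add_cancel]
      _ ≤ ‖S.Φ t - S.g n t‖ + ‖S.g n t‖ := norm_add_le _ _
      _ ≤ _ := by linarith [hB t]
  rw [intervalIntegral.integral_add i1 (continuous_const.intervalIntegrable _ _),
    intervalIntegral.integral_const] at h1
  simp only [add_sub_cancel_left, one_smul] at h1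
  linarith [hn T]

/-- the exponential moments as integrals -/
theorem mom' {p : ℝ} (hp0 : 0 ≤ p) (hp : p < 1 / 2) : ∃ C : ℝ, 0 ≤ C ∧ ∀ T,
    IntervalIntegrable (fun t => Real.exp (p * |(S.Φ t).re|)) volume T (T + 1) ∧
    ∫ t in T..(T + 1), Real.exp (p * |(S.Φ t).re|) ≤ C := by
  obtain ⟨C, hC⟩ := S.mom p hp0 hp
  refine ⟨max C 0, le_max_right _ _, fun T => ?_⟩
  have hT : T ≤ T + 1 := by linarith
  have hm : Measurable fun t => Real.exp (p * |(S.Φ t).re|) := by
    have := S.meas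
    fun_prop
  have h0 : ∀ t, 0 ≤ Real.exp (p * |(S.Φ t).re|) := fun t => (Real.exp_pos _).le
  have hint : Integrable (fun t => Real.exp (p * |(S.Φ t).re|)) (volume.restrict (Set.Ioc T (T + 1))) := by
    refine ⟨hm.aestronglyMeasurable, ?_⟩
    rw [hasFiniteIntegral_iff_ofReal (Eventually.of_forall h0)]
    exact lt_of_le_of_lt (hC T) ENNReal.ofReal_lt_top
  refine ⟨(intervalIntegrable_iff_integrableOn_Ioc_of_le hT).2 hint, ?_⟩
  rw [intervalIntegral.integral_of_le hT]
  have h1 := hC T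
  rw [← ofReal_integral_eq_lintegral_ofReal hint (Eventually.of_forall h0)] at h1
  have h2 : ENNReal.ofReal C ≤ ENNReal.ofReal (max C 0) := ENNReal.ofReal_le_ofReal (le_max_left _ _)
  exact (ENNReal.ofReal_le_ofReal_iff (le_max_right _ _)).1 (h1.trans h2)

theorem li_comp {g : ℂ → ℂ} (hg : Measurable g) {q C : ℝ} (hq0 : 0 ≤ q) (hq : q < 1 / 2)
    (hgr : Gr g q C) : LI (fun t => g (S.Φ t)) := by
  obtain ⟨C', _, hC'⟩ := S.mom' hq0 hq
  refine LI_of_unit fun T => ?_
  refine ((hC' T).1.const_mul C).mono_fun' (hg.comp S.meas).aestronglyMeasurable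
    (Eventually.of_forall fun t => ?_)
  exact hgr (S.Φ t)

/-- uniformly continuous bounded functions -/
theorem um_uc {g : ℂ → ℂ} (hg : UniformContinuous g) {B : ℝ} (hB : ∀ z, ‖g z‖ ≤ B) :
    ∃ m, UM (fun t => g (S.Φ t)) m := by
  have hB0 : 0 ≤ B := (norm_nonneg _).trans (hB 0)
  have hli : LI (fun t => g (S.Φ t)) :=
    S.li_comp hg.continuous.measurable le_rfl (by norm_num) (C := B) fun z => by simpa using hB z
  refine UM.approx hli fun ε hε => ?_
  obtain ⟨δ, hδ, hδg⟩ := Metric.uniformContinuous_iff.1 hg (ε / 2) (by positivity)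
  obtain ⟨n, hn⟩ := S.appr (ε / 2 / (2 * B / δ + 1)) (by positivity)
  have htr := (S.trig n).comp hg.continuous
  obtain ⟨m, hm⟩ := htr.um
  refine ⟨_, m, LI.of_cont htr.cont, hm, fun T => ?_⟩
  have hK : 0 ≤ 2 * B / δ := by positivity
  have hpt : ∀ z w : ℂ, ‖g z - g w‖ ≤ ε / 2 + (2 * B / δ + 1) * ‖z - w‖ := by
    intro z w
    rcases lt_or_ge (dist z w) δ with h | h
    · have h1 := hδg h
      rw [dist_eq_norm] at h1
      have : 0 ≤ (2 * B / δ + 1) * ‖z - w‖ := by positivity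
      linarith
    · rw [dist_eq_norm] at h
      have h1 : ‖g z - g w‖ ≤ 2 * B := (norm_sub_le _ _).trans (by linarith [hB z, hB w])
      have h2 : 2 * B ≤ 2 * B / δ * ‖z - w‖ := by
        rw [div_mul_eq_mul_div, le_div_iff₀ hδ]
        nlinarith
      nlinarith [norm_nonneg (z - w)]
  have i1 : IntervalIntegrable (fun t => ‖S.Φ t - S.g n t‖) volume T (T + 1) :=
    ((S.li T (T + 1)).sub ((S.trig n).cont.intervalIntegrable _ _)).norm
  have i2 : IntervalIntegrable (fun t => ‖g (S.Φ t) - g (S.g n t)‖) volume T (T + 1) :=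
    ((hli T (T + 1)).sub (htr.cont.intervalIntegrable _ _)).norm
  have h1 : ∫ t in T..(T + 1), ‖g (S.Φ t) - g (S.g n t)‖ ≤
      ∫ t in T..(T + 1), (ε / 2 + (2 * B / δ + 1) * ‖S.Φ t - S.g n t‖) :=
    intervalIntegral.integral_mono_on (by linarith) i2
      ((continuous_const.intervalIntegrable _ _).add (i1.const_mul _)) fun t _ => hpt _ _
  rw [intervalIntegral.integral_add (continuous_const.intervalIntegrable _ _) (i1.const_mul _),
    intervalIntegral.integral_const, intervalIntegral.integral_const_mul] at h1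
  simp only [add_sub_cancel_left, one_smul] at h1
  have h2 := mul_le_mul_of_nonneg_left (hn T) (show 0 ≤ 2 * B / δ + 1 by positivity)
  have h3 : (2 * B / δ + 1) * (ε / 2 / (2 * B / δ + 1)) = ε / 2 := by
    field_simp
  rw [h3] at h2
  linarith

/-- the tail estimate -/
theorem tail {g : ℂ → ℂ} (hg : Continuous g) {q C : ℝ} (hq0 : 0 ≤ q) (hq : q < 1 / 2)
    (hC : 0 ≤ C) (hgr : Gr g q C) {ε : ℝ} (hε : 0 < ε) : ∃ R0 : ℝ, ∀ R, R0 ≤ R → ∀ T,
    ∫ t in T..(T + 1), ‖g (S.Φ t) - (cut R (S.Φ t) : ℂ) * g (S.Φ t)‖ ≤ ε := by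
  set p : ℝ := (q + 1 / 2) / 2 with hp
  have hqp : q < p := by rw [hp]; linarith
  have hp2 : p < 1 / 2 := by rw [hp]; linarith
  obtain ⟨Cp, hCp0, hCp⟩ := S.mom' (hq0.trans hqp.le) hp2
  obtain ⟨C1, hC10, hC1⟩ := S.first
  set η : ℝ := ε / (2 * (C * Cp + 1)) with hη
  have hη0 : 0 < η := by positivity
  set r : ℝ := max 0 (-Real.log η / (p - q)) with hr
  have hr0 : 0 ≤ r := le_max_left _ _
  have hexp : Real.exp (-(p - q) * r) ≤ η := by
    rw [← Real.le_log_iff_exp_le hη0]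
    have h1 : -Real.log η / (p - q) ≤ r := le_max_right _ _
    rw [div_le_iff₀ (by linarith)] at h1
    linarith
  have hCC : 0 ≤ C * Real.exp (q * r) * C1 := by positivity
  refine ⟨max 1 (2 * (C * Real.exp (q * r) * C1) / ε), fun R hR T => ?_⟩
  have hR1 : 1 ≤ R := (le_max_left _ _).trans hR
  have hR0 : 0 < R := by linarith
  have hR2 : 2 * (C * Real.exp (q * r) * C1) / ε ≤ R := (le_max_right _ _).trans hR
  have hpt : ∀ z : ℂ, ‖g z - (cut R z : ℂ) * g z‖ ≤
      C * η * Real.exp (p * |z.re|) + C * Real.exp (q * r) / R * ‖z‖ := by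
    intro z
    have e : g z - (cut R z : ℂ) * g z = ((1 - cut R z : ℝ) : ℂ) * g z := by
      push_cast
      ring
    have hc0 := cut_nonneg R z
    have hc1 := cut_le_one R z
    rw [e, norm_mul, Complex.norm_real, Real.norm_of_nonneg (by linarith)]
    have hA : 0 ≤ C * η * Real.exp (p * |z.re|) := by positivity
    have hB : 0 ≤ C * Real.exp (q * r) / R * ‖z‖ := by positivity
    rcases le_or_gt ‖z‖ R with hz | hz
    · rw [cut_eq_one hz, sub_self, zero_mul]
      positivity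
    · have h1 : (1 - cut R z) * ‖g z‖ ≤ C * Real.exp (q * |z.re|) := by
        calc (1 - cut R z) * ‖g z‖ ≤ 1 * ‖g z‖ :=
              mul_le_mul_of_nonneg_right (by linarith) (norm_nonneg _)
          _ ≤ _ := by rw [one_mul]; exact hgr z
      refine h1.trans ?_
      rcases le_or_gt r |z.re| with hx | hx
      · have h2 : Real.exp (q * |z.re|) ≤ η * Real.exp (p * |z.re|) := by
          have h3 : Real.exp (q * |z.re|) = Real.exp (-(p - q) * |z.re|) * Real.exp (p * |z.re|) := by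
            rw [← Real.exp_add]
            congr 1
            ring
          rw [h3]
          refine mul_le_mul_of_nonneg_right (le_trans (Real.exp_le_exp.2 ?_) hexp) (Real.exp_pos _).le
          nlinarith
        have h4 := mul_le_mul_of_nonneg_left h2 hC
        linarith
      · have h2 : Real.exp (q * |z.re|) ≤ Real.exp (q * r) / R * ‖z‖ := by
          rw [div_mul_eq_mul_div, le_div_iff₀ hR0]
          exact mul_le_mul (Real.exp_le_exp.2 (mul_le_mul_of_nonneg_left hx.le hq0)) hz.le hR0.le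
            (Real.exp_pos _).le
        have h4 := mul_le_mul_of_nonneg_left h2 hC
        have h5 : C * (Real.exp (q * r) / R * ‖z‖) = C * Real.exp (q * r) / R * ‖z‖ := by ring
        linarith
  have hli := S.li_comp hg.measurable hq0 hq hgr
  have hli2 : LI (fun t => (cut R (S.Φ t) : ℂ) * g (S.Φ t)) := by
    refine S.li_comp (g := fun z => (cut R z : ℂ) * g z) ?_ hq0 hq (C := C) ?_
    · exact ((Complex.continuous_ofReal.comp (cut_cont R)).mul hg).measurable
    · intro z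
      rw [norm_mul, Complex.norm_real, Real.norm_of_nonneg (cut_nonneg R z)]
      calc cut R z * ‖g z‖ ≤ 1 * ‖g z‖ :=
            mul_le_mul_of_nonneg_right (cut_le_one R z) (norm_nonneg _)
        _ ≤ _ := by rw [one_mul]; exact hgr z
  have h1 : ∫ t in T..(T + 1), ‖g (S.Φ t) - (cut R (S.Φ t) : ℂ) * g (S.Φ t)‖ ≤
      ∫ t in T..(T + 1), (C * η * Real.exp (p * |(S.Φ t).re|) + C * Real.exp (q * r) / R * ‖S.Φ t‖) :=
    intervalIntegral.integral_mono_on (by linarith) ((hli T (T + 1)).sub (hli2 T (T + 1))).norm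
      (((hCp T).1.const_mul _).add ((S.li T (T + 1)).norm.const_mul _)) fun t _ => hpt _
  rw [intervalIntegral.integral_add ((hCp T).1.const_mul _) ((S.li T (T + 1)).norm.const_mul _),
    intervalIntegral.integral_const_mul, intervalIntegral.integral_const_mul] at h1
  have h2 : C * η * ∫ t in T..(T + 1), Real.exp (p * |(S.Φ t).re|) ≤ ε / 2 := by
    calc C * η * ∫ t in T..(T + 1), Real.exp (p * |(S.Φ t).re|) ≤ C * η * Cp :=
          mul_le_mul_of_nonneg_left (hCp T).2 (by positivity)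
      _ = (C * Cp) * ε / (2 * (C * Cp + 1)) := by rw [hη]; ring
      _ ≤ ε / 2 := by
          rw [div_le_div_iff₀ (by positivity) (by norm_num)]
          nlinarith [mul_nonneg hC hCp0]
  have h3 : C * Real.exp (q * r) / R * ∫ t in T..(T + 1), ‖S.Φ t‖ ≤ ε / 2 := by
    calc C * Real.exp (q * r) / R * ∫ t in T..(T + 1), ‖S.Φ t‖ ≤ C * Real.exp (q * r) / R * C1 :=
          mul_le_mul_of_nonneg_left (hC1 T) (by positivity)
      _ = (C * Real.exp (q * r) * C1) / R := by ring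
      _ ≤ ε / 2 := by
          rw [div_le_iff₀ hε] at hR2
          rw [div_le_div_iff₀ hR0 (by norm_num)]
          linarith
  linarith

theorem cut_uc {g : ℂ → ℂ} (hg : Continuous g) (R : ℝ) :
    UniformContinuous (fun z => (cut R z : ℂ) * g z) ∧ ∃ B : ℝ, ∀ z, ‖(cut R z : ℂ) * g z‖ ≤ B := by
  have hc : Continuous fun z => (cut R z : ℂ) * g z :=
    (Complex.continuous_ofReal.comp (cut_cont R)).mul hg
  have hs : HasCompactSupport fun z => (cut R z : ℂ) * g z := by
    refine HasCompactSupport.intro (isCompact_closedBall (0 : ℂ) (R + 1)) fun z hz => ?_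
    rw [Metric.mem_closedBall, dist_zero_right, not_le] at hz
    rw [cut_eq_zero hz]
    simp
  refine ⟨hs.uniformContinuous_of_continuous hc, ?_⟩
  obtain ⟨B, hB⟩ := hc.bounded_above_of_compact_support hs
  exact ⟨B, hB⟩

/-- **mean values exist** -/
theorem um {g : ℂ → ℂ} (hg : Continuous g) {q C : ℝ} (hq0 : 0 ≤ q) (hq : q < 1 / 2)
    (hC : 0 ≤ C) (hgr : Gr g q C) : ∃ m, UM (fun t => g (S.Φ t)) m := by
  refine UM.approx (S.li_comp hg.measurable hq0 hq hgr) fun ε hε => ?_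
  obtain ⟨R0, hR0⟩ := S.tail hg hq0 hq hC hgr hε
  obtain ⟨huc, B, hB⟩ := cut_uc hg R0
  obtain ⟨m, hm⟩ := S.um_uc huc hB
  refine ⟨_, m, ?_, hm, hR0 R0 le_rfl⟩
  exact S.li_comp (g := fun z => (cut R0 z : ℂ) * g z) huc.continuous.measurable le_rfl
    (by norm_num) (C := B) fun z => by simpa using hB z

end Stg

end Pool.Agent.L5helper14.Edge
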