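import Pool.Agent.L5helper14.Edge.Law

/-! The limiting law. -/

set_option autoImplicit false

namespace Pool.Agent.L5helper14.Edge

open Complex MeasureTheory Filter Topology BoundedContinuousFunction
open scoped ENNReal NNReal

namespace Stg

variable (S : Stg)

/-- the uniform measure on `(0, n+1]` -/
noncomputable def un (n : ℕ) : Measure ℝ :=
  ENNReal.ofReal (1 / ((n : ℝ) + 1)) • volume.restrict (Set.Ioc 0 ((n : ℝ) + 1))

instance (n : ℕ) : IsProbabilityMeasure (un n) := by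
  refine ⟨?_⟩
  unfold un
  rw [Measure.smul_apply, Measure.restrict_apply_univ, Real.volume_Ioc, sub_zero, smul_eq_mul,
    ← ENNReal.ofReal_mul (by positivity)]
  have : 1 / ((n : ℝ) + 1) * ((n : ℝ) + 1) = 1 := by field_simp
  rw [this, ENNReal.ofReal_one]

/-- the law of `Φ` on `(0, n+1]` -/
noncomputable def nu (n : ℕ) : ProbabilityMeasure ℂ :=
  ⟨(un n).map S.Φ, Measure.isProbabilityMeasure_map S.meas.aemeasurable⟩

theorem integral_nu (n : ℕ) {f : ℂ → ℝ} (hf : Continuous f) :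
    ∫ z, f z ∂(S.nu n : Measure ℂ) = 1 / ((n : ℝ) + 1) * ∫ t in (0 : ℝ)..(0 + ((n : ℝ) + 1)), f (S.Φ t) := by
  have h1 : (S.nu n : Measure ℂ) = (un n).map S.Φ := rfl
  rw [h1, integral_map S.meas.aemeasurable hf.aestronglyMeasurable]
  unfold un
  rw [integral_smul_measure, ENNReal.toReal_ofReal (by positivity), smul_eq_mul, zero_add,
    intervalIntegral.integral_of_le (by positivity)]

theorem tight : IsTightMeasureSet {((μ : ProbabilityMeasure ℂ) : Measure ℂ) | μ ∈ Set.range S.nu} := by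
  rw [isTightMeasureSet_iff_exists_isCompact_measure_compl_le]
  intro ε hε
  obtain ⟨C, hC0, hC⟩ := S.first
  obtain ⟨R, hR0, hR⟩ : ∃ R : ℝ, 0 < R ∧ ENNReal.ofReal (C / R) ≤ ε := by
    rcases eq_or_ne ε ⊤ with h | h
    · exact ⟨1, one_pos, by rw [h]; exact le_top⟩
    · have h1 : 0 < ε.toReal := ENNReal.toReal_pos hε.ne' h
      refine ⟨C / ε.toReal + 1, by positivity, ?_⟩
      refine ENNReal.ofReal_le_of_le_toReal ?_
      rw [div_le_iff₀ (by positivity)]
      have : C / ε.toReal * ε.toReal = C := by field_simp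
      nlinarith
  refine ⟨Metric.closedBall 0 R, isCompact_closedBall 0 R, ?_⟩
  rintro _ ⟨_, ⟨n, rfl⟩, rfl⟩
  refine le_trans ?_ hR
  have h1 : (S.nu n : Measure ℂ) = (un n).map S.Φ := rfl
  rw [h1, Measure.map_apply S.meas Metric.isClosed_closedBall.measurableSet.compl]
  unfold un
  rw [Measure.smul_apply, smul_eq_mul]
  have hsub : S.Φ ⁻¹' (Metric.closedBall 0 R)ᶜ ⊆ {t | ENNReal.ofReal R ≤ ‖S.Φ t‖ₑ} := by
    intro t ht
    simp only [Set.mem_preimage, Set.mem_compl_iff, Metric.mem_closedBall, dist_zero_right,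
      not_le] at ht
    simp only [Set.mem_ofPred_eq]
    rw [← ofReal_norm]
    exact ENNReal.ofReal_le_ofReal ht.le
  have h2 : ENNReal.ofReal R * (volume.restrict (Set.Ioc 0 ((n : ℝ) + 1)))
      {t | ENNReal.ofReal R ≤ ‖S.Φ t‖ₑ} ≤
      ∫⁻ t in Set.Ioc 0 ((n : ℝ) + 1), ‖S.Φ t‖ₑ :=
    mul_meas_ge_le_lintegral (S.meas.enorm) _
  have hn : (0 : ℝ) < (n : ℝ) + 1 := by positivity
  have hint : Integrable S.Φ (volume.restrict (Set.Ioc 0 ((n : ℝ) + 1))) :=
    (S.li 0 ((n : ℝ) + 1)).1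
  have h3 : ∫⁻ t in Set.Ioc 0 ((n : ℝ) + 1), ‖S.Φ t‖ₑ ≤ ENNReal.ofReal (((n : ℝ) + 1) * C) := by
    rw [← ofReal_integral_norm_eq_lintegral_enorm hint]
    refine ENNReal.ofReal_le_ofReal ?_
    have h4 := winN (fun a b => (S.li a b).norm) hC (n + 1) 0
    rw [zero_add] at h4
    push_cast at h4
    rwa [intervalIntegral.integral_of_le hn.le] at h4
  have h5 : (volume.restrict (Set.Ioc 0 ((n : ℝ) + 1))) (S.Φ ⁻¹' (Metric.closedBall 0 R)ᶜ) ≤
      ENNReal.ofReal (((n : ℝ) + 1) * C / R) := by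
    refine (measure_mono hsub).trans ?_
    rw [ENNReal.ofReal_div_of_pos hR0, ENNReal.le_div_iff_mul_le
      (Or.inl (by simpa using hR0)) (Or.inl ENNReal.ofReal_ne_top), mul_comm]
    exact h2.trans h3
  calc ENNReal.ofReal (1 / ((n : ℝ) + 1)) *
        (volume.restrict (Set.Ioc 0 ((n : ℝ) + 1))) (S.Φ ⁻¹' (Metric.closedBall 0 R)ᶜ)
      ≤ ENNReal.ofReal (1 / ((n : ℝ) + 1)) * ENNReal.ofReal (((n : ℝ) + 1) * C / R) :=
        mul_le_mul_right h5 _
    _ = ENNReal.ofReal (C / R) := by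
        rw [← ENNReal.ofReal_mul (by positivity)]
        congr 1
        field_simp

theorem tendsto_win {f : ℂ → ℝ} {m : ℂ} (hm : UM (fun t => (f (S.Φ t) : ℂ)) m) :
    Tendsto (fun n : ℕ => ((1 / ((n : ℝ) + 1) * ∫ t in (0 : ℝ)..(0 + ((n : ℝ) + 1)), f (S.Φ t) : ℝ) : ℂ))
      atTop (𝓝 m) := by
  rw [Metric.tendsto_atTop]
  intro ε hε
  obtain ⟨H0, hH0, hH⟩ := hm (ε / 2) (by positivity)
  refine ⟨⌈H0⌉₊, fun n hn => ?_⟩
  have h1 : H0 ≤ (n : ℝ) + 1 := by
    have := Nat.le_ceil H0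
    have h2 : ((⌈H0⌉₊ : ℕ) : ℝ) ≤ n := by exact_mod_cast hn
    linarith
  have h3 := hH ((n : ℝ) + 1) h1 0
  rw [dist_eq_norm]
  have e : ((1 / ((n : ℝ) + 1) * ∫ t in (0 : ℝ)..(0 + ((n : ℝ) + 1)), f (S.Φ t) : ℝ) : ℂ) =
      (1 / (((n : ℝ) + 1 : ℝ) : ℂ)) * ∫ t in (0 : ℝ)..(0 + ((n : ℝ) + 1)), (f (S.Φ t) : ℂ) := by
    rw [Complex.ofReal_mul, ← intervalIntegral.integral_ofReal]
    push_cast
    ring
  rw [e]
  exact lt_of_le_of_lt h3 (by linarith)

/-- the integrals of bounded continuous functions against a limit law are the mean values -/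
theorem integral_lam {lam : ProbabilityMeasure ℂ} (hT : Tendsto S.nu (hyperfilter ℕ) (𝓝 lam))
    {f : ℂ → ℝ} {m : ℂ} (hf : Continuous f) {B : ℝ} (hB : ∀ z, |f z| ≤ B)
    (hm : UM (fun t => (f (S.Φ t) : ℂ)) m) :
    ((∫ z, f z ∂(lam : Measure ℂ) : ℝ) : ℂ) = m := by
  have hat : (hyperfilter ℕ : Filter ℕ) ≤ atTop := by
    rw [← Nat.cofinite_eq_atTop]
    exact hyperfilter_le_cofinite
  have h1 := (ProbabilityMeasure.tendsto_iff_forall_integral_tendsto.1 hT)
    (BoundedContinuousFunction.ofNormedAddCommGroup f hf B hB)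
  simp only [BoundedContinuousFunction.coe_ofNormedAddCommGroup] at h1
  have h2 := (Complex.continuous_ofReal.tendsto _).comp h1
  have h3 := (S.tendsto_win hm).mono_left hat
  refine tendsto_nhds_unique h2 (h3.congr fun n => ?_)
  simp only [Function.comp_apply]
  rw [S.integral_nu n hf]

theorem exp_cont (q : ℝ) : Continuous fun z : ℂ => Real.exp (q * |z.re|) := by fun_prop

/-- the mean value of the cut exponential moments -/
theorem cut_mean {q : ℝ} {C : ℝ} (hq0 : 0 ≤ q) (hq : q < 1 / 2)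
    (hC : ∀ T, ∫ t in T..(T + 1), Real.exp (q * |(S.Φ t).re|) ≤ C) (N : ℕ) (n : ℕ) :
    1 / ((n : ℝ) + 1) * ∫ t in (0 : ℝ)..(0 + ((n : ℝ) + 1)),
      cut N (S.Φ t) * Real.exp (q * |(S.Φ t).re|) ≤ C := by
  have hGc := exp_cont q
  have hgc : Continuous fun z : ℂ => cut N z * Real.exp (q * |z.re|) := (cut_cont N).mul hGc
  have hn : (0 : ℝ) < (n : ℝ) + 1 := by positivity
  have hli : ∀ a b, IntervalIntegrable (fun t => Real.exp (q * |(S.Φ t).re|)) volume a b := by
    intro a b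
    have h5 := S.li_comp (g := fun z => ((Real.exp (q * |z.re|) : ℝ) : ℂ)) (C := 1)
      (Complex.continuous_ofReal.comp hGc).measurable hq0 hq (fun z => by
        rw [Complex.norm_real, Real.norm_of_nonneg (Real.exp_pos _).le, one_mul]) a b
    have h6 := h5.norm
    refine h6.congr fun t _ => ?_
    rw [Complex.norm_real, Real.norm_of_nonneg (Real.exp_pos _).le]
  have h3 := winN hli hC (n + 1) 0
  have h4 : ∫ t in (0 : ℝ)..(0 + ((n : ℝ) + 1)), cut N (S.Φ t) * Real.exp (q * |(S.Φ t).re|) ≤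
      ∫ t in (0 : ℝ)..(0 + ((n : ℝ) + 1)), Real.exp (q * |(S.Φ t).re|) := by
    have hm1 : AEStronglyMeasurable (fun t => cut N (S.Φ t) * Real.exp (q * |(S.Φ t).re|))
        (volume.restrict (Set.uIoc 0 (0 + ((n : ℝ) + 1)))) :=
      (hgc.measurable.comp S.meas).aestronglyMeasurable
    have hi1 : IntervalIntegrable (fun t => cut N (S.Φ t) * Real.exp (q * |(S.Φ t).re|)) volume 0
        (0 + ((n : ℝ) + 1)) := by
      refine (hli _ _).mono_fun hm1 (Eventually.of_forall fun t => ?_)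
      simp only
      rw [norm_mul, Real.norm_of_nonneg (cut_nonneg _ _)]
      exact mul_le_of_le_one_left (norm_nonneg _) (cut_le_one _ _)
    exact intervalIntegral.integral_mono_on (by linarith) hi1 (hli _ _) fun t _ =>
      mul_le_of_le_one_left (Real.exp_pos _).le (cut_le_one _ _)
  push_cast at h3
  calc 1 / ((n : ℝ) + 1) * ∫ t in (0 : ℝ)..(0 + ((n : ℝ) + 1)),
        cut N (S.Φ t) * Real.exp (q * |(S.Φ t).re|)
      ≤ 1 / ((n : ℝ) + 1) * (((n : ℝ) + 1) * C) :=
        mul_le_mul_of_nonneg_left (h4.trans h3) (by positivity)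
    _ = C := by field_simp

/-- the cut function times a continuous function: bound and mean value -/
theorem cut_um {g : ℂ → ℝ} (hg : Continuous g) (N : ℕ) :
    ∃ B : ℝ, ∃ m : ℂ, (∀ z, |cut N z * g z| ≤ B) ∧
      UM (fun t => ((cut N (S.Φ t) * g (S.Φ t) : ℝ) : ℂ)) m := by
  obtain ⟨huc, B, hB⟩ := cut_uc (g := fun z => (g z : ℂ)) (Complex.continuous_ofReal.comp hg) N
  obtain ⟨m, hm⟩ := S.um_uc huc hB
  have e : ∀ z : ℂ, (cut N z : ℂ) * (g z : ℂ) = ((cut N z * g z : ℝ) : ℂ) := fun z => by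
    push_cast; ring
  simp_rw [e] at hm hB
  exact ⟨B, m, fun z => by
    have := hB z
    rwa [Complex.norm_real] at this, hm⟩

theorem integral_cut_le {lam : ProbabilityMeasure ℂ} (hT : Tendsto S.nu (hyperfilter ℕ) (𝓝 lam))
    {q : ℝ} {C : ℝ} (hq0 : 0 ≤ q) (hq : q < 1 / 2)
    (hC : ∀ T, ∫ t in T..(T + 1), Real.exp (q * |(S.Φ t).re|) ≤ C) (N : ℕ) :
    ∫ z, cut N z * Real.exp (q * |z.re|) ∂(lam : Measure ℂ) ≤ C := by
  obtain ⟨B, m, hB, hm⟩ := S.cut_um (exp_cont q) N
  have hgc : Continuous fun z : ℂ => cut N z * Real.exp (q * |z.re|) := (cut_cont N).mul (exp_cont q)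
  have h1 := S.integral_lam (f := fun z => cut N z * Real.exp (q * |z.re|)) hT hgc hB hm
  have h2 := (Complex.continuous_re.tendsto _).comp
    (S.tendsto_win (f := fun z => cut N z * Real.exp (q * |z.re|)) hm)
  rw [← h1, Complex.ofReal_re] at h2
  refine le_of_tendsto h2 (Eventually.of_forall fun n => ?_)
  simp only [Function.comp_apply, Complex.ofReal_re]
  exact S.cut_mean hq0 hq hC N n

theorem integrable_exp {lam : ProbabilityMeasure ℂ} (hT : Tendsto S.nu (hyperfilter ℕ) (𝓝 lam))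
    {q : ℝ} (hq0 : 0 ≤ q) (hq : q < 1 / 2) :
    Integrable (fun z : ℂ => Real.exp (q * |z.re|)) (lam : Measure ℂ) := by
  obtain ⟨C, hC0, hC⟩ := S.mom' hq0 hq
  have hGc := exp_cont q
  have hbound := fun N => S.integral_cut_le hT hq0 hq (fun T => (hC T).2) N
  refine ⟨hGc.aestronglyMeasurable, ?_⟩
  rw [hasFiniteIntegral_iff_ofReal (Eventually.of_forall fun z => (Real.exp_pos _).le)]
  have hlim : ∀ z : ℂ, Tendsto (fun N : ℕ => ENNReal.ofReal (cut N z * Real.exp (q * |z.re|))) atTop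
      (𝓝 (ENNReal.ofReal (Real.exp (q * |z.re|)))) := by
    intro z
    refine tendsto_const_nhds.congr' ?_
    filter_upwards [eventually_ge_atTop ⌈‖z‖⌉₊] with N hN
    rw [cut_eq_one ((Nat.le_ceil _).trans (by exact_mod_cast hN)), one_mul]
  have h1 : ∫⁻ z, ENNReal.ofReal (Real.exp (q * |z.re|)) ∂(lam : Measure ℂ) ≤
      liminf (fun N : ℕ => ∫⁻ z, ENNReal.ofReal (cut N z * Real.exp (q * |z.re|)) ∂(lam : Measure ℂ))
        atTop := by
    have h2 : (fun z : ℂ => ENNReal.ofReal (Real.exp (q * |z.re|))) = fun z =>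
        liminf (fun N : ℕ => ENNReal.ofReal (cut N z * Real.exp (q * |z.re|))) atTop :=
      funext fun z => (hlim z).liminf_eq.symm
    rw [h2]
    refine lintegral_liminf_le fun N => ?_
    exact (((cut_cont N).mul hGc).measurable).ennreal_ofReal
  have h3 : ∀ N : ℕ, ∫⁻ z, ENNReal.ofReal (cut N z * Real.exp (q * |z.re|)) ∂(lam : Measure ℂ) ≤
      ENNReal.ofReal C := by
    intro N
    have hgc : Continuous fun z : ℂ => cut N z * Real.exp (q * |z.re|) := (cut_cont N).mul hGc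
    have hs : HasCompactSupport fun z : ℂ => cut N z * Real.exp (q * |z.re|) := by
      refine HasCompactSupport.intro (isCompact_closedBall (0 : ℂ) (N + 1)) fun z hz => ?_
      rw [Metric.mem_closedBall, dist_zero_right, not_le] at hz
      rw [cut_eq_zero hz, zero_mul]
    rw [← ofReal_integral_eq_lintegral_ofReal (hgc.integrable_of_hasCompactSupport hs)
      (Eventually.of_forall fun z => mul_nonneg (cut_nonneg _ _) (Real.exp_pos _).le)]
    exact ENNReal.ofReal_le_ofReal (hbound N)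
  have h4 : liminf (fun N : ℕ => ∫⁻ z, ENNReal.ofReal (cut N z * Real.exp (q * |z.re|))
      ∂(lam : Measure ℂ)) atTop ≤ ENNReal.ofReal C :=
    liminf_le_of_le (by isBoundedDefault) fun b hb => by
      obtain ⟨N, hN⟩ := hb.exists
      exact hN.trans (h3 N)
  exact lt_of_le_of_lt (h1.trans h4) ENNReal.ofReal_lt_top

/-- **the limiting law** -/
theorem law : ∃ μ : Measure ℂ, IsProbabilityMeasure μ ∧ ∀ g : ℂ → ℝ, Continuous g →
    ∀ q C : ℝ, 0 ≤ q → q < 1 / 2 → (∀ z, |g z| ≤ C * Real.exp (q * |z.re|)) →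
      Integrable g μ ∧ UM (fun t => (g (S.Φ t) : ℂ)) ((∫ z, g z ∂μ : ℝ) : ℂ) := by
  classical
  have hcomp := isCompact_closure_of_isTightMeasureSet S.tight
  set U : Ultrafilter (ProbabilityMeasure ℂ) := (hyperfilter ℕ).map S.nu with hU
  have hUle : (U : Filter (ProbabilityMeasure ℂ)) ≤ 𝓟 (closure (Set.range S.nu)) := by
    rw [le_principal_iff]
    rw [hU]
    refine Ultrafilter.mem_map.2 (Filter.univ_mem' fun n => ?_)
    exact subset_closure ⟨n, rfl⟩
  obtain ⟨lam, -, hlam⟩ := hcomp.ultrafilter_le_nhds U hUle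
  have hT : Tendsto S.nu (hyperfilter ℕ) (𝓝 lam) := hlam
  refine ⟨lam, inferInstance, ?_⟩
  intro g hg q C hq0 hq hgr
  have hC : 0 ≤ C := by
    have h1 := (abs_nonneg _).trans (hgr 0)
    simp only [Complex.zero_re, abs_zero, mul_zero, Real.exp_zero, mul_one] at h1
    exact h1
  have hgint : Integrable g (lam : Measure ℂ) :=
    ((S.integrable_exp hT hq0 hq).const_mul C).mono' hg.aestronglyMeasurable
      (Eventually.of_forall fun z => hgr z)
  refine ⟨hgint, ?_⟩
  have hgC : Continuous fun z : ℂ => (g z : ℂ) := Complex.continuous_ofReal.comp hg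
  have hgr' : Gr (fun z => (g z : ℂ)) q C := fun z => by
    rw [Complex.norm_real]
    exact hgr z
  obtain ⟨m, hm⟩ := S.um hgC hq0 hq hC hgr'
  -- the cut functions
  choose B mN hB hmN using fun N => S.cut_um hg N
  have hmN' : ∀ N : ℕ, ((∫ z, cut N z * g z ∂(lam : Measure ℂ) : ℝ) : ℂ) = mN N := fun N =>
    S.integral_lam (f := fun z => cut N z * g z) hT ((cut_cont N).mul hg) (hB N) (hmN N)
  have hlim1 : Tendsto mN atTop (𝓝 m) := by
    rw [Metric.tendsto_atTop]
    intro ε hε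
    obtain ⟨R0, hR0⟩ := S.tail hgC hq0 hq hC hgr' (ε := ε / 4) (by positivity)
    refine ⟨⌈R0⌉₊, fun N hN => ?_⟩
    have h1 : R0 ≤ N := (Nat.le_ceil _).trans (by exact_mod_cast hN)
    have hli := S.li_comp hgC.measurable hq0 hq hgr'
    have hli2 : LI (fun t => ((cut N (S.Φ t) * g (S.Φ t) : ℝ) : ℂ)) := by
      refine S.li_comp (g := fun z => ((cut N z * g z : ℝ) : ℂ)) ?_ le_rfl
        (by norm_num) (C := B N) fun z => ?_
      · exact (Complex.continuous_ofReal.comp ((cut_cont N).mul hg)).measurable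
      · rw [Complex.norm_real, zero_mul, Real.exp_zero, mul_one]
        exact hB N z
    have h2 := UM.close hli hli2 hm (hmN N) (fun T => by
      have := hR0 N h1 T
      push_cast
      exact this)
    rw [dist_eq_norm, ← norm_neg, neg_sub]
    linarith
  have hlim2 : Tendsto (fun N : ℕ => ∫ z, cut N z * g z ∂(lam : Measure ℂ)) atTop
      (𝓝 (∫ z, g z ∂(lam : Measure ℂ))) := by
    refine tendsto_integral_of_dominated_convergence (fun z => |g z|)
      (fun N => ((cut_cont N).mul hg).aestronglyMeasurable) hgint.abs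
      (fun N => Eventually.of_forall fun z => ?_) (Eventually.of_forall fun z => ?_)
    · rw [norm_mul, Real.norm_of_nonneg (cut_nonneg _ _), Real.norm_eq_abs]
      exact mul_le_of_le_one_left (abs_nonneg _) (cut_le_one _ _)
    · refine tendsto_const_nhds.congr' ?_
      filter_upwards [eventually_ge_atTop ⌈‖z‖⌉₊] with N hN
      rw [cut_eq_one ((Nat.le_ceil _).trans (by exact_mod_cast hN)), one_mul]
  have h3 := (Complex.continuous_ofReal.tendsto _).comp hlim2
  have h4 : m = ((∫ z, g z ∂(lam : Measure ℂ) : ℝ) : ℂ) :=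
    tendsto_nhds_unique hlim1 (h3.congr hmN')
  rw [← h4]
  exact hm

end Stg

end Pool.Agent.L5helper14.Edge
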