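import Pool.Agent.L5helper14.Edge.Stp
import Pool.Agent.L5helper14.Edge.Mom

/-! The logarithm of an Euler product on the edge. -/

set_option autoImplicit false

namespace Pool.Agent.L5helper14.Edge

open Complex MeasureTheory Finset Filter Topology
open scoped ENNReal NNReal

/-- from mean squares to means -/
theorem mean_of_sq {f : ℝ → ℂ} (hf : Continuous f) {E a : ℝ} (ha : 0 < a) (T : ℝ)
    (h : ∫ t in T..(T + 1), ‖f t‖ ^ 2 ≤ E) : ∫ t in T..(T + 1), ‖f t‖ ≤ a / 2 + E / (2 * a) := by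
  have h1 : ∫ t in T..(T + 1), ‖f t‖ ≤ ∫ t in T..(T + 1), (a / 2 + 1 / (2 * a) * ‖f t‖ ^ 2) := by
    refine intervalIntegral.integral_mono_on (by linarith) (hf.norm.intervalIntegrable _ _)
      (Continuous.intervalIntegrable (by fun_prop) _ _) fun t _ => ?_
    have h2 : 0 ≤ (‖f t‖ - a) ^ 2 / (2 * a) := by positivity
    have h3 : (‖f t‖ - a) ^ 2 / (2 * a) = 1 / (2 * a) * ‖f t‖ ^ 2 - ‖f t‖ + a / 2 := by
      field_simp
      ring
    linarith
  have i2 : IntervalIntegrable (fun t => 1 / (2 * a) * ‖f t‖ ^ 2) volume T (T + 1) :=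
    Continuous.intervalIntegrable (by fun_prop) _ _
  rw [intervalIntegral.integral_add (continuous_const.intervalIntegrable _ _) i2,
    intervalIntegral.integral_const, intervalIntegral.integral_const_mul] at h1
  have h4 : 1 / (2 * a) * ∫ t in T..(T + 1), ‖f t‖ ^ 2 ≤ 1 / (2 * a) * E :=
    mul_le_mul_of_nonneg_left h (by positivity)
  have h5 : 1 / (2 * a) * E = E / (2 * a) := by ring
  rw [h5] at h4
  simp only [add_sub_cancel_left, one_smul] at h1
  linarith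

namespace PSys

variable (P : PSys)

/-- the logarithm of a finite part of the Euler product on the edge -/
noncomputable def LG (A δ : P.X → ℂ) (J : ℕ) (t : ℝ) : ℂ :=
  ∑ x ∈ P.bl 0 (2 ^ J), -Complex.log (P.lf A δ x (3 / 2 + t * I))

/-- the normalised coefficients -/
noncomputable def cf (A : P.X → ℂ) (v : P.X) : ℂ := A v * ((Real.sqrt (P.N v) : ℝ) : ℂ)⁻¹

variable {P} {A δ : P.X → ℂ}

theorem tm_eq (A : P.X → ℂ) (v : P.X) (t : ℝ) :
    P.tm (P.cf A) t v = A v * ((P.N v : ℕ) : ℂ) ^ (-(3 / 2 + t * I) : ℂ) := by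
  have h0 := P.N_ne v
  have hN := P.N_pos v
  unfold tm cf
  have h1 : ((Real.sqrt (P.N v) : ℝ) : ℂ)⁻¹ = ((P.N v : ℕ) : ℂ) ^ (-(1 / 2) : ℂ) := by
    rw [Real.sqrt_eq_rpow, Complex.ofReal_cpow hN.le, Complex.cpow_neg]
    push_cast
    rfl
  have h2 : cexp (-(I * (P.lam v : ℝ) * t)) = ((P.N v : ℕ) : ℂ) ^ (-(t * I)) := by
    rw [Complex.cpow_def_of_ne_zero h0]
    congr 1
    unfold lam
    rw [Complex.natCast_log]
    ring
  rw [h1, h2, div_eq_mul_inv]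
  have h3 : (((P.N v : ℕ) : ℂ))⁻¹ = ((P.N v : ℕ) : ℂ) ^ (-1 : ℂ) := by
    rw [Complex.cpow_neg_one]
  rw [h3, mul_assoc, mul_assoc, ← Complex.cpow_add _ _ h0, ← Complex.cpow_add _ _ h0]
  congr 2
  ring

theorem neg_log_eq (A δ : P.X → ℂ) (v : P.X) (t : ℝ) :
    -Complex.log (P.lf A δ v (3 / 2 + t * I)) = P.tm (P.cf A) t v + P.rem A δ v (3 / 2 + t * I) := by
  rw [tm_eq]
  unfold rem
  ring

theorem re_edge (t : ℝ) : (3 / 2 : ℝ) ≤ ((3 / 2 + t * I : ℂ)).re := by simp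

theorem lf_edge (A δ : P.X → ℂ) (v : P.X) (t : ℝ) :
    P.lf A δ v (3 / 2 + t * I) = 1 - A v * (((P.N v : ℝ) ^ (-(3 / 2) : ℝ) : ℝ) : ℂ) *
      cexp (((-P.lam v : ℝ) : ℂ) * t * I) + δ v * (((P.N v : ℝ) ^ (-2 : ℝ) : ℝ) : ℂ) *
      cexp (((-P.lam v : ℝ) : ℂ) * t * I) ^ 2 := by
  have h1 := term_eq A v (3 / 2) t
  have h2 := term_eq δ v 2 (2 * t)
  have e1 : (((3 / 2 : ℝ) : ℂ) + t * I) = 3 / 2 + t * I := by push_cast; ring
  have e2 : (-(((2 : ℝ) : ℂ) + ((2 * t : ℝ) : ℂ) * I)) = 1 - 2 * (3 / 2 + t * I) := by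
    push_cast; ring
  rw [e1] at h1
  rw [e2] at h2
  unfold lf
  rw [h1, h2]
  congr 1
  congr 1
  rw [← Complex.exp_nat_mul]
  congr 1
  push_cast
  ring

/-- the function on the torus -/
theorem LG_torus (hA : ∀ v, ‖A v‖ ≤ P.N v) (hδ : ∀ v, ‖δ v‖ ≤ 1) (J : ℕ) :
    ∃ h : C(UnitAddTorus (P.bl 0 (2 ^ J)), ℂ), ∀ t : ℝ, P.LG A δ J t =
      h (fun i => ((-P.lam i / (2 * Real.pi) * t : ℝ) : UnitAddCircle)) := by
  classical
  have hval : ∀ (x : P.X) (t : ℝ), (fourier 1 (((-P.lam x / (2 * Real.pi) * t : ℝ) : UnitAddCircle)) : ℂ) =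
      cexp (((-P.lam x : ℝ) : ℂ) * t * I) := by
    intro x t
    rw [fourier_coe_apply]
    congr 1
    push_cast
    have : (Real.pi : ℂ) ≠ 0 := by exact_mod_cast Real.pi_ne_zero
    field_simp
  have hslit : ∀ (x : P.X) (y : UnitAddCircle),
      1 - A x * (((P.N x : ℝ) ^ (-(3 / 2) : ℝ) : ℝ) : ℂ) * (fourier 1 y : ℂ) +
        δ x * (((P.N x : ℝ) ^ (-2 : ℝ) : ℝ) : ℂ) * (fourier 1 y : ℂ) ^ 2 ∈ Complex.slitPlane := by
    intro x y
    obtain ⟨τ, rfl⟩ := QuotientAddGroup.mk_surjective y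
    have hlam : 0 < P.lam x := Real.log_pos (by
      have := P.two_le x
      exact_mod_cast (by omega : 1 < P.N x))
    have e : τ = -P.lam x / (2 * Real.pi) * (-(2 * Real.pi * τ) / P.lam x) := by
      have := Real.pi_ne_zero
      field_simp
    have h1 := hval x (-(2 * Real.pi * τ) / P.lam x)
    rw [← e] at h1
    have h2 : (fourier 1 ((QuotientAddGroup.mk τ : UnitAddCircle)) : ℂ) =
      cexp (((-P.lam x : ℝ) : ℂ) * ((-(2 * Real.pi * τ) / P.lam x : ℝ) : ℂ) * I) := h1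
    rw [h2, ← lf_edge]
    exact lf_slit hA hδ x (re_edge _)
  have hg : ∀ x : P.X, Continuous fun y : UnitAddCircle => -Complex.log
      (1 - A x * (((P.N x : ℝ) ^ (-(3 / 2) : ℝ) : ℝ) : ℂ) * (fourier 1 y : ℂ) +
        δ x * (((P.N x : ℝ) ^ (-2 : ℝ) : ℝ) : ℂ) * (fourier 1 y : ℂ) ^ 2) := by
    intro x
    have hf : Continuous fun y : UnitAddCircle => (fourier 1 y : ℂ) := (fourier 1).continuous
    exact (Continuous.clog ((continuous_const.sub (continuous_const.mul hf)).add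
      (continuous_const.mul (hf.pow 2))) (hslit x)).neg
  choose g hg1 using fun x : P.X => (⟨⟨_, hg x⟩, fun y => rfl⟩ :
    ∃ g : C(UnitAddCircle, ℂ), ∀ y : UnitAddCircle, g y = -Complex.log
      (1 - A x * (((P.N x : ℝ) ^ (-(3 / 2) : ℝ) : ℝ) : ℂ) * (fourier 1 y : ℂ) +
        δ x * (((P.N x : ℝ) ^ (-2 : ℝ) : ℝ) : ℂ) * (fourier 1 y : ℂ) ^ 2))
  refine ⟨⟨fun y => ∑ x : P.bl 0 (2 ^ J), g x (y x), ?_⟩, ?_⟩
  · exact continuous_finsetSum _ fun x _ => (g x).continuous.comp (continuous_apply x)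
  · intro t
    simp only [ContinuousMap.coe_mk]
    unfold LG
    rw [← sum_coe_sort (P.bl 0 (2 ^ J))]
    refine sum_congr rfl fun x _ => ?_
    rw [hg1, hval, ← lf_edge]

theorem LG_cont (hA : ∀ v, ‖A v‖ ≤ P.N v) (hδ : ∀ v, ‖δ v‖ ≤ 1) (J : ℕ) :
    Continuous (P.LG A δ J) := by
  obtain ⟨h, hh⟩ := LG_torus hA hδ J
  have e : P.LG A δ J = fun t : ℝ => h (fun i => ((-P.lam i / (2 * Real.pi) * t : ℝ) : UnitAddCircle)) :=
    funext hh
  rw [e]
  refine h.continuous.comp (continuous_pi fun i => ?_)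
  exact (AddCircle.continuous_mk' 1).comp (by fun_prop)

theorem LG_succ (A δ : P.X → ℂ) (J : ℕ) (t : ℝ) :
    P.LG A δ (J + 1) t - P.LG A δ J t = P.F (P.cf A) (2 ^ J) (2 ^ (J + 1)) t +
      ∑ x ∈ P.bl (2 ^ J) (2 ^ (J + 1)), P.rem A δ x (3 / 2 + t * I) := by
  classical
  unfold LG F
  rw [← sum_add_distrib]
  have h1 : P.bl 0 (2 ^ (J + 1)) = P.bl 0 (2 ^ J) ∪ P.bl (2 ^ J) (2 ^ (J + 1)) := by
    ext x
    have : 2 ^ J ≤ 2 ^ (J + 1) := Nat.pow_le_pow_right (by norm_num) (Nat.le_succ J)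
    simp only [mem_union, mem_bl]
    omega
  have h2 : Disjoint (P.bl 0 (2 ^ J)) (P.bl (2 ^ J) (2 ^ (J + 1))) := by
    rw [disjoint_left]
    intro x hx hx'
    rw [mem_bl] at hx hx'
    omega
  rw [h1, sum_union h2, add_sub_cancel_left]
  exact sum_congr rfl fun x _ => neg_log_eq A δ x t

theorem F_cont (c : P.X → ℂ) (a b : ℕ) : Continuous (P.F c a b) := by
  unfold F tm
  fun_prop

/-- the remainders over a block -/
noncomputable def kb (P : PSys) (B0 : Finset P.X) (J : ℕ) : ℝ :=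
  ∑ x ∈ P.bl (2 ^ J) (2 ^ (J + 1)), Kb B0 x

theorem Kb_nonneg (B0 : Finset P.X) (x : P.X) : 0 ≤ Kb B0 x := by
  classical
  unfold Kb
  have := P.N_pos x
  split_ifs <;> positivity

theorem kb_summable (hsum : ∀ r : ℝ, r < -1 → Summable fun x => (P.N x : ℝ) ^ r)
    (B0 : Finset P.X) : Summable (kb P B0) := by
  classical
  refine summable_of_sum_range_le (c := ∑' x, Kb B0 x) (fun J => sum_nonneg fun x _ => Kb_nonneg B0 x)
    fun n => ?_
  have h1 : ∑ J ∈ range n, kb P B0 J = ∑ x ∈ P.bl 1 (2 ^ n), Kb B0 x := by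
    induction n with
    | zero =>
      have : P.bl 1 (2 ^ 0) = ∅ := by
        ext x
        simp only [mem_bl, notMem_empty, iff_false]
        omega
      rw [this]
      simp
    | succ n ih =>
      rw [sum_range_succ, ih]
      unfold kb
      rw [← sum_union]
      · congr 1
        ext x
        have h2 : 1 ≤ 2 ^ n := Nat.one_le_two_pow
        have h3 : 2 ^ n ≤ 2 ^ (n + 1) := Nat.pow_le_pow_right (by norm_num) (Nat.le_succ n)
        simp only [mem_union, mem_bl]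
        omega
      · rw [disjoint_left]
        intro x hx hx'
        rw [mem_bl] at hx hx'
        omega
  rw [h1]
  exact (Kb_summable hsum B0).sum_le_tsum _ fun x _ => Kb_nonneg B0 x

/-- the step bound -/
noncomputable def dJ (P : PSys) (β : ℝ) (B0 : Finset P.X) (J : ℕ) : ℝ :=
  (1 / 2 * (3 / 4) ^ J + 4 * β ^ 2 * P.C ^ 2 * ((J : ℝ) * (2 / 3) ^ J + (2 / 3) ^ J)) + kb P B0 J

theorem dJ_summable (hsum : ∀ r : ℝ, r < -1 → Summable fun x => (P.N x : ℝ) ^ r)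
    (β : ℝ) (B0 : Finset P.X) : Summable (dJ P β B0) := by
  refine Summable.add (Summable.add ?_ ?_) (kb_summable hsum B0)
  · exact (summable_geometric_of_lt_one (by norm_num) (by norm_num)).mul_left _
  · refine Summable.mul_left _ (Summable.add ?_ ?_)
    · have := summable_pow_mul_geometric_of_norm_lt_one (R := ℝ) 1 (r := 2 / 3) (by norm_num)
      simpa using this
    · exact summable_geometric_of_lt_one (by norm_num) (by norm_num)

theorem dJ_nonneg (β : ℝ) (B0 : Finset P.X) (J : ℕ) : 0 ≤ dJ P β B0 J := by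
  unfold dJ
  have h1 : 0 ≤ kb P B0 J := sum_nonneg fun x _ => Kb_nonneg B0 x
  positivity

theorem LG_step (hA : ∀ v, ‖A v‖ ≤ P.N v) (hδ : ∀ v, ‖δ v‖ ≤ 1) (B0 : Finset P.X)
    (hgood : ∀ v ∉ B0, 5 ≤ P.N v ∧ ‖A v‖ ≤ 2 * Real.sqrt (P.N v)) {β : ℝ} (hβ : 0 ≤ β)
    (hcb : ∀ v, ‖P.cf A v‖ ≤ β) (J : ℕ) (T : ℝ) :
    ∫ t in T..(T + 1), ‖P.LG A δ (J + 1) t - P.LG A δ J t‖ ≤ dJ P β B0 J := by
  have hFc := F_cont (P.cf A) (2 ^ J) (2 ^ (J + 1))
  have h2J : (0 : ℝ) < 2 ^ J := by positivity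
  have h1 : ∫ t in T..(T + 1), ‖P.F (P.cf A) (2 ^ J) (2 ^ (J + 1)) t‖ ^ 2 ≤
      8 * β ^ 2 * P.C ^ 2 * ((J : ℝ) + 1) / 2 ^ J := by
    refine (P.mean_F hβ hcb Nat.one_le_two_pow T).trans ?_
    have e : 2 ^ (J + 1) - 2 ^ J = 2 ^ J := by rw [pow_succ]; omega
    rw [e]
    push_cast
    have hH := H_pow_le J
    rw [div_le_div_iff₀ (by positivity) h2J]
    have h0 : 0 ≤ 8 * β ^ 2 * P.C ^ 2 := by positivity
    have h3 := mul_le_mul_of_nonneg_left hH (mul_nonneg h0 (by positivity : (0 : ℝ) ≤ 2 ^ J * 2 ^ J))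
    nlinarith
  have h2 := mean_of_sq hFc (a := (3 / 4) ^ J) (by positivity) T h1
  have h3 : (3 / 4 : ℝ) ^ J / 2 + 8 * β ^ 2 * P.C ^ 2 * ((J : ℝ) + 1) / 2 ^ J / (2 * (3 / 4) ^ J) =
      1 / 2 * (3 / 4) ^ J + 4 * β ^ 2 * P.C ^ 2 * ((J : ℝ) * (2 / 3) ^ J + (2 / 3) ^ J) := by
    have e1 : (2 / 3 : ℝ) ^ J = 1 / (2 ^ J * (3 / 4) ^ J) := by
      rw [eq_div_iff (by positivity), ← mul_pow, ← mul_pow]
      norm_num
    rw [e1]
    field_simp
    ring
  rw [h3] at h2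
  have h4 : ∫ t in T..(T + 1), ‖P.LG A δ (J + 1) t - P.LG A δ J t‖ ≤
      ∫ t in T..(T + 1), (‖P.F (P.cf A) (2 ^ J) (2 ^ (J + 1)) t‖ + kb P B0 J) := by
    refine intervalIntegral.integral_mono_on (by linarith)
      (((LG_cont hA hδ _).sub (LG_cont hA hδ _)).norm.intervalIntegrable _ _)
      ((hFc.norm.add continuous_const).intervalIntegrable _ _) fun t _ => ?_
    rw [LG_succ]
    refine (norm_add_le _ _).trans (add_le_add le_rfl ?_)
    refine (norm_sum_le _ _).trans (sum_le_sum fun x _ => ?_)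
    exact rem_le hA hδ B0 hgood x (re_edge t)
  rw [intervalIntegral.integral_add (hFc.norm.intervalIntegrable _ _)
    (continuous_const.intervalIntegrable _ _), intervalIntegral.integral_const] at h4
  simp only [add_sub_cancel_left, one_smul] at h4
  unfold dJ
  linarith

end PSys

end Pool.Agent.L5helper14.Edge
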