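import Pool.Agent.L5helper14.Edge.Dom

/-! The majorant principle over intervals. -/

set_option autoImplicit false

namespace Pool.Agent.L5helper14.Edge

open Complex MeasureTheory Finset Filter Topology ComplexConjugate

/-- the double mean of a nonnegative function controls its integral over the middle third -/
theorem middle_le {f : ℝ → ℝ} (hf : Continuous f) (h0 : ∀ t, 0 ≤ f t) {δ : ℝ} (hδ : 0 < δ) (T : ℝ) :
    ∫ t in (T - δ / 3)..(T + δ / 3), f t ≤
      3 / δ * ∫ r in (0 : ℝ)..δ, ∫ s in (0 : ℝ)..δ, f (T + s - r) := by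
  set Q := ∫ t in (T - δ / 3)..(T + δ / 3), f t with hQ
  have hin : ∀ r ∈ Set.Icc (δ / 3) (2 * δ / 3), Q ≤ ∫ s in (0 : ℝ)..δ, f (T + s - r) := by
    intro r hr
    have h1 : ∫ s in (0 : ℝ)..δ, f (T + s - r) = ∫ t in (T - r)..(T + δ - r), f t := by
      have h2 := intervalIntegral.integral_comp_add_right (a := 0) (b := δ) f (T - r)
      have h3 : ∀ s : ℝ, f (T + s - r) = f (s + (T - r)) := fun s => by congr 1; ring
      simp_rw [h3]
      rw [h2]
      congr 1 <;> ring
    rw [h1, hQ]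
    refine intervalIntegral.integral_mono_interval (by linarith [hr.1]) (by linarith)
      (by linarith [hr.2]) (Eventually.of_forall h0) (hf.intervalIntegrable _ _)
  have hcont : Continuous fun r : ℝ => ∫ s in (0 : ℝ)..δ, f (T + s - r) :=
    intervalIntegral.continuous_parametric_intervalIntegral_of_continuous' (by fun_prop) _ _
  have h1 : ∫ r in (δ / 3)..(2 * δ / 3), Q ≤
      ∫ r in (δ / 3)..(2 * δ / 3), ∫ s in (0 : ℝ)..δ, f (T + s - r) :=
    intervalIntegral.integral_mono_on (by linarith) (continuous_const.intervalIntegrable _ _)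
      (hcont.intervalIntegrable _ _) hin
  rw [intervalIntegral.integral_const, smul_eq_mul] at h1
  have h2 : ∫ r in (δ / 3)..(2 * δ / 3), ∫ s in (0 : ℝ)..δ, f (T + s - r) ≤
      ∫ r in (0 : ℝ)..δ, ∫ s in (0 : ℝ)..δ, f (T + s - r) := by
    refine intervalIntegral.integral_mono_interval (by linarith) (by linarith)
      (by linarith) (Eventually.of_forall fun r => ?_) (hcont.intervalIntegrable _ _)
    exact intervalIntegral.integral_nonneg hδ.le fun s _ => h0 _
  have h3 := h1.trans h2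
  have h4 : (2 * δ / 3 - δ / 3) * Q = δ / 3 * Q := by ring
  rw [h4] at h3
  calc Q = 3 / δ * (δ / 3 * Q) := by field_simp
    _ ≤ _ := mul_le_mul_of_nonneg_left h3 (by positivity)

theorem double_le {g : ℝ → ℝ} (hg : Continuous g) (h0 : ∀ t, 0 ≤ g t) {δ : ℝ} (hδ : 0 < δ) :
    ∫ r in (0 : ℝ)..δ, ∫ s in (0 : ℝ)..δ, g (0 + s - r) ≤ δ * ∫ u in (-δ)..δ, g u := by
  have hin : ∀ r ∈ Set.Icc (0 : ℝ) δ, ∫ s in (0 : ℝ)..δ, g (0 + s - r) ≤ ∫ u in (-δ)..δ, g u := by
    intro r hr
    have h1 : ∫ s in (0 : ℝ)..δ, g (0 + s - r) = ∫ t in (-r)..(δ - r), g t := by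
      have h2 := intervalIntegral.integral_comp_add_right (a := 0) (b := δ) g (-r)
      have h3 : ∀ s : ℝ, g (0 + s - r) = g (s + (-r)) := fun s => by congr 1; ring
      simp_rw [h3]
      rw [h2]
      ring_nf
    rw [h1]
    exact intervalIntegral.integral_mono_interval (by linarith [hr.2]) (by linarith [hr.2])
      (by linarith [hr.1]) (Eventually.of_forall h0) (hg.intervalIntegrable _ _)
  have hcont : Continuous fun r : ℝ => ∫ s in (0 : ℝ)..δ, g (0 + s - r) :=
    intervalIntegral.continuous_parametric_intervalIntegral_of_continuous' (by fun_prop) _ _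
  have h1 := intervalIntegral.integral_mono_on hδ.le (hcont.intervalIntegrable 0 δ)
    (continuous_const.intervalIntegrable (μ := volume) _ _) hin
  rw [intervalIntegral.integral_const, smul_eq_mul, sub_zero] at h1
  exact h1

theorem dom_basic {ι : Type} (S : Finset ι) (a : ι → ℂ) (b θ : ι → ℝ)
    (hab : ∀ i ∈ S, ‖a i‖ ≤ b i) :
    Dom (fun t => ∑ i ∈ S, a i * cexp (θ i * t * I)) (fun t => ∑ i ∈ S, (b i : ℂ) * cexp (θ i * t * I)) :=
  ⟨ι, S, a, b, θ, hab, fun _ => rfl, fun _ => rfl⟩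

/-- **the majorant principle** -/
theorem maj {ι : Type} (S : Finset ι) (a : ι → ℂ) (b θ : ι → ℝ)
    (hab : ∀ i ∈ S, ‖a i‖ ≤ b i) (p : ℝ) {δ : ℝ} (hδ : 0 < δ) (T : ℝ) :
    ∫ t in (T - δ / 3)..(T + δ / 3), Real.exp (p * (∑ i ∈ S, a i * cexp (θ i * t * I)).re) ≤
      3 * ∫ u in (-δ)..δ, Real.exp (|p| * ∑ i ∈ S, b i * Real.cos (θ i * u)) := by
  have h1 := dom_basic S (fun i => (p / 2 : ℝ) * a i) (fun i => |p| / 2 * b i) θ (by
    intro i hi
    rw [norm_mul, Complex.norm_real, Real.norm_eq_abs, abs_div, abs_of_pos (by norm_num : (0:ℝ) < 2)]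
    exact mul_le_mul_of_nonneg_left (hab i hi) (by positivity))
  have h2 := dom_basic S (fun i => (p / 2 : ℝ) * conj (a i)) (fun i => |p| / 2 * b i) (fun i => -θ i) (by
    intro i hi
    rw [norm_mul, Complex.norm_real, Real.norm_eq_abs, abs_div, abs_of_pos (by norm_num : (0:ℝ) < 2),
      RCLike.norm_conj]
    exact mul_le_mul_of_nonneg_left (hab i hi) (by positivity))
  have h3 := h1.add h2
  have e1 : ∀ t : ℝ, (∑ i ∈ S, ((p / 2 : ℝ) * a i) * cexp (θ i * t * I)) +
      (∑ i ∈ S, ((p / 2 : ℝ) * conj (a i)) * cexp (((-θ i : ℝ) : ℂ) * t * I)) =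
      ((p * (∑ i ∈ S, a i * cexp (θ i * t * I)).re : ℝ) : ℂ) := by
    intro t
    have h4 : (∑ i ∈ S, ((p / 2 : ℝ) * a i) * cexp (θ i * t * I)) =
        (p / 2 : ℝ) * ∑ i ∈ S, a i * cexp (θ i * t * I) := by
      rw [mul_sum]
      exact sum_congr rfl fun i _ => by ring
    have h5 : (∑ i ∈ S, ((p / 2 : ℝ) * conj (a i)) * cexp (((-θ i : ℝ) : ℂ) * t * I)) =
        (p / 2 : ℝ) * conj (∑ i ∈ S, a i * cexp (θ i * t * I)) := by
      rw [map_sum, mul_sum]
      refine sum_congr rfl fun i _ => ?_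
      rw [map_mul, ← Complex.exp_conj]
      have h6 : conj (θ i * t * I : ℂ) = ((-θ i : ℝ) : ℂ) * t * I := by
        simp
      rw [h6]
      ring
    rw [h4, h5, ← mul_add, Complex.add_conj]
    push_cast
    ring
  have e2 : ∀ t : ℝ, (∑ i ∈ S, ((|p| / 2 * b i : ℝ) : ℂ) * cexp (θ i * t * I)) +
      (∑ i ∈ S, ((|p| / 2 * b i : ℝ) : ℂ) * cexp (((-θ i : ℝ) : ℂ) * t * I)) =
      ((|p| * ∑ i ∈ S, b i * Real.cos (θ i * t) : ℝ) : ℂ) := by
    intro t
    rw [← sum_add_distrib]
    push_cast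
    rw [mul_sum]
    refine sum_congr rfl fun i _ => ?_
    have h6 := Complex.two_cos (θ i * t : ℂ)
    have h7 : (-θ i : ℂ) * t * I = -(θ i * t : ℂ) * I := by ring
    rw [h7]
    linear_combination (-((|p| : ℝ) : ℂ) / 2 * (b i : ℂ)) * h6
  have h8 := h3.exp_le δ T
  simp_rw [e1, e2] at h8
  have hA : Continuous fun t : ℝ => Real.exp (p * (∑ i ∈ S, a i * cexp (θ i * t * I)).re) := by
    fun_prop
  have hB : Continuous fun u : ℝ => Real.exp (|p| * ∑ i ∈ S, b i * Real.cos (θ i * u)) := by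
    fun_prop
  have e3 : DD δ T (fun t => cexp ((p * (∑ i ∈ S, a i * cexp (θ i * t * I)).re : ℝ) : ℂ)) =
      ((∫ r in (0 : ℝ)..δ, ∫ s in (0 : ℝ)..δ,
        (fun t : ℝ => Real.exp (p * (∑ i ∈ S, a i * cexp (θ i * t * I)).re)) (T + s - r) : ℝ) : ℂ) := by
    unfold DD
    rw [← intervalIntegral.integral_ofReal]
    refine intervalIntegral.integral_congr fun r _ => ?_
    rw [← intervalIntegral.integral_ofReal]
    exact intervalIntegral.integral_congr fun s _ => (Complex.ofReal_exp _).symm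
  have e4 : DD δ 0 (fun t => cexp ((|p| * ∑ i ∈ S, b i * Real.cos (θ i * t) : ℝ) : ℂ)) =
      ((∫ r in (0 : ℝ)..δ, ∫ s in (0 : ℝ)..δ,
        (fun u : ℝ => Real.exp (|p| * ∑ i ∈ S, b i * Real.cos (θ i * u))) (0 + s - r) : ℝ) : ℂ) := by
    unfold DD
    rw [← intervalIntegral.integral_ofReal]
    refine intervalIntegral.integral_congr fun r _ => ?_
    rw [← intervalIntegral.integral_ofReal]
    exact intervalIntegral.integral_congr fun s _ => (Complex.ofReal_exp _).symm
  rw [e3, e4, Complex.ofReal_re, Complex.norm_real] at h8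
  have h9 := (le_abs_self _).trans h8
  have h10 := middle_le hA (fun t => (Real.exp_pos _).le) hδ T
  have h11 := double_le hB (fun t => (Real.exp_pos _).le) hδ
  refine h10.trans ?_
  calc 3 / δ * ∫ r in (0 : ℝ)..δ, ∫ s in (0 : ℝ)..δ,
        (fun t : ℝ => Real.exp (p * (∑ i ∈ S, a i * cexp (θ i * t * I)).re)) (T + s - r)
      ≤ 3 / δ * (δ * ∫ u in (-δ)..δ, Real.exp (|p| * ∑ i ∈ S, b i * Real.cos (θ i * u))) :=
        mul_le_mul_of_nonneg_left (h9.trans h11) (by positivity)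
    _ = _ := by field_simp

/-- the integral of `|u|^(-a)` -/
theorem integral_sing {G : ℝ → ℝ} (hG : Continuous G) (heven : ∀ u, G (-u) = G u) {C a δ : ℝ}
    (hδ : 0 < δ) (ha : a < 1) (hC : ∀ u, 0 < u → u ≤ δ → G u ≤ C * u ^ (-a)) :
    ∫ u in (-δ)..δ, G u ≤ 2 * (C * (δ ^ (1 - a) / (1 - a))) := by
  have h1 : ∫ u in (0 : ℝ)..δ, G u ≤ C * (δ ^ (1 - a) / (1 - a)) := by
    have h2 : ∫ u in (0 : ℝ)..δ, G u ≤ ∫ u in (0 : ℝ)..δ, C * u ^ (-a) := by
      refine intervalIntegral.integral_mono_on_of_le_Ioo hδ.le (hG.intervalIntegrable _ _) ?_ ?_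
      · exact (intervalIntegral.intervalIntegrable_rpow' (by linarith)).const_mul _
      · intro u hu
        exact hC u hu.1 hu.2.le
    rw [intervalIntegral.integral_const_mul, integral_rpow (Or.inl (by linarith))] at h2
    rw [Real.zero_rpow (by linarith)] at h2
    have e : -a + 1 = 1 - a := by ring
    rw [e, sub_zero] at h2
    exact h2
  have h3 : ∫ u in (-δ)..0, G u = ∫ u in (0 : ℝ)..δ, G u := by
    have := intervalIntegral.integral_comp_neg (a := 0) (b := δ) G
    rw [neg_zero] at this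
    rw [← this]
    exact intervalIntegral.integral_congr fun u _ => heven u
  rw [← intervalIntegral.integral_add_adjacent_intervals (hG.intervalIntegrable (-δ) 0)
    (hG.intervalIntegrable 0 δ), h3]
  linarith

end Pool.Agent.L5helper14.Edge
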