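import Mathlib

/-! Mean values over long intervals, uniformly in their position. -/

set_option autoImplicit false

namespace Pool.Agent.L5helper14.Edge

open Complex MeasureTheory Filter Topology

/-- `m` is the mean value of `f` over long intervals, uniformly in the position of the interval -/
def UM (f : ℝ → ℂ) (m : ℂ) : Prop :=
  ∀ ε : ℝ, 0 < ε → ∃ H0 : ℝ, 0 < H0 ∧ ∀ H : ℝ, H0 ≤ H → ∀ T : ℝ,
    ‖(1 / H : ℂ) * (∫ t in T..(T + H), f t) - m‖ ≤ ε

/-- local integrability -/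
def LI (f : ℝ → ℂ) : Prop := ∀ a b : ℝ, IntervalIntegrable f volume a b

theorem LI.add {f g : ℝ → ℂ} (hf : LI f) (hg : LI g) : LI (fun t => f t + g t) :=
  fun a b => (hf a b).add (hg a b)

theorem LI.sub {f g : ℝ → ℂ} (hf : LI f) (hg : LI g) : LI (fun t => f t - g t) :=
  fun a b => (hf a b).sub (hg a b)

theorem LI.of_cont {f : ℝ → ℂ} (hf : Continuous f) : LI f := fun a b => hf.intervalIntegrable a b

theorem winN {f : ℝ → ℝ} (hf : ∀ a b, IntervalIntegrable f volume a b) {C : ℝ}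
    (hC : ∀ T, ∫ t in T..(T + 1), f t ≤ C) : ∀ (n : ℕ) (T : ℝ), ∫ t in T..(T + n), f t ≤ n * C := by
  intro n
  induction n with
  | zero =>
    intro T
    simp
  | succ n ih =>
    intro T
    rw [← intervalIntegral.integral_add_adjacent_intervals (hf T (T + n)) (hf (T + n) _)]
    have h2 := hC (T + n)
    have h3 : T + (n : ℝ) + 1 = T + ((n + 1 : ℕ) : ℝ) := by
      push_cast
      ring
    rw [h3] at h2
    have := ih T
    push_cast at h2 ⊢
    linarith

theorem win_le {f g : ℝ → ℂ} (hf : LI f) (hg : LI g) {ε : ℝ}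
    (h : ∀ T, ∫ t in T..(T + 1), ‖f t - g t‖ ≤ ε) {H : ℝ} (hH : 1 ≤ H) (T : ℝ) :
    ‖(1 / H : ℂ) * (∫ t in T..(T + H), f t) - (1 / H : ℂ) * (∫ t in T..(T + H), g t)‖ ≤ 2 * ε := by
  have hH0 : 0 < H := by linarith
  have hfg : ∀ a b, IntervalIntegrable (fun t => ‖f t - g t‖) volume a b :=
    fun a b => ((hf.sub hg) a b).norm
  have hε : 0 ≤ ε := le_trans (intervalIntegral.integral_nonneg (by linarith)
    fun t _ => norm_nonneg _) (h 0)
  rw [← mul_sub, ← intervalIntegral.integral_sub (hf _ _) (hg _ _), norm_mul]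
  have h1 : ‖(1 / H : ℂ)‖ = 1 / H := by
    rw [norm_div, norm_one, Complex.norm_real, Real.norm_of_nonneg hH0.le]
  rw [h1]
  have h2 : ‖∫ t in T..(T + H), (f t - g t)‖ ≤ ∫ t in T..(T + H), ‖f t - g t‖ :=
    intervalIntegral.norm_integral_le_integral_norm (by linarith)
  have h3 : ∫ t in T..(T + H), ‖f t - g t‖ ≤ ∫ t in T..(T + (⌈H⌉₊ : ℝ)), ‖f t - g t‖ :=
    intervalIntegral.integral_mono_interval le_rfl (by linarith)
      (by linarith [Nat.le_ceil H]) (Eventually.of_forall fun _ => norm_nonneg _) (hfg _ _)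
  have h4 := winN hfg h ⌈H⌉₊ T
  have h5 : (⌈H⌉₊ : ℝ) ≤ 2 * H := by
    have := (Nat.ceil_lt_add_one hH0.le).le
    linarith
  have h6 : ‖∫ t in T..(T + H), (f t - g t)‖ ≤ (2 * H) * ε :=
    h2.trans (h3.trans (h4.trans (mul_le_mul_of_nonneg_right h5 hε)))
  calc 1 / H * ‖∫ t in T..(T + H), (f t - g t)‖ ≤ 1 / H * ((2 * H) * ε) :=
        mul_le_mul_of_nonneg_left h6 (by positivity)
    _ = 2 * ε := by field_simp

theorem UM.close {f g : ℝ → ℂ} {m m' : ℂ} (hf : LI f) (hg : LI g) (hm : UM f m) (hm' : UM g m')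
    {ε : ℝ} (h : ∀ T, ∫ t in T..(T + 1), ‖f t - g t‖ ≤ ε) : ‖m - m'‖ ≤ 2 * ε := by
  refine le_of_forall_pos_le_add fun η hη => ?_
  obtain ⟨H1, hH1, h1⟩ := hm (η / 2) (by positivity)
  obtain ⟨H2, hH2, h2⟩ := hm' (η / 2) (by positivity)
  set H := max 1 (max H1 H2) with hH
  have h3 := h1 H (le_trans (le_max_left _ _) (le_max_right _ _)) 0
  have h4 := h2 H (le_trans (le_max_right _ _) (le_max_right _ _)) 0
  have h5 := win_le hf hg h (le_max_left 1 (max H1 H2)) 0
  rw [← hH] at h5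
  have h6 : m - m' = -((1 / H : ℂ) * (∫ t in (0 : ℝ)..(0 + H), f t) - m) +
      ((1 / H : ℂ) * (∫ t in (0 : ℝ)..(0 + H), g t) - m') +
      ((1 / H : ℂ) * (∫ t in (0 : ℝ)..(0 + H), f t) - (1 / H : ℂ) * (∫ t in (0 : ℝ)..(0 + H), g t)) := by
    ring
  rw [h6]
  refine (norm_add₃_le).trans ?_
  rw [norm_neg]
  linarith

/-- functions that can be approximated by functions with a mean value have one -/
theorem UM.approx {f : ℝ → ℂ} (hf : LI f)
    (h : ∀ ε : ℝ, 0 < ε → ∃ (g : ℝ → ℂ) (m : ℂ), LI g ∧ UM g m ∧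
      ∀ T, ∫ t in T..(T + 1), ‖f t - g t‖ ≤ ε) : ∃ m, UM f m := by
  choose! g m hg hm hfg using h
  have hpos : ∀ n : ℕ, (0 : ℝ) < 1 / ((n : ℝ) + 1) := fun n => by positivity
  have hC : CauchySeq fun n : ℕ => m (1 / ((n : ℝ) + 1)) := by
    rw [Metric.cauchySeq_iff']
    intro ε hε
    obtain ⟨N, hN⟩ := exists_nat_one_div_lt (show (0 : ℝ) < ε / 4 by positivity)
    refine ⟨N, fun n hn => ?_⟩
    rw [dist_eq_norm]
    have h1 : ∀ T, ∫ t in T..(T + 1), ‖g (1 / ((n : ℝ) + 1)) t - g (1 / ((N : ℝ) + 1)) t‖ ≤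
        1 / ((n : ℝ) + 1) + 1 / ((N : ℝ) + 1) := by
      intro T
      have e1 := hfg _ (hpos n) T
      have e2 := hfg _ (hpos N) T
      have i1 := ((hf.sub (hg _ (hpos n))) T (T + 1)).norm
      have i2 := ((hf.sub (hg _ (hpos N))) T (T + 1)).norm
      have i3 := (((hg _ (hpos n)).sub (hg _ (hpos N))) T (T + 1)).norm
      have h2 : ∫ t in T..(T + 1), ‖g (1 / ((n : ℝ) + 1)) t - g (1 / ((N : ℝ) + 1)) t‖ ≤
          ∫ t in T..(T + 1), (‖f t - g (1 / ((n : ℝ) + 1)) t‖ + ‖f t - g (1 / ((N : ℝ) + 1)) t‖) := by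
        refine intervalIntegral.integral_mono_on (by linarith) i3 (i1.add i2) fun t _ => ?_
        have h3 : g (1 / ((n : ℝ) + 1)) t - g (1 / ((N : ℝ) + 1)) t =
          -(f t - g (1 / ((n : ℝ) + 1)) t) + (f t - g (1 / ((N : ℝ) + 1)) t) := by ring
        rw [h3]
        refine (norm_add_le _ _).trans ?_
        rw [norm_neg]
      rw [intervalIntegral.integral_add i1 i2] at h2
      linarith
    have h2 := UM.close (hg _ (hpos n)) (hg _ (hpos N)) (hm _ (hpos n)) (hm _ (hpos N)) h1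
    have h3 : 1 / ((n : ℝ) + 1) ≤ 1 / ((N : ℝ) + 1) := by
      apply one_div_le_one_div_of_le (by positivity)
      have : (N : ℝ) ≤ n := by exact_mod_cast hn
      linarith
    linarith
  obtain ⟨m0, hm0⟩ := cauchySeq_tendsto_of_complete hC
  refine ⟨m0, fun ε hε => ?_⟩
  obtain ⟨N1, hN1⟩ := exists_nat_one_div_lt (show (0 : ℝ) < ε / 6 by positivity)
  obtain ⟨N2, hN2⟩ := Metric.tendsto_atTop.1 hm0 (ε / 3) (by positivity)
  set n := max N1 N2 with hn
  have h3 : 1 / ((n : ℝ) + 1) ≤ 1 / ((N1 : ℝ) + 1) := by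
    apply one_div_le_one_div_of_le (by positivity)
    have : (N1 : ℝ) ≤ n := by exact_mod_cast le_max_left N1 N2
    linarith
  obtain ⟨H0, hH0, hH⟩ := hm _ (hpos n) (ε / 3) (by positivity)
  refine ⟨max 1 H0, by positivity, fun H hH' T => ?_⟩
  have h4 := win_le hf (hg _ (hpos n)) (hfg _ (hpos n)) (le_trans (le_max_left _ _) hH') T
  have h5 := hH H (le_trans (le_max_right _ _) hH') T
  have h6 := hN2 n (le_max_right _ _)
  rw [dist_eq_norm] at h6
  have h7 : (1 / H : ℂ) * (∫ t in T..(T + H), f t) - m0 =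
      ((1 / H : ℂ) * (∫ t in T..(T + H), f t) -
        (1 / H : ℂ) * (∫ t in T..(T + H), g (1 / ((n : ℝ) + 1)) t)) +
      ((1 / H : ℂ) * (∫ t in T..(T + H), g (1 / ((n : ℝ) + 1)) t) - m (1 / ((n : ℝ) + 1))) +
      (m (1 / ((n : ℝ) + 1)) - m0) := by ring
  rw [h7]
  refine (norm_add₃_le).trans ?_
  linarith

theorem UM.add {f g : ℝ → ℂ} {m m' : ℂ} (hf : LI f) (hg : LI g) (hm : UM f m) (hm' : UM g m') :
    UM (fun t => f t + g t) (m + m') := by
  intro ε hε
  obtain ⟨H1, hH1, h1⟩ := hm (ε / 2) (by positivity)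
  obtain ⟨H2, hH2, h2⟩ := hm' (ε / 2) (by positivity)
  refine ⟨max H1 H2, lt_of_lt_of_le hH1 (le_max_left _ _), fun H hH T => ?_⟩
  have h3 := h1 H (le_trans (le_max_left _ _) hH) T
  have h4 := h2 H (le_trans (le_max_right _ _) hH) T
  rw [intervalIntegral.integral_add (hf _ _) (hg _ _)]
  have h5 : (1 / H : ℂ) * ((∫ t in T..(T + H), f t) + ∫ t in T..(T + H), g t) - (m + m') =
    ((1 / H : ℂ) * (∫ t in T..(T + H), f t) - m) + ((1 / H : ℂ) * (∫ t in T..(T + H), g t) - m') := by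
    ring
  rw [h5]
  refine (norm_add_le _ _).trans ?_
  linarith

theorem UM.const_mul {f : ℝ → ℂ} {m : ℂ} (hm : UM f m) (c : ℂ) :
    UM (fun t => c * f t) (c * m) := by
  intro ε hε
  obtain ⟨H1, hH1, h1⟩ := hm (ε / (‖c‖ + 1)) (by positivity)
  refine ⟨H1, hH1, fun H hH T => ?_⟩
  have h3 := h1 H hH T
  rw [intervalIntegral.integral_const_mul]
  have h5 : (1 / H : ℂ) * (c * ∫ t in T..(T + H), f t) - c * m =
    c * ((1 / H : ℂ) * (∫ t in T..(T + H), f t) - m) := by ring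
  rw [h5, norm_mul]
  calc ‖c‖ * ‖(1 / H : ℂ) * (∫ t in T..(T + H), f t) - m‖ ≤ (‖c‖ + 1) * (ε / (‖c‖ + 1)) :=
        mul_le_mul (by linarith) h3 (norm_nonneg _) (by positivity)
    _ = ε := by field_simp

theorem UM.const (c : ℂ) : UM (fun _ => c) c := by
  intro ε hε
  refine ⟨1, one_pos, fun H hH T => ?_⟩
  have hH0 : (H : ℂ) ≠ 0 := by
    have : H ≠ 0 := by linarith
    exact_mod_cast this
  rw [intervalIntegral.integral_const]
  have : (1 / H : ℂ) * ((T + H - T) • c) - c = 0 := by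
    rw [add_sub_cancel_left, Complex.real_smul]
    field_simp
    ring
  rw [this, norm_zero]
  exact hε.le

theorem UM.exp {ω : ℝ} (hω : ω ≠ 0) : UM (fun t => cexp (ω * t * I)) 0 := by
  intro ε hε
  have hω' : 0 < |ω| := abs_pos.2 hω
  refine ⟨2 / (|ω| * ε), by positivity, fun H hH T => ?_⟩
  have hH0 : 0 < H := lt_of_lt_of_le (by positivity) hH
  have hc : ((ω : ℂ) * I) ≠ 0 := by simp [hω]
  have h1 : (fun t : ℝ => cexp (ω * t * I)) = fun t : ℝ => cexp ((ω * I) * t) := by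
    funext t
    congr 1
    ring
  rw [h1, integral_exp_mul_complex hc, sub_zero, norm_mul, norm_div, norm_div]
  have h2 : ‖((ω : ℂ) * I)‖ = |ω| := by
    rw [norm_mul, Complex.norm_I, mul_one, Complex.norm_real, Real.norm_eq_abs]
  have h3 : ∀ t : ℝ, ‖cexp ((ω * I) * t)‖ = 1 := by
    intro t
    have := Complex.norm_exp_ofReal_mul_I (ω * t)
    have e : (ω * I) * t = ((ω * t : ℝ) : ℂ) * I := by push_cast; ring
    rwa [e]
  have h4 : ‖cexp ((ω * I) * ((T + H : ℝ) : ℂ)) - cexp ((ω * I) * T)‖ ≤ 2 := by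
    refine (norm_sub_le _ _).trans ?_
    rw [h3, h3]
    norm_num
  rw [h2, norm_one, Complex.norm_real, Real.norm_of_nonneg hH0.le]
  calc 1 / H * (‖cexp ((ω * I) * ((T + H : ℝ) : ℂ)) - cexp ((ω * I) * T)‖ / |ω|) ≤
        1 / H * (2 / |ω|) := by
        refine mul_le_mul_of_nonneg_left (div_le_div_of_nonneg_right h4 hω'.le) (by positivity)
    _ ≤ ε := by
        rw [div_mul_div_comm, one_mul, div_le_iff₀ (by positivity)]
        rw [div_le_iff₀ (by positivity)] at hH
        nlinarith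

/-- a continuous function on a torus has a mean value along a linear flow -/
theorem UM.torus {ι : Type} [Fintype ι] (h : C(UnitAddTorus ι, ℂ)) (ω : ι → ℝ) :
    ∃ m, UM (fun t : ℝ => h (fun i => ((ω i * t : ℝ) : UnitAddCircle))) m := by
  have hflow : Continuous fun t : ℝ => (fun i => ((ω i * t : ℝ) : UnitAddCircle) : UnitAddTorus ι) := by
    refine continuous_pi fun i => ?_
    exact (AddCircle.continuous_mk' 1).comp (by fun_prop)
  have hcont : ∀ g : C(UnitAddTorus ι, ℂ),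
      Continuous fun t : ℝ => g (fun i => ((ω i * t : ℝ) : UnitAddCircle)) := fun g =>
    g.continuous.comp hflow
  have hspan : ∀ g ∈ Submodule.span ℂ (Set.range (UnitAddTorus.mFourier (d := ι))),
      ∃ m, UM (fun t : ℝ => g (fun i => ((ω i * t : ℝ) : UnitAddCircle))) m := by
    intro g hg
    induction hg using Submodule.span_induction with
    | mem g hg =>
      obtain ⟨n, rfl⟩ := hg
      have h1 : ∀ t : ℝ, UnitAddTorus.mFourier n (fun i => ((ω i * t : ℝ) : UnitAddCircle)) =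
          cexp (((2 * Real.pi * ∑ i, n i * ω i : ℝ) : ℂ) * t * I) := by
        intro t
        have h2 : UnitAddTorus.mFourier n (fun i => ((ω i * t : ℝ) : UnitAddCircle)) =
            ∏ i, fourier (n i) ((ω i * t : ℝ) : UnitAddCircle) := rfl
        rw [h2]
        simp_rw [fourier_coe_apply]
        rw [← Complex.exp_sum]
        congr 1
        push_cast
        rw [Finset.mul_sum, Finset.sum_mul, Finset.sum_mul]
        refine Finset.sum_congr rfl fun i _ => ?_
        ring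
      simp_rw [h1]
      by_cases h0 : (2 * Real.pi * ∑ i, n i * ω i : ℝ) = 0
      · rw [h0]
        refine ⟨1, ?_⟩
        have := UM.const 1
        simpa using this
      · exact ⟨0, UM.exp h0⟩
    | zero => exact ⟨0, by simpa using UM.const 0⟩
    | add f g _ _ hf hg =>
      obtain ⟨m, hm⟩ := hf
      obtain ⟨m', hm'⟩ := hg
      exact ⟨m + m', UM.add (LI.of_cont (hcont f)) (LI.of_cont (hcont g)) hm hm'⟩
    | smul c f _ hf =>
      obtain ⟨m, hm⟩ := hf
      exact ⟨c * m, hm.const_mul c⟩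
  refine UM.approx (LI.of_cont (hcont h)) fun ε hε => ?_
  have h1 : h ∈ (Submodule.span ℂ (Set.range (UnitAddTorus.mFourier (d := ι)))).topologicalClosure := by
    rw [UnitAddTorus.span_mFourier_closure_eq_top]
    trivial
  rw [← SetLike.mem_coe, Submodule.topologicalClosure_coe, Metric.mem_closure_iff] at h1
  obtain ⟨g, hg, hgd⟩ := h1 ε hε
  obtain ⟨m, hm⟩ := hspan g hg
  refine ⟨_, m, (LI.of_cont (hcont g)), hm, fun T => ?_⟩
  have h2 : ∫ t in T..(T + 1), ‖h (fun i => ((ω i * t : ℝ) : UnitAddCircle)) -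
      g (fun i => ((ω i * t : ℝ) : UnitAddCircle))‖ ≤ ∫ t in T..(T + 1), ε := by
    refine intervalIntegral.integral_mono_on (by linarith)
      (((hcont h).sub (hcont g)).norm.intervalIntegrable _ _)
      (continuous_const.intervalIntegrable _ _) fun t _ => ?_
    rw [dist_eq_norm] at hgd
    exact ((h - g).norm_coe_le_norm _).trans hgd.le
  simpa using h2

end Pool.Agent.L5helper14.Edge
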