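import Pool.Agent.L5helper14.Edge.Euler
import Pool.Agent.H332R2.PIT.Bound
import Pool.Agent.H341R2.NF.TwistEC

/-! The prime ideals of a number field as a system of norms with a Chebyshev bound. -/

set_option autoImplicit false

namespace Pool.Agent.L5helper14.Edge

open NumberField IsDedekindDomain Pool.Agent.H921R2.TatePole Finset H332.PIT Chebyshev

variable (K : Type) [Field K] [NumberField K]

theorem sum_log_le (M : ℕ) (S : Finset (HeightOneSpectrum (𝓞 K))) (hS : ∀ v ∈ S, nm v ≤ M) :
    ∑ v ∈ S, Real.log (nm v) ≤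
      (Module.finrank ℚ K : ℝ) ^ 2 * ((Real.log 4 + 4) * M) := by
  classical
  have h1 : ∑ v ∈ S, Real.log (nm v) ≤ ∑ v ∈ prLE K M, Real.log (nm v) := by
    refine sum_le_sum_of_subset_of_nonneg (fun v hv => ?_) fun v _ _ => log_nm_nonneg v
    rw [mem_prLE]
    exact hS v hv
  have h2 : ∑ v ∈ prLE K M, Real.log (nm v) ≤ ∑ n ∈ Icc 1 M, LamK K n := by
    have h3 : ∀ n ∈ Icc 1 M, LamK K n =
        ∑ v ∈ prLE K M, ∑ k ∈ Icc 1 M, if nm v ^ k = n then Real.log (nm v) else 0 := by
      intro n hn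
      exact LamK_eq (mem_Icc.1 hn).2
    rw [sum_congr rfl h3, sum_comm]
    refine sum_le_sum fun v hv => ?_
    rw [mem_prLE] at hv
    have h2v := two_le_nm v
    have h4 : Real.log (nm v) = ∑ k ∈ Icc 1 M, if nm v ^ k = nm v then Real.log (nm v) else 0 := by
      rw [sum_eq_single_of_mem 1 (mem_Icc.2 ⟨le_rfl, by omega⟩)]
      · simp
      · intro k _ hk
        rw [if_neg]
        intro h
        have h5 : nm v ^ k = nm v ^ 1 := by rw [h, pow_one]
        exact hk (Nat.pow_right_injective h2v h5)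
    refine h4.le.trans ?_
    have h6 := single_le_sum (f := fun n => ∑ k ∈ Icc 1 M, if nm v ^ k = n then
      Real.log (nm v) else 0) (s := Icc 1 M) (fun n _ => sum_nonneg fun k _ => by
        split_ifs
        · exact log_nm_nonneg v
        · exact le_rfl) (mem_Icc.2 ⟨by omega, hv⟩ : nm v ∈ Icc 1 M)
    exact h6
  have h7 : ∑ n ∈ Icc 1 M, LamK K n ≤ (Module.finrank ℚ K : ℝ) ^ 2 * psi M := by
    rw [psi_eq_sum_Icc, mul_sum, Nat.floor_natCast]
    have h8 : Icc 1 M ⊆ Icc 0 M := Icc_subset_Icc (Nat.zero_le _) le_rfl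
    refine (sum_le_sum fun n _ => LamK_le n).trans ?_
    refine sum_le_sum_of_subset_of_nonneg h8 fun n _ _ => ?_
    exact mul_nonneg (by positivity) ArithmeticFunction.vonMangoldt_nonneg
  have h9 := psi_le_const_mul_self (x := (M : ℝ)) (Nat.cast_nonneg _)
  exact (h1.trans (h2.trans h7)).trans (mul_le_mul_of_nonneg_left h9 (by positivity))

/-- the prime ideals of `K` -/
noncomputable def psys : PSys where
  X := HeightOneSpectrum (𝓞 K)
  N := nm
  two_le := two_le_nm
  fin := primesLE_finite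
  C := (Module.finrank ℚ K : ℝ) ^ 2 * ((Real.log 4 + 4) * Real.exp 1)
  C_nonneg := by
    have : 0 ≤ Real.log 4 := Real.log_nonneg (by norm_num)
    positivity
  blk := by
    intro k hk S hS
    have hk' : (0 : ℝ) < k := by exact_mod_cast hk
    have hpos : ∀ v : HeightOneSpectrum (𝓞 K), (0 : ℝ) < nm v := fun v => by
      exact_mod_cast (by have := two_le_nm v; omega : 0 < nm v)
    have hlog : ∀ v ∈ S, (k : ℝ) ≤ Real.log (nm v) ∧ Real.log (nm v) < k + 1 := by
      intro v hv
      have h1 := hS v hv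
      have h2 := Nat.floor_le (log_nm_nonneg v)
      have h3 := Nat.lt_floor_add_one (Real.log (nm v))
      rw [h1] at h2 h3
      exact ⟨h2, h3⟩
    have h1 : ∀ v ∈ S, (1 / nm v : ℝ) ≤ (1 / (k * Real.exp k)) * Real.log (nm v) := by
      intro v hv
      obtain ⟨h2, h3⟩ := hlog v hv
      have h4 : Real.exp k ≤ nm v := by
        rw [← Real.le_log_iff_exp_le (hpos v)]
        exact h2
      have he := Real.exp_pos (k : ℝ)
      rw [div_mul_eq_mul_div, one_mul, div_le_div_iff₀ (hpos v) (by positivity)]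
      nlinarith [mul_le_mul h2 h4 he.le (hk'.le.trans h2)]
    refine (sum_le_sum h1).trans ?_
    rw [← mul_sum]
    have h5 := sum_log_le K ⌊Real.exp (k + 1)⌋₊ S (by
      intro v hv
      apply Nat.le_floor
      rw [← Real.log_le_iff_le_exp (hpos v)]
      exact (hlog v hv).2.le)
    have he := Real.exp_pos (k : ℝ)
    have h6 : (⌊Real.exp (k + 1 : ℝ)⌋₊ : ℝ) ≤ Real.exp k * Real.exp 1 := by
      rw [← Real.exp_add]
      exact Nat.floor_le (Real.exp_pos _).le
    have h4 : 0 ≤ Real.log 4 := Real.log_nonneg (by norm_num)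
    calc 1 / (k * Real.exp k) * ∑ v ∈ S, Real.log (nm v)
        ≤ 1 / (k * Real.exp k) * ((Module.finrank ℚ K : ℝ) ^ 2 *
            ((Real.log 4 + 4) * ⌊Real.exp (k + 1 : ℝ)⌋₊)) :=
          mul_le_mul_of_nonneg_left h5 (by positivity)
      _ ≤ 1 / (k * Real.exp k) * ((Module.finrank ℚ K : ℝ) ^ 2 *
            ((Real.log 4 + 4) * (Real.exp k * Real.exp 1))) := by
          refine mul_le_mul_of_nonneg_left (mul_le_mul_of_nonneg_left
            (mul_le_mul_of_nonneg_left h6 (by positivity)) (by positivity)) (by positivity)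
      _ = _ := by
          field_simp

theorem psys_summable (r : ℝ) (hr : r < -1) :
    Summable fun x : (psys K).X => ((psys K).N x : ℝ) ^ r := by
  have := nm_summable (K := K) (x := -r) (by linarith)
  rw [neg_neg] at this
  exact this

end Pool.Agent.L5helper14.Edge
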