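import Mathlib

/-! Mean squares of exponential sums over an interval of length one, from absolute values only. -/

set_option autoImplicit false

namespace Pool.Agent.L5helper14.Edge

open Complex MeasureTheory Finset ComplexConjugate
open scoped Interval

/-- the oscillating integral over an interval of length one -/
noncomputable def osc (T l : ℝ) : ℂ := ∫ t in T..(T + 1), cexp (-(I * l * t))

theorem norm_cexp_neg_I (l t : ℝ) : ‖cexp (-(I * l * t))‖ = 1 := by
  rw [Complex.norm_exp]
  have : (-(I * l * t)).re = 0 := by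
    simp [Complex.mul_re, Complex.mul_im]
  rw [this, Real.exp_zero]

theorem osc_le_one (T l : ℝ) : ‖osc T l‖ ≤ 1 := by
  unfold osc
  have h := intervalIntegral.norm_integral_le_of_norm_le_const (a := T) (b := T + 1) (C := 1)
    (f := fun t : ℝ => cexp (-(I * l * t))) (fun t _ => (norm_cexp_neg_I l t).le)
  simpa using h

theorem osc_le_div (T : ℝ) {l : ℝ} (hl : l ≠ 0) : ‖osc T l‖ ≤ 2 / |l| := by
  unfold osc
  have hc : (-(I * l) : ℂ) ≠ 0 := by
    simp [hl]
  have h1 : (fun t : ℝ => cexp (-(I * l * t))) = fun t : ℝ => cexp ((-(I * l)) * t) := by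
    funext t
    congr 1
    ring
  rw [h1, integral_exp_mul_complex hc, norm_div]
  have h2 : ‖(-(I * l) : ℂ)‖ = |l| := by
    rw [norm_neg, norm_mul, Complex.norm_I, one_mul, Complex.norm_real, Real.norm_eq_abs]
  rw [h2]
  have hl' : 0 < |l| := abs_pos.2 hl
  refine div_le_div_of_nonneg_right ?_ hl'.le
  refine (norm_sub_le _ _).trans ?_
  have h3 : ∀ t : ℝ, ‖cexp ((-(I * l)) * t)‖ = 1 := by
    intro t
    have := norm_cexp_neg_I l t
    rwa [show -(I * (l : ℂ) * t) = (-(I * l)) * t by ring] at this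
  have h4 := h3 T
  have h5 := h3 (T + 1)
  rw [h4, h5]
  norm_num

/-- mean square of an exponential sum -/
theorem mean_sq_le {X : Type*} (S : Finset X) (a : X → ℂ) (l : X → ℝ) (T : ℝ) :
    ∫ t in T..(T + 1), ‖∑ x ∈ S, a x * cexp (-(I * l x * t))‖ ^ 2 ≤
      ∑ x ∈ S, ∑ y ∈ S, ‖a x‖ * ‖a y‖ * ‖osc T (l x - l y)‖ := by
  have key : ((∫ t in T..(T + 1), ‖∑ x ∈ S, a x * cexp (-(I * l x * t))‖ ^ 2 : ℝ) : ℂ) =
      ∑ x ∈ S, ∑ y ∈ S, a x * conj (a y) * osc T (l x - l y) := by
    rw [← intervalIntegral.integral_ofReal]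
    have h1 : ∀ t : ℝ, ((‖∑ x ∈ S, a x * cexp (-(I * l x * t))‖ ^ 2 : ℝ) : ℂ) =
        ∑ x ∈ S, ∑ y ∈ S, a x * conj (a y) * cexp (-(I * (l x - l y : ℝ) * t)) := by
      intro t
      rw [Complex.ofReal_pow, ← Complex.mul_conj', map_sum, sum_mul_sum]
      refine sum_congr rfl fun x _ => sum_congr rfl fun y _ => ?_
      rw [map_mul, ← Complex.exp_conj]
      have h2 : conj (-(I * l y * t) : ℂ) = I * l y * t := by
        simp
      rw [h2]
      have h3 : cexp (-(I * (l x - l y : ℝ) * t)) = cexp (-(I * l x * t)) * cexp (I * l y * t) := by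
        rw [← Complex.exp_add]
        congr 1
        push_cast
        ring
      rw [h3]
      ring
    simp_rw [h1]
    rw [intervalIntegral.integral_finsetSum]
    · refine sum_congr rfl fun x _ => ?_
      rw [intervalIntegral.integral_finsetSum]
      · refine sum_congr rfl fun y _ => ?_
        rw [intervalIntegral.integral_const_mul]
        rfl
      · intro y _
        exact (Continuous.intervalIntegrable (by fun_prop) _ _)
    · intro x _
      exact (Continuous.intervalIntegrable (by fun_prop) _ _)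
  have h0 : 0 ≤ ∫ t in T..(T + 1), ‖∑ x ∈ S, a x * cexp (-(I * l x * t))‖ ^ 2 :=
    intervalIntegral.integral_nonneg (by linarith) fun t _ => by positivity
  have h1 : ∫ t in T..(T + 1), ‖∑ x ∈ S, a x * cexp (-(I * l x * t))‖ ^ 2 =
      ‖((∫ t in T..(T + 1), ‖∑ x ∈ S, a x * cexp (-(I * l x * t))‖ ^ 2 : ℝ) : ℂ)‖ := by
    rw [Complex.norm_real, Real.norm_of_nonneg h0]
  rw [h1, key]
  refine (norm_sum_le _ _).trans (sum_le_sum fun x _ => ?_)
  refine (norm_sum_le _ _).trans (sum_le_sum fun y _ => ?_)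
  rw [norm_mul, norm_mul, RCLike.norm_conj]

/-- `‖f t‖² ≤ 2 n ∫ ‖f‖² + (2/n) ∫ ‖f'‖²` on an interval of length `1/n` -/
theorem sobolev {f f' : ℝ → ℂ} (hf : ∀ t, HasDerivAt f (f' t) t) (hf' : Continuous f')
    {u n : ℝ} (hn : 0 < n) {t : ℝ} (ht : t ∈ Set.Icc u (u + 1 / n)) :
    ‖f t‖ ^ 2 ≤ 2 * n * (∫ s in u..(u + 1 / n), ‖f s‖ ^ 2) +
      2 / n * ∫ s in u..(u + 1 / n), ‖f' s‖ ^ 2 := by
  have hfc : Continuous f := continuous_iff_continuousAt.2 fun t => (hf t).continuousAt
  have hd : 0 < 1 / n := by positivity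
  set d : ℝ := 1 / n with hdd
  have hle : u ≤ u + d := by linarith
  set A : ℝ := ∫ s in u..(u + d), ‖f' s‖ with hA
  set B : ℝ := ∫ s in u..(u + d), ‖f' s‖ ^ 2 with hB
  have hA0 : 0 ≤ A := intervalIntegral.integral_nonneg hle fun s _ => norm_nonneg _
  -- Cauchy-Schwarz
  have hAB : A ^ 2 ≤ d * B := by
    have h1 : 0 ≤ ∫ s in u..(u + d), (‖f' s‖ - A / d) ^ 2 :=
      intervalIntegral.integral_nonneg hle fun s _ => sq_nonneg _
    have h2 : ∫ s in u..(u + d), (‖f' s‖ - A / d) ^ 2 = B - 2 * (A / d) * A + d * (A / d) ^ 2 := by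
      have h3 : ∀ s, (‖f' s‖ - A / d) ^ 2 = ‖f' s‖ ^ 2 - 2 * (A / d) * ‖f' s‖ + (A / d) ^ 2 := by
        intro s; ring
      simp_rw [h3]
      rw [intervalIntegral.integral_add, intervalIntegral.integral_sub,
        intervalIntegral.integral_const_mul, intervalIntegral.integral_const]
      · simp [hA, hB]
      · exact (Continuous.intervalIntegrable (by fun_prop) _ _)
      · exact (Continuous.intervalIntegrable (by fun_prop) _ _)
      · exact (Continuous.intervalIntegrable (by fun_prop) _ _)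
      · exact (Continuous.intervalIntegrable (by fun_prop) _ _)
    rw [h2] at h1
    have h4 : B - 2 * (A / d) * A + d * (A / d) ^ 2 = B - A ^ 2 / d := by
      field_simp
      ring
    rw [h4] at h1
    have h5 : A ^ 2 / d ≤ B := by linarith
    rw [div_le_iff₀ hd] at h5
    linarith
  have h6 : ∀ s ∈ Set.Icc u (u + d), ‖f t‖ ^ 2 ≤ 2 * ‖f s‖ ^ 2 + 2 * (d * B) := by
    intro s hs
    have h7 : f t - f s = ∫ r in s..t, f' r := by
      rw [intervalIntegral.integral_eq_sub_of_hasDerivAt (fun x _ => hf x)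
        (hf'.intervalIntegrable _ _)]
    have h8 : ‖f t - f s‖ ≤ A := by
      rw [h7]
      refine (intervalIntegral.norm_integral_le_abs_integral_norm).trans ?_
      rcases le_total s t with hst | hst
      · rw [abs_of_nonneg (intervalIntegral.integral_nonneg hst fun r _ => norm_nonneg _)]
        exact intervalIntegral.integral_mono_interval hs.1 hst ht.2
          (Filter.Eventually.of_forall fun r => norm_nonneg _)
          ((hf'.norm).intervalIntegrable _ _)
      · rw [intervalIntegral.integral_symm, abs_neg,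
          abs_of_nonneg (intervalIntegral.integral_nonneg hst fun r _ => norm_nonneg _)]
        exact intervalIntegral.integral_mono_interval ht.1 hst hs.2
          (Filter.Eventually.of_forall fun r => norm_nonneg _)
          ((hf'.norm).intervalIntegrable _ _)
    have h9 : ‖f t‖ ≤ ‖f s‖ + A := by
      calc ‖f t‖ = ‖f s + (f t - f s)‖ := by congr 1; ring
        _ ≤ ‖f s‖ + ‖f t - f s‖ := norm_add_le _ _
        _ ≤ _ := by linarith
    have h10 : ‖f t‖ ^ 2 ≤ (‖f s‖ + A) ^ 2 := by
      exact pow_le_pow_left₀ (norm_nonneg _) h9 2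
    nlinarith [sq_nonneg (‖f s‖ - A)]
  have h11 : ∫ _s in u..(u + d), ‖f t‖ ^ 2 ≤ ∫ s in u..(u + d), (2 * ‖f s‖ ^ 2 + 2 * (d * B)) :=
    intervalIntegral.integral_mono_on hle (Continuous.intervalIntegrable (by fun_prop) _ _)
      (Continuous.intervalIntegrable (by fun_prop) _ _) h6
  rw [intervalIntegral.integral_const, intervalIntegral.integral_add
    (Continuous.intervalIntegrable (by fun_prop) _ _)
      (Continuous.intervalIntegrable (by fun_prop) _ _), intervalIntegral.integral_const_mul,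
      intervalIntegral.integral_const] at h11
  simp only [add_sub_cancel_left, smul_eq_mul] at h11
  have hn' : n = 1 / d := by rw [hdd]; field_simp
  have h12 : ‖f t‖ ^ 2 = n * (d * ‖f t‖ ^ 2) := by
    rw [hn']; field_simp
  rw [h12]
  have h13 := mul_le_mul_of_nonneg_left h11 hn.le
  refine h13.trans (le_of_eq ?_)
  have h14 : 2 / n = 2 * d := by rw [hdd]; field_simp
  have h15 : n * d = 1 := by rw [hdd]; field_simp
  rw [h14]
  linear_combination (2 * d * B) * h15

end Pool.Agent.L5helper14.Edge
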