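import Pool.Agent.L5helper14.Edge.Mean
import Pool.Agent.L5helper14.Edge.Euler

/-! The logarithm of an Euler product on the edge, approximated in the mean over unit intervals. -/

set_option autoImplicit false

namespace Pool.Agent.L5helper14.Edge

open Complex MeasureTheory Finset Filter Topology
open scoped ENNReal NNReal

/-- Fatou's lemma on a unit interval -/
theorem limit_close {f : ℝ → ℂ} {g : ℕ → ℝ → ℂ} (hg : ∀ n, Continuous (g n))
    (hlim : ∀ᵐ t, Tendsto (fun n => g n t) atTop (𝓝 (f t))) {h : ℝ → ℂ} (hh : Continuous h)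
    {ε : ℝ} (hε : 0 ≤ ε) {T : ℝ} (hb : ∀ᶠ n in atTop, ∫ t in T..(T + 1), ‖g n t - h t‖ ≤ ε) :
    IntervalIntegrable (fun t => f t - h t) volume T (T + 1) ∧
      ∫ t in T..(T + 1), ‖f t - h t‖ ≤ ε := by
  have hT : T ≤ T + 1 := by linarith
  have hlim' : ∀ᵐ t ∂(volume.restrict (Set.Ioc T (T + 1))),
      Tendsto (fun n => g n t - h t) atTop (𝓝 (f t - h t)) := by
    refine ae_restrict_of_ae ?_
    filter_upwards [hlim] with t ht
    exact ht.sub_const _
  have hgm : ∀ n, AEStronglyMeasurable (fun t => g n t - h t)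
      (volume.restrict (Set.Ioc T (T + 1))) := fun n =>
    ((hg n).sub hh).aestronglyMeasurable
  have hfm : AEStronglyMeasurable (fun t => f t - h t) (volume.restrict (Set.Ioc T (T + 1))) :=
    aestronglyMeasurable_of_tendsto_ae _ hgm hlim'
  have hlow : ∫⁻ t in Set.Ioc T (T + 1), ‖f t - h t‖ₑ ≤ ENNReal.ofReal ε := by
    have h1 : ∫⁻ t in Set.Ioc T (T + 1), ‖f t - h t‖ₑ ≤
        liminf (fun n => ∫⁻ t in Set.Ioc T (T + 1), ‖g n t - h t‖ₑ) atTop :=
      lintegral_congr_ae (by filter_upwards [hlim'] with x hx using hx.enorm.liminf_eq) ▸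
        (lintegral_liminf_le' fun n => (hgm n).aemeasurable.enorm)
    refine h1.trans ?_
    refine liminf_le_of_le (by isBoundedDefault) fun b hb' => ?_
    obtain ⟨n, hn1, hn2⟩ := (hb'.and hb).exists
    refine hn1.trans ?_
    have hi : Integrable (fun t => g n t - h t) (volume.restrict (Set.Ioc T (T + 1))) :=
      (((hg n).sub hh).intervalIntegrable T (T + 1)).1
    rw [← ofReal_integral_norm_eq_lintegral_enorm hi]
    refine ENNReal.ofReal_le_ofReal ?_
    rwa [intervalIntegral.integral_of_le hT] at hn2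
  have hint : Integrable (fun t => f t - h t) (volume.restrict (Set.Ioc T (T + 1))) :=
    ⟨hfm, lt_of_le_of_lt hlow ENNReal.ofReal_lt_top⟩
  refine ⟨(intervalIntegrable_iff_integrableOn_Ioc_of_le hT).2 hint, ?_⟩
  rw [intervalIntegral.integral_of_le hT]
  have h2 : ENNReal.ofReal (∫ t in Set.Ioc T (T + 1), ‖f t - h t‖) ≤ ENNReal.ofReal ε := by
    rw [ofReal_integral_norm_eq_lintegral_enorm hint]
    exact hlow
  exact (ENNReal.ofReal_le_ofReal_iff hε).1 h2

theorem LI_of_unit {f : ℝ → ℂ} (h : ∀ T, IntervalIntegrable f volume T (T + 1)) : LI f := by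
  have h1 : ∀ (n : ℕ) (a : ℝ), IntervalIntegrable f volume a (a + n) := by
    intro n
    induction n with
    | zero => intro a; simp
    | succ n ih =>
      intro a
      have h2 := (ih a).trans (h (a + n))
      have e : a + (n : ℝ) + 1 = a + ((n + 1 : ℕ) : ℝ) := by push_cast; ring
      rwa [e] at h2
  have h2 : ∀ a b : ℝ, a ≤ b → IntervalIntegrable f volume a b := by
    intro a b hab
    refine (h1 ⌈b - a⌉₊ a).mono_set ?_
    rw [Set.uIcc_of_le hab, Set.uIcc_of_le (by linarith [Nat.cast_nonneg (α := ℝ) ⌈b - a⌉₊])]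
    exact Set.Icc_subset_Icc le_rfl (by linarith [Nat.le_ceil (b - a)])
  intro a b
  rcases le_total a b with hab | hab
  · exact h2 a b hab
  · exact (h2 b a hab).symm

/-- a rapidly converging sequence -/
theorem limit_seq {f : ℝ → ℂ} {g : ℕ → ℝ → ℂ} (hg : ∀ n, Continuous (g n))
    (hlim : ∀ᵐ t, Tendsto (fun n => g n t) atTop (𝓝 (f t))) {d : ℕ → ℝ} (hd : Summable d)
    (hd0 : ∀ n, 0 ≤ d n) (hb : ∀ n T, ∫ t in T..(T + 1), ‖g (n + 1) t - g n t‖ ≤ d n) :
    LI f ∧ ∀ ε : ℝ, 0 < ε → ∃ n, ∀ T, ∫ t in T..(T + 1), ‖f t - g n t‖ ≤ ε := by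
  have h1 : ∀ n k T, ∫ t in T..(T + 1), ‖g (n + k) t - g n t‖ ≤ ∑ i ∈ range k, d (n + i) := by
    intro n k T
    induction k with
    | zero => simp
    | succ k ih =>
      rw [sum_range_succ]
      have i1 : IntervalIntegrable (fun t => ‖g (n + k) t - g n t‖) volume T (T + 1) :=
        ((hg _).sub (hg _)).norm.intervalIntegrable _ _
      have i2 : IntervalIntegrable (fun t => ‖g (n + k + 1) t - g (n + k) t‖) volume T (T + 1) :=
        ((hg _).sub (hg _)).norm.intervalIntegrable _ _
      have h2 : ∫ t in T..(T + 1), ‖g (n + (k + 1)) t - g n t‖ ≤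
          ∫ t in T..(T + 1), (‖g (n + k) t - g n t‖ + ‖g (n + k + 1) t - g (n + k) t‖) := by
        refine intervalIntegral.integral_mono_on (by linarith)
          (((hg _).sub (hg _)).norm.intervalIntegrable _ _) (i1.add i2) fun t _ => ?_
        have h3 : g (n + (k + 1)) t - g n t =
          (g (n + k) t - g n t) + (g (n + k + 1) t - g (n + k) t) := by
          rw [← add_assoc]
          ring
        rw [h3]
        exact norm_add_le _ _
      rw [intervalIntegral.integral_add i1 i2] at h2
      have := hb (n + k) T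
      linarith
  have h2 : ∀ n k T, ∫ t in T..(T + 1), ‖g (n + k) t - g n t‖ ≤ ∑' i, d (n + i) := by
    intro n k T
    refine (h1 n k T).trans ?_
    have hs : Summable fun i => d (n + i) := by
      have := (summable_nat_add_iff n).2 hd
      refine this.congr fun i => by rw [add_comm]
    exact hs.sum_le_tsum _ fun i _ => hd0 _
  have h3 : ∀ n T, IntervalIntegrable (fun t => f t - g n t) volume T (T + 1) ∧
      ∫ t in T..(T + 1), ‖f t - g n t‖ ≤ ∑' i, d (n + i) := by
    intro n T
    refine limit_close hg hlim (hg n) (tsum_nonneg fun i => hd0 _) ?_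
    filter_upwards [eventually_ge_atTop n] with k hk
    have := h2 n (k - n) T
    rwa [Nat.add_sub_cancel' hk] at this
  refine ⟨?_, fun ε hε => ?_⟩
  · refine LI_of_unit fun T => ?_
    have h4 := (h3 0 T).1.add ((hg 0).intervalIntegrable T (T + 1))
    refine h4.congr fun t _ => ?_
    simp
  · have h4 : Tendsto (fun n => ∑' i, d (n + i)) atTop (𝓝 0) := by
      have := tendsto_sum_nat_add d
      refine this.congr fun n => tsum_congr fun i => by rw [add_comm]
    obtain ⟨n, hn⟩ := (h4.eventually (gt_mem_nhds hε)).exists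
    exact ⟨n, fun T => ((h3 n T).2).trans hn.le⟩

end Pool.Agent.L5helper14.Edge
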