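import Pool.Agent.L5helper14.Edge.Osc

/-! Systems of norms with a Chebyshev bound, and exponential sums over blocks of primes. -/

set_option autoImplicit false

namespace Pool.Agent.L5helper14.Edge

open Complex MeasureTheory Finset ComplexConjugate Filter Topology
open scoped Interval

/-- a family of norms with a Chebyshev upper bound -/
structure PSys where
  X : Type
  N : X → ℕ
  two_le : ∀ x, 2 ≤ N x
  fin : ∀ n : ℕ, {x | N x ≤ n}.Finite
  C : ℝ
  C_nonneg : 0 ≤ C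
  blk : ∀ k : ℕ, 1 ≤ k → ∀ S : Finset X, (∀ x ∈ S, ⌊Real.log (N x)⌋₊ = k) →
    ∑ x ∈ S, (1 / N x : ℝ) ≤ C / k

namespace PSys

variable (P : PSys)

/-- the logarithm of the norm -/
noncomputable def lam (x : P.X) : ℝ := Real.log (P.N x)

/-- its integral part -/
noncomputable def fl (x : P.X) : ℕ := ⌊P.lam x⌋₊

theorem N_pos (x : P.X) : (0 : ℝ) < P.N x := by
  have := P.two_le x
  exact_mod_cast (by omega : 0 < P.N x)

theorem lam_nonneg (x : P.X) : 0 ≤ P.lam x :=
  Real.log_nonneg (by have := P.two_le x; exact_mod_cast (by omega : 1 ≤ P.N x))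

theorem fl_le (x : P.X) : (P.fl x : ℝ) ≤ P.lam x := Nat.floor_le (P.lam_nonneg x)

theorem lt_fl (x : P.X) : P.lam x < P.fl x + 1 := Nat.lt_floor_add_one _

theorem finite_fl (a b : ℕ) : {x | a ≤ P.fl x ∧ P.fl x < b}.Finite := by
  refine (P.fin ⌊Real.exp b⌋₊).subset fun x hx => ?_
  have h1 : P.lam x < b := by
    have h2 : ((P.fl x : ℕ) : ℝ) + 1 ≤ b := by exact_mod_cast hx.2
    linarith [P.lt_fl x]
  have h3 : (P.N x : ℝ) ≤ Real.exp b := by
    rw [← Real.log_le_iff_le_exp (P.N_pos x)]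
    exact h1.le
  exact Nat.le_floor h3

/-- the primes with `a ≤ ⌊log N⌋ < b` -/
noncomputable def bl (a b : ℕ) : Finset P.X := (P.finite_fl a b).toFinset

theorem mem_bl {a b : ℕ} {x : P.X} : x ∈ P.bl a b ↔ a ≤ P.fl x ∧ P.fl x < b := by
  simp [bl]

/-- `∑ 1/(m+1)`, `m < n` -/
noncomputable def H (n : ℕ) : ℝ := ∑ m ∈ range n, 1 / ((m : ℝ) + 1)

theorem H_nonneg (n : ℕ) : 0 ≤ H n := sum_nonneg fun m _ => by positivity

theorem H_pow_le (j : ℕ) : H (2 ^ j) ≤ j + 1 := by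
  induction j with
  | zero => simp [H]
  | succ j ih =>
    have h1 : H (2 ^ (j + 1)) = H (2 ^ j) + ∑ m ∈ Ico (2 ^ j : ℕ) (2 ^ (j + 1)), 1 / ((m : ℝ) + 1) := by
      unfold H
      rw [range_eq_Ico, range_eq_Ico, sum_Ico_consecutive _ (Nat.zero_le _)
        (Nat.pow_le_pow_right (by norm_num) (Nat.le_succ j))]
    have h2 : ∑ m ∈ Ico (2 ^ j : ℕ) (2 ^ (j + 1)), 1 / ((m : ℝ) + 1) ≤
        ∑ m ∈ Ico (2 ^ j : ℕ) (2 ^ (j + 1)), (1 / (2 : ℝ) ^ j) := by
      refine sum_le_sum fun m hm => ?_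
      rw [mem_Ico] at hm
      apply one_div_le_one_div_of_le (by positivity)
      have : ((2 ^ j : ℕ) : ℝ) ≤ m := by exact_mod_cast hm.1
      push_cast at this
      linarith
    rw [sum_const, Nat.card_Ico, nsmul_eq_mul] at h2
    have h3 : ((2 ^ (j + 1) - 2 ^ j : ℕ) : ℝ) * (1 / (2 : ℝ) ^ j) = 1 := by
      have : 2 ^ (j + 1) - 2 ^ j = 2 ^ j := by rw [pow_succ]; omega
      rw [this]
      push_cast
      field_simp
    rw [h1]
    push_cast
    linarith

/-- the weight bounding the oscillating integral -/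
noncomputable def wt (k l : ℕ) : ℝ := 4 / (|(k : ℝ) - l| + 1)

theorem wt_nonneg (k l : ℕ) : 0 ≤ wt k l := by unfold wt; positivity

theorem osc_le_wt (T : ℝ) (x y : P.X) :
    ‖osc T (P.lam x - P.lam y)‖ ≤ wt (P.fl x) (P.fl y) := by
  unfold wt
  rcases le_or_gt (|(P.fl x : ℝ) - P.fl y|) 2 with h | h
  · refine (osc_le_one _ _).trans ?_
    rw [le_div_iff₀ (by positivity)]
    linarith
  · have hx := P.fl_le x
    have hx' := P.lt_fl x
    have hy := P.fl_le y
    have hy' := P.lt_fl y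
    have h3 : 3 ≤ |(P.fl x : ℝ) - P.fl y| := by
      have e : |(P.fl x : ℝ) - P.fl y| = ((|(P.fl x : ℤ) - P.fl y| : ℤ) : ℝ) := by push_cast; rfl
      rw [e] at h ⊢
      exact_mod_cast h
    have h1 : |(P.fl x : ℝ) - P.fl y| - 1 ≤ |P.lam x - P.lam y| := by
      have h4 : |(P.fl x : ℝ) - P.fl y| ≤ |P.lam x - P.lam y| + 1 := by
        have h5 : (P.fl x : ℝ) - P.fl y = (P.lam x - P.lam y) +
          ((P.fl x - P.lam x) - (P.fl y - P.lam y)) := by ring
        rw [h5]
        refine (abs_add_le _ _).trans ?_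
        have : |((P.fl x : ℝ) - P.lam x) - (P.fl y - P.lam y)| ≤ 1 := by
          rw [abs_le]; constructor <;> linarith
        linarith
      linarith
    have h6 : 0 < |P.lam x - P.lam y| := by linarith
    refine (osc_le_div T (abs_pos.1 h6)).trans ?_
    rw [div_le_div_iff₀ h6 (by positivity)]
    nlinarith

theorem sum_wt_le {a b k : ℕ} (hk : k ∈ Ico a b) :
    ∑ l ∈ Ico a b, wt k l ≤ 8 * H (b - a) := by
  rw [mem_Ico] at hk
  have h1 : ∑ l ∈ Ico a b, wt k l = ∑ l ∈ Ico a k, wt k l + ∑ l ∈ Ico k b, wt k l :=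
    (sum_Ico_consecutive _ hk.1 hk.2.le).symm
  have h2 : ∑ l ∈ Ico k b, wt k l ≤ 4 * H (b - a) := by
    rw [sum_Ico_eq_sum_range]
    unfold H
    rw [mul_sum]
    have h3 : ∀ i ∈ range (b - k), wt k (k + i) = 4 * (1 / ((i : ℝ) + 1)) := by
      intro i _
      unfold wt
      have : |(k : ℝ) - (k + i : ℕ)| = i := by
        push_cast
        rw [show (k : ℝ) - (k + i) = -i by ring, abs_neg, abs_of_nonneg (Nat.cast_nonneg i)]
      rw [this]
      ring
    rw [sum_congr rfl h3]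
    refine sum_le_sum_of_subset_of_nonneg (range_subset_range.2 (by omega)) fun i _ _ => by
      positivity
  have h4 : ∑ l ∈ Ico a k, wt k l ≤ 4 * H (b - a) := by
    rw [sum_Ico_eq_sum_range, ← sum_range_reflect]
    unfold H
    rw [mul_sum]
    have h3 : ∀ i ∈ range (k - a), wt k (a + (k - a - 1 - i)) ≤ 4 * (1 / ((i : ℝ) + 1)) := by
      intro i hi
      rw [mem_range] at hi
      unfold wt
      have e : |(k : ℝ) - (a + (k - a - 1 - i) : ℕ)| = i + 1 := by
        have e1 : (a + (k - a - 1 - i) : ℕ) + (i + 1) = k := by omega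
        have e2 : (k : ℝ) = ((a + (k - a - 1 - i) : ℕ) : ℝ) + (i + 1) := by exact_mod_cast e1.symm
        rw [show (k : ℝ) - ((a + (k - a - 1 - i) : ℕ) : ℝ) = (i : ℝ) + 1 by rw [e2]; push_cast; ring]
        exact abs_of_nonneg (by positivity)
      rw [e]
      rw [mul_one_div]
      exact div_le_div_of_nonneg_left (by norm_num) (by positivity) (by linarith)
    refine (sum_le_sum h3).trans ?_
    refine sum_le_sum_of_subset_of_nonneg (range_subset_range.2 (by omega)) fun i _ _ => by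
      positivity
  linarith

/-- mean square over a block -/
theorem block_sq {a b : ℕ} (ha : 1 ≤ a) (e : P.X → ℂ) {β : ℝ} (hβ : 0 ≤ β)
    (he : ∀ x ∈ P.bl a b, ‖e x‖ ≤ β * (1 / P.N x)) (T : ℝ) :
    ∑ x ∈ P.bl a b, ∑ y ∈ P.bl a b, ‖e x‖ * ‖e y‖ * ‖osc T (P.lam x - P.lam y)‖ ≤
      8 * β ^ 2 * P.C ^ 2 * (b - a : ℕ) * H (b - a) / a ^ 2 := by
  classical
  have ha' : (0 : ℝ) < a := by exact_mod_cast ha
  have h1 : ∑ x ∈ P.bl a b, ∑ y ∈ P.bl a b, ‖e x‖ * ‖e y‖ * ‖osc T (P.lam x - P.lam y)‖ ≤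
      β ^ 2 * ∑ x ∈ P.bl a b, ∑ y ∈ P.bl a b, (1 / P.N x : ℝ) * (1 / P.N y) *
        wt (P.fl x) (P.fl y) := by
    rw [mul_sum]
    refine sum_le_sum fun x hx => ?_
    rw [mul_sum]
    refine sum_le_sum fun y hy => ?_
    have hx' := he x hx
    have hy' := he y hy
    have hNx := P.N_pos x
    have hNy := P.N_pos y
    calc ‖e x‖ * ‖e y‖ * ‖osc T (P.lam x - P.lam y)‖
        ≤ (β * (1 / P.N x)) * (β * (1 / P.N y)) * wt (P.fl x) (P.fl y) := by
          refine mul_le_mul (mul_le_mul hx' hy' (norm_nonneg _) (by positivity))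
            (P.osc_le_wt T x y) (norm_nonneg _) (by positivity)
      _ = _ := by ring
  refine h1.trans ?_
  have hmaps : ∀ x ∈ P.bl a b, P.fl x ∈ Ico a b := by
    intro x hx
    rw [mem_bl] at hx
    rwa [mem_Ico]
  have hblk : ∀ k ∈ Ico a b, ∑ x ∈ (P.bl a b).filter (fun x => P.fl x = k), (1 / P.N x : ℝ) ≤
      P.C / a := by
    intro k hk
    rw [mem_Ico] at hk
    refine (P.blk k (by omega) _ ?_).trans ?_
    · intro x hx
      exact (mem_filter.1 hx).2
    · exact div_le_div_of_nonneg_left P.C_nonneg ha' (by exact_mod_cast hk.1)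
  have h2 : ∑ x ∈ P.bl a b, ∑ y ∈ P.bl a b, (1 / P.N x : ℝ) * (1 / P.N y) *
        wt (P.fl x) (P.fl y) =
      ∑ k ∈ Ico a b, ∑ l ∈ Ico a b, wt k l *
        (∑ x ∈ (P.bl a b).filter (fun x => P.fl x = k), (1 / P.N x : ℝ)) *
        (∑ y ∈ (P.bl a b).filter (fun x => P.fl x = l), (1 / P.N y : ℝ)) := by
    rw [← sum_fiberwise_of_maps_to hmaps]
    refine sum_congr rfl fun k hk => ?_
    have h3 : ∀ x ∈ (P.bl a b).filter (fun x => P.fl x = k),
        ∑ y ∈ P.bl a b, (1 / P.N x : ℝ) * (1 / P.N y) * wt (P.fl x) (P.fl y) =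
        ∑ l ∈ Ico a b, wt k l * (1 / P.N x : ℝ) *
          (∑ y ∈ (P.bl a b).filter (fun x => P.fl x = l), (1 / P.N y : ℝ)) := by
      intro x hx
      rw [← sum_fiberwise_of_maps_to hmaps]
      refine sum_congr rfl fun l hl => ?_
      rw [mul_sum]
      refine sum_congr rfl fun y hy => ?_
      rw [(mem_filter.1 hx).2, (mem_filter.1 hy).2]
      ring
    rw [sum_congr rfl h3, sum_comm]
    refine sum_congr rfl fun l hl => ?_
    rw [← sum_mul, ← mul_sum]
  rw [h2]
  have h4 : ∀ k ∈ Ico a b, ∑ l ∈ Ico a b, wt k l *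
        (∑ x ∈ (P.bl a b).filter (fun x => P.fl x = k), (1 / P.N x : ℝ)) *
        (∑ y ∈ (P.bl a b).filter (fun x => P.fl x = l), (1 / P.N y : ℝ)) ≤
      8 * H (b - a) * (P.C / a) ^ 2 := by
    intro k hk
    have h5 : ∀ l ∈ Ico a b, wt k l *
        (∑ x ∈ (P.bl a b).filter (fun x => P.fl x = k), (1 / P.N x : ℝ)) *
        (∑ y ∈ (P.bl a b).filter (fun x => P.fl x = l), (1 / P.N y : ℝ)) ≤
        wt k l * (P.C / a) ^ 2 := by
      intro l hl
      have hw := wt_nonneg k l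
      have hC := P.C_nonneg
      have e1 := hblk k hk
      have e2 := hblk l hl
      have e3 : 0 ≤ ∑ y ∈ (P.bl a b).filter (fun x => P.fl x = l), (1 / P.N y : ℝ) :=
        sum_nonneg fun y _ => by positivity
      calc wt k l * (∑ x ∈ (P.bl a b).filter (fun x => P.fl x = k), (1 / P.N x : ℝ)) *
            (∑ y ∈ (P.bl a b).filter (fun x => P.fl x = l), (1 / P.N y : ℝ))
          ≤ wt k l * (P.C / a) * (P.C / a) :=
            mul_le_mul (mul_le_mul_of_nonneg_left e1 hw) e2 e3 (by positivity)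
        _ = _ := by ring
    refine (sum_le_sum h5).trans ?_
    rw [← sum_mul]
    exact mul_le_mul_of_nonneg_right (sum_wt_le hk) (by positivity)
  have h6 := sum_le_sum h4
  rw [sum_const, Nat.card_Ico, nsmul_eq_mul] at h6
  refine (mul_le_mul_of_nonneg_left h6 (sq_nonneg β)).trans (le_of_eq ?_)
  field_simp

end PSys

end Pool.Agent.L5helper14.Edge
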