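import Pool.Agent.Y757.LS.Strip

/-! A uniqueness theorem for analytic functions in a half-plane with boundary value zero on a set of
positive measure. -/

set_option autoImplicit false

namespace Pool.Agent.L5helper14.Edge

open Complex MeasureTheory Filter Topology Set
open scoped ENNReal Real

/-- windows of length one against a rapidly decreasing kernel -/
theorem window_kernel {a : ℝ} (ha : 0 < a) {g : ℝ → ℝ} {C : ℝ} (hg : Continuous g) (h0 : ∀ t, 0 ≤ g t)
    (hC : ∀ T : ℝ, ∫ t in T..(T + 1), g t ≤ C) :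
    ∫⁻ y : ℝ, ENNReal.ofReal (g y * Real.exp (-a * |y|)) ≤
      ENNReal.ofReal C * (ENNReal.ofReal (Real.exp a) * ∫⁻ T : ℝ, ENNReal.ofReal (Real.exp (-a * |T|))) := by
  classical
  -- the kernel of two variables
  set k : ℝ → ℝ → ℝ≥0∞ := fun y T => (Icc (y - 1) y).indicator
    (fun T => ENNReal.ofReal (g y) * ENNReal.ofReal (Real.exp a * Real.exp (-a * |T|))) T with hk
  have h1 : ∀ y : ℝ, ENNReal.ofReal (g y * Real.exp (-a * |y|)) ≤ ∫⁻ T : ℝ, k y T := by
    intro y
    have h2 : ∫⁻ T in Icc (y - 1) y, ENNReal.ofReal (g y * Real.exp (-a * |y|)) ≤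
        ∫⁻ T in Icc (y - 1) y, ENNReal.ofReal (g y) *
          ENNReal.ofReal (Real.exp a * Real.exp (-a * |T|)) := by
      refine setLIntegral_mono' measurableSet_Icc fun T hT => ?_
      rw [← ENNReal.ofReal_mul (h0 y)]
      apply ENNReal.ofReal_le_ofReal
      apply mul_le_mul_of_nonneg_left _ (h0 y)
      rw [← Real.exp_add]
      apply Real.exp_le_exp.2
      have h3 : |T| ≤ |y| + 1 := by
        have h4 : |T| ≤ |y| + |T - y| := by
          have := abs_add_le y (T - y)
          simpa using this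
        have h5 : |T - y| ≤ 1 := by
          rw [abs_le]
          constructor
          · linarith [hT.1]
          · linarith [hT.2]
        linarith
      nlinarith
    rw [setLIntegral_const, Real.volume_Icc] at h2
    have e : ENNReal.ofReal (y - (y - 1)) = 1 := by
      rw [sub_sub_cancel]
      exact ENNReal.ofReal_one
    rw [e, mul_one] at h2
    refine h2.trans (le_of_eq ?_)
    rw [hk]
    rw [lintegral_indicator measurableSet_Icc]
  have hmeas : AEMeasurable (Function.uncurry k) ((volume : Measure ℝ).prod (volume : Measure ℝ)) := by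
    have e : Function.uncurry k = {p : ℝ × ℝ | p.1 - 1 ≤ p.2 ∧ p.2 ≤ p.1}.indicator
        (fun p => ENNReal.ofReal (g p.1) * ENNReal.ofReal (Real.exp a * Real.exp (-a * |p.2|))) := by
      funext p
      obtain ⟨y, T⟩ := p
      simp only [Function.uncurry, hk]
      by_cases h : T ∈ Icc (y - 1) y
      · rw [indicator_of_mem h, indicator_of_mem (show (y, T) ∈ {p : ℝ × ℝ | p.1 - 1 ≤ p.2 ∧ p.2 ≤ p.1} from h)]
      · rw [indicator_of_notMem h, indicator_of_notMem (show (y, T) ∉ {p : ℝ × ℝ | p.1 - 1 ≤ p.2 ∧ p.2 ≤ p.1} from h)]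
    rw [e]
    refine (Measurable.indicator ?_ ?_).aemeasurable
    · have := hg.measurable
      fun_prop
    · exact (measurableSet_le (measurable_fst.sub_const 1) measurable_snd).inter
        (measurableSet_le measurable_snd measurable_fst)
  calc ∫⁻ y : ℝ, ENNReal.ofReal (g y * Real.exp (-a * |y|)) ≤ ∫⁻ y : ℝ, ∫⁻ T : ℝ, k y T := lintegral_mono h1
    _ = ∫⁻ T : ℝ, ∫⁻ y : ℝ, k y T := lintegral_lintegral_swap hmeas
    _ ≤ ∫⁻ T : ℝ, ENNReal.ofReal C * (ENNReal.ofReal (Real.exp a) * ENNReal.ofReal (Real.exp (-a * |T|))) := by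
        refine lintegral_mono fun T => ?_
        have e1 : ∀ y : ℝ, k y T = (Icc T (T + 1)).indicator
            (fun y => ENNReal.ofReal (g y) * ENNReal.ofReal (Real.exp a * Real.exp (-a * |T|))) y := by
          intro y
          simp only [hk]
          by_cases h : T ∈ Icc (y - 1) y
          · rw [indicator_of_mem h, indicator_of_mem (show y ∈ Icc T (T + 1) from ⟨h.2, by linarith [h.1]⟩)]
          · rw [indicator_of_notMem h, indicator_of_notMem]
            rintro ⟨h5, h6⟩
            exact h ⟨by linarith, h5⟩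
        simp_rw [e1]
        rw [lintegral_indicator measurableSet_Icc, lintegral_mul_const _ (by have := hg.measurable; fun_prop),
          ← ofReal_integral_eq_lintegral_ofReal (hg.integrableOn_Icc) (Eventually.of_forall h0),
          ENNReal.ofReal_mul (Real.exp_pos a).le]
        have h7 := hC T
        rw [intervalIntegral.integral_of_le (by linarith), ← integral_Icc_eq_integral_Ioc] at h7
        exact mul_le_mul' (ENNReal.ofReal_le_ofReal h7) le_rfl
    _ = _ := by
        rw [lintegral_const_mul' _ _ ENNReal.ofReal_ne_top, lintegral_const_mul' _ _ ENNReal.ofReal_ne_top]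

theorem integrable_exp_abs {a : ℝ} (ha : 0 < a) : Integrable (fun y : ℝ => Real.exp (-a * |y|)) := by
  refine (Pool.Agent.Y757.LS.integrable_sq_exp ha).mono' (by fun_prop)
    (Eventually.of_forall fun y => ?_)
  rw [Real.norm_of_nonneg (Real.exp_pos _).le]
  have := Real.exp_pos (-a * |y|)
  nlinarith [sq_nonneg y]

theorem window_kernel' {a : ℝ} (ha : 0 < a) {g : ℝ → ℝ} {C : ℝ} (hg : Continuous g) (h0 : ∀ t, 0 ≤ g t)
    (hC : ∀ T : ℝ, ∫ t in T..(T + 1), g t ≤ C) :
    Integrable (fun y => g y * Real.exp (-a * |y|)) ∧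
      ∫ y : ℝ, g y * Real.exp (-a * |y|) ≤ C * (Real.exp a * ∫ T : ℝ, Real.exp (-a * |T|)) := by
  have hC0 : 0 ≤ C := le_trans (intervalIntegral.integral_nonneg (by norm_num) fun t _ => h0 t) (hC 0)
  have h1 := window_kernel ha hg h0 hC
  have hnn : ∀ y, 0 ≤ g y * Real.exp (-a * |y|) := fun y => mul_nonneg (h0 y) (Real.exp_pos _).le
  have h2 : ∫⁻ T : ℝ, ENNReal.ofReal (Real.exp (-a * |T|)) = ENNReal.ofReal (∫ T : ℝ, Real.exp (-a * |T|)) :=
    (ofReal_integral_eq_lintegral_ofReal (integrable_exp_abs ha)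
      (Eventually.of_forall fun y => (Real.exp_pos _).le)).symm
  rw [h2, ← ENNReal.ofReal_mul (Real.exp_pos a).le, ← ENNReal.ofReal_mul hC0] at h1
  have hi : Integrable (fun y => g y * Real.exp (-a * |y|)) := by
    refine ⟨by fun_prop, ?_⟩
    rw [hasFiniteIntegral_iff_ofReal (Eventually.of_forall hnn)]
    exact lt_of_le_of_lt h1 ENNReal.ofReal_lt_top
  refine ⟨hi, ?_⟩
  rw [← ofReal_integral_eq_lintegral_ofReal hi (Eventually.of_forall hnn)] at h1
  exact (ENNReal.ofReal_le_ofReal_iff (mul_nonneg hC0 (mul_nonneg (Real.exp_pos a).le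
    (integral_nonneg fun y => (Real.exp_pos _).le)))).1 h1

/-- the constant of `window_ker` -/
noncomputable def kc (h : ℝ) : ℝ :=
  1 / h * (Real.exp (π / (2 * h)) * ∫ T : ℝ, Real.exp (-(π / (2 * h)) * |T|))

theorem window_ker {h : ℝ} (hh : 0 < h) {g : ℝ → ℝ} {C : ℝ} (hg : Continuous g) (h0 : ∀ t, 0 ≤ g t)
    (hC : ∀ T : ℝ, ∫ t in T..(T + 1), g t ≤ C) :
    Integrable (fun y => g y * Pool.Agent.Y757.LS.ker h y) ∧
      ∫ y : ℝ, g y * Pool.Agent.Y757.LS.ker h y ≤ C * kc h := by
  have hpi := Real.pi_pos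
  obtain ⟨h1, h2⟩ := window_kernel' (a := π / (2 * h)) (by positivity) hg h0 hC
  have h3 : ∀ y, g y * Pool.Agent.Y757.LS.ker h y ≤ 1 / h * (g y * Real.exp (-(π / (2 * h)) * |y|)) := by
    intro y
    have h4 := Pool.Agent.Y757.LS.ker_le_exp hh y
    calc g y * Pool.Agent.Y757.LS.ker h y ≤ g y * (1 / h * Real.exp (-(π / (2 * h)) * |y|)) :=
          mul_le_mul_of_nonneg_left h4 (h0 y)
      _ = _ := by ring
  have h4 : Integrable (fun y => g y * Pool.Agent.Y757.LS.ker h y) := by
    refine (h1.const_mul (1 / h)).mono' ?_ (Eventually.of_forall fun y => ?_)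
    · have := Pool.Agent.Y757.LS.ker_continuous hh
      fun_prop
    · rw [Real.norm_of_nonneg (mul_nonneg (h0 y) (Pool.Agent.Y757.LS.ker_pos hh y).le)]
      exact h3 y
  refine ⟨h4, ?_⟩
  calc ∫ y : ℝ, g y * Pool.Agent.Y757.LS.ker h y ≤ ∫ y : ℝ, 1 / h * (g y * Real.exp (-(π / (2 * h)) * |y|)) :=
        integral_mono h4 (h1.const_mul _) h3
    _ = 1 / h * ∫ y : ℝ, g y * Real.exp (-(π / (2 * h)) * |y|) := integral_const_mul _ _
    _ ≤ 1 / h * (C * (Real.exp (π / (2 * h)) * ∫ T : ℝ, Real.exp (-(π / (2 * h)) * |T|))) := by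
        gcongr
    _ = _ := by unfold kc; ring

end Pool.Agent.L5helper14.Edge
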